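import Mathlib

/-!
# Mixed Besov classes on the torus and linear sampling numbers

Definitions follow the problem file of `MP_919f0c_an` literally.
-/

open MeasureTheory Set
open scoped ENNReal Real

namespace Pool.Agent.MixedBesov

instance twoPiPos : Fact (0 < 2 * π) := ⟨Real.two_pi_pos⟩

/-- The torus `T^d = (ℝ / 2πℤ)^d`, with Lebesgue (Haar) measure `volume` of total mass `(2π)^d`. -/
abbrev Torus (d : ℕ) : Type := Fin d → AddCircle (2 * π)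

/-- The mixed difference `Δ_h^{k,e} f = (∏_{i ∈ e} Δ^k_{h_i,i}) f`, written out:
the sum runs over `j` with `0 ≤ j_i ≤ k` for `i ∈ e` and `j_i = 0` for `i ∉ e`. -/
noncomputable def mixedDiff {d : ℕ} {E : Type*} [AddCommGroup E] [Module ℝ E]
    (k : ℕ) (e : Finset (Fin d)) (h : Fin d → ℝ) (f : Torus d → E) (x : Torus d) : E :=
  ∑ j ∈ Fintype.piFinset (fun i => if i ∈ e then Finset.range (k + 1) else {0}),
    (∏ i ∈ e, ((-1 : ℝ) ^ (k - j i) * (k.choose (j i) : ℝ))) •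
      f (x + fun i => (((j i : ℝ) * h i : ℝ) : AddCircle (2 * π)))

/-- The mixed modulus of smoothness
`ω_k^e(f,t)_p = sup_{|h_i| < t_i, i ∈ e} ‖Δ_h^{k,e} f‖_p`. -/
noncomputable def modulus {d : ℕ} {𝕜 : Type*} [RCLike 𝕜]
    (k : ℕ) (e : Finset (Fin d)) (p : ℝ≥0∞) (f : Torus d → 𝕜) (t : Fin d → ℝ) : ℝ≥0∞ :=
  ⨆ (h : Fin d → ℝ) (_ : ∀ i ∈ e, |h i| < t i), eLpNorm (mixedDiff k e h f) p volume

/-- The seminorm `|f|_{B^r_{p,θ}(e)}`. -/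
noncomputable def besovSemi {d : ℕ} {𝕜 : Type*} [RCLike 𝕜]
    (k : ℕ) (r : ℝ) (p θ : ℝ≥0∞) (e : Finset (Fin d)) (f : Torus d → 𝕜) : ℝ≥0∞ :=
  if θ = ∞ then
    ⨆ (t : Fin d → ℝ) (_ : ∀ i, t i ∈ Ioo 0 (2 * π)),
      (∏ i ∈ e, ENNReal.ofReal (t i ^ (-r))) * modulus k e p f t
  else
    (∫⁻ t in Set.pi Set.univ (fun _ : Fin d => Ioo 0 (2 * π)),
      modulus k e p f t ^ θ.toReal * ∏ i ∈ e, ENNReal.ofReal (t i ^ (-θ.toReal * r - 1)))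
        ^ (1 / θ.toReal)

/-- The mixed Besov norm `‖f‖_{B^r_{p,θ}} = ∑_{e ⊆ {1,…,d}} |f|_{B^r_{p,θ}(e)}`. -/
noncomputable def besovNorm {d : ℕ} {𝕜 : Type*} [RCLike 𝕜]
    (k : ℕ) (r : ℝ) (p θ : ℝ≥0∞) (f : Torus d → 𝕜) : ℝ≥0∞ :=
  ∑ e : Finset (Fin d), besovSemi k r p θ e f

/-- The unit ball of `B^r_{p,θ}`, as a class of continuous functions on the torus. -/
def besovBall (𝕜 : Type*) [RCLike 𝕜] (d k : ℕ) (r : ℝ) (p θ : ℝ≥0∞) : Set C(Torus d, 𝕜) :=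
  {f | besovNorm k r p θ (⇑f) ≤ 1}

/-- The linear optimal sampling recovery number `ϱ_m(F, L_p)`. -/
noncomputable def samplingNumber {d : ℕ} {𝕜 : Type*} [RCLike 𝕜]
    (F : Set C(Torus d, 𝕜)) (p : ℝ≥0∞) (m : ℕ) : ℝ≥0∞ :=
  ⨅ (x : Fin m → Torus d) (ψ : Fin m → Torus d → 𝕜) (_ : ∀ j, MemLp (ψ j) p volume),
    ⨆ f ∈ F, eLpNorm (fun y => f y - ∑ j, f (x j) * ψ j y) p volume

end Pool.Agent.MixedBesov
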