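import Mathlib

-- part Pool.Agent.Lib.MP_919f0c_an.Core
section

/-!
# The conflict dropping certificate (finite dimensional part)
-/

open Finset MeasureTheory

set_option linter.unusedSectionVars false

namespace Pool.Agent.MixedBesov

/-- symmetric idempotent matrix -/
structure IsProj {I : Type*} [Fintype I] (P : I → I → ℝ) : Prop where
  symm : ∀ a b, P a b = P b a
  idem : ∀ a b, ∑ c, P a c * P c b = P a b

theorem exists_proj {I : Type*} [Fintype I] [DecidableEq I] {m : ℕ} (A : Fin m → I → ℝ) :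
    ∃ P : I → I → ℝ, IsProj P ∧ ∑ β, P β β ≤ m ∧ ∀ j β, ∑ α, P β α * A j α = A j β := by
  let w : Fin m → EuclideanSpace ℝ I := fun j => WithLp.toLp 2 (A j)
  let W : Submodule ℝ (EuclideanSpace ℝ I) := Submodule.span ℝ (Set.range w)
  have hW : Module.finrank ℝ W ≤ m := by
    have := finrank_range_le_card (R := ℝ) w
    simpa [Set.finrank] using this
  let b := stdOrthonormalBasis ℝ W
  let u : Fin (Module.finrank ℝ W) → I → ℝ := fun j a => (b j : EuclideanSpace ℝ I) a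
  have hu : ∀ j j', ∑ a, u j a * u j' a = if j = j' then 1 else 0 := by
    intro j j'
    have h := (orthonormal_iff_ite.1 b.orthonormal) j j'
    rw [Submodule.coe_inner, PiLp.inner_apply] at h
    rw [← h]
    refine Finset.sum_congr rfl fun a _ => ?_
    simp [u, mul_comm]
  refine ⟨fun β α => ∑ j, u j β * u j α, ⟨?_, ?_⟩, ?_, ?_⟩
  · intro a c
    exact Finset.sum_congr rfl fun j _ => mul_comm _ _
  · intro a c
    calc ∑ e, (∑ j, u j a * u j e) * (∑ j', u j' e * u j' c)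
        = ∑ e, ∑ j, ∑ j', (u j a * u j' c) * (u j e * u j' e) := by
          refine Finset.sum_congr rfl fun e _ => ?_
          rw [Finset.sum_mul_sum]
          refine Finset.sum_congr rfl fun j _ => Finset.sum_congr rfl fun j' _ => by ring
      _ = ∑ j, ∑ j', (u j a * u j' c) * ∑ e, (u j e * u j' e) := by
          rw [Finset.sum_comm]
          refine Finset.sum_congr rfl fun j _ => ?_
          rw [Finset.sum_comm]
          refine Finset.sum_congr rfl fun j' _ => ?_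
          rw [Finset.mul_sum]
      _ = ∑ j, u j a * u j c := by
          refine Finset.sum_congr rfl fun j _ => ?_
          simp [hu]
  · calc ∑ β, ∑ j, u j β * u j β = ∑ j, ∑ β, u j β * u j β := Finset.sum_comm
      _ = (Module.finrank ℝ W : ℝ) := by simp [hu]
      _ ≤ m := by exact_mod_cast hW
  · intro j β
    have hw : w j ∈ W := Submodule.subset_span ⟨j, rfl⟩
    have h := b.sum_repr' ⟨w j, hw⟩
    have h2 := congrArg (fun z : W => (z : EuclideanSpace ℝ I) β) h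
    simp only [AddSubmonoidClass.coe_finsetSum, SetLike.val_smul, WithLp.ofLp_sum,
      WithLp.ofLp_smul, Finset.sum_apply, Pi.smul_apply, smul_eq_mul] at h2
    have h3 : ((w j : EuclideanSpace ℝ I)) β = A j β := rfl
    rw [h3] at h2
    rw [← h2]
    simp_rw [Finset.sum_mul]
    rw [Finset.sum_comm]
    refine Finset.sum_congr rfl fun i _ => ?_
    rw [Submodule.coe_inner, PiLp.inner_apply, Finset.sum_mul]
    refine Finset.sum_congr rfl fun a _ => ?_
    simp [u, w]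
    ring

namespace IsProj
variable {I : Type*} [Fintype I] {P : I → I → ℝ}

theorem diag_eq (h : IsProj P) (β : I) : ∑ α, P β α ^ 2 = P β β := by
  rw [← h.idem β β]
  refine Finset.sum_congr rfl fun α _ => ?_
  rw [h.symm α β]; ring

theorem diag_nonneg (h : IsProj P) (β : I) : 0 ≤ P β β := by
  rw [← h.diag_eq]; exact Finset.sum_nonneg fun _ _ => sq_nonneg _

theorem diag_le_one (h : IsProj P) (β : I) : P β β ≤ 1 := by
  have h1 : P β β ^ 2 ≤ ∑ α, P β α ^ 2 :=
    Finset.single_le_sum (f := fun α => P β α ^ 2) (fun _ _ => sq_nonneg _) (Finset.mem_univ β)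
  rw [h.diag_eq] at h1
  have := h.diag_nonneg β
  nlinarith

theorem sum_sq_sub_le (h : IsProj P) (x : I → ℝ) :
    ∑ β, (x β - ∑ α, P β α * x α) ^ 2 ≤ ∑ β, x β ^ 2 := by
  have h1 : ∑ β, (∑ α, P β α * x α) ^ 2 = ∑ β, x β * ∑ α, P β α * x α := by
    calc ∑ β, (∑ α, P β α * x α) ^ 2
        = ∑ β, ∑ α, ∑ α', (x α * x α') * (P α β * P β α') := by
          refine Finset.sum_congr rfl fun β _ => ?_
          rw [sq, Finset.sum_mul_sum]
          refine Finset.sum_congr rfl fun α _ => Finset.sum_congr rfl fun α' _ => ?_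
          rw [h.symm α β]; ring
      _ = ∑ α, ∑ α', (x α * x α') * ∑ β, (P α β * P β α') := by
          rw [Finset.sum_comm]
          refine Finset.sum_congr rfl fun α _ => ?_
          rw [Finset.sum_comm]
          refine Finset.sum_congr rfl fun α' _ => ?_
          rw [Finset.mul_sum]
      _ = ∑ β, x β * ∑ α, P β α * x α := by
          refine Finset.sum_congr rfl fun α _ => ?_
          rw [Finset.mul_sum]
          refine Finset.sum_congr rfl fun α' _ => ?_
          rw [h.idem]; ring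
  have h2 : ∑ β, (x β - ∑ α, P β α * x α) ^ 2
      = ∑ β, x β ^ 2 - 2 * ∑ β, x β * ∑ α, P β α * x α + ∑ β, (∑ α, P β α * x α) ^ 2 := by
    rw [Finset.mul_sum, ← Finset.sum_sub_distrib, ← Finset.sum_add_distrib]
    exact Finset.sum_congr rfl fun β _ => by ring
  have h3 : 0 ≤ ∑ β, (∑ α, P β α * x α) ^ 2 := Finset.sum_nonneg fun _ _ => sq_nonneg _
  rw [h2]; linarith

theorem orth (h : IsProj P) (x w : I → ℝ) (hw : ∀ β, ∑ α, P β α * w α = w β) :
    ∑ β, (x β - ∑ α, P β α * x α) * w β = 0 := by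
  have : ∑ β, (∑ α, P β α * x α) * w β = ∑ α, x α * w α := by
    simp_rw [Finset.sum_mul]
    rw [Finset.sum_comm]
    refine Finset.sum_congr rfl fun α _ => ?_
    rw [← hw α, Finset.mul_sum]
    refine Finset.sum_congr rfl fun β _ => ?_
    rw [h.symm α β]; ring
  simp_rw [sub_mul]
  rw [Finset.sum_sub_distrib, this, sub_self]

end IsProj

theorem mul_le_avg {a b ρ : ℝ} (ha : 0 ≤ a) (hb : 0 ≤ b) (hρ : 0 ≤ ρ) (h : a * b ≤ ρ ^ 2) :
    a * b ≤ ρ * ((a + b) / 2) := by
  have h1 : (a * b) ^ 2 ≤ (ρ * ((a + b) / 2)) ^ 2 := by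
    have h2 : a * b ≤ ((a + b) / 2) ^ 2 := by nlinarith [sq_nonneg (a - b)]
    have h3 : 0 ≤ a * b := mul_nonneg ha hb
    calc (a * b) ^ 2 = (a * b) * (a * b) := by ring
      _ ≤ ρ ^ 2 * ((a + b) / 2) ^ 2 := mul_le_mul h h2 h3 (sq_nonneg _)
      _ = _ := by ring
  exact (pow_le_pow_iff_left₀ (mul_nonneg ha hb) (by positivity) two_ne_zero).1 h1

section Comb
variable {S : Type*} [Fintype S] [DecidableEq S] {K : S → Type*} [∀ s, Fintype (K s)]
  [∀ s, DecidableEq (K s)]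

/-- the cell of shape `s` in the pattern `b` has a conflicting partner -/
def Conf (P : (Σ s, K s) → (Σ s, K s) → ℝ) (ε : ℝ) (q : S → S → ℝ) (b : ∀ s, K s) (s : S) :
    Prop :=
  ∃ β, ∃ s', s' ≠ s ∧ (ε * q s s') ^ 2 ≤ |P β ⟨s, b s⟩| * |P β ⟨s', b s'⟩|

open Classical in
/-- indicator vector of kept cells -/
noncomputable def keptVec (P : (Σ s, K s) → (Σ s, K s) → ℝ) (ε : ℝ) (q : S → S → ℝ)
    (b : ∀ s, K s) (β : Σ s, K s) : ℝ :=
  if b β.1 = β.2 ∧ ¬ Conf P ε q b β.1 then 1 else 0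

open Classical in
theorem sum_keptVec (P : (Σ s, K s) → (Σ s, K s) → ℝ) (ε : ℝ) (q : S → S → ℝ)
    (b : ∀ s, K s) (F : (Σ s, K s) → ℝ) :
    ∑ α, F α * keptVec P ε q b α = ∑ s with ¬ Conf P ε q b s, F ⟨s, b s⟩ := by
  rw [Fintype.sum_sigma, Finset.sum_filter]
  refine Finset.sum_congr rfl fun s _ => ?_
  by_cases h : Conf P ε q b s
  · simp [keptVec, h]
  · simp [keptVec, h]

theorem sum_pattern_le (b : ∀ s, K s) (F : (Σ s, K s) → ℝ) (hF : ∀ α, 0 ≤ F α) :
    ∑ s, F ⟨s, b s⟩ ≤ ∑ α, F α := by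
  rw [Fintype.sum_sigma]
  exact Finset.sum_le_sum fun s _ =>
    Finset.single_le_sum (f := fun κ => F ⟨s, κ⟩) (fun _ _ => hF _) (Finset.mem_univ (b s))

theorem abs_proj_kept_le {P : (Σ s, K s) → (Σ s, K s) → ℝ} (hP : IsProj P) {ε C : ℝ}
    (hε : 0 ≤ ε) (hC0 : 0 ≤ C) {q : S → S → ℝ} (hq : ∀ s s', 0 ≤ q s s')
    (hqs : ∀ s s', q s s' = q s' s) (hC : ∀ s, ∑ s', q s s' ≤ C) (b : ∀ s, K s) (β : Σ s, K s) :
    |∑ α, P β α * keptVec P ε q b α| ≤ √(P β β) + ε * C := by
  classical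
  rw [sum_keptVec]
  set A : Finset S := Finset.univ.filter fun s => ¬ Conf P ε q b s with hA
  set c : S → ℝ := fun s => |P β ⟨s, b s⟩| with hc
  have hc0 : ∀ s, 0 ≤ c s := fun s => abs_nonneg _
  have h1 : |∑ s ∈ A, P β ⟨s, b s⟩| ≤ ∑ s ∈ A, c s := Finset.abs_sum_le_sum_abs _ _
  set U := ∑ s ∈ A, c s with hU
  have hU0 : 0 ≤ U := Finset.sum_nonneg fun s _ => hc0 s
  have hpair : ∀ s ∈ A, ∀ s' ∈ A, c s * c s' ≤
      (if s' = s then c s ^ 2 else 0) + (ε / 2 * (q s s' * c s) + ε / 2 * (q s' s * c s')) := by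
    intro s hs s' _
    have hn1 : 0 ≤ ε / 2 * (q s s' * c s) := by have := hq s s'; have := hc0 s; positivity
    have hn2 : 0 ≤ ε / 2 * (q s' s * c s') := by have := hq s' s; have := hc0 s'; positivity
    by_cases hss : s' = s
    · subst hss; simp only [if_true]; nlinarith
    · simp only [hss, if_false]
      have hnc : ¬ Conf P ε q b s := (Finset.mem_filter.1 hs).2
      have hlt : c s * c s' ≤ (ε * q s s') ^ 2 := by
        by_contra hcon
        exact hnc ⟨β, s', hss, (not_le.1 hcon).le⟩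
      have := mul_le_avg (hc0 s) (hc0 s') (mul_nonneg hε (hq s s')) hlt
      rw [hqs s' s]; linarith
  have hsumq : ∀ s, ∑ s' ∈ A, q s s' ≤ C := fun s =>
    (Finset.sum_le_sum_of_subset_of_nonneg (Finset.subset_univ A) fun s' _ _ => hq s s').trans
      (hC s)
  have hS1 : ∑ s ∈ A, ∑ s' ∈ A, ε / 2 * (q s s' * c s) ≤ ε / 2 * (C * U) := by
    rw [hU, Finset.mul_sum, Finset.mul_sum]
    refine Finset.sum_le_sum fun s _ => ?_
    rw [← Finset.mul_sum, ← Finset.sum_mul]
    exact mul_le_mul_of_nonneg_left (mul_le_mul_of_nonneg_right (hsumq s) (hc0 s)) (by positivity)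
  have hS2 : ∑ s ∈ A, ∑ s' ∈ A, ε / 2 * (q s' s * c s') ≤ ε / 2 * (C * U) := by
    rw [Finset.sum_comm]; exact hS1
  have hS0 : ∑ s ∈ A, ∑ s' ∈ A, (if s' = s then c s ^ 2 else 0) ≤ P β β := by
    calc ∑ s ∈ A, ∑ s' ∈ A, (if s' = s then c s ^ 2 else 0) = ∑ s ∈ A, c s ^ 2 := by
          refine Finset.sum_congr rfl fun s hs => ?_
          simp [Finset.sum_ite_eq', hs]
      _ ≤ ∑ s, c s ^ 2 :=
          Finset.sum_le_sum_of_subset_of_nonneg (Finset.subset_univ A) fun s' _ _ => sq_nonneg _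
      _ = ∑ s, P β ⟨s, b s⟩ ^ 2 := by simp [hc]
      _ ≤ ∑ α, P β α ^ 2 := sum_pattern_le b (fun α => P β α ^ 2) fun _ => sq_nonneg _
      _ = P β β := hP.diag_eq β
  have hU2 : U ^ 2 ≤ P β β + ε * C * U := by
    calc U ^ 2 = ∑ s ∈ A, ∑ s' ∈ A, c s * c s' := by rw [sq, hU, Finset.sum_mul_sum]
      _ ≤ ∑ s ∈ A, ∑ s' ∈ A, ((if s' = s then c s ^ 2 else 0) +
          (ε / 2 * (q s s' * c s) + ε / 2 * (q s' s * c s'))) :=
          Finset.sum_le_sum fun s hs => Finset.sum_le_sum fun s' hs' => hpair s hs s' hs'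
      _ = ∑ s ∈ A, ∑ s' ∈ A, (if s' = s then c s ^ 2 else 0) +
          (∑ s ∈ A, ∑ s' ∈ A, ε / 2 * (q s s' * c s) +
            ∑ s ∈ A, ∑ s' ∈ A, ε / 2 * (q s' s * c s')) := by
          simp_rw [Finset.sum_add_distrib]
      _ ≤ _ := by linarith
  refine h1.trans ?_
  by_contra hcon
  have hlt := not_le.1 hcon
  have hs0 : 0 ≤ √(P β β) := Real.sqrt_nonneg _
  have hs2 : √(P β β) ^ 2 = P β β := Real.sq_sqrt (hP.diag_nonneg β)
  have hD : 0 ≤ ε * C := mul_nonneg hε hC0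
  nlinarith

open Classical in
theorem card_conf_le (P : (Σ s, K s) → (Σ s, K s) → ℝ) {ε : ℝ} (hε : 0 < ε) {q : S → S → ℝ}
    (hq : ∀ s s', 0 < q s s') (b : ∀ s, K s) :
    ∑ s, (if Conf P ε q b s then (1 : ℝ) else 0) ≤
      ∑ β, ∑ s, ∑ s', if s' = s then 0 else
        P β ⟨s, b s⟩ ^ 2 * P β ⟨s', b s'⟩ ^ 2 / (ε * q s s') ^ 4 := by
  rw [Finset.sum_comm]
  refine Finset.sum_le_sum fun s _ => ?_
  have hnn : ∀ β s', 0 ≤ (if s' = s then 0 else
        P β ⟨s, b s⟩ ^ 2 * P β ⟨s', b s'⟩ ^ 2 / (ε * q s s') ^ 4) := by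
    intro β s'
    split_ifs
    · exact le_rfl
    · positivity
  split_ifs with h
  · obtain ⟨β, s', hs', hle⟩ := h
    have hpos : 0 < ε * q s s' := mul_pos hε (hq s s')
    have h1 : (1 : ℝ) ≤ (if s' = s then 0 else
        P β ⟨s, b s⟩ ^ 2 * P β ⟨s', b s'⟩ ^ 2 / (ε * q s s') ^ 4) := by
      rw [if_neg hs', le_div_iff₀ (by positivity), one_mul]
      calc (ε * q s s') ^ 4 = ((ε * q s s') ^ 2) ^ 2 := by ring
        _ ≤ (|P β ⟨s, b s⟩| * |P β ⟨s', b s'⟩|) ^ 2 := by gcongr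
        _ = _ := by rw [mul_pow, sq_abs, sq_abs]
    refine h1.trans ?_
    refine le_trans ?_ (Finset.single_le_sum (f := fun β => ∑ s', if s' = s then 0 else
        P β ⟨s, b s⟩ ^ 2 * P β ⟨s', b s'⟩ ^ 2 / (ε * q s s') ^ 4)
        (fun β _ => Finset.sum_nonneg fun s' _ => hnn β s') (Finset.mem_univ β))
    exact Finset.single_le_sum (f := fun s' => if s' = s then 0 else
        P β ⟨s, b s⟩ ^ 2 * P β ⟨s', b s'⟩ ^ 2 / (ε * q s s') ^ 4)
        (fun s' _ => hnn β s') (Finset.mem_univ s')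
  · exact Finset.sum_nonneg fun β _ => Finset.sum_nonneg fun s' _ => hnn β s'

end Comb

end Pool.Agent.MixedBesov
end

-- part Pool.Agent.Lib.MP_919f0c_an.Cert
section

/-!
# The certificate, measure theoretic part
-/

open Finset MeasureTheory

set_option linter.unusedSectionVars false

namespace Pool.Agent.MixedBesov

section Fin
variable {Y : Type*} [MeasurableSpace Y] {A : Type*} [Fintype A] [DecidableEq A]

theorem comp_fin_eq (g : Y → A) (F : A → ℝ) :
    (fun y => F (g y)) = fun y => ∑ a, Set.indicator {y | g y = a} (fun _ => F a) y := by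
  funext y
  rw [Finset.sum_eq_single (g y)]
  · simp
  · intro a _ ha
    simp [Set.indicator, Ne.symm ha]
  · simp

theorem measurable_comp_fin (g : Y → A) (hg : ∀ a, MeasurableSet {y | g y = a}) (F : A → ℝ) :
    Measurable fun y => F (g y) := by
  rw [comp_fin_eq g F]
  exact Finset.measurable_sum _ fun a _ => measurable_const.indicator (hg a)

theorem integrable_comp_fin (μ : Measure Y) [IsFiniteMeasure μ] (g : Y → A)
    (hg : ∀ a, MeasurableSet {y | g y = a}) (F : A → ℝ) :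
    Integrable (fun y => F (g y)) μ := by
  rw [comp_fin_eq g F]
  exact integrable_finsetSum _ fun a _ => (integrable_const _).indicator (hg a)

theorem integral_comp_fin (μ : Measure Y) [IsFiniteMeasure μ] (g : Y → A)
    (hg : ∀ a, MeasurableSet {y | g y = a}) (F : A → ℝ) :
    ∫ y, F (g y) ∂μ = ∑ a, F a * μ.real {y | g y = a} := by
  rw [comp_fin_eq g F, integral_finsetSum _ fun a _ => (integrable_const _).indicator (hg a)]
  refine Finset.sum_congr rfl fun a _ => ?_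
  rw [integral_indicator_const _ (hg a), smul_eq_mul, mul_comm]

end Fin

variable {Y : Type*} [MeasurableSpace Y]
variable {S : Type*} [Fintype S] [DecidableEq S] {K : S → Type*} [∀ s, Fintype (K s)]
  [∀ s, DecidableEq (K s)]

theorem measurableSet_pattern (c : (s : S) → Y → K s) (hc : ∀ s κ, MeasurableSet {y | c s y = κ})
    (b : ∀ s, K s) : MeasurableSet {y | (fun s => c s y) = b} := by
  have : {y | (fun s => c s y) = b} = ⋂ s, {y | c s y = b s} := by
    ext y; simp [funext_iff]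
  rw [this]
  exact MeasurableSet.iInter fun s => hc s (b s)

theorem integral_conf_le (μ : Measure Y) [IsFiniteMeasure μ] (c : (s : S) → Y → K s)
    (hc : ∀ s κ, MeasurableSet {y | c s y = κ}) {v ε : ℝ} (hv : 0 ≤ v) (hε : 0 < ε)
    {q : S → S → ℝ} (hq : ∀ s s', 0 < q s s')
    (hov : ∀ s s', s' ≠ s → ∀ κ κ', μ.real {y | c s y = κ ∧ c s' y = κ'} ≤ v * q s s' ^ 4)
    {P : (Σ s, K s) → (Σ s, K s) → ℝ} (hP : IsProj P) :
    ∫ y, (∑ β, ∑ s, ∑ s', if s' = s then 0 else
        P β ⟨s, c s y⟩ ^ 2 * P β ⟨s', c s' y⟩ ^ 2 / (ε * q s s') ^ 4) ∂μ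
      ≤ v / ε ^ 4 * ∑ β, P β β := by
  have hm : ∀ s s' (a : K s × K s'), MeasurableSet {y | (c s y, c s' y) = a} := by
    intro s s' a
    have : {y | (c s y, c s' y) = a} = {y | c s y = a.1} ∩ {y | c s' y = a.2} := by
      ext y; simp [Prod.ext_iff]
    rw [this]; exact (hc s a.1).inter (hc s' a.2)
  let F : (β : Σ s, K s) → (s s' : S) → K s × K s' → ℝ := fun β s s' a =>
    if s' = s then 0 else P β ⟨s, a.1⟩ ^ 2 * P β ⟨s', a.2⟩ ^ 2 / (ε * q s s') ^ 4
  have hi : ∀ β s s', Integrable (fun y => F β s s' (c s y, c s' y)) μ := fun β s s' =>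
    integrable_comp_fin μ (fun y => (c s y, c s' y)) (hm s s') (F β s s')
  have hterm : ∀ β s s', ∫ y, F β s s' (c s y, c s' y) ∂μ ≤
      v / ε ^ 4 * ((∑ κ, P β ⟨s, κ⟩ ^ 2) * ∑ κ', P β ⟨s', κ'⟩ ^ 2) := by
    intro β s s'
    rw [integral_comp_fin μ (fun y => (c s y, c s' y)) (hm s s') (F β s s'),
      Finset.sum_mul_sum, Fintype.sum_prod_type, Finset.mul_sum]
    refine Finset.sum_le_sum fun κ _ => ?_
    rw [Finset.mul_sum]
    refine Finset.sum_le_sum fun κ' _ => ?_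
    by_cases hss : s' = s
    · simp only [F, hss, if_true, zero_mul]; positivity
    · simp only [F, hss, if_false]
      have h1 : μ.real {y | (c s y, c s' y) = (κ, κ')} ≤ v * q s s' ^ 4 := by
        have := hov s s' hss κ κ'
        simpa [Prod.ext_iff] using this
      have hq' := hq s s'
      calc P β ⟨s, κ⟩ ^ 2 * P β ⟨s', κ'⟩ ^ 2 / (ε * q s s') ^ 4 *
            μ.real {y | (c s y, c s' y) = (κ, κ')}
          ≤ P β ⟨s, κ⟩ ^ 2 * P β ⟨s', κ'⟩ ^ 2 / (ε * q s s') ^ 4 * (v * q s s' ^ 4) :=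
            mul_le_mul_of_nonneg_left h1 (by positivity)
        _ = _ := by field_simp
  change ∫ y, (∑ β, ∑ s, ∑ s', F β s s' (c s y, c s' y)) ∂μ ≤ _
  rw [integral_finsetSum _ fun β _ => integrable_finsetSum _ fun s _ =>
    integrable_finsetSum _ fun s' _ => hi β s s', Finset.mul_sum]
  refine Finset.sum_le_sum fun β _ => ?_
  rw [integral_finsetSum _ fun s _ => integrable_finsetSum _ fun s' _ => hi β s s']
  have hγ : ∑ s, ∑ κ, P β ⟨s, κ⟩ ^ 2 = P β β := by
    rw [← hP.diag_eq β, Fintype.sum_sigma]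
  calc ∑ s, ∫ y, ∑ s', F β s s' (c s y, c s' y) ∂μ
      ≤ ∑ s, ∑ s', v / ε ^ 4 * ((∑ κ, P β ⟨s, κ⟩ ^ 2) * ∑ κ', P β ⟨s', κ'⟩ ^ 2) := by
        refine Finset.sum_le_sum fun s _ => ?_
        rw [integral_finsetSum _ fun s' _ => hi β s s']
        exact Finset.sum_le_sum fun s' _ => hterm β s s'
    _ = v / ε ^ 4 * (P β β * P β β) := by
        conv_rhs => rw [← hγ, Finset.sum_mul_sum, Finset.mul_sum]
        refine Finset.sum_congr rfl fun s _ => ?_
        rw [Finset.mul_sum]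
    _ ≤ v / ε ^ 4 * P β β := by
        refine mul_le_mul_of_nonneg_left ?_ (by positivity)
        have := hP.diag_nonneg β
        have := hP.diag_le_one β
        nlinarith

/-- The certificate. -/
theorem certificate (μ : Measure Y) [IsFiniteMeasure μ] (c : (s : S) → Y → K s)
    (hc : ∀ s κ, MeasurableSet {y | c s y = κ}) {v ε C : ℝ} (hv : 0 ≤ v) (hε : 0 < ε)
    (hC0 : 0 ≤ C) {q : S → S → ℝ} (hq : ∀ s s', 0 < q s s') (hqs : ∀ s s', q s s' = q s' s)
    (hC : ∀ s, ∑ s', q s s' ≤ C)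
    (hvol : ∀ s κ, μ.real {y | c s y = κ} ≤ v)
    (hov : ∀ s s', s' ≠ s → ∀ κ κ', μ.real {y | c s y = κ ∧ c s' y = κ'} ≤ v * q s s' ^ 4)
    {m : ℕ} (A : Fin m → (Σ s, K s) → ℝ)
    (ψ : (Σ s, K s) → Y → ℝ) (hψm : ∀ β, Measurable (ψ β)) (hψ0 : ∀ β y, 0 ≤ ψ β y)
    (hψ1 : ∀ β y, ψ β y ≤ 1) (hψs : ∀ β y, c β.1 y ≠ β.2 → ψ β y = 0) :
    ∃ z : (Σ s, K s) → Y → ℝ, (∀ β, Measurable (z β)) ∧ (∀ β y, |z β y| ≤ 2 + ε * C) ∧
      (∀ y, ∑ β, z β y ^ 2 ≤ Fintype.card S) ∧ (∀ y j, ∑ β, z β y * A j β = 0) ∧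
      ∑ β, ∫ y, ψ β y ∂μ - v / ε ^ 4 * m
        - v * (√(Fintype.card (Σ s, K s) * m) + Fintype.card (Σ s, K s) * (ε * C))
        ≤ ∫ y, ∑ β, z β y * ψ β y ∂μ := by
  classical
  obtain ⟨P, hP, htr, hA⟩ := exists_proj A
  let Z : (∀ s, K s) → (Σ s, K s) → ℝ := fun b β =>
    keptVec P ε q b β - ∑ α, P β α * keptVec P ε q b α
  have hpat := measurableSet_pattern c hc
  have hU := fun b β => abs_proj_kept_le hP hε.le hC0 (fun s s' => (hq s s').le) hqs hC b β
  have hsq : ∀ β, √(P β β) ≤ 1 := fun β => Real.sqrt_le_one.2 (hP.diag_le_one β)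
  have hx01 : ∀ b β, keptVec P ε q b β = 0 ∨ keptVec P ε q b β = 1 := by
    intro b β; unfold keptVec; split_ifs <;> simp
  have hzm : ∀ β, Measurable fun y => Z (fun s => c s y) β := fun β =>
    measurable_comp_fin (fun y s => c s y) hpat (fun b => Z b β)
  have hzb : ∀ b β, |Z b β| ≤ 2 + ε * C := by
    intro b β
    have h1 := hU b β
    have h2 := hsq β
    have h3 : |keptVec P ε q b β| ≤ 1 := by rcases hx01 b β with h | h <;> simp [h]
    have h4 := abs_sub (keptVec P ε q b β) (∑ α, P β α * keptVec P ε q b α)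
    simp only [Z]; linarith
  have hψi : ∀ β, Integrable (ψ β) μ := fun β =>
    Integrable.of_bound (hψm β).aestronglyMeasurable 1 (Filter.Eventually.of_forall fun y => by
      rw [Real.norm_eq_abs, abs_of_nonneg (hψ0 β y)]; exact hψ1 β y)
  refine ⟨fun β y => Z (fun s => c s y) β, hzm, fun β y => hzb _ _, ?_, ?_, ?_⟩
  · intro y
    refine (hP.sum_sq_sub_le _).trans ?_
    have : ∀ β, keptVec P ε q (fun s => c s y) β ^ 2 = 1 * keptVec P ε q (fun s => c s y) β := by
      intro β; rcases hx01 (fun s => c s y) β with h | h <;> simp [h]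
    simp_rw [this]
    rw [sum_keptVec]
    simp only [Finset.sum_const, nsmul_eq_mul, mul_one]
    exact_mod_cast Finset.card_le_univ _
  · intro y j
    exact hP.orth _ _ (hA j)
  · let G : Y → ℝ := fun y => ∑ β, ∑ s, ∑ s', if s' = s then 0 else
        P β ⟨s, c s y⟩ ^ 2 * P β ⟨s', c s' y⟩ ^ 2 / (ε * q s s') ^ 4
    let H : (Σ s, K s) → Y → ℝ := fun β =>
      Set.indicator {y | c β.1 y = β.2} (fun _ => √(P β β) + ε * C)
    have hGi : Integrable G μ := integrable_comp_fin μ (fun y s => c s y) hpat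
      (fun b => ∑ β, ∑ s, ∑ s', if s' = s then 0 else
        P β ⟨s, b s⟩ ^ 2 * P β ⟨s', b s'⟩ ^ 2 / (ε * q s s') ^ 4)
    have hHi : ∀ β, Integrable (H β) μ := fun β => (integrable_const _).indicator (hc _ _)
    have hpt : ∀ y, ∑ β, ψ β y - G y - ∑ β, H β y ≤ ∑ β, Z (fun s => c s y) β * ψ β y := by
      intro y
      have h1 := card_conf_le P hε hq (fun s => c s y)
      have h2 : ∑ β, ψ β y - ∑ β, ψ β y * keptVec P ε q (fun s => c s y) β ≤
          ∑ s, (if Conf P ε q (fun s => c s y) s then (1 : ℝ) else 0) := by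
        rw [sum_keptVec, Finset.sum_filter, Fintype.sum_sigma, ← Finset.sum_sub_distrib]
        refine Finset.sum_le_sum fun s _ => ?_
        rw [Finset.sum_eq_single (c s y)]
        · by_cases h : Conf P ε q (fun s => c s y) s
          · simp [h, hψ1]
          · simp [h]
        · intro κ _ hκ
          exact hψs ⟨s, κ⟩ y (Ne.symm hκ)
        · simp
      have h3 : ∀ β, (∑ α, P β α * keptVec P ε q (fun s => c s y) α) * ψ β y ≤ H β y := by
        intro β
        by_cases h : c β.1 y = β.2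
        · have : H β y = √(P β β) + ε * C := by simp [H, h]
          rw [this]
          have h4 := (le_abs_self _).trans (hU (fun s => c s y) β)
          have h5 : 0 ≤ √(P β β) + ε * C := by positivity
          nlinarith [hψ0 β y, hψ1 β y, mul_le_mul_of_nonneg_right h4 (hψ0 β y)]
        · simp [H, h, hψs β y h]
      have h4 : ∑ β, Z (fun s => c s y) β * ψ β y =
          ∑ β, ψ β y * keptVec P ε q (fun s => c s y) β -
            ∑ β, (∑ α, P β α * keptVec P ε q (fun s => c s y) α) * ψ β y := by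
        rw [← Finset.sum_sub_distrib]
        exact Finset.sum_congr rfl fun β _ => by simp only [Z]; ring
      have h5 := Finset.sum_le_sum fun β (_ : β ∈ Finset.univ) => h3 β
      rw [h4]; simp only [G]; linarith
    have hZi : Integrable (fun y => ∑ β, Z (fun s => c s y) β * ψ β y) μ :=
      integrable_finsetSum _ fun β _ => (hψi β).bdd_mul (hzm β).aestronglyMeasurable
        (Filter.Eventually.of_forall fun y => by rw [Real.norm_eq_abs]; exact hzb _ _)
    have hint := integral_mono (((integrable_finsetSum _ fun β _ => hψi β).sub hGi).sub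
      (integrable_finsetSum _ fun β _ => hHi β)) hZi hpt
    refine le_trans ?_ hint
    have e1 : ∫ y, ((fun y => ∑ β, ψ β y) - G - fun y => ∑ β, H β y) y ∂μ =
        ∑ β, ∫ y, ψ β y ∂μ - ∫ y, G y ∂μ - ∑ β, ∫ y, H β y ∂μ := by
      simp only [Pi.sub_apply]
      have hi1 : Integrable (fun y => ∑ β, ψ β y - G y) μ :=
        (integrable_finsetSum _ fun β _ => hψi β).sub hGi
      rw [integral_sub hi1
        (integrable_finsetSum _ fun β _ => hHi β), integral_sub
        (integrable_finsetSum _ fun β _ => hψi β) hGi, integral_finsetSum _ fun β _ => hψi β,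
        integral_finsetSum _ fun β _ => hHi β]
    rw [e1]
    have hG : ∫ y, G y ∂μ ≤ v / ε ^ 4 * m :=
      (integral_conf_le μ c hc hv hε hq hov hP).trans
        (mul_le_mul_of_nonneg_left htr (by positivity))
    have hH : ∑ β, ∫ y, H β y ∂μ ≤
        v * (√(Fintype.card (Σ s, K s) * m) + Fintype.card (Σ s, K s) * (ε * C)) := by
      have h1 : ∀ β, ∫ y, H β y ∂μ ≤ v * (√(P β β) + ε * C) := by
        intro β
        simp only [H]
        rw [integral_indicator_const _ (hc _ _), smul_eq_mul]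
        exact mul_le_mul_of_nonneg_right (hvol _ _) (by positivity)
      refine (Finset.sum_le_sum fun β _ => h1 β).trans ?_
      rw [← Finset.mul_sum, Finset.sum_add_distrib]
      refine mul_le_mul_of_nonneg_left ?_ hv
      simp only [Finset.sum_const, Finset.card_univ, nsmul_eq_mul]
      refine add_le_add ?_ le_rfl
      refine Real.le_sqrt_of_sq_le ?_
      have h2 := sq_sum_le_card_mul_sum_sq (s := Finset.univ) (f := fun β => √(P β β))
      simp only [Finset.card_univ] at h2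
      refine h2.trans (mul_le_mul_of_nonneg_left ?_ (by positivity))
      refine le_trans (le_of_eq ?_) htr
      exact Finset.sum_congr rfl fun β _ => Real.sq_sqrt (hP.diag_nonneg β)
    linarith

end Pool.Agent.MixedBesov
end

-- part Pool.Agent.Lib.MP_919f0c_an.Ends
section

/-!
# From the certificate to `L_1` and `L_∞` lower bounds (abstract form)
-/

open Finset MeasureTheory

set_option linter.unusedSectionVars false

namespace Pool.Agent.MixedBesov

variable {Y : Type*} [MeasurableSpace Y]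
variable {S : Type*} [Fintype S] [DecidableEq S] {K : S → Type*} [∀ s, Fintype (K s)]
  [∀ s, DecidableEq (K s)]

theorem resample (H : (∀ s, K s) → ℝ) (s : S) :
    (Fintype.card (K s) : ℝ) * ∑ b, H b = ∑ b, ∑ κ, H (Function.update b s κ) := by
  let φ : (∀ s, K s) × K s → (∀ s, K s) × K s := fun z => (Function.update z.1 s z.2, z.1 s)
  have hφ : Function.Involutive φ := by
    intro z; simp [φ]
  have h := Equiv.sum_comp hφ.toPerm (fun z => H z.1)
  rw [Fintype.sum_prod_type, Fintype.sum_prod_type] at h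
  simp only [Function.Involutive.coe_toPerm, φ] at h
  rw [h, Finset.mul_sum]
  simp

theorem resample_mul (s : S) (F : K s → ℝ) (G : (∀ s, K s) → ℝ)
    (hG : ∀ b κ, G (Function.update b s κ) = G b) :
    (Fintype.card (K s) : ℝ) * ∑ b, F (b s) * G b = (∑ κ, F κ) * ∑ b, G b := by
  rw [resample (fun b => F (b s) * G b) s, Finset.mul_sum]
  refine Finset.sum_congr rfl fun b _ => ?_
  rw [Finset.sum_mul]
  refine Finset.sum_congr rfl fun κ _ => ?_
  simp [hG]

theorem pattern_avg {M : ℕ} (hM : ∀ s, Fintype.card (K s) = M) (z X : (Σ s, K s) → ℝ)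
    (hz : ∀ β, |z β| ≤ 3) :
    (Fintype.card (∀ s, K s) : ℝ) * (M * ∑ β, z β * X β - (∑ β, |z β|) * ∑ β, |X β|) ≤
      3 * M ^ 2 * ∑ b : ∀ s, K s, |∑ s, X ⟨s, b s⟩| := by
  set Ω : ℝ := (Fintype.card (∀ s, K s) : ℝ) with hΩ
  have hΩ0 : 0 ≤ Ω := Nat.cast_nonneg _
  have hpt : ∀ b : ∀ s, K s, ∑ s, (z ⟨s, b s⟩ * X ⟨s, b s⟩ -
      ∑ s' ∈ Finset.univ.erase s, |X ⟨s, b s⟩| * |z ⟨s', b s'⟩|) ≤ 3 * |∑ s, X ⟨s, b s⟩| := by
    intro b
    set T := max (-3) (min 3 (∑ s, z ⟨s, b s⟩)) with hT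
    have hT3 : |T| ≤ 3 := by
      rw [abs_le]; constructor
      · exact le_max_left _ _
      · exact max_le (by norm_num) (min_le_left _ _)
    have h1 : T * ∑ s, X ⟨s, b s⟩ ≤ 3 * |∑ s, X ⟨s, b s⟩| := by
      refine (le_abs_self _).trans ?_
      rw [abs_mul]; exact mul_le_mul_of_nonneg_right hT3 (abs_nonneg _)
    refine le_trans ?_ h1
    rw [Finset.mul_sum]
    refine Finset.sum_le_sum fun s _ => ?_
    have h2 : |T - z ⟨s, b s⟩| ≤ ∑ s' ∈ Finset.univ.erase s, |z ⟨s', b s'⟩| := by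
      have h3 : ∑ s', z ⟨s', b s'⟩ = z ⟨s, b s⟩ + ∑ s' ∈ Finset.univ.erase s, z ⟨s', b s'⟩ :=
        (Finset.add_sum_erase _ (fun s' => z ⟨s', b s'⟩) (Finset.mem_univ s)).symm
      have h4 := Finset.abs_sum_le_sum_abs (fun s' => z ⟨s', b s'⟩) (Finset.univ.erase s)
      refine le_trans ?_ h4
      have h5 := abs_le.1 (hz ⟨s, b s⟩)
      rw [hT, h3]
      set w := ∑ s' ∈ Finset.univ.erase s, z ⟨s', b s'⟩
      have h6 := le_abs_self w
      have h7 := neg_abs_le w
      rw [abs_le]; constructor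
      · have : z ⟨s, b s⟩ - |w| ≤ min 3 (z ⟨s, b s⟩ + w) := le_min (by linarith [abs_nonneg w])
          (by linarith)
        linarith [le_max_right (-3) (min 3 (z ⟨s, b s⟩ + w))]
      · have : max (-3) (min 3 (z ⟨s, b s⟩ + w)) ≤ z ⟨s, b s⟩ + |w| :=
          max_le (by linarith [abs_nonneg w]) ((min_le_right _ _).trans (by linarith))
        linarith
    rw [← Finset.mul_sum]
    have h8 : -(|X ⟨s, b s⟩| * |T - z ⟨s, b s⟩|) ≤ (T - z ⟨s, b s⟩) * X ⟨s, b s⟩ := by
      rw [← abs_mul, mul_comm]; exact neg_abs_le _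
    have h9 := mul_le_mul_of_nonneg_left h2 (abs_nonneg (X ⟨s, b s⟩))
    nlinarith
  have hsum := Finset.sum_le_sum fun b (_ : b ∈ Finset.univ) => hpt b
  rw [← Finset.mul_sum, Finset.sum_comm] at hsum
  have hone : ∀ s (F : K s → ℝ), (M : ℝ) * ∑ b : ∀ s, K s, F (b s) = Ω * ∑ κ, F κ := by
    intro s F
    have := resample_mul s F (fun _ => 1) (fun _ _ => rfl)
    simp only [mul_one, Finset.sum_const, Finset.card_univ, nsmul_eq_mul, hM] at this
    rw [this, mul_comm]
  have htwo : ∀ s s', s' ≠ s → ∀ (F : K s → ℝ) (G : K s' → ℝ),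
      (M : ℝ) ^ 2 * ∑ b : ∀ s, K s, F (b s) * G (b s') = Ω * ((∑ κ, F κ) * ∑ κ, G κ) := by
    intro s s' hss F G
    have := resample_mul s F (fun b => G (b s')) (fun b κ => by simp [hss])
    rw [hM] at this
    rw [sq, mul_assoc, this, mul_left_comm, hone s' G]; ring
  have hkey : (M : ℝ) ^ 2 * ∑ s, ∑ b : ∀ s, K s, (z ⟨s, b s⟩ * X ⟨s, b s⟩ -
      ∑ s' ∈ Finset.univ.erase s, |X ⟨s, b s⟩| * |z ⟨s', b s'⟩|) =
      Ω * (M * ∑ β, z β * X β - ∑ s, ∑ s' ∈ Finset.univ.erase s,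
        (∑ κ, |X ⟨s, κ⟩|) * ∑ κ, |z ⟨s', κ⟩|) := by
    rw [Fintype.sum_sigma, Finset.mul_sum, Finset.mul_sum, ← Finset.sum_sub_distrib,
      Finset.mul_sum]
    refine Finset.sum_congr rfl fun s _ => ?_
    rw [Finset.sum_sub_distrib, mul_sub, mul_sub, Finset.sum_comm (s := Finset.univ),
      Finset.mul_sum (s := Finset.univ.erase s), Finset.mul_sum (s := Finset.univ.erase s)]
    congr 1
    · rw [sq, mul_assoc, hone s (fun κ => z ⟨s, κ⟩ * X ⟨s, κ⟩)]; ring
    · refine Finset.sum_congr rfl fun s' hs' => ?_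
      exact htwo s s' (Finset.ne_of_mem_erase hs') (fun κ => |X ⟨s, κ⟩|) (fun κ => |z ⟨s', κ⟩|)
  have hcross : ∑ s, ∑ s' ∈ Finset.univ.erase s, (∑ κ, |X ⟨s, κ⟩|) * ∑ κ, |z ⟨s', κ⟩| ≤
      (∑ β, |z β|) * ∑ β, |X β| := by
    rw [mul_comm, Fintype.sum_sigma, Fintype.sum_sigma, Finset.sum_mul_sum]
    refine Finset.sum_le_sum fun s _ => ?_
    exact Finset.sum_le_sum_of_subset_of_nonneg (Finset.subset_univ _) fun s' _ _ => by positivity
  have h10 := mul_le_mul_of_nonneg_left hsum (sq_nonneg (M : ℝ))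
  rw [hkey] at h10
  have h11 := mul_le_mul_of_nonneg_left hcross hΩ0
  nlinarith

theorem bound_one (μ : Measure Y) {M : ℕ} (hM0 : 0 < M) (hM : ∀ s, Fintype.card (K s) = M)
    (hS : Fintype.card S ^ 4 ≤ M) (hS0 : 0 < Fintype.card S)
    (z e : (Σ s, K s) → Y → ℝ) (hzm : ∀ β, Measurable (z β)) (hz : ∀ β y, |z β y| ≤ 3)
    (hz2 : ∀ y, ∑ β, z β y ^ 2 ≤ Fintype.card S) (he : ∀ β, Integrable (e β) μ) {E : ℝ}
    (hE1 : ∀ b : ∀ s, K s, ∫ y, |∑ s, e ⟨s, b s⟩ y| ∂μ ≤ E) (hE2 : ∀ β, ∫ y, |e β y| ∂μ ≤ E) :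
    ∫ y, ∑ β, z β y * e β y ∂μ ≤ 4 * M * E := by
  have hK : ∀ s, Nonempty (K s) := fun s => Fintype.card_pos_iff.1 (by rw [hM]; exact hM0)
  set Ω : ℝ := (Fintype.card (∀ s, K s) : ℝ) with hΩ
  set σ : ℝ := (Fintype.card S : ℝ) with hσ
  have hΩ0 : 0 < Ω := by rw [hΩ]; exact_mod_cast Fintype.card_pos
  have hσ0 : 0 < σ := by rw [hσ]; exact_mod_cast hS0
  have hM0' : (0 : ℝ) < M := by exact_mod_cast hM0
  have hN : (Fintype.card (Σ s, K s) : ℝ) = σ * M := by
    rw [Fintype.card_sigma]; simp [hM, hσ]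
  have hS' : σ ^ 4 ≤ M := by rw [hσ]; exact_mod_cast hS
  have hpt : ∀ y, ∑ β, z β y * e β y ≤
      3 * M / Ω * ∑ b : ∀ s, K s, |∑ s, e ⟨s, b s⟩ y| + 1 / σ * ∑ β, |e β y| := by
    intro y
    have h1 := pattern_avg hM (fun β => z β y) (fun β => e β y) (fun β => hz β y)
    have h2 : σ * ∑ β, |z β y| ≤ M := by
      have h3 := sq_sum_le_card_mul_sum_sq (s := Finset.univ) (f := fun β => |z β y|)
      simp only [Finset.card_univ, sq_abs] at h3
      rw [hN] at h3
      have h4 : (σ * ∑ β, |z β y|) ^ 2 ≤ (M : ℝ) ^ 2 := by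
        calc (σ * ∑ β, |z β y|) ^ 2 = σ ^ 2 * (∑ β, |z β y|) ^ 2 := by ring
          _ ≤ σ ^ 2 * (σ * M * σ) := mul_le_mul_of_nonneg_left
              (h3.trans (mul_le_mul_of_nonneg_left (hz2 y) (by positivity))) (by positivity)
          _ = σ ^ 4 * M := by ring
          _ ≤ M * M := mul_le_mul_of_nonneg_right hS' hM0'.le
          _ = _ := by ring
      exact (pow_le_pow_iff_left₀ (by positivity) hM0'.le two_ne_zero).1 h4
    set a := ∑ β, z β y * e β y
    set w := ∑ β, |z β y|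
    set x := ∑ β, |e β y| with hx
    set u := ∑ b : ∀ s, K s, |∑ s, e ⟨s, b s⟩ y|
    have hx0 : 0 ≤ x := by positivity
    have h5 : w * x ≤ M * (1 / σ * x) := by
      have : w ≤ M * (1 / σ) := by
        rw [mul_one_div, le_div_iff₀ hσ0]; linarith
      nlinarith
    have h6 : M * a - w * x ≤ M * (3 * M / Ω * u) := by
      have : M * (3 * M / Ω * u) = (3 * M ^ 2 * u) / Ω := by field_simp
      rw [this, le_div_iff₀ hΩ0]; linarith
    have h7 : M * a ≤ M * (3 * M / Ω * u + 1 / σ * x) := by linarith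
    exact le_of_mul_le_mul_left h7 hM0'
  have hi1 : ∀ b : ∀ s, K s, Integrable (fun y => |∑ s, e ⟨s, b s⟩ y|) μ := fun b =>
    (integrable_finsetSum _ fun s _ => he _).abs
  have hi2 : ∀ β, Integrable (fun y => |e β y|) μ := fun β => (he β).abs
  have hi3 : Integrable (fun y => 3 * M / Ω * ∑ b : ∀ s, K s, |∑ s, e ⟨s, b s⟩ y|) μ :=
    (integrable_finsetSum _ fun b _ => hi1 b).const_mul _
  have hi4 : Integrable (fun y => 1 / σ * ∑ β, |e β y|) μ :=
    (integrable_finsetSum _ fun b _ => hi2 b).const_mul _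
  have hi5 : Integrable (fun y => ∑ β, z β y * e β y) μ :=
    integrable_finsetSum _ fun β _ => (he β).bdd_mul (hzm β).aestronglyMeasurable
      (Filter.Eventually.of_forall fun y => by rw [Real.norm_eq_abs]; exact hz _ _)
  refine (integral_mono hi5 (hi3.add hi4) hpt).trans ?_
  simp only [Pi.add_apply]
  rw [integral_add hi3 hi4, integral_const_mul, integral_const_mul,
    integral_finsetSum _ fun b _ => hi1 b, integral_finsetSum _ fun b _ => hi2 b]
  have h1 : ∑ b : ∀ s, K s, ∫ y, |∑ s, e ⟨s, b s⟩ y| ∂μ ≤ Ω * E := by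
    refine (Finset.sum_le_sum fun b _ => hE1 b).trans ?_
    simp [hΩ]
  have h2 : ∑ β, ∫ y, |e β y| ∂μ ≤ σ * M * E := by
    refine (Finset.sum_le_sum fun b _ => hE2 b).trans ?_
    rw [Finset.sum_const, Finset.card_univ, nsmul_eq_mul, hN]
  have h3 := mul_le_mul_of_nonneg_left h1 (show 0 ≤ 3 * M / Ω by positivity)
  have h4 := mul_le_mul_of_nonneg_left h2 (show 0 ≤ 1 / σ by positivity)
  have h5 : 3 * M / Ω * (Ω * E) = 3 * M * E := by field_simp
  have h6 : 1 / σ * (σ * M * E) = M * E := by field_simp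
  linarith

theorem bound_top {I : Type*} [Fintype I] [DecidableEq I] (μ : Measure Y) [IsFiniteMeasure μ]
    (z e : I → Y → ℝ) (hzm : ∀ β, Measurable (z β)) (hz : ∀ β y, |z β y| ≤ 3)
    (he : ∀ β, Integrable (e β) μ) {E : ℝ}
    (hE : ∀ a : I → ℝ, (∀ β, |a β| ≤ 1) → ∀ᵐ y ∂μ, |∑ β, a β * e β y| ≤ E) :
    ∫ y, ∑ β, z β y * e β y ∂μ ≤ 3 * E * μ.real Set.univ := by
  have h1 : ∀ᵐ y ∂μ, ∀ σ : I → Bool, |∑ β, (if σ β then (1 : ℝ) else -1) * e β y| ≤ E :=
    ae_all_iff.2 fun σ => hE _ fun β => by split_ifs <;> simp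
  have hi5 : Integrable (fun y => ∑ β, z β y * e β y) μ :=
    integrable_finsetSum _ fun β _ => (he β).bdd_mul (hzm β).aestronglyMeasurable
      (Filter.Eventually.of_forall fun y => by rw [Real.norm_eq_abs]; exact hz _ _)
  have h2 : ∀ᵐ y ∂μ, ∑ β, z β y * e β y ≤ 3 * E := by
    filter_upwards [h1] with y hy
    have h3 := hy fun β => decide (0 ≤ e β y)
    have h4 : ∑ β, (if decide (0 ≤ e β y) = true then (1 : ℝ) else -1) * e β y = ∑ β, |e β y| := by
      refine Finset.sum_congr rfl fun β _ => ?_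
      by_cases h : 0 ≤ e β y
      · simp [h, abs_of_nonneg h]
      · simp [h, abs_of_neg (not_le.1 h)]
    rw [h4] at h3
    have h5 : ∑ β, z β y * e β y ≤ ∑ β, 3 * |e β y| := by
      refine Finset.sum_le_sum fun β _ => (le_abs_self _).trans ?_
      rw [abs_mul]; exact mul_le_mul_of_nonneg_right (hz β y) (abs_nonneg _)
    rw [← Finset.mul_sum] at h5
    linarith [le_abs_self (∑ β, |e β y|)]
  refine (integral_mono_ae hi5 (integrable_const _) h2).trans ?_
  rw [integral_const, smul_eq_mul, mul_comm]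

end Pool.Agent.MixedBesov
end
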