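import Pool.Agent.Lib.MP_919f0c_an.Defs
import Pool.Agent.Lib.MP_919f0c_an.Ends

-- part Pool.Agent.Lib.MP_919f0c_an.Bump
section

/-!
# One dimensional dyadic bumps on the circle
-/

open Finset MeasureTheory
open scoped Real

namespace Pool.Agent.MixedBesov

/-- the `k`-th difference on the line -/
noncomputable def dk (k : ℕ) (h : ℝ) (u : ℝ → ℝ) (y : ℝ) : ℝ :=
  ∑ j ∈ Finset.range (k + 1), ((-1 : ℝ) ^ (k - j) * (k.choose j : ℝ)) * u (y + (j : ℝ) * h)

theorem dk_eq (k : ℕ) (h : ℝ) (u : ℝ → ℝ) (y : ℝ) : dk k h u y = (fwdDiff h)^[k] u y := by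
  rw [fwdDiff_iter_eq_sum_shift]
  refine Finset.sum_congr rfl fun j _ => ?_
  simp

theorem abs_fwdDiff_le (k : ℕ) (h : ℝ) : ∀ (u : ℝ → ℝ) (D : ℝ), ContDiff ℝ k u →
    (∀ y, |iteratedDeriv k u y| ≤ D) → ∀ y, |(fwdDiff h)^[k] u y| ≤ D * |h| ^ k := by
  induction k with
  | zero => intro u D _ hD y; simpa using hD y
  | succ k ih =>
    intro u D hu hD y
    rw [Function.iterate_succ_apply]
    have hu' : ContDiff ℝ k u := hu.of_le (by exact_mod_cast Nat.le_succ k)
    have hsh : ContDiff ℝ k (fun z => u (z + h)) := hu'.comp (contDiff_id.add contDiff_const)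
    have h1 : ContDiff ℝ k (fwdDiff h u) := hsh.sub hu'
    have h2 : ∀ z, |iteratedDeriv k (fwdDiff h u) z| ≤ D * |h| := by
      intro z
      have e1 : iteratedDeriv k (fwdDiff h u) z =
          iteratedDeriv k u (z + h) - iteratedDeriv k u z := by
        have : fwdDiff h u = (fun z => u (z + h)) - u := rfl
        rw [this, iteratedDeriv_sub hsh.contDiffAt hu'.contDiffAt, iteratedDeriv_comp_add_const]
      rw [e1]
      have hd : Differentiable ℝ (iteratedDeriv k u) :=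
        hu.differentiable_iteratedDeriv k (by exact_mod_cast Nat.lt_succ_self k)
      have := Convex.norm_image_sub_le_of_norm_deriv_le (s := Set.univ) (f := iteratedDeriv k u)
        (C := D) (fun x _ => hd x) (fun x _ => by
          rw [← iteratedDeriv_succ, Real.norm_eq_abs]; exact hD x) convex_univ
        (Set.mem_univ z) (Set.mem_univ (z + h))
      simpa using this
    have := ih (fwdDiff h u) (D * |h|) h1 h2 y
    calc _ ≤ D * |h| * |h| ^ k := this
      _ = _ := by ring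

theorem abs_dk_le_two_pow (k : ℕ) (h : ℝ) (u : ℝ → ℝ) (hu : ∀ y, |u y| ≤ 1) (y : ℝ) :
    |dk k h u y| ≤ 2 ^ k := by
  refine (Finset.abs_sum_le_sum_abs _ _).trans ?_
  have : ∑ j ∈ Finset.range (k + 1), (k.choose j : ℝ) = 2 ^ k := by
    exact_mod_cast Nat.sum_range_choose k
  rw [← this]
  refine Finset.sum_le_sum fun j _ => ?_
  rw [abs_mul, abs_mul, abs_pow, abs_neg, abs_one, one_pow, one_mul, Nat.abs_cast]
  exact mul_le_of_le_one_right (Nat.cast_nonneg _) (hu _)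

/-- the basic bump, supported in `(0,1)`, equal to one on `[1/4,3/4]` -/
noncomputable def bump0 : ContDiffBump (1 / 2 : ℝ) := ⟨1 / 4, 1 / 2, by norm_num, by norm_num⟩

theorem bump0_eq_zero {u : ℝ} (h : u ≤ 0 ∨ 1 ≤ u) : bump0 u = 0 := by
  apply bump0.zero_of_le_dist
  change (1 / 2 : ℝ) ≤ dist u (1 / 2)
  rw [Real.dist_eq, le_abs]
  rcases h with h | h
  · right; linarith
  · left; linarith

theorem bump0_eq_one {u : ℝ} (h1 : 1 / 4 ≤ u) (h2 : u ≤ 3 / 4) : bump0 u = 1 := by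
  apply bump0.one_of_mem_closedBall
  change dist u (1 / 2) ≤ (1 / 4 : ℝ)
  rw [Real.dist_eq, abs_le]; constructor <;> linarith

theorem exists_dk_bump0 (k : ℕ) : ∃ C : ℝ, 1 ≤ C ∧ ∀ h y, |dk k h bump0 y| ≤ C * min 1 (|h| ^ k) := by
  have hc : Continuous (iteratedDeriv k bump0) :=
    (bump0.contDiff (n := k)).continuous_iteratedDeriv k le_rfl
  have hs : HasCompactSupport (iteratedDeriv k (bump0 : ℝ → ℝ)) := by
    rw [iteratedDeriv_eq_equiv_comp]
    exact (bump0.hasCompactSupport.iteratedFDeriv k).comp_left (map_zero _)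
  obtain ⟨D, hD⟩ := hc.bounded_above_of_compact_support hs
  refine ⟨max (2 ^ k) D, le_max_of_le_left (one_le_pow₀ (by norm_num)), fun h y => ?_⟩
  rw [mul_min_of_nonneg _ _ (le_max_of_le_left (by positivity))]
  refine le_min ?_ ?_
  · rw [mul_one]
    exact (abs_dk_le_two_pow k h _ (fun y => by
      rw [abs_of_nonneg bump0.nonneg]; exact bump0.le_one) y).trans (le_max_left _ _)
  · rw [dk_eq]
    refine (abs_fwdDiff_le k h _ D bump0.contDiff (fun y => by simpa using hD y) y).trans ?_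
    exact mul_le_mul_of_nonneg_right (le_max_right _ _) (by positivity)

/-- index of the dyadic cell of level `s` -/
noncomputable def cellR (s : ℕ) (y : ℝ) : ZMod (2 ^ s) := ((⌊2 ^ s * y / (2 * π)⌋ : ℤ) : ZMod (2 ^ s))

/-- periodic bump in the cell `κ` of level `s` -/
noncomputable def psiR (s : ℕ) (κ : ZMod (2 ^ s)) (y : ℝ) : ℝ :=
  if cellR s y = κ then bump0 (Int.fract (2 ^ s * y / (2 * π))) else 0

theorem scale_add (s : ℕ) (y : ℝ) :
    2 ^ s * (y + 2 * π) / (2 * π) = 2 ^ s * y / (2 * π) + ((2 ^ s : ℕ) : ℝ) := by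
  have := Real.pi_pos
  push_cast; field_simp

theorem cellR_periodic (s : ℕ) : Function.Periodic (cellR s) (2 * π) := by
  intro y
  unfold cellR
  rw [scale_add, Int.floor_add_natCast, Int.cast_add, Int.cast_natCast, ZMod.natCast_self, add_zero]

theorem psiR_periodic (s : ℕ) (κ : ZMod (2 ^ s)) : Function.Periodic (psiR s κ) (2 * π) := by
  intro y
  unfold psiR
  rw [cellR_periodic s y, scale_add, Int.fract_add_natCast]

theorem psiR_nonneg (s : ℕ) (κ : ZMod (2 ^ s)) (y : ℝ) : 0 ≤ psiR s κ y := by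
  unfold psiR; split_ifs
  · exact bump0.nonneg
  · exact le_rfl

theorem psiR_le_one (s : ℕ) (κ : ZMod (2 ^ s)) (y : ℝ) : psiR s κ y ≤ 1 := by
  unfold psiR; split_ifs
  · exact bump0.le_one
  · exact zero_le_one

theorem psiR_eq_sum (s : ℕ) (κ : ZMod (2 ^ s)) (y : ℝ) (J : Finset ℤ)
    (hJ : ⌊2 ^ s * y / (2 * π)⌋ ∈ J) :
    psiR s κ y = ∑ j ∈ J, if (j : ZMod (2 ^ s)) = κ then bump0 (2 ^ s * y / (2 * π) - j) else 0 := by
  rw [Finset.sum_eq_single_of_mem _ hJ]
  · rfl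
  · intro j _ hj
    have : bump0 (2 ^ s * y / (2 * π) - j) = 0 := by
      apply bump0_eq_zero
      by_contra hcon
      push Not at hcon
      apply hj
      symm
      rw [Int.floor_eq_iff]
      constructor <;> linarith [hcon.1, hcon.2]
    simp [this]

theorem exists_dk_psiR (k : ℕ) : ∃ C : ℝ, 1 ≤ C ∧ ∀ (s : ℕ) (κ : ZMod (2 ^ s)) (h y : ℝ),
    |dk k h (psiR s κ) y| ≤ C * min 1 ((2 ^ s * |h|) ^ k) *
      ∑ l ∈ Finset.range (k + 1), if cellR s (y + l * h) = κ then 1 else 0 := by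
  obtain ⟨C, hC1, hC⟩ := exists_dk_bump0 k
  refine ⟨C, hC1, fun s κ h y => ?_⟩
  have hpi := Real.pi_gt_three
  set fl : ℕ → ℤ := fun l => ⌊2 ^ s * (y + l * h) / (2 * π)⌋ with hfl
  set J : Finset ℤ := (Finset.range (k + 1)).image fl with hJ
  set B := C * min 1 ((2 ^ s * |h|) ^ k) with hB
  have hB0 : 0 ≤ B := mul_nonneg (by linarith) (le_min zero_le_one (by positivity))
  have h1 : dk k h (psiR s κ) y = ∑ j ∈ J, if (j : ZMod (2 ^ s)) = κ then
      dk k (2 ^ s * h / (2 * π)) bump0 (2 ^ s * y / (2 * π) - j) else 0 := by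
    unfold dk
    have : ∀ l ∈ Finset.range (k + 1), ((-1 : ℝ) ^ (k - l) * (k.choose l : ℝ)) *
        psiR s κ (y + (l : ℝ) * h) = ∑ j ∈ J, if (j : ZMod (2 ^ s)) = κ then
          ((-1 : ℝ) ^ (k - l) * (k.choose l : ℝ)) *
            bump0 (2 ^ s * y / (2 * π) - j + l * (2 ^ s * h / (2 * π))) else 0 := by
      intro l hl
      rw [psiR_eq_sum s κ _ J (Finset.mem_image_of_mem fl hl), Finset.mul_sum]
      refine Finset.sum_congr rfl fun j _ => ?_
      split_ifs
      · congr 2; ring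
      · simp
    rw [Finset.sum_congr rfl this, Finset.sum_comm]
    refine Finset.sum_congr rfl fun j _ => ?_
    split_ifs <;> simp
  have h2 : ∀ j : ℤ, |dk k (2 ^ s * h / (2 * π)) bump0 (2 ^ s * y / (2 * π) - j)| ≤ B := by
    intro j
    refine (hC _ _).trans (mul_le_mul_of_nonneg_left (min_le_min le_rfl ?_) (by linarith))
    refine pow_le_pow_left₀ (abs_nonneg _) ?_ k
    rw [abs_div, abs_mul, abs_of_pos (by positivity : (0 : ℝ) < 2 ^ s),
      abs_of_pos (by positivity : (0 : ℝ) < 2 * π)]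
    exact div_le_self (by positivity) (by linarith)
  rw [h1]
  refine (Finset.abs_sum_le_sum_abs _ _).trans ?_
  calc ∑ j ∈ J, |if (j : ZMod (2 ^ s)) = κ then
        dk k (2 ^ s * h / (2 * π)) bump0 (2 ^ s * y / (2 * π) - j) else 0|
      ≤ ∑ j ∈ J, B * if (j : ZMod (2 ^ s)) = κ then 1 else 0 := by
        refine Finset.sum_le_sum fun j _ => ?_
        split_ifs
        · rw [mul_one]; exact h2 j
        · simp
    _ ≤ ∑ l ∈ Finset.range (k + 1), B * if ((fl l : ℤ) : ZMod (2 ^ s)) = κ then 1 else 0 := by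
        refine Finset.sum_image_le_of_nonneg (f := fun j : ℤ =>
          B * if (j : ZMod (2 ^ s)) = κ then 1 else 0) fun j _ => ?_
        split_ifs <;> simp [hB0]
    _ = _ := by rw [Finset.mul_sum]; rfl

theorem continuous_psiR (s : ℕ) (κ : ZMod (2 ^ s)) : Continuous (psiR s κ) := by
  obtain ⟨C, hC1, hC⟩ := exists_dk_psiR 1
  refine (LipschitzWith.of_dist_le' (K := C * 2 ^ s * 2) fun x y => ?_).continuous
  have h1 := hC s κ (x - y) y
  have h2 : dk 1 (x - y) (psiR s κ) y = psiR s κ x - psiR s κ y := by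
    simp [dk, Finset.sum_range_succ]; ring
  rw [h2] at h1
  rw [Real.dist_eq, Real.dist_eq]
  refine h1.trans ?_
  have h3 : (∑ l ∈ Finset.range (1 + 1), if cellR s (y + l * (x - y)) = κ then (1 : ℝ) else 0)
      ≤ 2 := by
    rw [Finset.sum_range_succ, Finset.sum_range_one]
    split_ifs <;> norm_num
  have h4 : min 1 ((2 ^ s * |x - y|) ^ 1) ≤ 2 ^ s * |x - y| := by
    rw [pow_one]; exact min_le_right _ _
  have h5 : 0 ≤ min 1 ((2 ^ s * |x - y|) ^ 1) := le_min zero_le_one (by positivity)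
  calc _ ≤ C * (2 ^ s * |x - y|) * 2 := by gcongr
    _ = _ := by ring

/-- cell index on the circle -/
noncomputable def cell (s : ℕ) : AddCircle (2 * π) → ZMod (2 ^ s) := (cellR_periodic s).lift

/-- bump on the circle -/
noncomputable def psi (s : ℕ) (κ : ZMod (2 ^ s)) : AddCircle (2 * π) → ℝ :=
  (psiR_periodic s κ).lift

theorem cell_coe (s : ℕ) (y : ℝ) : cell s (y : AddCircle (2 * π)) = cellR s y := rfl

theorem psi_coe (s : ℕ) (κ : ZMod (2 ^ s)) (y : ℝ) :
    psi s κ (y : AddCircle (2 * π)) = psiR s κ y := rfl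

theorem continuous_psi (s : ℕ) (κ : ZMod (2 ^ s)) : Continuous (psi s κ) :=
  (QuotientAddGroup.isQuotientMap_mk _).continuous_iff.2 (continuous_psiR s κ)

theorem psi_nonneg (s : ℕ) (κ : ZMod (2 ^ s)) (x : AddCircle (2 * π)) : 0 ≤ psi s κ x := by
  induction x using QuotientAddGroup.induction_on with
  | H y => exact psiR_nonneg s κ y

theorem psi_le_one (s : ℕ) (κ : ZMod (2 ^ s)) (x : AddCircle (2 * π)) : psi s κ x ≤ 1 := by
  induction x using QuotientAddGroup.induction_on with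
  | H y => exact psiR_le_one s κ y

theorem psi_eq_zero (s : ℕ) (κ : ZMod (2 ^ s)) (x : AddCircle (2 * π)) (h : cell s x ≠ κ) :
    psi s κ x = 0 := by
  induction x using QuotientAddGroup.induction_on with
  | H y => exact if_neg h

theorem measurableSet_cellR (s : ℕ) (κ : ZMod (2 ^ s)) : MeasurableSet {y | cellR s y = κ} := by
  have h : Measurable fun y : ℝ => ⌊2 ^ s * y / (2 * π)⌋ := by fun_prop
  exact h (MeasurableSet.of_discrete (s := {j : ℤ | (j : ZMod (2 ^ s)) = κ}))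

theorem measurableSet_cell (s : ℕ) (κ : ZMod (2 ^ s)) : MeasurableSet {x | cell s x = κ} :=
  measurableSet_quotient.2 (measurableSet_cellR s κ)

theorem volume_cell_le (s : ℕ) (κ : ZMod (2 ^ s)) :
    volume {x | cell s x = κ} ≤ ENNReal.ofReal (2 * π / 2 ^ s) := by
  have hpi := Real.pi_pos
  rw [AddCircle.add_projection_respects_measure (2 * π) 0 (measurableSet_cell s κ)]
  have hsub : QuotientAddGroup.mk ⁻¹' {x | cell s x = κ} ∩ Set.Ioc 0 (0 + 2 * π) ⊆
      Set.Icc (κ.val * (2 * π / 2 ^ s)) ((κ.val + 1) * (2 * π / 2 ^ s)) ∪ {2 * π} := by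
    rintro y ⟨hy, hy0, hy1⟩
    rw [zero_add] at hy1
    rcases hy1.eq_or_lt with h | h
    · right; exact h
    left
    have hy' : cellR s y = κ := hy
    set j := ⌊2 ^ s * y / (2 * π)⌋ with hj
    have hj0 : 0 ≤ j := Int.floor_nonneg.2 (by positivity)
    have hj1 : j < ((2 ^ s : ℕ) : ℤ) := by
      rw [hj, Int.floor_lt]
      push_cast
      rw [div_lt_iff₀ (by positivity)]
      exact mul_lt_mul_of_pos_left h (by positivity)
    have hval : (κ.val : ℤ) = j := by
      rw [← hy']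
      change (((j : ZMod (2 ^ s))).val : ℤ) = j
      rw [ZMod.val_intCast, Int.emod_eq_of_lt hj0 hj1]
    have hval' : (κ.val : ℝ) = j := by exact_mod_cast hval
    rw [hval']
    have h1 := Int.floor_le (2 ^ s * y / (2 * π))
    have h2 := Int.lt_floor_add_one (2 ^ s * y / (2 * π))
    rw [← hj] at h1 h2
    rw [le_div_iff₀ (by positivity)] at h1
    rw [div_lt_iff₀ (by positivity)] at h2
    constructor
    · rw [← mul_div_assoc, div_le_iff₀ (by positivity)]; linarith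
    · rw [← mul_div_assoc, le_div_iff₀ (by positivity)]; linarith
  refine (measure_mono hsub).trans ((measure_union_le _ _).trans ?_)
  rw [Real.volume_Icc, Real.volume_singleton, add_zero]
  exact le_of_eq (congrArg _ (by ring))

theorem integral_psi_ge (s : ℕ) (κ : ZMod (2 ^ s)) : π / 2 ^ s ≤ ∫ x, psi s κ x := by
  have hpi := Real.pi_pos
  rw [← AddCircle.integral_preimage (2 * π) 0]
  simp only [psi_coe]
  set a : ℝ := (κ.val + 1 / 4) * (2 * π / 2 ^ s) with ha
  set b : ℝ := (κ.val + 3 / 4) * (2 * π / 2 ^ s) with hb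
  have hκ : (κ.val : ℝ) + 1 ≤ 2 ^ s := by
    have := ZMod.val_lt κ
    exact_mod_cast this
  have hsub : Set.Icc a b ⊆ Set.Ioc 0 (0 + 2 * π) := by
    rintro y ⟨h1, h2⟩
    refine ⟨lt_of_lt_of_le (by positivity) h1, h2.trans ?_⟩
    rw [zero_add, hb, ← mul_div_assoc, div_le_iff₀ (by positivity)]
    nlinarith
  have hone : ∀ y ∈ Set.Icc a b, psiR s κ y = 1 := by
    rintro y ⟨h1, h2⟩
    have e1 : (κ.val : ℝ) + 1 / 4 ≤ 2 ^ s * y / (2 * π) := by
      rw [ha, ← mul_div_assoc, div_le_iff₀ (by positivity)] at h1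
      rw [le_div_iff₀ (by positivity)]; linarith
    have e2 : 2 ^ s * y / (2 * π) ≤ (κ.val : ℝ) + 3 / 4 := by
      rw [hb, ← mul_div_assoc, le_div_iff₀ (by positivity)] at h2
      rw [div_le_iff₀ (by positivity)]; linarith
    have e3 : ⌊2 ^ s * y / (2 * π)⌋ = (κ.val : ℤ) := by
      rw [Int.floor_eq_iff]; push_cast; constructor <;> linarith
    have e4 : cellR s y = κ := by
      unfold cellR; rw [e3]; simp
    unfold psiR
    rw [if_pos e4, Int.fract, e3]
    apply bump0_eq_one <;> push_cast <;> linarith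
  have hint : IntegrableOn (psiR s κ) (Set.Ioc 0 (0 + 2 * π)) :=
    ((continuous_psiR s κ).integrableOn_Icc).mono_set Set.Ioc_subset_Icc_self
  calc π / 2 ^ s = ∫ y in Set.Icc a b, (1 : ℝ) := by
        rw [setIntegral_const, smul_eq_mul, mul_one, Real.volume_real_Icc, max_eq_left]
        · rw [ha, hb]; ring
        · rw [ha, hb]
          have : 0 < 2 * π / 2 ^ s := by positivity
          nlinarith
    _ = ∫ y in Set.Icc a b, psiR s κ y :=
        setIntegral_congr_fun measurableSet_Icc fun y hy => (hone y hy).symm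
    _ ≤ _ := setIntegral_mono_set hint
        (Filter.Eventually.of_forall fun y => psiR_nonneg s κ y) hsub.eventuallyLE

end Pool.Agent.MixedBesov
end

-- part Pool.Agent.Lib.MP_919f0c_an.Tensor
section

/-!
# Tensor product bumps on the torus
-/

open Finset MeasureTheory
open scoped Real ENNReal

namespace Pool.Agent.MixedBesov

variable {d : ℕ}

/-- positions of the dyadic boxes of shape `s` -/
abbrev Pos (s : Fin d → ℕ) : Type := (i : Fin d) → ZMod (2 ^ s i)

/-- the box of shape `s` containing `x` -/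
noncomputable def cellT (s : Fin d → ℕ) (x : Torus d) : Pos s := fun i => cell (s i) (x i)

/-- the tensor bump -/
noncomputable def psiT (s : Fin d → ℕ) (κ : Pos s) (x : Torus d) : ℝ :=
  ∏ i, psi (s i) (κ i) (x i)

theorem card_Pos (s : Fin d → ℕ) : Fintype.card (Pos s) = 2 ^ (∑ i, s i) := by
  rw [Fintype.card_pi, ← Finset.prod_pow_eq_pow_sum]
  simp [ZMod.card]

theorem continuous_psiT (s : Fin d → ℕ) (κ : Pos s) : Continuous (psiT s κ) :=
  continuous_finsetProd _ fun i _ => (continuous_psi _ _).comp (continuous_apply i)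

theorem psiT_nonneg (s : Fin d → ℕ) (κ : Pos s) (x : Torus d) : 0 ≤ psiT s κ x :=
  Finset.prod_nonneg fun _ _ => psi_nonneg _ _ _

theorem psiT_le_one (s : Fin d → ℕ) (κ : Pos s) (x : Torus d) : psiT s κ x ≤ 1 :=
  Finset.prod_le_one (fun _ _ => psi_nonneg _ _ _) fun _ _ => psi_le_one _ _ _

theorem psiT_eq_zero (s : Fin d → ℕ) (κ : Pos s) (x : Torus d) (h : cellT s x ≠ κ) :
    psiT s κ x = 0 := by
  obtain ⟨i, hi⟩ := Function.ne_iff.1 h
  exact Finset.prod_eq_zero (Finset.mem_univ i) (psi_eq_zero _ _ _ hi)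

theorem cellT_set (s : Fin d → ℕ) (κ : Pos s) :
    {x : Torus d | cellT s x = κ} = Set.pi Set.univ fun i => {y | cell (s i) y = κ i} := by
  ext x; simp [cellT, funext_iff]

theorem measurableSet_cellT (s : Fin d → ℕ) (κ : Pos s) :
    MeasurableSet {x : Torus d | cellT s x = κ} := by
  rw [cellT_set]
  exact MeasurableSet.univ_pi fun i => measurableSet_cell _ _

theorem real_cell_le (s : ℕ) (κ : ZMod (2 ^ s)) :
    (volume : Measure (AddCircle (2 * π))).real {x | cell s x = κ} ≤ 2 * π / 2 ^ s :=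
  ENNReal.toReal_le_of_le_ofReal (by have := Real.pi_pos; positivity) (volume_cell_le s κ)

theorem real_pi (A : Fin d → Set (AddCircle (2 * π))) :
    (volume : Measure (Torus d)).real (Set.pi Set.univ A) = ∏ i, volume.real (A i) := by
  rw [Measure.real, volume_pi_pi, ENNReal.toReal_prod]; rfl

theorem prod_vol (s : Fin d → ℕ) :
    ∏ i, (2 * π / 2 ^ s i : ℝ) = (2 * π) ^ d / 2 ^ (∑ i, s i) := by
  rw [Finset.prod_div_distrib, Finset.prod_pow_eq_pow_sum]; simp

theorem real_cellT_le (s : Fin d → ℕ) (κ : Pos s) :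
    (volume : Measure (Torus d)).real {x | cellT s x = κ} ≤ (2 * π) ^ d / 2 ^ (∑ i, s i) := by
  rw [cellT_set, real_pi, ← prod_vol]
  exact Finset.prod_le_prod (fun _ _ => measureReal_nonneg) fun i _ => real_cell_le _ _

/-- overlap weight -/
noncomputable def qw (s s' : Fin d → ℕ) : ℝ := ∏ i, (15 / 16 : ℝ) ^ Nat.dist (s i) (s' i)

theorem qw_pos (s s' : Fin d → ℕ) : 0 < qw s s' := Finset.prod_pos fun _ _ => by positivity

theorem qw_symm (s s' : Fin d → ℕ) : qw s s' = qw s' s :=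
  Finset.prod_congr rfl fun i _ => by rw [Nat.dist_comm]

theorem inv_pow_max_le (a b : ℕ) : (1 / 2 ^ max a b : ℝ) ≤
    √(1 / 2) ^ a * √(1 / 2) ^ b * ((15 / 16 : ℝ) ^ Nat.dist a b) ^ 4 := by
  have h1 : √(1 / 2 : ℝ) ≤ (15 / 16) ^ 4 := Real.sqrt_le_iff.2 ⟨by positivity, by norm_num⟩
  have h2 : a + b + Nat.dist a b = 2 * max a b := by unfold Nat.dist; omega
  have h3 : (1 / 2 ^ max a b : ℝ) = √(1 / 2) ^ a * √(1 / 2) ^ b * √(1 / 2) ^ Nat.dist a b := by
    rw [← pow_add, ← pow_add, h2, pow_mul, Real.sq_sqrt (by norm_num), one_div_pow]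
  rw [h3, ← pow_mul, mul_comm (Nat.dist a b) 4, pow_mul]
  gcongr

theorem real_overlap_le {n : ℕ} (s s' : Fin d → ℕ) (hs : ∑ i, s i = n) (hs' : ∑ i, s' i = n)
    (κ : Pos s) (κ' : Pos s') :
    (volume : Measure (Torus d)).real {x | cellT s x = κ ∧ cellT s' x = κ'} ≤
      (2 * π) ^ d / 2 ^ n * qw s s' ^ 4 := by
  have hpi := Real.pi_pos
  have e : {x : Torus d | cellT s x = κ ∧ cellT s' x = κ'} =
      Set.pi Set.univ fun i => {y | cell (s i) y = κ i} ∩ {y | cell (s' i) y = κ' i} := by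
    ext x; simp [cellT, funext_iff, forall_and]
  rw [e, real_pi]
  have h1 : ∀ i, volume.real ({y | cell (s i) y = κ i} ∩ {y | cell (s' i) y = κ' i}) ≤
      2 * π * (√(1 / 2) ^ s i * √(1 / 2) ^ s' i * ((15 / 16 : ℝ) ^ Nat.dist (s i) (s' i)) ^ 4) := by
    intro i
    refine le_trans ?_ (mul_le_mul_of_nonneg_left (inv_pow_max_le _ _) (by positivity))
    rw [mul_one_div]
    rcases le_total (s i) (s' i) with h | h
    · rw [max_eq_right h]
      exact (measureReal_mono Set.inter_subset_right).trans (real_cell_le _ _)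
    · rw [max_eq_left h]
      exact (measureReal_mono Set.inter_subset_left).trans (real_cell_le _ _)
  refine (Finset.prod_le_prod (fun _ _ => measureReal_nonneg) fun i _ => h1 i).trans (le_of_eq ?_)
  rw [Finset.prod_mul_distrib, Finset.prod_const, Finset.prod_mul_distrib, Finset.prod_mul_distrib,
    Finset.prod_pow_eq_pow_sum, Finset.prod_pow_eq_pow_sum, hs, hs', Finset.prod_pow, ← mul_pow,
    Real.mul_self_sqrt (by norm_num)]
  simp only [Finset.card_univ, Fintype.card_fin, qw, one_div_pow]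
  ring

theorem sum_dist_le (a N : ℕ) : ∑ b ∈ Finset.range N, (15 / 16 : ℝ) ^ Nat.dist a b ≤ 32 := by
  have hgeo : ∀ M : ℕ, ∑ j ∈ Finset.range M, (15 / 16 : ℝ) ^ j ≤ 16 := by
    intro M
    have := geom_sum_eq (x := (15 / 16 : ℝ)) (by norm_num) M
    rw [this]
    have : (0 : ℝ) ≤ (15 / 16) ^ M := by positivity
    rw [div_le_iff_of_neg (by norm_num)]; linarith
  have key : ∀ (A : Finset ℕ) (M : ℕ), Set.InjOn (fun b => Nat.dist a b) A →
      (∀ b ∈ A, Nat.dist a b < M) → ∑ b ∈ A, (15 / 16 : ℝ) ^ Nat.dist a b ≤ 16 := by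
    intro A M hinj hM
    refine le_trans ?_ (hgeo M)
    rw [← Finset.sum_image (f := fun j => (15 / 16 : ℝ) ^ j) hinj]
    refine Finset.sum_le_sum_of_subset_of_nonneg ?_ fun _ _ _ => by positivity
    intro j hj
    obtain ⟨b, hb, rfl⟩ := Finset.mem_image.1 hj
    exact Finset.mem_range.2 (hM b hb)
  rw [← Finset.sum_filter_add_sum_filter_not (Finset.range N) (fun b => b ≤ a)]
  have h1 := key ((Finset.range N).filter (fun b => b ≤ a)) (a + 1) (by
    intro b hb b' hb' h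
    simp only [Finset.coe_filter, Set.mem_ofPred_eq, Nat.dist] at hb hb' h
    omega) (by
    intro b hb
    simp only [Finset.mem_filter, Nat.dist] at hb ⊢
    omega)
  have h2 := key ((Finset.range N).filter (fun b => ¬ b ≤ a)) N (by
    intro b hb b' hb' h
    simp only [Finset.coe_filter, Set.mem_ofPred_eq, Nat.dist] at hb hb' h
    omega) (by
    intro b hb
    simp only [Finset.mem_filter, Nat.dist, Finset.mem_range] at hb ⊢
    omega)
  linarith

theorem sum_prod_le_prod_sum {n : ℕ} (𝒮 : Finset (Fin d → ℕ)) (h𝒮 : ∀ s ∈ 𝒮, ∑ i, s i = n)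
    (F : Fin d → ℕ → ℝ) (hF : ∀ i a, 0 ≤ F i a) :
    ∑ s ∈ 𝒮, ∏ i, F i (s i) ≤ ∏ i, ∑ a ∈ Finset.range (n + 1), F i a := by
  rw [Finset.prod_univ_sum]
  refine Finset.sum_le_sum_of_subset_of_nonneg ?_ fun s _ _ => Finset.prod_nonneg fun i _ => hF _ _
  intro s hs
  rw [Fintype.mem_piFinset]
  intro i
  rw [Finset.mem_range, Nat.lt_succ_iff, ← h𝒮 s hs]
  exact Finset.single_le_sum (f := s) (fun _ _ => Nat.zero_le _) (Finset.mem_univ i)

theorem sum_qw_le {n : ℕ} (𝒮 : Finset (Fin d → ℕ)) (h𝒮 : ∀ s ∈ 𝒮, ∑ i, s i = n)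
    (s : Fin d → ℕ) : ∑ s' ∈ 𝒮, qw s s' ≤ 32 ^ d := by
  refine (sum_prod_le_prod_sum 𝒮 h𝒮 (fun i a => (15 / 16 : ℝ) ^ Nat.dist (s i) a)
    fun _ _ => by positivity).trans ?_
  calc _ ≤ ∏ _i : Fin d, (32 : ℝ) :=
        Finset.prod_le_prod (fun _ _ => by positivity) fun i _ => sum_dist_le _ _
    _ = _ := by simp

theorem integral_psiT_ge (s : Fin d → ℕ) (κ : Pos s) :
    π ^ d / 2 ^ (∑ i, s i) ≤ ∫ x, psiT s κ x := by
  have hpi := Real.pi_pos
  unfold psiT
  rw [integral_fintype_prod_volume_eq_prod (fun i x => psi (s i) (κ i) x)]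
  calc π ^ d / 2 ^ (∑ i, s i) = ∏ i, (π / 2 ^ s i : ℝ) := by
        rw [Finset.prod_div_distrib, Finset.prod_pow_eq_pow_sum]; simp
    _ ≤ _ := Finset.prod_le_prod (fun _ _ => by positivity) fun i _ => integral_psi_ge _ _

/-- counting function dominating the differences -/
noncomputable def cnt (k s : ℕ) (κ : ZMod (2 ^ s)) (h : ℝ) (x : AddCircle (2 * π)) : ℝ :=
  ∑ l ∈ Finset.range (k + 1),
    if cell s (x + (((l : ℝ) * h : ℝ) : AddCircle (2 * π))) = κ then 1 else 0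

theorem cnt_nonneg (k s : ℕ) (κ : ZMod (2 ^ s)) (h : ℝ) (x : AddCircle (2 * π)) :
    0 ≤ cnt k s κ h x :=
  Finset.sum_nonneg fun _ _ => by split_ifs <;> norm_num

theorem psi_le_cnt (k s : ℕ) (κ : ZMod (2 ^ s)) (h : ℝ) (x : AddCircle (2 * π)) :
    psi s κ x ≤ cnt k s κ h x := by
  by_cases hx : cell s x = κ
  · refine (psi_le_one s κ x).trans (le_trans ?_ (Finset.single_le_sum (f := fun l : ℕ =>
      if cell s (x + (((l : ℝ) * h : ℝ) : AddCircle (2 * π))) = κ then (1 : ℝ) else 0)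
      (fun _ _ => by split_ifs <;> norm_num) (Finset.mem_range.2 (Nat.succ_pos k))))
    simp [hx]
  · rw [psi_eq_zero s κ x hx]; exact cnt_nonneg _ _ _ _ _

theorem sum_cnt (k s : ℕ) (h : ℝ) (x : AddCircle (2 * π)) : ∑ κ, cnt k s κ h x = k + 1 := by
  unfold cnt
  rw [Finset.sum_comm]
  simp

theorem integrable_cnt (k s : ℕ) (κ : ZMod (2 ^ s)) (h : ℝ) : Integrable (cnt k s κ h) := by
  refine integrable_finsetSum _ fun l _ => ?_
  have h1 : Integrable (Set.indicator {x : AddCircle (2 * π) | cell s x = κ} fun _ => (1 : ℝ)) :=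
    (integrable_const _).indicator (measurableSet_cell s κ)
  have h2 := h1.comp_add_right (((l : ℝ) * h : ℝ) : AddCircle (2 * π))
  simpa [Set.indicator] using h2

theorem integral_cnt_le (k s : ℕ) (κ : ZMod (2 ^ s)) (h : ℝ) :
    ∫ x, cnt k s κ h x ≤ (k + 1) * (2 * π / 2 ^ s) := by
  have h1 : Integrable (Set.indicator {x : AddCircle (2 * π) | cell s x = κ} fun _ => (1 : ℝ)) :=
    (integrable_const _).indicator (measurableSet_cell s κ)
  have h3 : ∀ c : AddCircle (2 * π), (fun x => if cell s (x + c) = κ then (1 : ℝ) else 0) =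
      fun x => Set.indicator {x : AddCircle (2 * π) | cell s x = κ} (fun _ => (1 : ℝ)) (x + c) := by
    intro c; funext x; simp [Set.indicator]
  unfold cnt
  rw [integral_finsetSum _ fun l _ => by rw [h3]; exact h1.comp_add_right _]
  calc _ ≤ ∑ _l ∈ Finset.range (k + 1), 2 * π / 2 ^ s := by
        refine Finset.sum_le_sum fun l _ => ?_
        rw [h3, integral_add_right_eq_self, integral_indicator_const _ (measurableSet_cell s κ),
          smul_eq_mul, mul_one]
        exact real_cell_le s κ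
    _ = _ := by simp

theorem mixedDiff_psiT (k : ℕ) (e : Finset (Fin d)) (h : Fin d → ℝ) (s : Fin d → ℕ) (κ : Pos s)
    (x : Torus d) : mixedDiff k e h (psiT s κ) x =
      ∏ i, if i ∈ e then ∑ j ∈ Finset.range (k + 1), ((-1 : ℝ) ^ (k - j) * (k.choose j : ℝ)) *
        psi (s i) (κ i) (x i + (((j : ℝ) * h i : ℝ) : AddCircle (2 * π)))
      else psi (s i) (κ i) (x i) := by
  have h1 : ∀ i, (if i ∈ e then ∑ j ∈ Finset.range (k + 1),
        ((-1 : ℝ) ^ (k - j) * (k.choose j : ℝ)) *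
        psi (s i) (κ i) (x i + (((j : ℝ) * h i : ℝ) : AddCircle (2 * π)))
      else psi (s i) (κ i) (x i)) = ∑ j ∈ (if i ∈ e then Finset.range (k + 1) else {0}),
        (if i ∈ e then ((-1 : ℝ) ^ (k - j) * (k.choose j : ℝ)) else 1) *
        psi (s i) (κ i) (x i + (((j : ℝ) * h i : ℝ) : AddCircle (2 * π))) := by
    intro i; split_ifs <;> simp
  simp_rw [h1]
  rw [Finset.prod_univ_sum]
  unfold mixedDiff psiT
  refine Finset.sum_congr rfl fun j _ => ?_
  rw [smul_eq_mul]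
  conv_rhs => rw [Finset.prod_mul_distrib, Finset.prod_ite_mem_eq]
  rfl

theorem exists_mixedDiff_psiT (d k : ℕ) : ∃ C : ℝ, 0 < C ∧ ∀ (e : Finset (Fin d)) (h : Fin d → ℝ)
    (s : Fin d → ℕ) (κ : Pos s) (x : Torus d), |mixedDiff k e h (psiT s κ) x| ≤
      C * (∏ i ∈ e, min 1 ((2 ^ s i * |h i|) ^ k)) * ∏ i, cnt k (s i) (κ i) (h i) (x i) := by
  obtain ⟨C, hC1, hC⟩ := exists_dk_psiR k
  refine ⟨C ^ d, by positivity, fun e h s κ x => ?_⟩
  rw [mixedDiff_psiT, Finset.abs_prod, ← Finset.prod_ite_mem_eq e]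
  have e1 : C ^ d = ∏ _i : Fin d, C := by simp
  rw [e1, ← Finset.prod_mul_distrib, ← Finset.prod_mul_distrib]
  refine Finset.prod_le_prod (fun _ _ => abs_nonneg _) fun i _ => ?_
  split_ifs
  · obtain ⟨y, hy⟩ := QuotientAddGroup.mk_surjective (x i)
    rw [← hy]
    exact hC (s i) (κ i) (h i) y
  · rw [abs_of_nonneg (psi_nonneg _ _ _), mul_one]
    exact (psi_le_cnt k _ _ (h i) _).trans (le_mul_of_one_le_left (cnt_nonneg _ _ _ _ _) hC1)

theorem sum_prod_cnt (k : ℕ) (s : Fin d → ℕ) (h : Fin d → ℝ) (x : Torus d) :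
    ∑ κ : Pos s, ∏ i, cnt k (s i) (κ i) (h i) (x i) = (k + 1) ^ d := by
  have := Finset.prod_univ_sum (fun i => (Finset.univ : Finset (ZMod (2 ^ s i))))
    (fun i κ => cnt k (s i) κ (h i) (x i))
  rw [Fintype.piFinset_univ] at this
  rw [← this]
  simp [sum_cnt]

theorem integrable_prod_cnt (k : ℕ) (s : Fin d → ℕ) (κ : Pos s) (h : Fin d → ℝ) :
    Integrable fun x : Torus d => ∏ i, cnt k (s i) (κ i) (h i) (x i) :=
  Integrable.fintype_prod (f := fun i => cnt k (s i) (κ i) (h i))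
    fun i => integrable_cnt k (s i) (κ i) (h i)

theorem integral_prod_cnt_le (k : ℕ) (s : Fin d → ℕ) (κ : Pos s) (h : Fin d → ℝ) :
    ∫ x : Torus d, ∏ i, cnt k (s i) (κ i) (h i) (x i) ≤
      (k + 1) ^ d * ((2 * π) ^ d / 2 ^ (∑ i, s i)) := by
  rw [integral_fintype_prod_volume_eq_prod (fun i x => cnt k (s i) (κ i) (h i) x), ← prod_vol]
  have e1 : ((k : ℝ) + 1) ^ d = ∏ _i : Fin d, ((k : ℝ) + 1) := by simp
  rw [e1, ← Finset.prod_mul_distrib]
  exact Finset.prod_le_prod (fun _ _ => integral_nonneg fun _ => cnt_nonneg _ _ _ _ _)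
    fun i _ => integral_cnt_le _ _ _ _

end Pool.Agent.MixedBesov
end

-- part Pool.Agent.Lib.MP_919f0c_an.BesovTest
section

/-!
# Besov norm of hyperbolic layers of bumps
-/

open Finset MeasureTheory
open scoped Real ENNReal

namespace Pool.Agent.MixedBesov

variable {d : ℕ}

/-- auxiliary weight -/
noncomputable def NN (x : ℝ) : ℝ := x / (1 + x) ^ 2

theorem NN_nonneg {x : ℝ} (hx : 0 ≤ x) : 0 ≤ NN x := by unfold NN; positivity

theorem NN_le_one {x : ℝ} (hx : 0 ≤ x) : NN x ≤ 1 := by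
  unfold NN; rw [div_le_one (by positivity)]; nlinarith

theorem weight_le_NN {k : ℕ} {r σ u : ℝ} (hσ : 0 < σ) (h1 : σ ≤ r) (h2 : σ ≤ k - r) (hu : 0 < u) :
    u ^ (-r) * min 1 (u ^ k) ≤ 4 * NN (u ^ σ) := by
  have hx : 0 < u ^ σ := Real.rpow_pos_of_pos hu σ
  have hr : 0 < u ^ (-r) := Real.rpow_pos_of_pos hu _
  unfold NN
  rcases le_total u 1 with h | h
  · have e1 : u ^ (-r) * min 1 (u ^ k) ≤ u ^ σ := by
      calc _ ≤ u ^ (-r) * u ^ k := mul_le_mul_of_nonneg_left (min_le_right _ _) hr.le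
        _ = u ^ ((k : ℝ) - r) := by
          rw [← Real.rpow_natCast, ← Real.rpow_add hu]; congr 1; ring
        _ ≤ u ^ σ := Real.rpow_le_rpow_of_exponent_ge hu h h2
    have e2 : u ^ σ ≤ 1 := Real.rpow_le_one hu.le h hσ.le
    refine e1.trans ?_
    rw [← mul_div_assoc, le_div_iff₀ (by positivity)]
    nlinarith [mul_le_mul_of_nonneg_left (show (1 + u ^ σ) ^ 2 ≤ 4 by nlinarith) hx.le]
  · have e1 : u ^ (-r) * min 1 (u ^ k) ≤ (u ^ σ)⁻¹ := by
      calc _ ≤ u ^ (-r) * 1 := mul_le_mul_of_nonneg_left (min_le_left _ _) hr.le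
        _ ≤ u ^ (-σ) := by
          rw [mul_one]; exact Real.rpow_le_rpow_of_exponent_le h (by linarith)
        _ = _ := Real.rpow_neg hu.le σ
    have e2 : 1 ≤ u ^ σ := Real.one_le_rpow h hσ.le
    refine e1.trans ?_
    rw [← mul_div_assoc, inv_eq_one_div, div_le_div_iff₀ hx (by positivity)]
    nlinarith

theorem sum_NN_le {σ t : ℝ} (hσ : 0 < σ) (ht : 0 < t) (N : ℕ) :
    ∑ a ∈ Finset.range N, NN ((2 ^ a * t) ^ σ) ≤ 2 ^ σ / (2 ^ σ - 1) := by
  have hρ : (1 : ℝ) < 2 ^ σ := Real.one_lt_rpow (by norm_num) hσ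
  set ρ : ℝ := 2 ^ σ with hρd
  let x : ℕ → ℝ := fun a => (2 ^ a * t) ^ σ
  have hx : ∀ a, 0 < x a := fun a => Real.rpow_pos_of_pos (by positivity) σ
  have hxs : ∀ a, x (a + 1) = ρ * x a := by
    intro a
    simp only [x]
    rw [hρd, ← Real.mul_rpow (by norm_num) (by positivity)]
    congr 1; ring
  let G : ℕ → ℝ := fun a => x a / (1 + x a)
  have hstep : ∀ a, NN (x a) ≤ ρ / (ρ - 1) * (G (a + 1) - G a) := by
    intro a
    have h0 := hx a
    simp only [G, hxs, NN]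
    have e : ρ / (ρ - 1) * (ρ * x a / (1 + ρ * x a) - x a / (1 + x a)) =
        ρ * x a / ((1 + ρ * x a) * (1 + x a)) := by
      have : ρ - 1 ≠ 0 := by linarith
      field_simp; ring
    rw [e, div_le_div_iff₀ (by positivity) (by positivity)]
    have : 0 < x a * (1 + x a) := by positivity
    nlinarith
  calc ∑ a ∈ Finset.range N, NN (x a) ≤ ∑ a ∈ Finset.range N, ρ / (ρ - 1) * (G (a + 1) - G a) :=
        Finset.sum_le_sum fun a _ => hstep a
    _ = ρ / (ρ - 1) * (G N - G 0) := by rw [← Finset.mul_sum, Finset.sum_range_sub]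
    _ ≤ ρ / (ρ - 1) * 1 := by
        refine mul_le_mul_of_nonneg_left ?_ (div_nonneg (by linarith) (by linarith))
        have h1 : G N ≤ 1 := by
          simp only [G]; rw [div_le_one (by linarith [hx N])]; linarith
        have h2 : 0 ≤ G 0 := by simp only [G]; have := hx 0; positivity
        linarith
    _ = _ := mul_one _

theorem integral_NN {σ lam : ℝ} (hσ : 0 < σ) (hl : 0 < lam) :
    IntegrableOn (fun t => NN ((lam * t) ^ σ) * t⁻¹) (Set.Ioo 0 (2 * π)) ∧
      ∫ t in Set.Ioo 0 (2 * π), NN ((lam * t) ^ σ) * t⁻¹ ≤ σ⁻¹ := by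
  have hpi := Real.pi_pos
  let g : ℝ → ℝ := fun t => (lam * t) ^ σ / (1 + (lam * t) ^ σ)
  let g' : ℝ → ℝ := fun t => σ * (NN ((lam * t) ^ σ) * t⁻¹)
  have hc0 : Continuous fun t : ℝ => (lam * t) ^ σ :=
    (Real.continuous_rpow_const hσ.le).comp (continuous_const.mul continuous_id)
  have hcont : ContinuousOn g (Set.Icc 0 (2 * π)) := by
    refine hc0.continuousOn.div (continuous_const.add hc0).continuousOn fun t ht => ?_
    have : 0 ≤ (lam * t) ^ σ := Real.rpow_nonneg (mul_nonneg hl.le ht.1) σ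
    linarith
  have hder : ∀ t ∈ Set.Ioo 0 (2 * π), HasDerivAt g (g' t) t := by
    intro t ht
    have hlt : 0 < lam * t := mul_pos hl ht.1
    have hx : 0 < (lam * t) ^ σ := Real.rpow_pos_of_pos hlt σ
    have h1 : HasDerivAt (fun t : ℝ => lam * t) lam t := by
      simpa using (hasDerivAt_id t).const_mul lam
    have h2 := h1.rpow_const (p := σ) (Or.inl hlt.ne')
    have h3 := h2.div (h2.const_add 1) (by linarith)
    have ht0 := ht.1.ne'
    refine h3.congr_deriv ?_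
    simp only [g', NN]
    rw [Real.rpow_sub_one hlt.ne']
    field_simp; ring
  have hnn : ∀ t ∈ Set.Ioo 0 (2 * π), 0 ≤ g' t := by
    intro t ht
    have := NN_nonneg (Real.rpow_nonneg (mul_pos hl ht.1).le σ)
    have := ht.1
    simp only [g']; positivity
  have hint : IntegrableOn g' (Set.Ioc 0 (2 * π)) :=
    intervalIntegral.integrableOn_deriv_of_nonneg hcont hder hnn
  have hftc := intervalIntegral.integral_eq_sub_of_hasDerivAt_of_le (by positivity) hcont hder
    ((intervalIntegrable_iff_integrableOn_Ioc_of_le (by positivity)).2 hint)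
  have hint2 : IntegrableOn (fun t => NN ((lam * t) ^ σ) * t⁻¹) (Set.Ioo 0 (2 * π)) := by
    have := (hint.mono_set Set.Ioo_subset_Ioc_self).const_mul σ⁻¹
    refine this.congr (Filter.Eventually.of_forall fun t => ?_)
    simp only [g']; field_simp
  refine ⟨hint2, ?_⟩
  rw [intervalIntegral.integral_of_le (by positivity), integral_Ioc_eq_integral_Ioo] at hftc
  simp only [g'] at hftc
  rw [integral_const_mul] at hftc
  have h1 : g (2 * π) ≤ 1 := by
    have : 0 ≤ (lam * (2 * π)) ^ σ := by positivity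
    simp only [g]; rw [div_le_one (by linarith)]; linarith
  have h2 : 0 ≤ g 0 := by
    have : 0 ≤ (lam * 0) ^ σ := by positivity
    simp only [g]; positivity
  rw [← mul_le_mul_iff_right₀ hσ, mul_inv_cancel₀ hσ.ne']
  linarith

/-- the majorant of the modulus of smoothness -/
noncomputable def Phi (k : ℕ) (𝒮 : Finset (Fin d → ℕ)) (e : Finset (Fin d)) (t : Fin d → ℝ) : ℝ :=
  ∑ s ∈ 𝒮, ∏ i ∈ e, min 1 ((2 ^ s i * t i) ^ k)

theorem Phi_nonneg (k : ℕ) (𝒮 : Finset (Fin d → ℕ)) (e : Finset (Fin d)) {t : Fin d → ℝ}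
    (ht : ∀ i ∈ e, 0 ≤ t i) : 0 ≤ Phi k 𝒮 e t :=
  Finset.sum_nonneg fun s _ => Finset.prod_nonneg fun i hi =>
    le_min zero_le_one (by have := ht i hi; positivity)

theorem Phi_mono (k : ℕ) (𝒮 : Finset (Fin d → ℕ)) (e : Finset (Fin d)) {t t' : Fin d → ℝ}
    (ht : ∀ i ∈ e, 0 ≤ t i) (h : ∀ i ∈ e, t i ≤ t' i) : Phi k 𝒮 e t ≤ Phi k 𝒮 e t' :=
  Finset.sum_le_sum fun s _ => Finset.prod_le_prod
    (fun i hi => le_min zero_le_one (by have := ht i hi; positivity)) fun i hi =>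
      min_le_min le_rfl (by have := ht i hi; have := h i hi; gcongr)

theorem weighted_Phi_le {k n : ℕ} {r σ : ℝ} (hσ : 0 < σ) (h1 : σ ≤ r) (h2 : σ ≤ k - r)
    (𝒮 : Finset (Fin d → ℕ)) (h𝒮 : ∀ s ∈ 𝒮, ∑ i, s i = n) (e : Finset (Fin d)) {t : Fin d → ℝ}
    (ht : ∀ i, 0 < t i) :
    (∏ i ∈ e, t i ^ (-r)) * Phi k 𝒮 e t ≤ (2 ^ n) ^ r *
      ∑ s ∈ 𝒮, ∏ i, 4 * NN ((2 ^ s i * if i ∈ e then t i else 1) ^ σ) := by
  unfold Phi
  rw [Finset.mul_sum, Finset.mul_sum]
  refine Finset.sum_le_sum fun s hs => ?_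
  have e1 : ((2 : ℝ) ^ n) ^ r = ∏ i, ((2 : ℝ) ^ s i) ^ r := by
    rw [Real.finsetProd_rpow _ _ (fun _ _ => by positivity), Finset.prod_pow_eq_pow_sum, h𝒮 s hs]
  rw [e1, ← Finset.prod_mul_distrib, ← Finset.prod_mul_distrib, ← Finset.prod_ite_mem_eq e]
  refine Finset.prod_le_prod (fun i _ => ?_) fun i _ => ?_
  · have := ht i
    split_ifs
    · exact mul_nonneg (by positivity) (le_min zero_le_one (by positivity))
    · exact zero_le_one
  · have h0 := ht i
    have h2s : (0 : ℝ) < 2 ^ s i := by positivity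
    split_ifs
    · refine le_trans (le_of_eq ?_) (mul_le_mul_of_nonneg_left
        (weight_le_NN hσ h1 h2 (mul_pos h2s h0)) (by positivity))
      rw [Real.mul_rpow h2s.le h0.le, Real.rpow_neg h2s.le]
      have : ((2 : ℝ) ^ s i) ^ r ≠ 0 := by positivity
      field_simp
    · refine le_trans (le_of_eq ?_) (mul_le_mul_of_nonneg_left
        (weight_le_NN hσ h1 h2 (mul_pos h2s one_pos)) (by positivity))
      rw [mul_one, min_eq_left (one_le_pow₀ (one_le_pow₀ (by norm_num))), Real.rpow_neg h2s.le]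
      have : ((2 : ℝ) ^ s i) ^ r ≠ 0 := by positivity
      field_simp

theorem exists_Phi_bounds (d k : ℕ) {r : ℝ} (hr : 0 < r) (hk : r < k) : ∃ C : ℝ, 0 < C ∧
    ∀ (n : ℕ) (𝒮 : Finset (Fin d → ℕ)), (∀ s ∈ 𝒮, ∑ i, s i = n) → ∀ e : Finset (Fin d),
      (∀ t : Fin d → ℝ, (∀ i, 0 < t i) → (∏ i ∈ e, t i ^ (-r)) * Phi k 𝒮 e t ≤ C * (2 ^ n) ^ r) ∧
      ∫⁻ t in Set.pi Set.univ (fun _ : Fin d => Set.Ioo 0 (2 * π)),
        ENNReal.ofReal ((∏ i ∈ e, t i ^ (-r)) * Phi k 𝒮 e t * ∏ i ∈ e, (t i)⁻¹) ≤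
          ENNReal.ofReal (C * (2 ^ n) ^ r * 𝒮.card) := by
  have hpi := Real.pi_pos
  set σ := min r (k - r) with hσd
  have hσ : 0 < σ := lt_min hr (by linarith)
  have h1 : σ ≤ r := min_le_left _ _
  have h2 : σ ≤ k - r := min_le_right _ _
  have hρ : (1 : ℝ) < 2 ^ σ := Real.one_lt_rpow (by norm_num) hσ
  set c : ℝ := 4 * (2 ^ σ / (2 ^ σ - 1)) + 4 * σ⁻¹ + 4 * (2 * π) with hc
  have hc1 : (0 : ℝ) < 2 ^ σ / (2 ^ σ - 1) := div_pos (by linarith) (by linarith)
  have hc0 : 0 < c := by positivity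
  have ecd : c ^ d = ∏ _i : Fin d, c := by simp
  refine ⟨c ^ d, by positivity, fun n 𝒮 h𝒮 e => ⟨fun t ht => ?_, ?_⟩⟩
  · refine (weighted_Phi_le hσ h1 h2 𝒮 h𝒮 e ht).trans ?_
    rw [mul_comm]
    refine mul_le_mul_of_nonneg_right ?_ (by positivity)
    have ht' : ∀ i, 0 < if i ∈ e then t i else 1 := by
      intro i; split_ifs
      · exact ht i
      · exact one_pos
    have hnn : ∀ i (a : ℕ), 0 ≤ 4 * NN ((2 ^ a * if i ∈ e then t i else 1) ^ σ) := fun i a =>
      mul_nonneg (by norm_num) (NN_nonneg (by have := ht' i; positivity))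
    refine (sum_prod_le_prod_sum 𝒮 h𝒮
      (fun i a => 4 * NN ((2 ^ a * if i ∈ e then t i else 1) ^ σ)) hnn).trans ?_
    rw [ecd]
    refine Finset.prod_le_prod (fun i _ => Finset.sum_nonneg fun a _ => hnn i a) fun i _ => ?_
    rw [← Finset.mul_sum]
    have := sum_NN_le hσ (ht' i) (n + 1)
    have h3 : 0 < σ⁻¹ := by positivity
    linarith
  · let χ : Fin d → ℕ → ℝ → ℝ := fun i a τ =>
      if i ∈ e then 4 * (NN ((2 ^ a * τ) ^ σ) * τ⁻¹) else 4
    have hχi : ∀ i a, Integrable (χ i a) (volume.restrict (Set.Ioo 0 (2 * π))) := by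
      intro i a
      by_cases hi : i ∈ e
      · simp only [χ, hi, if_true]
        exact (integral_NN hσ (by positivity)).1.const_mul 4
      · simp only [χ, hi, if_false]
        exact integrable_const _
    have hχ0 : ∀ i a τ, 0 < τ → 0 ≤ χ i a τ := by
      intro i a τ hτ
      have := NN_nonneg (show 0 ≤ (2 ^ a * τ) ^ σ by positivity)
      simp only [χ]; split_ifs <;> positivity
    have hχb : ∀ i a, ∫ τ in Set.Ioo 0 (2 * π), χ i a τ ≤ c := by
      intro i a
      have h3 : 0 < σ⁻¹ := by positivity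
      by_cases hi : i ∈ e
      · simp only [χ, hi, if_true]
        rw [integral_const_mul]
        have := (integral_NN hσ (show (0 : ℝ) < 2 ^ a by positivity)).2
        linarith
      · simp only [χ, hi, if_false]
        rw [setIntegral_const, Real.volume_real_Ioo, smul_eq_mul, max_eq_left (by linarith)]
        linarith
    let Ψ : (Fin d → ℝ) → ℝ := fun t => (2 ^ n) ^ r * ∑ s ∈ 𝒮, ∏ i, χ i (s i) (t i)
    have hmeas : MeasurableSet (Set.pi Set.univ (fun _ : Fin d => Set.Ioo (0 : ℝ) (2 * π))) :=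
      MeasurableSet.univ_pi fun _ => measurableSet_Ioo
    have hres : (volume : Measure (Fin d → ℝ)).restrict
        (Set.pi Set.univ (fun _ : Fin d => Set.Ioo (0 : ℝ) (2 * π))) =
        Measure.pi fun _ => volume.restrict (Set.Ioo 0 (2 * π)) := by
      rw [volume_pi, Measure.restrict_pi_pi]
    have hpi' : ∀ s : Fin d → ℕ, Integrable (fun t : Fin d → ℝ => ∏ i, χ i (s i) (t i))
        (Measure.pi fun _ => volume.restrict (Set.Ioo 0 (2 * π))) := fun s =>
      Integrable.fintype_prod (f := fun i => χ i (s i)) fun i => hχi i (s i)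
    have hΨi : Integrable Ψ (Measure.pi fun _ => volume.restrict (Set.Ioo 0 (2 * π))) :=
      (integrable_finsetSum _ fun s _ => hpi' s).const_mul _
    have hle : ∀ t ∈ Set.pi Set.univ (fun _ : Fin d => Set.Ioo (0 : ℝ) (2 * π)),
        (∏ i ∈ e, t i ^ (-r)) * Phi k 𝒮 e t * ∏ i ∈ e, (t i)⁻¹ ≤ Ψ t := by
      intro t ht
      have ht0 : ∀ i, 0 < t i := fun i => (ht i (Set.mem_univ i)).1
      refine (mul_le_mul_of_nonneg_right (weighted_Phi_le hσ h1 h2 𝒮 h𝒮 e ht0)
        (Finset.prod_nonneg fun i _ => (inv_pos.2 (ht0 i)).le)).trans ?_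
      rw [mul_assoc, Finset.sum_mul]
      refine mul_le_mul_of_nonneg_left (Finset.sum_le_sum fun s _ => ?_) (by positivity)
      rw [← Finset.prod_ite_mem_eq e, ← Finset.prod_mul_distrib]
      refine Finset.prod_le_prod (fun i _ => ?_) fun i _ => ?_
      · have := ht0 i
        split_ifs
        · exact mul_nonneg (mul_nonneg (by norm_num) (NN_nonneg (by positivity))) (by positivity)
        · exact mul_nonneg (mul_nonneg (by norm_num) (NN_nonneg (by positivity))) (by positivity)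
      · by_cases hi : i ∈ e
        · simp only [χ, hi, if_true]; exact le_of_eq (by ring)
        · simp only [χ, hi, if_false]
          have := NN_le_one (show 0 ≤ (2 ^ s i * 1 : ℝ) ^ σ by positivity)
          linarith
    have hΨ0 : 0 ≤ᵐ[volume.restrict (Set.pi Set.univ (fun _ : Fin d => Set.Ioo (0 : ℝ) (2 * π)))]
        Ψ := by
      refine (ae_restrict_iff' hmeas).2 (Filter.Eventually.of_forall fun t ht => ?_)
      have ht0 : ∀ i, 0 < t i := fun i => (ht i (Set.mem_univ i)).1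
      exact mul_nonneg (by positivity) (Finset.sum_nonneg fun s _ =>
        Finset.prod_nonneg fun i _ => hχ0 _ _ _ (ht0 i))
    calc _ ≤ ∫⁻ t in Set.pi Set.univ (fun _ : Fin d => Set.Ioo 0 (2 * π)), ENNReal.ofReal (Ψ t) :=
          setLIntegral_mono' hmeas fun t ht => ENNReal.ofReal_le_ofReal (hle t ht)
      _ = ENNReal.ofReal (∫ t in Set.pi Set.univ (fun _ : Fin d => Set.Ioo 0 (2 * π)), Ψ t) :=
          (ofReal_integral_eq_lintegral_ofReal (by rw [hres]; exact hΨi) hΨ0).symm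
      _ ≤ _ := by
          refine ENNReal.ofReal_le_ofReal ?_
          rw [hres, integral_const_mul, integral_finsetSum _ fun s _ => hpi' s, mul_comm (c ^ d),
            mul_assoc]
          refine mul_le_mul_of_nonneg_left ?_ (by positivity)
          rw [mul_comm (c ^ d), ← nsmul_eq_mul]
          refine Finset.sum_le_card_nsmul _ _ _ fun s _ => ?_
          rw [integral_fintype_prod_eq_prod (fun i τ => χ i (s i) τ), ecd]
          refine Finset.prod_le_prod (fun i _ => ?_) fun i _ => hχb i (s i)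
          exact setIntegral_nonneg measurableSet_Ioo fun τ hτ => hχ0 _ _ _ hτ.1

theorem exists_besov_bound (d k : ℕ) {r : ℝ} (hr : 0 < r) (hk : r < k) : ∃ C : ℝ, 0 < C ∧
    ∀ (𝕜 : Type*) [RCLike 𝕜] (p θ : ℝ≥0∞), 1 ≤ θ →
    ∀ (n : ℕ) (𝒮 : Finset (Fin d → ℕ)), (∀ s ∈ 𝒮, ∑ i, s i = n) →
    ∀ (B : ℝ), 0 < B → ∀ f : Torus d → 𝕜,
      (∀ e h, eLpNorm (mixedDiff k e h f) p volume ≤
        ENNReal.ofReal (B * Phi k 𝒮 e fun i => |h i|)) →
      besovNorm k r p θ f ≤
        ENNReal.ofReal (B * (C * (2 ^ n) ^ r * (𝒮.card : ℝ) ^ (1 / θ).toReal)) := by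
  obtain ⟨C, hC0, hC⟩ := exists_Phi_bounds d k hr hk
  refine ⟨2 ^ d * C, by positivity, fun 𝕜 _ p θ hθ n 𝒮 h𝒮 B hB f hf => ?_⟩
  have hmod : ∀ e t, modulus k e p f t ≤ ENNReal.ofReal (B * Phi k 𝒮 e t) := by
    intro e t
    refine iSup₂_le fun h hh => (hf e h).trans (ENNReal.ofReal_le_ofReal ?_)
    exact mul_le_mul_of_nonneg_left
      (Phi_mono k 𝒮 e (fun _ _ => abs_nonneg _) fun i hi => (hh i hi).le) hB.le
  set A : ℝ := C * (2 ^ n) ^ r with hA
  have hA0 : 0 < A := by positivity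
  have hsemi : ∀ e, besovSemi k r p θ e f ≤
      ENNReal.ofReal (B * (A * (𝒮.card : ℝ) ^ (1 / θ).toReal)) := by
    intro e
    obtain ⟨hsup, hint⟩ := hC n 𝒮 h𝒮 e
    unfold besovSemi
    split_ifs with hθt
    · subst hθt
      refine iSup₂_le fun t ht => ?_
      have ht0 : ∀ i, 0 < t i := fun i => (ht i).1
      refine (mul_le_mul_right (hmod e t) _).trans ?_
      rw [← ENNReal.ofReal_prod_of_nonneg (fun i _ => (Real.rpow_pos_of_pos (ht0 i) _).le),
        ← ENNReal.ofReal_mul (Finset.prod_nonneg fun i _ => (Real.rpow_pos_of_pos (ht0 i) _).le)]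
      refine ENNReal.ofReal_le_ofReal ?_
      have := mul_le_mul_of_nonneg_left (hsup t ht0) hB.le
      simp only [one_div, ENNReal.inv_top, ENNReal.toReal_zero, Real.rpow_zero, mul_one]
      linarith
    · set τ := θ.toReal with hτd
      have hτ : 1 ≤ τ := by
        have := ENNReal.toReal_mono hθt hθ
        simpa using this
      have hτ0 : 0 < τ := by linarith
      have hinv : (1 / θ).toReal = 1 / τ := by simp [hτd]
      have hmeas : MeasurableSet (Set.pi Set.univ (fun _ : Fin d => Set.Ioo (0 : ℝ) (2 * π))) :=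
        MeasurableSet.univ_pi fun _ => measurableSet_Ioo
      have hpt : ∀ t ∈ Set.pi Set.univ (fun _ : Fin d => Set.Ioo (0 : ℝ) (2 * π)),
          modulus k e p f t ^ τ * ∏ i ∈ e, ENNReal.ofReal (t i ^ (-τ * r - 1)) ≤
            ENNReal.ofReal (B ^ τ * A ^ (τ - 1)) *
              ENNReal.ofReal ((∏ i ∈ e, t i ^ (-r)) * Phi k 𝒮 e t * ∏ i ∈ e, (t i)⁻¹) := by
        intro t ht
        have ht0 : ∀ i, 0 < t i := fun i => (ht i (Set.mem_univ i)).1
        have hΦ := Phi_nonneg k 𝒮 e (t := t) fun i _ => (ht0 i).le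
        refine (mul_le_mul_left (ENNReal.rpow_le_rpow (hmod e t) hτ0.le) _).trans ?_
        rw [ENNReal.ofReal_rpow_of_nonneg (by positivity) hτ0.le,
          ← ENNReal.ofReal_prod_of_nonneg (fun i _ => (Real.rpow_pos_of_pos (ht0 i) _).le),
          ← ENNReal.ofReal_mul (by positivity), ← ENNReal.ofReal_mul (by positivity)]
        refine ENNReal.ofReal_le_ofReal ?_
        set w := ∏ i ∈ e, t i ^ (-r) with hw
        have hw0 : 0 < w := Finset.prod_pos fun i _ => Real.rpow_pos_of_pos (ht0 i) _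
        have hI0 : 0 < ∏ i ∈ e, (t i)⁻¹ := Finset.prod_pos fun i _ => inv_pos.2 (ht0 i)
        have e1 : ∏ i ∈ e, t i ^ (-τ * r - 1) = w ^ τ * ∏ i ∈ e, (t i)⁻¹ := by
          rw [hw, ← Real.finsetProd_rpow _ _ (fun i _ => (Real.rpow_pos_of_pos (ht0 i) _).le),
            ← Finset.prod_mul_distrib]
          refine Finset.prod_congr rfl fun i _ => ?_
          rw [Real.rpow_sub_one (ht0 i).ne', ← Real.rpow_mul (ht0 i).le, div_eq_mul_inv]
          congr 2; ring
        have hF := hsup t ht0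
        set F := w * Phi k 𝒮 e t with hFd
        have hF0 : 0 ≤ F := by positivity
        have e2 : F ^ τ ≤ A ^ (τ - 1) * F := by
          have : F ^ τ = F ^ (τ - 1) * F := by
            rw [← Real.rpow_add_one' hF0 (by linarith)]; congr 1; ring
          rw [this]
          exact mul_le_mul_of_nonneg_right (Real.rpow_le_rpow hF0 hF (by linarith)) hF0
        calc (B * Phi k 𝒮 e t) ^ τ * ∏ i ∈ e, t i ^ (-τ * r - 1)
            = B ^ τ * F ^ τ * ∏ i ∈ e, (t i)⁻¹ := by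
              rw [e1, hFd, Real.mul_rpow hB.le hΦ, Real.mul_rpow hw0.le hΦ]; ring
          _ ≤ B ^ τ * (A ^ (τ - 1) * F) * ∏ i ∈ e, (t i)⁻¹ := by gcongr
          _ = _ := by ring
      have hI := setLIntegral_mono' (μ := volume) hmeas hpt
      rw [lintegral_const_mul' _ _ ENNReal.ofReal_ne_top] at hI
      have hI2 := hI.trans (mul_le_mul_right hint _)
      rw [← ENNReal.ofReal_mul (by positivity)] at hI2
      refine (ENNReal.rpow_le_rpow hI2 (by positivity)).trans (le_of_eq ?_)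
      rw [ENNReal.ofReal_rpow_of_nonneg (by positivity) (by positivity), hinv]
      congr 1
      have e3 : B ^ τ * A ^ (τ - 1) * (A * 𝒮.card) = (B * A) ^ τ * 𝒮.card := by
        rw [Real.mul_rpow hB.le hA0.le, Real.rpow_sub_one hA0.ne']; field_simp
      rw [e3, Real.mul_rpow (by positivity) (by positivity), one_div,
        Real.rpow_rpow_inv (by positivity) hτ0.ne']
      ring
  unfold besovNorm
  refine (Finset.sum_le_card_nsmul _ _ _ fun e _ => hsemi e).trans (le_of_eq ?_)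
  rw [Finset.card_univ, Fintype.card_finset, Fintype.card_fin, nsmul_eq_mul,
    ← ENNReal.ofReal_natCast, ← ENNReal.ofReal_mul (by positivity)]
  congr 1
  rw [hA]; push_cast; ring

end Pool.Agent.MixedBesov
end

-- part Pool.Agent.Lib.MP_919f0c_an.Lower
section

/-!
# The lower bound at a fixed level
-/

open Finset MeasureTheory
open scoped Real ENNReal

namespace Pool.Agent.MixedBesov

variable {d : ℕ}

/-- index set of the boxes with shapes in `𝒮` -/
abbrev Idx (𝒮 : Finset (Fin d → ℕ)) : Type := Σ s : 𝒮, Pos s.1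

/-- test functions -/
noncomputable def testFn (𝕜 : Type*) [RCLike 𝕜] {𝒮 : Finset (Fin d → ℕ)} (a : Idx 𝒮 → ℝ) :
    C(Torus d, 𝕜) :=
  ⟨fun x => ((∑ α, a α * psiT α.1.1 α.2 x : ℝ) : 𝕜), RCLike.continuous_ofReal.comp
    (continuous_finsetSum _ fun _ _ => continuous_const.mul (continuous_psiT _ _))⟩

theorem mixedDiff_testFn (𝕜 : Type*) [RCLike 𝕜] {𝒮 : Finset (Fin d → ℕ)} (a : Idx 𝒮 → ℝ)
    (k : ℕ) (e : Finset (Fin d)) (h : Fin d → ℝ) (x : Torus d) :
    mixedDiff k e h (testFn 𝕜 a) x =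
      ((∑ α, a α * mixedDiff k e h (psiT α.1.1 α.2) x : ℝ) : 𝕜) := by
  unfold mixedDiff
  simp only [testFn, ContinuousMap.coe_mk, smul_eq_mul, Finset.mul_sum]
  rw [Finset.sum_comm, RCLike.ofReal_sum]
  refine Finset.sum_congr rfl fun j _ => ?_
  rw [RCLike.real_smul_eq_coe_mul, ← RCLike.ofReal_mul, Finset.mul_sum]
  congr 1
  exact Finset.sum_congr rfl fun α _ => by ring

theorem exists_diff_testFn (d k : ℕ) : ∃ C : ℝ, 0 < C ∧ ∀ (𝕜 : Type*) [RCLike 𝕜] (n : ℕ)
    (𝒮 : Finset (Fin d → ℕ)), (∀ s ∈ 𝒮, ∑ i, s i = n) → ∀ (a : Idx 𝒮 → ℝ) (lam : ℝ), 0 ≤ lam →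
    ∀ (e : Finset (Fin d)) (h : Fin d → ℝ),
      ((∀ α, |a α| ≤ lam) → eLpNorm (mixedDiff k e h (testFn 𝕜 a)) ∞ volume ≤
        ENNReal.ofReal (lam * C * Phi k 𝒮 e fun i => |h i|)) ∧
      ((∀ s, ∑ κ, |a ⟨s, κ⟩| ≤ lam) → eLpNorm (mixedDiff k e h (testFn 𝕜 a)) 1 volume ≤
        ENNReal.ofReal (lam * C * ((2 * π) ^ d / 2 ^ n) * Phi k 𝒮 e fun i => |h i|)) := by
  obtain ⟨C, hC0, hC⟩ := exists_mixedDiff_psiT d k
  refine ⟨C * (k + 1) ^ d, by positivity, fun 𝕜 _ n 𝒮 h𝒮 a lam hlam e h => ?_⟩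
  let Mw : (Fin d → ℕ) → ℝ := fun s => ∏ i ∈ e, min 1 ((2 ^ s i * |h i|) ^ k)
  have hMw : ∀ s, 0 ≤ Mw s := fun s =>
    Finset.prod_nonneg fun i _ => le_min zero_le_one (by positivity)
  let G : Idx 𝒮 → Torus d → ℝ := fun α x => ∏ i, cnt k (α.1.1 i) (α.2 i) (h i) (x i)
  have hG0 : ∀ α x, 0 ≤ G α x := fun α x => Finset.prod_nonneg fun i _ => cnt_nonneg _ _ _ _ _
  have hpt : ∀ x, ‖mixedDiff k e h (testFn 𝕜 a) x‖ ≤ ∑ α, |a α| * (C * Mw α.1.1 * G α x) := by
    intro x
    rw [mixedDiff_testFn, RCLike.norm_ofReal]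
    refine (Finset.abs_sum_le_sum_abs _ _).trans (Finset.sum_le_sum fun α _ => ?_)
    rw [abs_mul]
    exact mul_le_mul_of_nonneg_left (hC e h α.1.1 α.2 x) (abs_nonneg _)
  have hPhi : Phi k 𝒮 e (fun i => |h i|) = ∑ s : 𝒮, Mw s.1 := by
    rw [Finset.sum_coe_sort 𝒮 Mw]; rfl
  constructor
  · intro ha
    rw [eLpNorm_exponent_top]
    refine eLpNormEssSup_le_of_ae_bound (Filter.Eventually.of_forall fun x => (hpt x).trans ?_)
    rw [Fintype.sum_sigma, hPhi, Finset.mul_sum]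
    refine Finset.sum_le_sum fun s _ => ?_
    calc ∑ κ : Pos s.1, |a ⟨s, κ⟩| * (C * Mw s.1 * G ⟨s, κ⟩ x)
        ≤ ∑ κ : Pos s.1, lam * (C * Mw s.1 * G ⟨s, κ⟩ x) :=
          Finset.sum_le_sum fun κ _ => mul_le_mul_of_nonneg_right (ha _)
            (mul_nonneg (mul_nonneg hC0.le (hMw _)) (hG0 _ _))
      _ = lam * (C * Mw s.1 * ∑ κ : Pos s.1, G ⟨s, κ⟩ x) := by
          rw [Finset.mul_sum, Finset.mul_sum]
      _ = _ := by
          simp only [G]
          rw [sum_prod_cnt]; ring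
  · intro ha
    have hi : ∀ α : Idx 𝒮, Integrable fun x => |a α| * (C * Mw α.1.1 * G α x) := fun α =>
      ((integrable_prod_cnt k α.1.1 α.2 h).const_mul _).const_mul _
    have hi' : Integrable fun x => ∑ α, |a α| * (C * Mw α.1.1 * G α x) :=
      integrable_finsetSum _ fun α _ => hi α
    refine (eLpNorm_mono_real hpt).trans ?_
    rw [eLpNorm_one_eq_lintegral_enorm, ← ofReal_integral_norm_eq_lintegral_enorm hi']
    refine ENNReal.ofReal_le_ofReal ?_
    have e1 : ∀ x, ‖∑ α, |a α| * (C * Mw α.1.1 * G α x)‖ = ∑ α, |a α| * (C * Mw α.1.1 * G α x) :=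
      fun x => Real.norm_of_nonneg ((norm_nonneg _).trans (hpt x))
    simp_rw [e1]
    rw [integral_finsetSum _ fun α _ => hi α, Fintype.sum_sigma, hPhi, Finset.mul_sum]
    refine Finset.sum_le_sum fun s _ => ?_
    have hpi := Real.pi_pos
    calc ∑ κ : Pos s.1, ∫ x, |a ⟨s, κ⟩| * (C * Mw s.1 * G ⟨s, κ⟩ x)
        ≤ ∑ κ : Pos s.1, |a ⟨s, κ⟩| * (C * Mw s.1 * ((k + 1) ^ d * ((2 * π) ^ d / 2 ^ n))) := by
          refine Finset.sum_le_sum fun κ _ => ?_
          rw [integral_const_mul, integral_const_mul]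
          refine mul_le_mul_of_nonneg_left (mul_le_mul_of_nonneg_left ?_
            (mul_nonneg hC0.le (hMw _))) (abs_nonneg _)
          rw [← h𝒮 s.1 s.2]
          exact integral_prod_cnt_le k s.1 κ h
      _ ≤ lam * (C * Mw s.1 * ((k + 1) ^ d * ((2 * π) ^ d / 2 ^ n))) := by
          rw [← Finset.sum_mul]
          exact mul_le_mul_of_nonneg_right (ha s) (by have := hMw s.1; positivity)
      _ = _ := by ring

theorem card_Idx {n : ℕ} (𝒮 : Finset (Fin d → ℕ)) (h𝒮 : ∀ s ∈ 𝒮, ∑ i, s i = n) :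
    Fintype.card (Idx 𝒮) = 𝒮.card * 2 ^ n := by
  rw [Fintype.card_sigma]
  have : ∀ s : 𝒮, Fintype.card (Pos s.1) = 2 ^ n := fun s => by rw [card_Pos, h𝒮 s.1 s.2]
  simp [this]

/-- Rigidity of the hyperbolic system of bumps. -/
theorem exists_rigid (d : ℕ) : ∃ δ : ℝ, 0 < δ ∧ δ ≤ 1 ∧ ∀ (n : ℕ) (𝒮 : Finset (Fin d → ℕ)),
    (∀ s ∈ 𝒮, ∑ i, s i = n) → ∀ m : ℕ, (m : ℝ) ≤ δ * (𝒮.card * 2 ^ n) →
    ∀ A : Fin m → Idx 𝒮 → ℝ, ∃ z : Idx 𝒮 → Torus d → ℝ, (∀ β, Measurable (z β)) ∧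
      (∀ β y, |z β y| ≤ 3) ∧ (∀ y, ∑ β, z β y ^ 2 ≤ Fintype.card 𝒮) ∧
      (∀ y j, ∑ β, z β y * A j β = 0) ∧
      π ^ d / 2 * 𝒮.card ≤ ∫ y, ∑ β, z β y * psiT β.1.1 β.2 y := by
  have hpi := Real.pi_pos
  set c₀ : ℝ := 1 / 2 ^ d with hc₀
  have hc0 : 0 < c₀ := by positivity
  have hc1 : c₀ ≤ 1 := by rw [hc₀, div_le_one (by positivity)]; exact one_le_pow₀ (by norm_num)
  set ε : ℝ := c₀ / (4 * 32 ^ d) with hε
  have hε0 : 0 < ε := by positivity
  have hεC : ε * 32 ^ d = c₀ / 4 := by rw [hε]; field_simp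
  refine ⟨min (c₀ * ε ^ 4 / 8) ((c₀ / 8) ^ 2), lt_min (by positivity) (by positivity),
    (min_le_right _ _).trans (by nlinarith), fun n 𝒮 h𝒮 m hm A => ?_⟩
  set v : ℝ := (2 * π) ^ d / 2 ^ n with hv
  have hv0 : 0 < v := by positivity
  obtain ⟨z, hz1, hz2, hz3, hz4, hz5⟩ := certificate (volume : Measure (Torus d))
    (S := 𝒮) (K := fun s => Pos s.1) (fun s => cellT s.1) (fun s κ => measurableSet_cellT s.1 κ)
    hv0.le hε0 (C := 32 ^ d) (by positivity) (q := fun s s' => qw s.1 s'.1)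
    (fun s s' => qw_pos _ _) (fun s s' => qw_symm _ _)
    (fun s => by rw [Finset.sum_coe_sort 𝒮 (fun s' => qw s.1 s')]; exact sum_qw_le 𝒮 h𝒮 s.1)
    (fun s κ => by rw [hv, ← h𝒮 s.1 s.2]; exact real_cellT_le s.1 κ)
    (fun s s' _ κ κ' => real_overlap_le s.1 s'.1 (h𝒮 s.1 s.2) (h𝒮 s'.1 s'.2) κ κ') A
    (fun β => psiT β.1.1 β.2) (fun β => (continuous_psiT _ _).measurable)
    (fun β y => psiT_nonneg _ _ _) (fun β y => psiT_le_one _ _ _)
    (fun β y h => psiT_eq_zero _ _ _ h)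
  refine ⟨z, hz1, fun β y => (hz2 β y).trans (by rw [hεC]; linarith), hz3, hz4, le_trans ?_ hz5⟩
  set N : ℝ := (Fintype.card (Idx 𝒮) : ℝ) with hN
  have hN' : N = 𝒮.card * 2 ^ n := by rw [hN, card_Idx 𝒮 h𝒮]; push_cast; ring
  have hN0 : 0 ≤ N := by rw [hN]; positivity
  rw [← hN'] at hm
  have h1 : N * (v * c₀) ≤ ∑ β : Idx 𝒮, ∫ y, psiT β.1.1 β.2 y := by
    rw [hN, ← Finset.card_univ, ← nsmul_eq_mul]
    refine Finset.card_nsmul_le_sum _ _ _ fun β _ => le_trans (le_of_eq ?_) (integral_psiT_ge _ _)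
    rw [h𝒮 β.1.1 β.1.2, hv, hc₀, mul_pow]; field_simp
  have h2 : v / ε ^ 4 * m ≤ v * (c₀ / 8 * N) := by
    have := hm.trans (mul_le_mul_of_nonneg_right (min_le_left _ _) hN0)
    calc v / ε ^ 4 * m ≤ v / ε ^ 4 * (c₀ * ε ^ 4 / 8 * N) :=
          mul_le_mul_of_nonneg_left this (by positivity)
      _ = _ := by field_simp
  have h3 : √(N * m) ≤ c₀ / 8 * N := by
    have := hm.trans (mul_le_mul_of_nonneg_right (min_le_right _ _) hN0)
    refine Real.sqrt_le_iff.2 ⟨by positivity, ?_⟩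
    calc N * m ≤ N * ((c₀ / 8) ^ 2 * N) := mul_le_mul_of_nonneg_left this hN0
      _ = _ := by ring
  have h4 : π ^ d / 2 * 𝒮.card = v * c₀ * N / 2 := by
    rw [hN', hv, hc₀, mul_pow]; field_simp
  have h5 := mul_le_mul_of_nonneg_left h3 hv0.le
  rw [h4, hεC]
  nlinarith

theorem lower_level (d k : ℕ) {r : ℝ} (hr : 0 < r) (hk : r < k) : ∃ δ c : ℝ, 0 < δ ∧ δ ≤ 1 ∧
    0 < c ∧ ∀ (𝕜 : Type*) [RCLike 𝕜] (p θ : ℝ≥0∞), (p = 1 ∨ p = ∞) → 1 ≤ θ →
    ∀ (n : ℕ) (𝒮 : Finset (Fin d → ℕ)), (∀ s ∈ 𝒮, ∑ i, s i = n) → 0 < 𝒮.card →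
    𝒮.card ^ 4 ≤ 2 ^ n → ∀ m : ℕ, (m : ℝ) ≤ δ * (𝒮.card * 2 ^ n) →
      ENNReal.ofReal (c * (((2 : ℝ) ^ n) ^ (-r) * (𝒮.card : ℝ) ^ (1 - (1 / θ).toReal))) ≤
        samplingNumber (besovBall 𝕜 d k r p θ) p m := by
  have hpi := Real.pi_pos
  obtain ⟨δ, hδ0, hδ1, hrig⟩ := exists_rigid d
  obtain ⟨C₁, hC₁, hdiff⟩ := exists_diff_testFn d k
  obtain ⟨C₂, hC₂, hbes⟩ := exists_besov_bound d k hr hk
  refine ⟨δ, 1 / (8 * 2 ^ d * C₁ * C₂), hδ0, hδ1, by positivity,
    fun 𝕜 _ p θ hp hθ n 𝒮 h𝒮 hS0 hS4 m hm => ?_⟩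
  refine le_iInf fun x => le_iInf fun ψ => le_iInf fun hψ => ?_
  set R := ⨆ f ∈ besovBall 𝕜 d k r p θ,
    eLpNorm (fun y => f y - ∑ j, f (x j) * ψ j y) p volume with hR
  by_cases hRt : R = ∞
  · rw [hRt]; exact le_top
  refine ENNReal.ofReal_le_of_le_toReal ?_
  set E := R.toReal with hE
  have hE0 : 0 ≤ E := ENNReal.toReal_nonneg
  have hp1 : 1 ≤ p := by rcases hp with h | h <;> simp [h]
  let g : Fin m → Torus d → ℝ := fun j y => RCLike.re (ψ j y)
  have hg : ∀ j, Integrable (g j) := fun j => ((hψ j).integrable hp1).re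
  let er : Idx 𝒮 → Torus d → ℝ := fun β y =>
    psiT β.1.1 β.2 y - ∑ j, psiT β.1.1 β.2 (x j) * g j y
  have her : ∀ β, Integrable (er β) := fun β =>
    ((continuous_psiT _ _).integrable_of_hasCompactSupport
      (HasCompactSupport.of_compactSpace _)).sub
      (integrable_finsetSum _ fun j _ => (hg j).const_mul _)
  have hpt : ∀ (a : Idx 𝒮 → ℝ) y, |∑ β, a β * er β y| ≤
      ‖testFn 𝕜 a y - ∑ j, testFn 𝕜 a (x j) * ψ j y‖ := by
    intro a y
    refine le_trans (le_of_eq ?_) (RCLike.abs_re_le_norm _)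
    congr 1
    simp only [testFn, ContinuousMap.coe_mk, map_sub, map_sum, RCLike.ofReal_re,
      RCLike.re_ofReal_mul, er, g, mul_sub, Finset.sum_sub_distrib, Finset.mul_sum, Finset.sum_mul]
    rw [Finset.sum_comm]
    congr 1
    exact Finset.sum_congr rfl fun _ _ => Finset.sum_congr rfl fun _ _ => by ring
  have hRle : ∀ a : Idx 𝒮 → ℝ, testFn 𝕜 a ∈ besovBall 𝕜 d k r p θ →
      eLpNorm (fun y => testFn 𝕜 a y - ∑ j, testFn 𝕜 a (x j) * ψ j y) p volume ≤ R :=
    fun a ha => le_iSup₂_of_le (f := fun (f : C(Torus d, 𝕜)) (_ : f ∈ besovBall 𝕜 d k r p θ) =>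
      eLpNorm (fun y => f y - ∑ j, f (x j) * ψ j y) p volume) (testFn 𝕜 a) ha le_rfl
  obtain ⟨z, hz1, hz2, hz3, hz4, hz5⟩ := hrig n 𝒮 h𝒮 m hm fun j β => psiT β.1.1 β.2 (x j)
  have hL : π ^ d / 2 * 𝒮.card ≤ ∫ y, ∑ β, z β y * er β y := by
    refine hz5.trans (le_of_eq (integral_congr_ae (Filter.Eventually.of_forall fun y => ?_)))
    simp only [er, mul_sub, Finset.sum_sub_distrib, Finset.mul_sum]
    rw [Finset.sum_comm]
    have : ∀ j, ∑ β : Idx 𝒮, z β y * (psiT β.1.1 β.2 (x j) * g j y) = 0 := by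
      intro j
      simp_rw [← mul_assoc]
      rw [← Finset.sum_mul, hz4 y j, zero_mul]
    simp [this]
  set σ : ℝ := (𝒮.card : ℝ) with hσ
  have hσ0 : 0 < σ := by rw [hσ]; exact_mod_cast hS0
  set W : ℝ := C₂ * (2 ^ n) ^ r * σ ^ (1 / θ).toReal with hW
  have hW0 : 0 < W := by positivity
  have hgoal : 1 / (8 * 2 ^ d * C₁ * C₂) * (((2 : ℝ) ^ n) ^ (-r) * σ ^ (1 - (1 / θ).toReal)) =
      σ / (8 * 2 ^ d * C₁ * W) := by
    rw [Real.rpow_neg (by positivity), Real.rpow_sub hσ0, Real.rpow_one, hW]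
    field_simp
  rw [hgoal, div_le_iff₀ (by positivity)]
  rcases hp with rfl | rfl
  · set v : ℝ := (2 * π) ^ d / 2 ^ n with hv
    have hv0 : 0 < v := by positivity
    set lam : ℝ := 1 / (C₁ * v * W) with hlam
    have hl0 : 0 < lam := by positivity
    have hkey : ∀ a : Idx 𝒮 → ℝ, (∀ s, ∑ κ, |a ⟨s, κ⟩| ≤ 1) →
        ∫ y, |∑ β, a β * er β y| ≤ E / lam := by
      intro a ha
      have hmem : testFn 𝕜 (fun β => lam * a β) ∈ besovBall 𝕜 d k r 1 θ := by
        have := hbes 𝕜 1 θ hθ n 𝒮 h𝒮 (lam * C₁ * v) (by positivity) (testFn 𝕜 fun β => lam * a β)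
          fun e h => (hdiff 𝕜 n 𝒮 h𝒮 _ lam hl0.le e h).2 fun s => by
            simp_rw [abs_mul, abs_of_pos hl0]
            rw [← Finset.mul_sum]
            exact mul_le_of_le_one_right hl0.le (ha s)
        refine this.trans (le_of_eq ?_)
        rw [← hσ, ← hW, ← ENNReal.ofReal_one]
        congr 1
        rw [hlam]; field_simp
      have h1 := (eLpNorm_mono_real (g := fun y => ‖testFn 𝕜 (fun β => lam * a β) y -
        ∑ j, testFn 𝕜 (fun β => lam * a β) (x j) * ψ j y‖)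
        (f := fun y => ∑ β, (lam * a β) * er β y) (p := 1) (μ := volume)
        (fun y => hpt (fun β => lam * a β) y)).trans ((eLpNorm_norm _).le.trans (hRle _ hmem))
      have hi : Integrable fun y => ∑ β, (lam * a β) * er β y :=
        integrable_finsetSum _ fun β _ => (her β).const_mul _
      rw [eLpNorm_one_eq_lintegral_enorm, ← ofReal_integral_norm_eq_lintegral_enorm hi,
        ENNReal.ofReal_le_iff_le_toReal hRt] at h1
      rw [le_div_iff₀ hl0, mul_comm, ← integral_const_mul]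
      refine le_trans (le_of_eq (integral_congr_ae (Filter.Eventually.of_forall fun y => ?_))) h1
      simp only [Real.norm_eq_abs, mul_assoc]
      rw [← Finset.mul_sum, abs_mul, abs_of_pos hl0]
    have hb := bound_one (S := 𝒮) (K := fun s => Pos s.1) volume (M := 2 ^ n) (by positivity)
      (fun s => by rw [card_Pos, h𝒮 s.1 s.2]) (by simpa using hS4) (by simpa using hS0) z er hz1
      hz2 hz3 her (E := E / lam) (fun b => by
        have := hkey (fun β => if b β.1 = β.2 then 1 else 0) fun s => by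
          rw [Finset.sum_eq_single (b s)] <;> simp +contextual [eq_comm]
        refine le_trans (le_of_eq ?_) this
        congr 1; funext y; congr 1
        rw [Fintype.sum_sigma]
        simp)
      (fun β => by
        have := hkey (fun α => if α = β then 1 else 0) fun s => by
          have h0 : ∑ κ : Pos s.1, |if (⟨s, κ⟩ : Idx 𝒮) = β then (1 : ℝ) else 0| ≤
              ∑ α : Idx 𝒮, |if α = β then (1 : ℝ) else 0| := by
            rw [Fintype.sum_sigma]
            exact Finset.single_le_sum (f := fun s : 𝒮 =>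
              ∑ κ : Pos s.1, |if (⟨s, κ⟩ : Idx 𝒮) = β then (1 : ℝ) else 0|)
              (fun _ _ => by positivity) (Finset.mem_univ s)
          refine h0.trans (le_of_eq ?_)
          rw [Finset.sum_eq_single β] <;> simp +contextual
        refine le_trans (le_of_eq ?_) this
        congr 1; funext y; congr 1
        simp)
    have h2 := hL.trans hb
    have h3 : 4 * ((2 ^ n : ℕ) : ℝ) * (E / lam) = π ^ d / 2 * (E * (8 * 2 ^ d * C₁ * W)) := by
      rw [hlam, hv, mul_pow]; push_cast; field_simp; ring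
    rw [h3] at h2
    exact le_of_mul_le_mul_left h2 (by positivity)
  · set lam : ℝ := 1 / (C₁ * W) with hlam
    have hl0 : 0 < lam := by positivity
    have hkey : ∀ a : Idx 𝒮 → ℝ, (∀ β, |a β| ≤ 1) →
        ∀ᵐ y, |∑ β, a β * er β y| ≤ E / lam := by
      intro a ha
      have hmem : testFn 𝕜 (fun β => lam * a β) ∈ besovBall 𝕜 d k r ∞ θ := by
        have := hbes 𝕜 ∞ θ hθ n 𝒮 h𝒮 (lam * C₁) (by positivity) (testFn 𝕜 fun β => lam * a β)
          fun e h => (hdiff 𝕜 n 𝒮 h𝒮 _ lam hl0.le e h).1 fun β => by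
            rw [abs_mul, abs_of_pos hl0]
            exact mul_le_of_le_one_right hl0.le (ha β)
        refine this.trans (le_of_eq ?_)
        rw [← hσ, ← hW, ← ENNReal.ofReal_one]
        congr 1
        rw [hlam]; field_simp
      have h1 := hRle _ hmem
      rw [eLpNorm_exponent_top] at h1
      filter_upwards [ae_le_eLpNormEssSup (μ := volume) (f := fun y =>
        testFn 𝕜 (fun β => lam * a β) y - ∑ j, testFn 𝕜 (fun β => lam * a β) (x j) * ψ j y)]
        with y hy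
      have h2 := hy.trans h1
      rw [← ofReal_norm, ENNReal.ofReal_le_iff_le_toReal hRt] at h2
      have h3 := (hpt (fun β => lam * a β) y).trans h2
      simp only [mul_assoc] at h3
      rw [← Finset.mul_sum, abs_mul, abs_of_pos hl0] at h3
      rw [le_div_iff₀ hl0, mul_comm]
      exact h3
    have hb := bound_top volume z er hz1 hz2 her hkey
    have hvol : (volume : Measure (Torus d)).real Set.univ = (2 * π) ^ d := by
      rw [← Set.pi_univ Set.univ, real_pi]
      simp [Measure.real, ENNReal.toReal_ofReal hpi.le]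
    rw [hvol] at hb
    have h2 := hL.trans hb
    have h3 : 3 * (E / lam) * (2 * π) ^ d = π ^ d / 2 * (E * (6 * 2 ^ d * C₁ * W)) := by
      rw [hlam, mul_pow]; field_simp; ring
    rw [h3] at h2
    have h4 := le_of_mul_le_mul_left h2 (by positivity)
    refine h4.trans (mul_le_mul_of_nonneg_left ?_ hE0)
    have : 0 < 2 ^ d * C₁ * W := by positivity
    nlinarith

end Pool.Agent.MixedBesov
end
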