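import Pool.Agent.Lib.MP_919f0c_an.Lower

/-!
# The lower bound for the sampling numbers
-/

open Finset MeasureTheory Filter
open scoped Real ENNReal

namespace Pool.Agent.MixedBesov

/-- all shapes of level `n` -/
def shapes (d n : ℕ) : Finset (Fin d → ℕ) :=
  (Fintype.piFinset fun _ => Finset.range (n + 1)).filter fun s => ∑ i, s i = n

theorem sum_of_mem_shapes {d n : ℕ} (s : Fin d → ℕ) (hs : s ∈ shapes d n) : ∑ i, s i = n :=
  (Finset.mem_filter.1 hs).2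

theorem card_shapes_le (d n : ℕ) : (shapes d n).card ≤ (n + 1) ^ d := by
  refine (Finset.card_filter_le _ _).trans ?_
  simp

theorem card_shapes_ge (d n : ℕ) : (n / (d + 1) + 1) ^ d ≤ (shapes (d + 1) n).card := by
  have h1 : (Fintype.piFinset fun _ : Fin d => Finset.range (n / (d + 1) + 1)).card =
      (n / (d + 1) + 1) ^ d := by simp
  rw [← h1]
  refine Finset.card_le_card_of_injOn (fun u => Fin.cons (n - ∑ i, u i) u) ?_ ?_
  · intro u hu
    have hu' : ∀ i, u i ≤ n / (d + 1) := fun i =>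
      Nat.lt_succ_iff.1 (Finset.mem_range.1 (Fintype.mem_piFinset.1 hu i))
    have hsum : ∑ i, u i ≤ n := by
      calc ∑ i, u i ≤ ∑ _i : Fin d, n / (d + 1) := Finset.sum_le_sum fun i _ => hu' i
        _ = d * (n / (d + 1)) := by simp
        _ ≤ (d + 1) * (n / (d + 1)) := Nat.mul_le_mul_right _ (Nat.le_succ d)
        _ ≤ n := Nat.mul_div_le n (d + 1)
    simp only [shapes, Finset.coe_filter, Set.mem_ofPred_eq, Fintype.mem_piFinset,
      Finset.mem_range, Fin.sum_univ_succ, Fin.cons_zero, Fin.cons_succ]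
    refine ⟨fun i => ?_, by omega⟩
    refine Fin.cases ?_ (fun i => ?_) i
    · simp only [Fin.cons_zero]; omega
    · simp only [Fin.cons_succ]
      have := (hu' i).trans (Nat.div_le_self n (d + 1))
      omega
  · intro u _ u' _ h
    exact (Fin.cons_inj.1 h).2

theorem card_shapes_ge_real (d n : ℕ) :
    ((n : ℝ) / (d + 1)) ^ d ≤ ((shapes (d + 1) n).card : ℝ) := by
  have h1 : ((n : ℝ) / (d + 1)) ≤ ((n / (d + 1) + 1 : ℕ) : ℝ) := by
    rw [div_le_iff₀ (by positivity)]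
    have := Nat.lt_div_mul_add (a := n) (b := d + 1) (Nat.succ_pos d)
    have h2 : (n : ℝ) < ((n / (d + 1) * (d + 1) + (d + 1) : ℕ) : ℝ) := by exact_mod_cast this
    push_cast at h2 ⊢
    linarith
  refine (pow_le_pow_left₀ (by positivity) h1 d).trans ?_
  exact_mod_cast card_shapes_ge d n

theorem eventually_card_pow_le (d : ℕ) : ∃ n₀ : ℕ, 2 ≤ n₀ ∧ ∀ n, n₀ ≤ n →
    (shapes d n).card ^ 4 ≤ 2 ^ n := by
  have h := tendsto_pow_const_div_const_pow_of_one_lt (4 * d) (r := 2) (by norm_num)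
  have h2 := (h.comp (tendsto_add_atTop_nat 1)).eventually_le_const (show (0 : ℝ) < 1 / 2 by norm_num)
  obtain ⟨n₀, hn₀⟩ := eventually_atTop.1 h2
  refine ⟨max 2 n₀, le_max_left _ _, fun n hn => ?_⟩
  have h3 := hn₀ n ((le_max_right _ _).trans hn)
  simp only [Function.comp] at h3
  rw [div_le_iff₀ (by positivity), pow_succ] at h3
  have h4 : (((n + 1) ^ (4 * d) : ℕ) : ℝ) ≤ ((2 ^ n : ℕ) : ℝ) := by push_cast at h3 ⊢; linarith
  calc (shapes d n).card ^ 4 ≤ ((n + 1) ^ d) ^ 4 := Nat.pow_le_pow_left (card_shapes_le d n) 4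
    _ = (n + 1) ^ (4 * d) := by rw [← pow_mul, mul_comm]
    _ ≤ 2 ^ n := by exact_mod_cast h4

theorem exists_level (d : ℕ) {δ : ℝ} (hδ0 : 0 < δ) (hδ1 : δ ≤ 1) (m : ℕ) (hm : 2 ≤ m) :
    ∃ n : ℕ, (m : ℝ) ≤ δ * (((n + 1 : ℕ) : ℝ) / (d + 1)) ^ d * 2 ^ (n + 1) ∧
      δ * ((n : ℝ) / (d + 1)) ^ d * 2 ^ n < m ∧ Real.log m ≤ (d + 1) * (n + 1) := by
  classical
  have hex : ∃ n : ℕ, (m : ℝ) ≤ δ * ((n : ℝ) / (d + 1)) ^ d * 2 ^ n := by
    obtain ⟨n, hn⟩ := pow_unbounded_of_one_lt ((m : ℝ) / δ) (show (1 : ℝ) < 2 by norm_num)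
    refine ⟨n + (d + 1), ?_⟩
    have h1 : (1 : ℝ) ≤ (((n + (d + 1) : ℕ) : ℝ) / (d + 1)) ^ d := by
      refine one_le_pow₀ ?_
      rw [le_div_iff₀ (by positivity)]; push_cast
      have : (0 : ℝ) ≤ n := Nat.cast_nonneg n
      linarith
    have h2 : (2 : ℝ) ^ n ≤ 2 ^ (n + (d + 1)) := pow_le_pow_right₀ (by norm_num) (by omega)
    rw [div_lt_iff₀ hδ0] at hn
    calc (m : ℝ) ≤ δ * 1 * 2 ^ n := by linarith
      _ ≤ _ := by gcongr
  have hm' : (2 : ℝ) ≤ m := by exact_mod_cast hm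
  have hspec := Nat.find_spec hex
  have hne : Nat.find hex ≠ 0 := by
    intro h0
    rw [h0] at hspec
    have h1 : (((0 : ℕ) : ℝ) / (d + 1)) ^ d ≤ 1 := pow_le_one₀ (by simp) (by simp)
    have h2 : δ * (((0 : ℕ) : ℝ) / (d + 1)) ^ d ≤ 1 * 1 := by gcongr
    simp only [pow_zero, mul_one] at hspec h2
    linarith
  obtain ⟨n, hn⟩ := Nat.exists_eq_succ_of_ne_zero hne
  rw [hn] at hspec
  refine ⟨n, hspec, not_le.1 (Nat.find_min hex (by omega)), ?_⟩
  rw [Real.log_le_iff_le_exp (by linarith)]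
  refine hspec.trans ?_
  have h1 : ((n.succ : ℕ) : ℝ) / (d + 1) ≤ Real.exp (n + 1) := by
    refine (div_le_self (by positivity) (by have : (0 : ℝ) ≤ d := Nat.cast_nonneg d; linarith)).trans ?_
    have := Real.add_one_le_exp ((n : ℝ) + 1)
    push_cast; linarith
  have h2 : (2 : ℝ) ^ n.succ ≤ Real.exp (n + 1) := by
    have : Real.exp (n + 1) = Real.exp 1 ^ n.succ := by
      rw [← Real.exp_nat_mul]; congr 1; push_cast; ring
    rw [this]
    refine pow_le_pow_left₀ (by norm_num) ?_ _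
    have := Real.add_one_le_exp (1 : ℝ)
    linarith
  calc δ * (((n.succ : ℕ) : ℝ) / (d + 1)) ^ d * 2 ^ n.succ
      ≤ 1 * Real.exp (n + 1) ^ d * Real.exp (n + 1) := by gcongr
    _ = _ := by rw [one_mul, ← pow_succ, ← Real.exp_nat_mul]; push_cast; rfl

/-- Lower bound for the sampling numbers, `p ∈ {1, ∞}`. -/
theorem lower_bound (𝕜 : Type*) [RCLike 𝕜] (d k : ℕ) (hd : 1 ≤ d) (r : ℝ) (p θ : ℝ≥0∞)
    (hp : p = 1 ∨ p = ∞) (hθ : 1 ≤ θ) (hr : 0 < r) (hk : r < k) :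
    ∃ c : ℝ, 0 < c ∧ ∃ m₀ : ℕ, ∀ m : ℕ, m₀ ≤ m →
      ENNReal.ofReal (c * ((m : ℝ) ^ (-r) *
        Real.log m ^ (((d : ℝ) - 1) * (r + 1 - (1 / θ).toReal)))) ≤
      samplingNumber (besovBall 𝕜 d k r p θ) p m := by
  obtain ⟨d, rfl⟩ := Nat.exists_eq_add_of_le' hd
  obtain ⟨δ, c, hδ0, hδ1, hc0, hlev⟩ := lower_level (d + 1) k hr hk
  obtain ⟨n₀, hn₀, hcard⟩ := eventually_card_pow_le (d + 1)
  set γ : ℝ := 1 - (1 / θ).toReal with hγ
  have hγ0 : 0 ≤ γ := by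
    have h1 : 1 / θ ≤ 1 := by simpa using hθ
    have := ENNReal.toReal_mono ENNReal.one_ne_top h1
    simp only [ENNReal.toReal_one] at this
    linarith
  set D : ℝ := 2 * (d + 1) ^ 2 with hD
  have hD0 : 0 < D := by positivity
  refine ⟨c * (2 ^ (-r) * δ ^ r * (D ^ (d * (r + γ)))⁻¹), by positivity,
    max 2 ⌈Real.exp ((d + 1) * n₀)⌉₊, fun m hm => ?_⟩
  have hm2 : 2 ≤ m := (le_max_left _ _).trans hm
  have hm0 : (0 : ℝ) < m := by exact_mod_cast (show 0 < m by omega)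
  obtain ⟨n, h1, h2, h3⟩ := exists_level d hδ0 hδ1 m hm2
  have hlog : (d + 1) * n₀ ≤ Real.log m := by
    rw [Real.le_log_iff_exp_le hm0]
    exact (Nat.le_ceil _).trans (by exact_mod_cast (le_max_right _ _).trans hm)
  have hn : n₀ ≤ n + 1 := by
    have := le_of_mul_le_mul_left (hlog.trans h3) (by positivity)
    exact_mod_cast this
  have hn1 : (1 : ℝ) ≤ n := by exact_mod_cast (show 1 ≤ n by omega)
  have hS := card_shapes_ge_real d (n + 1)
  have hS0 : 0 < (shapes (d + 1) (n + 1)).card := by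
    have : (0 : ℝ) < (shapes (d + 1) (n + 1)).card := lt_of_lt_of_le (by positivity) hS
    exact_mod_cast this
  refine le_trans (ENNReal.ofReal_le_ofReal ?_) (hlev 𝕜 p θ hp hθ (n + 1) (shapes (d + 1) (n + 1))
    sum_of_mem_shapes hS0 (hcard _ hn) m (h1.trans ?_))
  swap
  · rw [mul_assoc]; gcongr
  rw [mul_assoc c]
  refine mul_le_mul_of_nonneg_left ?_ hc0.le
  set L := Real.log m with hL
  have hL0 : 0 ≤ L := Real.log_nonneg (by exact_mod_cast (show 1 ≤ m by omega))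
  set X : ℝ := (n : ℝ) / (d + 1) with hX
  have hX0 : 0 < X := by positivity
  have hLX : L / D ≤ X := by
    rw [hX, hD, div_le_div_iff₀ (by positivity) (by positivity)]
    have : (0 : ℝ) < d + 1 := by positivity
    nlinarith [mul_le_mul_of_nonneg_right h3 this.le, mul_pos this this]
  have e1 : (((d + 1 : ℕ) : ℝ) - 1) * (r + 1 - (1 / θ).toReal) = d * (r + γ) := by
    rw [hγ]; push_cast; ring
  have hA : (m : ℝ) ^ (-r) * (δ ^ r * (X ^ d) ^ r) ≤ ((2 : ℝ) ^ n) ^ (-r) := by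
    have h4 : (2 : ℝ) ^ n ≤ m / (δ * X ^ d) := by
      rw [le_div_iff₀ (by positivity)]; linarith
    refine le_trans (le_of_eq ?_) (Real.rpow_le_rpow_of_nonpos (by positivity) h4 (by linarith))
    rw [Real.div_rpow hm0.le (by positivity), Real.rpow_neg (show 0 ≤ δ * X ^ d by positivity),
      Real.mul_rpow hδ0.le (by positivity), div_inv_eq_mul]
  have hB : (X ^ d) ^ γ ≤ ((shapes (d + 1) (n + 1)).card : ℝ) ^ γ := by
    refine Real.rpow_le_rpow (by positivity) (le_trans ?_ hS) hγ0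
    rw [hX]; push_cast; gcongr; linarith
  have hC : L ^ (d * (r + γ)) * (D ^ (d * (r + γ)))⁻¹ ≤ (X ^ d) ^ r * (X ^ d) ^ γ := by
    rw [← div_eq_mul_inv, ← Real.div_rpow hL0 hD0.le, ← Real.rpow_add (by positivity),
      ← Real.rpow_natCast X d, ← Real.rpow_mul hX0.le]
    exact Real.rpow_le_rpow (by positivity) hLX (by positivity)
  rw [e1, pow_succ (2 : ℝ) n, Real.mul_rpow (x := (2 : ℝ) ^ n) (by positivity) (by norm_num)]
  have h2r : (0 : ℝ) < 2 ^ (-r) := by positivity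
  calc 2 ^ (-r) * δ ^ r * (D ^ (d * (r + γ)))⁻¹ * ((m : ℝ) ^ (-r) * L ^ (d * (r + γ)))
      = 2 ^ (-r) * (δ ^ r * (m : ℝ) ^ (-r)) * (L ^ (d * (r + γ)) * (D ^ (d * (r + γ)))⁻¹) := by
        ring
    _ ≤ 2 ^ (-r) * (δ ^ r * (m : ℝ) ^ (-r)) * ((X ^ d) ^ r * (X ^ d) ^ γ) := by gcongr
    _ = 2 ^ (-r) * ((m : ℝ) ^ (-r) * (δ ^ r * (X ^ d) ^ r)) * (X ^ d) ^ γ := by ring
    _ ≤ 2 ^ (-r) * ((2 : ℝ) ^ n) ^ (-r) * ((shapes (d + 1) (n + 1)).card : ℝ) ^ γ := by gcongr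
    _ = _ := by ring

end Pool.Agent.MixedBesov
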