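import Mathlib

/-! Finite product probability spaces, even moments of sums, and a random design. -/

set_option autoImplicit false
set_option linter.unusedSectionVars false

open Finset

namespace Pool.Agent.Lib.MP_919f0c_an.Lp

section Prob
variable {S : Type*} [Fintype S] [DecidableEq S] {K : S → Type*} [∀ s, Fintype (K s)]

/-- probability weights -/
structure PW (w : ∀ s, K s → ℝ) : Prop where
  nn : ∀ s κ, 0 ≤ w s κ
  one : ∀ s, ∑ κ, w s κ = 1

/-- expectation for the product weights -/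
def Ex (w : ∀ s, K s → ℝ) (F : (∀ s, K s) → ℝ) : ℝ := ∑ b, (∏ s, w s (b s)) * F b

variable {w : ∀ s, K s → ℝ}

lemma Ex_add (F G : (∀ s, K s) → ℝ) : Ex w (fun b => F b + G b) = Ex w F + Ex w G := by
  simp only [Ex, mul_add, sum_add_distrib]

lemma Ex_mul_left (c : ℝ) (F : (∀ s, K s) → ℝ) : Ex w (fun b => c * F b) = c * Ex w F := by
  simp only [Ex, mul_sum, mul_left_comm]

lemma Ex_sum {α : Type*} (J : Finset α) (F : α → (∀ s, K s) → ℝ) :
    Ex w (fun b => ∑ a ∈ J, F a b) = ∑ a ∈ J, Ex w (F a) := by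
  simp only [Ex, mul_sum]; exact sum_comm

lemma Ex_mono (hw : PW w) {F G : (∀ s, K s) → ℝ} (h : ∀ b, F b ≤ G b) : Ex w F ≤ Ex w G :=
  sum_le_sum fun b _ => mul_le_mul_of_nonneg_left (h b) (prod_nonneg fun s _ => hw.nn s _)

lemma Ex_prod (G : ∀ s, K s → ℝ) : Ex w (fun b => ∏ s, G s (b s)) = ∏ s, ∑ κ, w s κ * G s κ := by
  rw [prod_univ_sum, Fintype.piFinset_univ, Ex]
  simp only [prod_mul_distrib]

lemma Ex_const (hw : PW w) (c : ℝ) : Ex w (fun _ => c) = c := by
  have := Ex_prod (w := w) fun _ _ => 1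
  simp only [prod_const_one, mul_one, hw.one] at this
  simpa [this] using Ex_mul_left (w := w) c fun _ => 1

lemma Ex_coord (hw : PW w) (s : S) (G : K s → ℝ) :
    Ex w (fun b => G (b s)) = ∑ κ, w s κ * G κ := by
  have := Ex_prod (w := w) (Function.update (fun _ _ => 1) s G)
  rw [← mul_prod_erase _ _ (mem_univ s), prod_eq_one fun t ht => by
    simp [Function.update_of_ne (ne_of_mem_erase ht), hw.one], Function.update_self,
    mul_one] at this
  rw [← this]
  congr 1; funext b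
  rw [← mul_prod_erase _ _ (mem_univ s), prod_eq_one fun t ht => by
    simp [Function.update_of_ne (ne_of_mem_erase ht)], Function.update_self, mul_one]

lemma Ex_mul (hw : PW w) (A : Finset S) {F G : (∀ s, K s) → ℝ}
    (hF : ∀ b b', (∀ s ∈ A, b s = b' s) → F b = F b')
    (hG : ∀ b b', (∀ s ∉ A, b s = b' s) → G b = G b') :
    Ex w (fun b => F b * G b) = Ex w F * Ex w G := by
  let σ : (∀ s, K s) × (∀ s, K s) → (∀ s, K s) × (∀ s, K s) := fun z =>
    (A.piecewise z.1 z.2, A.piecewise z.2 z.1)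
  have hσ : Function.Involutive σ := fun z => by
    ext s <;> by_cases h : s ∈ A <;> simp [σ, h]
  have h1 := Equiv.sum_comp hσ.toPerm fun z =>
    (∏ s, w s (z.1 s)) * (F z.1 * G z.1) * ∏ s, w s (z.2 s)
  have h2 := Ex_const hw 1
  simp only [Ex, mul_one] at h2
  rw [Fintype.sum_prod_type, Fintype.sum_prod_type] at h1
  simp only [← mul_sum, h2, mul_one] at h1
  rw [Ex, ← h1, Ex, Ex, sum_mul_sum]
  refine sum_congr rfl fun b _ => sum_congr rfl fun b' _ => ?_
  simp only [Function.Involutive.coe_toPerm, σ]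
  rw [hF (A.piecewise b b') b fun s hs => piecewise_eq_of_mem _ _ _ hs,
    hG (A.piecewise b b') b' fun s hs => piecewise_eq_of_notMem _ _ _ hs, mul_right_comm,
    ← prod_mul_distrib, mul_mul_mul_comm, ← prod_mul_distrib]
  congr 1
  refine prod_congr rfl fun s _ => ?_
  by_cases h : s ∈ A <;> simp [h, mul_comm]

lemma exists_lt (hw : PW w) {F : (∀ s, K s) → ℝ} {c : ℝ} (h : Ex w F < c) : ∃ b, F b < c := by
  by_contra hc
  push Not at hc
  exact absurd ((Ex_const hw c).symm.trans_le (Ex_mono hw hc)) h.not_ge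

lemma var_sum (hw : PW w) {α : Type*} [DecidableEq α] (J : Finset α) (A : α → Finset S)
    (hA : ∀ a ∈ J, ∀ a' ∈ J, a ≠ a' → ∀ s ∈ A a', s ∉ A a) (F : α → (∀ s, K s) → ℝ)
    (hF : ∀ a b b', (∀ s ∈ A a, b s = b' s) → F a b = F a b') :
    Ex w (fun b => (∑ a ∈ J, (F a b - Ex w (F a))) ^ 2) ≤ ∑ a ∈ J, Ex w fun b => F a b ^ 2 := by
  have h0 : ∀ a, Ex w (fun b => F a b - Ex w (F a)) = 0 := fun a => by
    simp only [sub_eq_add_neg, Ex_add, Ex_const hw, add_neg_cancel]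
  simp only [sq, sum_mul_sum, Ex_sum]
  refine sum_le_sum fun a ha => ?_
  rw [sum_eq_single_of_mem a ha fun a' ha' h => by
    rw [Ex_mul hw (A a) (fun b b' hb => by rw [hF a b b' hb])
      (fun b b' hb => by rw [hF a' b b' fun s hs => hb s (hA a ha a' ha' h.symm s hs)]),
      h0, zero_mul]]
  have : ∀ b, (F a b - Ex w (F a)) * (F a b - Ex w (F a)) =
      F a b * F a b + (-2 * Ex w (F a) * F a b + Ex w (F a) ^ 2) := fun b => by ring
  simp only [this, Ex_add, Ex_mul_left, Ex_const hw]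
  nlinarith [sq_nonneg (Ex w (F a))]

lemma pow_add_le (x y : ℝ) (k : ℕ) : (x + y) ^ (2 * k + 2) ≤ x ^ (2 * k + 2) +
    ((2 * k + 2) * (y * x ^ (2 * k + 1)) + 2 ^ (2 * k + 2) * (y ^ 2 * x ^ (2 * k) +
      y ^ (2 * k + 2))) := by
  have hx : 0 ≤ x ^ (2 * k) := by rw [pow_mul]; positivity
  have hy : 0 ≤ y ^ (2 * k) := by rw [pow_mul]; positivity
  have h1 : ∀ m ∈ range (2 * k + 1), x ^ m * y ^ (2 * k + 2 - m) * ((2 * k + 2).choose m : ℝ) ≤
      (y ^ 2 * x ^ (2 * k) + y ^ (2 * k + 2)) * ((2 * k + 2).choose m : ℝ) := by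
    intro m hm
    have hm := mem_range.1 hm
    refine mul_le_mul_of_nonneg_right ?_ (by positivity)
    have h2 : x ^ m * y ^ (2 * k - m) ≤ x ^ (2 * k) + y ^ (2 * k) := by
      refine (le_abs_self _).trans ?_
      rw [abs_mul, abs_pow, abs_pow, ← (even_two_mul k).pow_abs x, ← (even_two_mul k).pow_abs y]
      rcases le_total |x| |y| with h | h
      · refine le_trans ?_ (le_add_of_nonneg_left (by positivity))
        calc _ ≤ |y| ^ m * |y| ^ (2 * k - m) := by gcongr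
          _ = _ := by rw [← pow_add]; congr 1; omega
      · refine le_trans ?_ (le_add_of_nonneg_right (by positivity))
        calc _ ≤ |x| ^ m * |x| ^ (2 * k - m) := by gcongr
          _ = _ := by rw [← pow_add]; congr 1; omega
    rw [show 2 * k + 2 - m = 2 * k - m + 2 by omega, pow_add, pow_add]
    nlinarith [sq_nonneg y]
  have h3 : ∑ m ∈ range (2 * k + 1), ((2 * k + 2).choose m : ℝ) ≤ 2 ^ (2 * k + 2) := by
    have := sum_le_sum_of_subset (f := fun m => (2 * k + 2).choose m)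
      (range_mono (show 2 * k + 1 ≤ 2 * k + 2 + 1 by omega))
    rw [Nat.sum_range_choose] at this
    exact_mod_cast this
  have h4 := sum_le_sum h1
  rw [← mul_sum] at h4
  have h5 : 0 ≤ y ^ 2 * x ^ (2 * k) + y ^ (2 * k + 2) := by rw [pow_add]; positivity
  rw [add_pow, sum_range_succ, sum_range_succ, Nat.choose_self, Nat.sub_self,
    show 2 * k + 2 - (2 * k + 1) = 1 by omega, Nat.choose_succ_self_right]
  push_cast
  nlinarith [mul_le_mul_of_nonneg_left h3 h5]

/-- constant of the moment inequality -/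
def cR : ℕ → ℝ
  | 0 => 1
  | k + 1 => 2 ^ (2 * k + 2) * (2 * cR k + 1)

lemma cR_pos (k : ℕ) : 0 < cR k := by
  induction k with
  | zero => exact one_pos
  | succ k ih => unfold cR; positivity

/-- sum of the moments of order `n` -/
def Vm (w ξ : ∀ s, K s → ℝ) (n : ℕ) (A : Finset S) : ℝ := ∑ s ∈ A, ∑ κ, w s κ * ξ s κ ^ n

lemma Vm_mono (hw : PW w) (ξ : ∀ s, K s → ℝ) (k : ℕ) {A B : Finset S} (h : A ⊆ B) :
    Vm w ξ (2 * k) A ≤ Vm w ξ (2 * k) B :=
  sum_le_sum_of_subset_of_nonneg h fun s _ _ => sum_nonneg fun κ _ =>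
    mul_nonneg (hw.nn s κ) (by rw [pow_mul]; positivity)

lemma Vm_nonneg (hw : PW w) (ξ : ∀ s, K s → ℝ) (k : ℕ) (A : Finset S) : 0 ≤ Vm w ξ (2 * k) A :=
  Vm_mono hw ξ k (empty_subset A)

lemma ros_step (hw : PW w) {ξ : ∀ s, K s → ℝ} (hξ : ∀ s, ∑ κ, w s κ * ξ s κ = 0) (k : ℕ)
    (A : Finset S) {X : ℝ} (hX : ∀ B ⊆ A, Ex w (fun b => (∑ s ∈ B, ξ s (b s)) ^ (2 * k)) ≤ X) :
    Ex w (fun b => (∑ s ∈ A, ξ s (b s)) ^ (2 * k + 2)) ≤
      2 ^ (2 * k + 2) * (Vm w ξ 2 A * X + Vm w ξ (2 * k + 2) A) := by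
  induction A using Finset.induction_on with
  | empty => simp [Vm, Ex]
  | insert a A ha ih =>
    have h1 : ∀ (G : K a → ℝ) (n : ℕ), Ex w (fun b => G (b a) * (∑ s ∈ A, ξ s (b s)) ^ n) =
        (∑ κ, w a κ * G κ) * Ex w fun b => (∑ s ∈ A, ξ s (b s)) ^ n := fun G n => by
      rw [Ex_mul hw {a} (fun b b' h => by rw [h a (mem_singleton_self a)]) (fun b b' h => by
        rw [sum_congr rfl fun s hs => by
          rw [h s fun h' => ha (mem_singleton.1 h' ▸ hs)]]), Ex_coord hw]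
    simp only [sum_insert ha, add_comm (ξ a _)]
    refine (Ex_mono hw fun b => pow_add_le _ _ k).trans ?_
    simp only [Ex_add, Ex_mul_left]
    rw [h1 (ξ a), h1 fun κ => ξ a κ ^ 2, hξ, Ex_coord hw a fun κ => ξ a κ ^ (2 * k + 2)]
    have h2 := ih fun B hB => hX B (hB.trans (subset_insert a A))
    have h3 := mul_le_mul_of_nonneg_left (hX A (subset_insert a A))
      (sum_nonneg fun κ (_ : κ ∈ univ) => mul_nonneg (hw.nn a κ) (sq_nonneg (ξ a κ)))
    simp only [Vm, sum_insert ha] at h2 ⊢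
    nlinarith [mul_le_mul_of_nonneg_left h3 (show (0 : ℝ) ≤ 2 ^ (2 * k + 2) by positivity)]

/-- Rosenthal's inequality for even moments -/
lemma rosenthal (hw : PW w) {ξ : ∀ s, K s → ℝ} (hξ : ∀ s, ∑ κ, w s κ * ξ s κ = 0) (k : ℕ)
    (A : Finset S) : Ex w (fun b => (∑ s ∈ A, ξ s (b s)) ^ (2 * (k + 1))) ≤
      cR (k + 1) * (Vm w ξ 2 A ^ (k + 1) + Vm w ξ (2 * (k + 1)) A) := by
  have hv := fun A => Vm_nonneg hw ξ 1 A
  rw [mul_one] at hv
  induction k generalizing A with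
  | zero =>
    have := ros_step hw hξ 0 A (X := 1) fun B _ => by simp [Ex_const hw]
    have := hv A
    simp only [cR] at *
    norm_num at *
    linarith
  | succ k ih =>
    have h1 := ros_step hw hξ (k + 1) A (X := cR (k + 1) * (Vm w ξ 2 A ^ (k + 1) +
      Vm w ξ (2 * (k + 1)) A)) fun B hB => (ih B).trans (mul_le_mul_of_nonneg_left (add_le_add
        (pow_le_pow_left₀ (hv B) (Vm_mono hw ξ 1 hB) _) (Vm_mono hw ξ _ hB)) (cR_pos _).le)
    set v := Vm w ξ 2 A with hvd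
    have h2 : v * Vm w ξ (2 * (k + 1)) A ≤ Vm w ξ (2 * (k + 1) + 2) A + v ^ (k + 1) * v := by
      conv_rhs => rw [hvd]
      simp only [Vm, mul_sum, ← sum_add_distrib]
      refine sum_le_sum fun s _ => sum_le_sum fun κ _ => ?_
      rw [← Vm, ← hvd, mul_left_comm, mul_left_comm (v ^ _), ← mul_add, pow_add, pow_mul]
      refine mul_le_mul_of_nonneg_left ?_ (hw.nn s κ)
      have h3 := sq_nonneg (ξ s κ)
      have h4 := hv A
      generalize ξ s κ ^ 2 = x at *
      rcases le_total v x with h | h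
      · rw [mul_comm]
        exact (mul_le_mul_of_nonneg_left h (by positivity)).trans
          (le_add_of_nonneg_right (by positivity))
      · refine le_trans ?_ (le_add_of_nonneg_left (by positivity))
        calc v * x ^ (k + 1) = v * x ^ k * x := by ring
          _ ≤ v * v ^ k * x := by gcongr
          _ = _ := by ring
    have h3 := cR_pos (k + 1)
    have h4 := Vm_nonneg hw ξ (k + 1 + 1) A
    have h5 : 0 ≤ v ^ (k + 1) * v := by have := hv A; positivity
    rw [show 2 * (k + 1 + 1) = 2 * (k + 1) + 2 by ring] at *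
    refine h1.trans ?_
    rw [show cR (k + 1 + 1) = 2 ^ (2 * (k + 1) + 2) * (2 * cR (k + 1) + 1) from rfl, mul_assoc,
      pow_succ v (k + 1)]
    refine mul_le_mul_of_nonneg_left ?_ (by positivity)
    nlinarith [mul_le_mul_of_nonneg_left h2 h3.le]

end Prob

section Design
variable {Y Λ : Type*} [Fintype Y] [DecidableEq Y] [DecidableEq Λ]

/-- Bernoulli weights -/
def bw (a : ℝ) (_ : Y) (β : Bool) : ℝ := if β then a else 1 - a

/-- centered Bernoulli variable -/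
def ζ (a : ℝ) (β : Bool) : ℝ := (if β then 1 else 0) - a

omit [Fintype Y] [DecidableEq Y] in
lemma pw_bw {a : ℝ} (h0 : 0 ≤ a) (h1 : a ≤ 1) : PW (bw (Y := Y) a) :=
  ⟨fun _ β => by unfold bw; split_ifs <;> linarith, fun _ => by simp [bw]⟩

lemma bern {a : ℝ} (h0 : 0 ≤ a) (h1 : a ≤ 1) (k : ℕ) (R : Finset Y) (c : Y → ℝ) :
    Ex (bw a) (fun b => (∑ y ∈ R, ζ a (b y) * c y) ^ (2 * (k + 1))) ≤
      cR (k + 1) * (a ^ (k + 1) * #R ^ k + a) * ∑ y ∈ R, c y ^ (2 * (k + 1)) := by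
  have hV : ∀ j, Vm (bw a) (fun y β => ζ a β * c y) (2 * (j + 1)) R ≤
      a * ∑ y ∈ R, c y ^ (2 * (j + 1)) := fun j => by
    rw [mul_sum]
    refine sum_le_sum fun y _ => ?_
    have h2 : 0 ≤ c y ^ (2 * (j + 1)) := by rw [pow_mul]; positivity
    have h3 : (1 - a) ^ (2 * (j + 1)) ≤ 1 - a :=
      pow_le_of_le_one (by linarith) (by linarith) (by omega)
    have h4 : a ^ (2 * j + 1) ≤ a := pow_le_of_le_one h0 h1 (by omega)
    simp only [Fintype.sum_bool, bw, ζ, if_true, Bool.false_eq_true, if_false, mul_pow, zero_sub,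
      (even_two_mul _).neg_pow, ← mul_assoc, ← add_mul]
    refine mul_le_mul_of_nonneg_right ?_ h2
    rw [show a ^ (2 * (j + 1)) = a ^ (2 * j + 1) * a from (pow_succ a _)]
    nlinarith [mul_le_mul_of_nonneg_left h3 h0, mul_le_mul_of_nonneg_left h4
      (mul_nonneg h0 (sub_nonneg.2 h1)), mul_nonneg (mul_nonneg h0 h0) h0, mul_nonneg h0 h0]
  refine (rosenthal (pw_bw h0 h1) (ξ := fun y β => ζ a β * c y)
    (fun y => by simp [bw, ζ]; ring) k R).trans ?_
  rw [mul_assoc, add_mul]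
  refine mul_le_mul_of_nonneg_left (add_le_add ?_ (hV k)) (cR_pos _).le
  refine (pow_le_pow_left₀ (Vm_nonneg (pw_bw h0 h1) _ 1 R) (hV 0) _).trans ?_
  rw [mul_pow, mul_assoc]
  refine mul_le_mul_of_nonneg_left ?_ (by positivity)
  simpa only [pow_mul, zero_add, pow_one] using pow_sum_le_card_mul_sum_pow (s := R) (f := fun y => c y ^ 2)
    (fun _ _ => sq_nonneg _) k

omit [DecidableEq Y] in
lemma fib_sum {ρ : Y → Λ} {n : ℕ} (h : ∀ y, #{z | ρ z = ρ y} = n) (F : Λ → ℝ) :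
    ∑ y, F (ρ y) = n * ∑ R ∈ univ.image ρ, F R := by
  rw [sum_comp F ρ, mul_sum]
  refine sum_congr rfl fun R hR => ?_
  obtain ⟨y, -, rfl⟩ := mem_image.1 hR
  rw [h, nsmul_eq_mul]

lemma prod_sq_le {n : ℕ} (z : Fin (n + 1) → ℝ) :
    (∏ i, z i) ^ 2 ≤ ∑ i, z i ^ (2 * (n + 1)) := by
  obtain ⟨i, -, hi⟩ := exists_max_image univ (fun i => z i ^ 2) univ_nonempty
  refine le_trans ?_ (single_le_sum (f := fun i => z i ^ (2 * (n + 1)))
    (fun i _ => by rw [pow_mul]; positivity) (mem_univ i))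
  rw [← prod_pow, pow_mul]
  simpa using prod_le_prod (s := univ) (fun j _ => sq_nonneg (z j)) hi

/-- one family of fine boxes: the score and its expectation -/
lemma design_one {a : ℝ} (h0 : 0 ≤ a) (h1 : a ≤ 1) {β ρ : Y → Λ} {nv n : ℕ} (hv : 0 < nv)
    (hβ : ∀ y, #{z | β z = β y} = nv) (hρ : ∀ y, #{z | ρ z = ρ y} = n) {M : ℝ}
    (hM : (Fintype.card Y : ℝ) = M * nv) (hM0 : 0 < M) {φ : Y → ℝ} (hφ : ∀ y, |φ y| ≤ 1) (k : ℕ) :
    ∃ Ξ : (Y → Bool) → ℝ, (∀ b, 0 ≤ Ξ b) ∧ Ex (bw a) Ξ ≤ M ^ (4 * k + 6) * (n / Fintype.card Y) *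
      ((2 * k + 2) * (cR (2 * k + 2) * ((a * n) ^ (2 * k + 2) + a * n))) ∧
      ∀ b τ, 0 ≤ τ → Ξ b ≤ τ ^ 2 → ∀ h : Y → ℝ, h.FactorsThrough β →
        ∑ y, (∑ z with ρ z = ρ y, ζ a (b z) * (φ z * h z)) ^ (2 * (k + 1)) ≤
          (cR (k + 1) * ((a * n) ^ (k + 1) + a * n) + τ) * ∑ y, h y ^ (2 * (k + 1)) := by
  have hw := pw_bw (Y := Y) h0 h1
  let Z : Λ → (Y → ℝ) → (Y → Bool) → ℝ := fun R h b => ∑ z with ρ z = R, ζ a (b z) * (φ z * h z)
  let e : Λ → Y → ℝ := fun B z => if β z = B then 1 else 0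
  let T := Fintype.piFinset fun _ : Fin (2 * (k + 1)) => univ.image β
  let P : (Fin (2 * (k + 1)) → Λ) → Λ → (Y → Bool) → ℝ := fun B R b => ∏ i, Z R (e (B i)) b
  let C : (Fin (2 * (k + 1)) → Λ) → (Y → Bool) → ℝ := fun B b =>
    ∑ R ∈ univ.image ρ, (P B R b - Ex (bw a) (P B R))
  have hnv : (0 : ℝ) < nv := by exact_mod_cast hv
  have hcβ : (#(univ.image β) : ℝ) = M := by
    have := fib_sum hβ fun _ => 1
    simp only [sum_const, card_univ, nsmul_eq_mul, mul_one, hM] at this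
    exact (mul_right_cancel₀ hnv.ne' (this.trans (mul_comm _ _))).symm
  have hT : (#T : ℝ) = M ^ (2 * (k + 1)) := by simp [T, hcβ]
  have hZ : ∀ (j : ℕ) (h : Y → ℝ), ∀ R ∈ univ.image ρ, (n : ℝ) * Ex (bw a)
      (fun b => Z R h b ^ (2 * (j + 1))) ≤ cR (j + 1) * ((a * n) ^ (j + 1) + a * n) *
        ∑ z with ρ z = R, h z ^ (2 * (j + 1)) := by
    intro j h R hR
    obtain ⟨y, -, rfl⟩ := mem_image.1 hR
    have := cR_pos (j + 1)
    refine (mul_le_mul_of_nonneg_left (bern h0 h1 j _ _) (by positivity)).trans ?_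
    rw [hρ, ← mul_assoc]
    refine mul_le_mul (le_of_eq (by ring)) (sum_le_sum fun z _ => ?_) (sum_nonneg fun z _ => by
      rw [pow_mul]; positivity) (by positivity)
    rw [mul_pow, ← (even_two_mul _).pow_abs (φ z)]
    exact mul_le_of_le_one_left (by rw [pow_mul]; positivity) (pow_le_one₀ (abs_nonneg _) (hφ z))
  refine ⟨fun b => (n / nv) ^ 2 * (M ^ (2 * (k + 1)) * ∑ B ∈ T, C B b ^ 2),
    fun b => by positivity, ?_, fun b τ hτ hb h hh => ?_⟩
  · have h2 : ∀ B ∈ T, (n : ℝ) * Ex (bw a) (fun b => C B b ^ 2) ≤ Fintype.card Y *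
        ((2 * k + 2) * (cR (2 * k + 2) * ((a * n) ^ (2 * k + 2) + a * n))) := by
      intro B _
      refine (mul_le_mul_of_nonneg_left (var_sum hw _ (fun R => univ.filter fun z => ρ z = R)
        (fun R _ R' _ h s hs hs' => h ((mem_filter.1 hs').2.symm.trans (mem_filter.1 hs).2))
        (P B) fun R b b' hb => prod_congr rfl fun i _ => sum_congr rfl fun z hz => by
          rw [hb z hz]) (by positivity)).trans ?_
      have h3 := fib_sum hρ fun _ => 1
      simp only [sum_const, card_univ, nsmul_eq_mul, mul_one] at h3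
      rw [h3, mul_assoc, ← nsmul_eq_mul (#(univ.image ρ))]
      rcases Nat.eq_zero_or_pos n with hn | hn
      · simp [hn]
      refine mul_le_mul_of_nonneg_left (sum_le_card_nsmul _ _ _ fun R hR => ?_) (by positivity)
      refine (Ex_mono hw fun b => prod_sq_le (n := 2 * k + 1) fun i => Z R (e (B i)) b).trans ?_
      rw [Ex_sum]
      refine (sum_le_card_nsmul _ _ (cR (2 * k + 2) * ((a * n) ^ (2 * k + 2) + a * n))
        fun i _ => ?_).trans (le_of_eq (by simp [add_assoc, one_add_one_eq_two]))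
      have hn' : (0 : ℝ) < n := by exact_mod_cast hn
      refine le_of_mul_le_mul_left ((hZ (2 * k + 1) _ R hR).trans ?_) hn'
      rw [mul_comm (n : ℝ)]
      have := cR_pos (2 * k + 1 + 1)
      refine mul_le_mul_of_nonneg_left ?_ (by positivity)
      obtain ⟨y, -, rfl⟩ := mem_image.1 hR
      refine (sum_le_card_nsmul _ _ 1 fun z _ => ?_).trans (by simp [hρ])
      simp only [e]; split_ifs <;> simp
    have h3 := sum_le_card_nsmul _ _ _ h2
    rw [← mul_sum, nsmul_eq_mul, hT] at h3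
    rw [Ex_mul_left, Ex_mul_left, Ex_sum]
    calc _ = n / nv ^ 2 * M ^ (2 * (k + 1)) *
          (n * ∑ B ∈ T, Ex (bw a) (fun b => C B b ^ 2)) := by ring
      _ ≤ _ := mul_le_mul_of_nonneg_left h3 (by positivity)
      _ = _ := by rw [hM]; field_simp; ring
  · set H := Function.extend β h 0
    have hH : ∀ z, H (β z) = h z := fun z => hh.extend_apply 0 z
    set σ := ∑ y, h y ^ (2 * (k + 1)) with hσ
    have hev : ∀ x : ℝ, 0 ≤ x ^ (2 * (k + 1)) := fun x => by rw [pow_mul]; positivity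
    have hσ0 : 0 ≤ σ := sum_nonneg fun y _ => hev _
    have h2 : ∀ R b, Z R h b ^ (2 * (k + 1)) = ∑ B ∈ T, (∏ i, H (B i)) * P B R b := by
      intro R b
      have : Z R h b = ∑ B ∈ univ.image β, H B * Z R (e B) b := by
        simp only [Z, mul_sum]
        rw [sum_comm]
        refine sum_congr rfl fun z _ => ?_
        rw [sum_eq_single_of_mem (β z) (mem_image_of_mem _ (mem_univ z)) fun B _ hB => by
          simp [e, hB.symm], hH]
        simp only [e, if_true]; ring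
      rw [this, sum_pow']
      simp only [prod_mul_distrib, P, T]
    have h3 : ∀ B ∈ T, (nv : ℝ) * |∏ i, H (B i)| ≤ σ := by
      intro B hB
      obtain ⟨i, -, hi⟩ := exists_max_image univ (fun i => |H (B i)|) ⟨0, mem_univ _⟩
      have h4 : |∏ i, H (B i)| ≤ H (B i) ^ (2 * (k + 1)) := by
        rw [abs_prod, ← (even_two_mul _).pow_abs]
        simpa using prod_le_prod (s := univ) (fun j _ => abs_nonneg (H (B j))) hi
      refine (mul_le_mul_of_nonneg_left h4 hnv.le).trans ?_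
      simp only [hσ, ← hH]
      rw [fib_sum hβ fun B => H B ^ (2 * (k + 1))]
      exact mul_le_mul_of_nonneg_left (single_le_sum (f := fun B => H B ^ (2 * (k + 1)))
        (fun _ _ => hev _) (Fintype.mem_piFinset.1 hB i)) hnv.le
    have h4 : n / nv * ∑ B ∈ T, |C B b| ≤ τ := by
      refine (pow_le_pow_iff_left₀ (by positivity) hτ two_ne_zero).1 (le_trans ?_ hb)
      rw [mul_pow, ← hT]
      simpa using mul_le_mul_of_nonneg_left
        (sq_sum_le_card_mul_sum_sq (s := T) (f := fun B => |C B b|)) (sq_nonneg ((n : ℝ) / nv))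
    have h5 : ∑ R ∈ univ.image ρ, Z R h b ^ (2 * (k + 1)) = ∑ R ∈ univ.image ρ,
        Ex (bw a) (fun b => Z R h b ^ (2 * (k + 1))) + ∑ B ∈ T, (∏ i, H (B i)) * C B b := by
      simp only [h2, Ex_sum, Ex_mul_left, C, mul_sum, mul_sub, sum_sub_distrib]
      rw [sum_comm (s := T), sum_comm (s := T)]; ring
    rw [fib_sum hρ fun R => Z R h b ^ (2 * (k + 1)), h5, mul_add, add_mul, mul_sum]
    refine add_le_add ((sum_le_sum fun R hR => hZ k h R hR).trans (le_of_eq ?_)) ?_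
    · rw [← mul_sum, sum_fiberwise_of_maps_to fun z _ => mem_image_of_mem ρ (mem_univ z)]
    · refine le_trans ?_ (mul_le_mul_of_nonneg_right h4 hσ0)
      rw [mul_assoc, sum_mul, mul_sum, mul_sum]
      refine sum_le_sum fun B hB => ?_
      have h6 := mul_le_mul_of_nonneg_left (h3 B hB) (abs_nonneg (C B b))
      have h7 : (∏ i, H (B i)) * C B b ≤ |∏ i, H (B i)| * |C B b| := by
        rw [← abs_mul]; exact le_abs_self _
      calc _ ≤ n * (|∏ i, H (B i)| * |C B b|) := mul_le_mul_of_nonneg_left h7 (by positivity)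
        _ = n / nv * (|C B b| * (nv * |∏ i, H (B i)|)) := by field_simp
        _ ≤ _ := mul_le_mul_of_nonneg_left h6 (by positivity)

/-- the random design -/
theorem design {T : Type*} (𝒯 : Finset T) {a : ℝ} (h0 : 0 < a) (h1 : a ≤ 1) {β : Y → Λ}
    {ρ : T → Y → Λ} {nv : ℕ} {n k : T → ℕ} (hv : 0 < nv) (hβ : ∀ y, #{z | β z = β y} = nv)
    (hρ : ∀ t ∈ 𝒯, ∀ y, #{z | ρ t z = ρ t y} = n t) {M : ℝ}
    (hM : (Fintype.card Y : ℝ) = M * nv) (hM0 : 0 < M) {φ : T → Y → ℝ} (hφ : ∀ t y, |φ t y| ≤ 1)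
    {τ : T → ℝ} (hτ : ∀ t, 0 < τ t)
    (hs : 24 * M / (a * nv) + ∑ t ∈ 𝒯, M ^ (4 * k t + 6) * (n t / Fintype.card Y) *
      ((2 * k t + 2) * (cR (2 * k t + 2) * ((a * n t) ^ (2 * k t + 2) + a * n t))) / τ t ^ 2 < 1) :
    ∃ b : Y → Bool, (∀ y, (#{z | β z = β y ∧ b z} : ℝ) ≤ 2 * (a * nv)) ∧
      ∀ t ∈ 𝒯, ∀ h : Y → ℝ, h.FactorsThrough β →
        ∑ y, (∑ z with ρ t z = ρ t y, ζ a (b z) * (φ t z * h z)) ^ (2 * (k t + 1)) ≤
          (cR (k t + 1) * ((a * n t) ^ (k t + 1) + a * n t) + τ t) *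
            ∑ y, h y ^ (2 * (k t + 1)) := by
  have hw := pw_bw (Y := Y) h0.le h1
  have hnv : (0 : ℝ) < nv := by exact_mod_cast hv
  choose! Ξ hΞ0 hΞ1 hΞ2 using fun t (ht : t ∈ 𝒯) =>
    design_one h0.le h1 hv hβ (hρ t ht) hM hM0 (hφ t) (k t)
  let W : Λ → (Y → Bool) → ℝ := fun B b => (∑ z with β z = B, ζ a (b z) * 1) ^ (2 * (0 + 1))
  obtain ⟨b, hb⟩ := exists_lt hw (c := 1) (F := fun b => ((a * nv) ^ 2)⁻¹ *
      ∑ B ∈ univ.image β, W B b + ∑ t ∈ 𝒯, (τ t ^ 2)⁻¹ * Ξ t b) (by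
    simp only [Ex_add, Ex_mul_left, Ex_sum]
    refine lt_of_le_of_lt (add_le_add ?_ (sum_le_sum fun t ht => ?_)) hs
    · have h2 : ∀ B ∈ univ.image β, Ex (bw a) (W B) ≤ 24 * (a * nv) := fun B hB => by
        obtain ⟨y, -, rfl⟩ := mem_image.1 hB
        refine (bern h0.le h1 0 _ _).trans (le_of_eq ?_)
        simp only [cR, one_pow, sum_const, hβ, nsmul_eq_mul]; ring
      have h3 := fib_sum hβ fun _ => 1
      simp only [sum_const, card_univ, nsmul_eq_mul, mul_one, hM] at h3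
      have h4 := sum_le_card_nsmul _ _ _ h2
      rw [nsmul_eq_mul, ← mul_right_cancel₀ hnv.ne' (h3.trans (mul_comm _ _))] at h4
      refine (mul_le_mul_of_nonneg_left h4 (by positivity)).trans (le_of_eq ?_)
      field_simp
    · rw [div_eq_inv_mul]
      exact mul_le_mul_of_nonneg_left (hΞ1 t ht) (by positivity))
  have hW : ∀ B, 0 ≤ W B b := fun B => (even_two_mul _).pow_nonneg _
  have h2 : 0 ≤ ((a * nv) ^ 2)⁻¹ * ∑ B ∈ univ.image β, W B b :=
    mul_nonneg (by positivity) (sum_nonneg fun B _ => hW B)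
  have h3 : ∀ t ∈ 𝒯, 0 ≤ (τ t ^ 2)⁻¹ * Ξ t b := fun t ht =>
    mul_nonneg (by positivity) (hΞ0 t ht b)
  refine ⟨b, fun y => ?_, fun t ht => hΞ2 t ht b _ (hτ t).le ?_⟩
  · have h4 : W (β y) b ≤ (a * nv) ^ 2 := by
      refine (single_le_sum (fun B _ => hW B) (mem_image_of_mem β (mem_univ y))).trans ?_
      rw [← inv_mul_le_one₀ (by positivity)]
      linarith [sum_nonneg h3]
    have h5 := (abs_le_of_sq_le_sq' h4 (by positivity)).2
    simp only [ζ, mul_one, sum_sub_distrib, sum_const, hβ, nsmul_eq_mul, sum_boole,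
      filter_filter] at h5
    linarith
  · have := hτ t
    rw [← inv_mul_le_one₀ (by positivity)]
    linarith [single_le_sum h3 ht]

end Design

end Pool.Agent.Lib.MP_919f0c_an.Lp
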