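import Pool.Agent.Lib.MP_919f0c_an.UpInterp

-- part Pool.Agent.Lib.MP_919f0c_an.UpSmol
section

/-! The Smolyak sampling operator and its error in `L_1` and `L_∞`. -/

open MeasureTheory Filter Topology Pool.Agent.MixedBesov
open scoped Real ENNReal

namespace Pool.Agent.Lib.MP_919f0c_an.Up

variable {d : ℕ}

/-- representative in `[0, 2π)` -/
noncomputable def rep (x : AddCircle (2 * π)) : ℝ := (AddCircle.equivIco (2 * π) 0 x : ℝ)

lemma rep_nonneg (x : AddCircle (2 * π)) : 0 ≤ rep x := (AddCircle.equivIco (2 * π) 0 x).2.1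

lemma rep_lt (x : AddCircle (2 * π)) : rep x < 2 * π := by
  simpa [rep] using (AddCircle.equivIco (2 * π) 0 x).2.2

lemma coe_rep (x : AddCircle (2 * π)) : (rep x : AddCircle (2 * π)) = x :=
  (AddCircle.equivIco (2 * π) 0).symm_apply_apply x

lemma measurable_rep : Measurable rep :=
  measurable_subtype_coe.comp (AddCircle.measurableEquivIco (2 * π) 0).measurable

lemma floor_rep (x : AddCircle (2 * π)) (j : ℕ) :
    ∃ μ ∈ Finset.range (2 ^ j), ⌊rep x / hh j⌋ = (μ : ℤ) := by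
  have h0 : 0 ≤ ⌊rep x / hh j⌋ := Int.floor_nonneg.2 (div_nonneg (rep_nonneg x) (hh_pos j).le)
  have h1 : ⌊rep x / hh j⌋ < ((2 ^ j : ℕ) : ℤ) := by
    rw [Int.floor_lt, div_lt_iff₀ (hh_pos j)]
    have : ((((2 ^ j : ℕ) : ℤ) : ℝ)) * hh j = 2 * π := by unfold hh; push_cast; field_simp
    rw [this]; exact rep_lt x
  exact ⟨⌊rep x / hh j⌋.toNat, Finset.mem_range.2 (by omega), by omega⟩

/-- tensor product of stencil differences -/
noncomputable def Dj (k : ℕ) (j : Fin d → ℕ) (x : Torus d) : Alg (Torus d) :=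
  ∏ i, R k i (j i) (rep (x i))

/-- levels used by the Smolyak operator -/
def Jn (d n : ℕ) : Finset (Fin d → ℕ) :=
  (Fintype.piFinset fun _ => Finset.range (n + 1)).filter fun j => ∑ i, j i ≤ n

/-- remaining levels -/
def Sn (d n L : ℕ) : Finset (Fin d → ℕ) :=
  (Fintype.piFinset fun _ => Finset.range (L + 1)).filter fun j => n < ∑ i, j i

/-- the Smolyak operator -/
noncomputable def Tn (k n : ℕ) (f : C(Torus d, ℝ)) (x : Torus d) : ℝ :=
  ∑ j ∈ Jn d n, (Dj k j x).1 f 0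

lemma mem_Jn {n : ℕ} {j : Fin d → ℕ} : j ∈ Jn d n ↔ ∑ i, j i ≤ n := by
  simp only [Jn, Finset.mem_filter, Fintype.mem_piFinset, Finset.mem_range, and_iff_right_iff_imp]
  intro h i
  have := Finset.single_le_sum (f := j) (fun _ _ => Nat.zero_le _) (Finset.mem_univ i)
  omega

lemma Sn_mono (n : ℕ) : Monotone (Sn d n) := by
  intro L L' h j hj
  simp only [Sn, Finset.mem_filter, Fintype.mem_piFinset, Finset.mem_range] at hj ⊢
  exact ⟨fun i => by have := hj.1 i; omega, hj.2⟩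

lemma tendsto_err {k : ℕ} (hk : 0 < k) (n : ℕ) (f : C(Torus d, ℝ)) (x : Torus d) :
    Tendsto (fun L => ∑ j ∈ Sn d n L, (Dj k j x).1 f 0) atTop (𝓝 (f x - Tn k n f x)) := by
  have h1 := strong_prod Finset.univ (x := fun i L => Q k i L (rep (x i)))
    (x0 := fun i => E i (rep (x i))) (fun i φ => tendsto_Q hk i _ φ) f
  have h2 := ((ContinuousMap.evalCLM ℝ (0 : Torus d)).continuous.tendsto _).comp h1
  have h3 : (ContinuousMap.evalCLM ℝ (0 : Torus d)) ((∏ i, E i (rep (x i))).1 f) = f x := by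
    show (∏ i, E i (rep (x i))).1 f 0 = f x
    rw [E_prod_apply]; simp [coe_rep]
  rw [h3] at h2
  refine (h2.sub_const (Tn k n f x)).congr' ?_
  filter_upwards [eventually_ge_atTop n] with L hL
  show (∏ i, Q k i L (rep (x i))).1 f 0 - Tn k n f x = _
  simp only [← sum_R]
  rw [Finset.prod_univ_sum, sum_app_apply, sub_eq_iff_eq_add, Tn, Sn,
    ← Finset.sum_filter_add_sum_filter_not _ (fun j : Fin d → ℕ => n < ∑ i, j i)]
  congr 1
  refine Finset.sum_congr ?_ fun _ _ => rfl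
  ext j
  rw [mem_Jn]
  simp only [Finset.mem_filter, Fintype.mem_piFinset, Finset.mem_range, not_lt,
    and_iff_right_iff_imp]
  intro h i
  have := Finset.single_le_sum (f := j) (fun _ _ => Nat.zero_le _) (Finset.mem_univ i)
  omega

lemma Dj_le (k : ℕ) (j : Fin d → ℕ) (x : Torus d) (f ψ : C(Torus d, ℝ))
    (h : ∀ y, |(∏ i, B k i (j i)).1 f y| ≤ ψ y) :
    |(Dj k j x).1 f 0| ≤ c2 k ^ d * (∏ i, E i (⌊rep (x i) / hh (j i - 1)⌋ * hh (j i - 1)) *
      St k i (j i)).1 ψ 0 := by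
  choose z hz hz' using fun i => R_struct k i (j i) (rep (x i))
  simp only [Dj, hz]
  rw [Finset.prod_mul_distrib, mul_app]
  have h1 := Dom.prod Finset.univ (fun i _ => (dom_E i
    (⌊rep (x i) / hh (j i - 1)⌋ * hh (j i - 1))).mul (hz' i)) _ _ h 0
  simp only [mul_smul_comm] at h1
  rw [Finset.prod_smul, smul_app] at h1
  simpa using h1

lemma err_top {k : ℕ} (hk : 0 < k) {f : C(Torus d, ℝ)} {β : (Fin d → ℕ) → ℝ}
    (hβ : ∀ l, Mod ∞ k f l (β l)) (n : ℕ) {b : ℝ}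
    (hb : ∀ L, ∑ j ∈ Sn d n L, c2 k ^ d * cS k ^ d * β j ≤ b) (x : Torus d) :
    |f x - Tn k n f x| ≤ b := by
  refine le_of_tendsto' (tendsto_err hk n f x).abs fun L => ?_
  refine (Finset.abs_sum_le_sum_abs _ _).trans ((Finset.sum_le_sum fun j _ => ?_).trans (hb L))
  have h1 := mod_prod ∞ (hβ j) (fun i => B k i (j i)) fun i => avg_B ∞ k i (j i)
  refine (Dj_le k j x f (β j • (∏ i, H i).1 1) (fun y => ?_)).trans (le_of_eq ?_)
  · rw [prod_H_one]
    simpa using (abs_le_qn_top _ y).trans h1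
  · rw [map_smul, ← mul_app, ← Finset.prod_mul_distrib]
    simp only [mul_assoc, St_mul_H, mul_smul_comm, E_mul_H]
    rw [Finset.prod_smul, smul_app, prod_H_one]
    simp [mul_comm]

/-- cell weight -/
noncomputable def wt (k : ℕ) (j : Fin d → ℕ) : ℝ := c2 k ^ d * ∏ i, 2 * hh (j i - 1)

lemma wt_nonneg (k : ℕ) (j : Fin d → ℕ) : 0 ≤ wt k j :=
  mul_nonneg (pow_nonneg (c2_nonneg k) _)
    (Finset.prod_nonneg fun i _ => by have := hh_pos (j i - 1); positivity)

lemma wt_le (k : ℕ) (j : Fin d → ℕ) : wt k j * 2 ^ (∑ i, j i) ≤ c2 k ^ d * (8 * π) ^ d := by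
  rw [wt, mul_assoc, ← Finset.prod_pow_eq_pow_sum, ← Finset.prod_mul_distrib]
  refine mul_le_mul_of_nonneg_left ?_ (pow_nonneg (c2_nonneg k) _)
  have : (8 * π) ^ d = ∏ _i : Fin d, 8 * π := by simp
  rw [this]
  refine Finset.prod_le_prod (fun i _ => by have := hh_pos (j i - 1); positivity) fun i _ => ?_
  have hp := Real.pi_pos
  rcases h : j i with _ | m
  · simp [hh]; linarith
  · simp only [Nat.add_sub_cancel, hh, pow_succ]
    apply le_of_eq; field_simp; norm_num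

/-- measurable majorant of one block -/
noncomputable def maj (k : ℕ) (f : C(Torus d, ℝ)) (j : Fin d → ℕ) (x : Torus d) : ℝ≥0∞ :=
  ∑ μ ∈ Fintype.piFinset (fun i => Finset.range (2 ^ (j i - 1))),
    (Set.pi Set.univ fun i => Metric.closedBall
      (((μ i : ℝ) * hh (j i - 1) : ℝ) : AddCircle (2 * π)) (hh (j i - 1))).indicator
      (fun _ => ENNReal.ofReal (c2 k ^ d * (∏ i, E i (μ i * hh (j i - 1)) * St k i (j i)).1
        |(∏ i, B k i (j i)).1 f| 0)) x

lemma measurable_maj (k : ℕ) (f : C(Torus d, ℝ)) (j : Fin d → ℕ) : Measurable (maj k f j) :=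
  Finset.measurable_sum _ fun _ _ => measurable_const.indicator
    (MeasurableSet.univ_pi fun _ => Metric.isClosed_closedBall.measurableSet)

lemma le_maj (k : ℕ) (f : C(Torus d, ℝ)) (j : Fin d → ℕ) (x : Torus d) :
    ‖(Dj k j x).1 f 0‖ₑ ≤ maj k f j x := by
  choose μ hμ hμ' using fun i => floor_rep (x i) (j i - 1)
  have h1 := Dj_le k j x f |(∏ i, B k i (j i)).1 f| (fun y => by simp)
  simp only [hμ', Int.cast_natCast] at h1
  refine le_trans ?_ (Finset.single_le_sum (fun _ _ => zero_le) (Fintype.mem_piFinset.2 hμ))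
  rw [Set.indicator_of_mem, Real.enorm_eq_ofReal_abs]
  · exact ENNReal.ofReal_le_ofReal h1
  · intro i _
    rw [Metric.mem_closedBall, dist_eq_norm, ← coe_rep (x i), ← AddCircle.coe_sub]
    refine (QuotientAddGroup.norm_mk_le_norm).trans ?_
    have h2 := Int.fract_nonneg (rep (x i) / hh (j i - 1))
    have h3 := Int.fract_lt_one (rep (x i) / hh (j i - 1))
    have h4 := hh_pos (j i - 1)
    rw [Int.fract, hμ' i, Int.cast_natCast] at h2 h3
    have h5 : rep (x i) - μ i * hh (j i - 1) =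
        (rep (x i) / hh (j i - 1) - μ i) * hh (j i - 1) := by field_simp
    rw [h5, Real.norm_eq_abs, abs_of_nonneg (by positivity)]
    nlinarith

lemma lintegral_maj (k : ℕ) (f : C(Torus d, ℝ)) (j : Fin d → ℕ) :
    ∫⁻ x, maj k f j x ≤ ENNReal.ofReal (wt k j * (Gs k j).1 |(∏ i, B k i (j i)).1 f| 0) := by
  set g := |(∏ i, B k i (j i)).1 f| with hg
  have hpos : ∀ μ : Fin d → ℕ, 0 ≤ (∏ i, E i (μ i * hh (j i - 1)) * St k i (j i)).1 g 0 :=
    fun μ => (abs_nonneg _).trans (Dom.prod Finset.univ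
      (fun i _ => (dom_E i (μ i * hh (j i - 1))).mul (dom_St k i (j i))) g g
      (fun y => by simp [hg]) 0)
  have hc := pow_nonneg (c2_nonneg k) d
  have hw : 0 ≤ ∏ i, 2 * hh (j i - 1) :=
    Finset.prod_nonneg fun i _ => by have := hh_pos (j i - 1); positivity
  unfold maj
  rw [lintegral_finsetSum _ fun _ _ => measurable_const.indicator
    (MeasurableSet.univ_pi fun _ => Metric.isClosed_closedBall.measurableSet)]
  have h1 : (Gs k j).1 g 0 = ∑ μ ∈ Fintype.piFinset (fun i => Finset.range (2 ^ (j i - 1))),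
      (∏ i, E i (μ i * hh (j i - 1)) * St k i (j i)).1 g 0 := by
    simp only [Gs, Gr, Finset.sum_mul]
    rw [Finset.prod_univ_sum, sum_app_apply]
  rw [h1, Finset.mul_sum, ENNReal.ofReal_sum_of_nonneg
    fun μ _ => mul_nonneg (wt_nonneg k j) (hpos μ)]
  refine Finset.sum_le_sum fun μ _ => ?_
  rw [lintegral_indicator_const
    (MeasurableSet.univ_pi fun _ => Metric.isClosed_closedBall.measurableSet), volume_pi_pi]
  have h2 : ∏ i, volume (Metric.closedBall
      (((μ i : ℝ) * hh (j i - 1) : ℝ) : AddCircle (2 * π)) (hh (j i - 1))) ≤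
      ENNReal.ofReal (∏ i, 2 * hh (j i - 1)) := by
    rw [ENNReal.ofReal_prod_of_nonneg fun i _ => by have := hh_pos (j i - 1); positivity]
    refine Finset.prod_le_prod' fun i _ => ?_
    rw [AddCircle.volume_closedBall]
    exact ENNReal.ofReal_le_ofReal (min_le_right _ _)
  refine (mul_le_mul_right h2 _).trans (le_of_eq ?_)
  rw [← ENNReal.ofReal_mul (mul_nonneg hc (hpos μ)), wt]
  congr 1; ring

lemma err_one {k : ℕ} (hk : 0 < k) {f : C(Torus d, ℝ)} {β : (Fin d → ℕ) → ℝ}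
    (hβ : ∀ l, Mod 1 k f l (β l)) (hβ0 : ∀ l, 0 ≤ β l) (n : ℕ) {b : ℝ}
    (hb : ∀ L, ∀ U : Finset (Fin d → ℕ), ∑ j ∈ Sn d n L, ∑ u ∈ U,
      c2 k ^ d * (8 * π) ^ d * (2 ^ d * c1 k d) * (2 ^ (∑ i, u i) * β (j + u)) ≤ b) :
    ∫⁻ x, ‖f x - Tn k n f x‖ₑ ≤ ENNReal.ofReal b := by
  have h1 : ∀ x, ‖f x - Tn k n f x‖ₑ ≤ ⨆ L, ∑ j ∈ Sn d n L, maj k f j x := by
    intro x
    refine le_of_tendsto' (tendsto_err hk n f x).enorm fun L => ?_
    refine le_trans ?_ (le_iSup _ L)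
    exact (enorm_sum_le _ _).trans (Finset.sum_le_sum fun j _ => le_maj k f j x)
  refine (lintegral_mono h1).trans ?_
  rw [lintegral_iSup (fun L => Finset.measurable_sum _ fun j _ => measurable_maj k f j)
    (fun L L' h x => Finset.sum_le_sum_of_subset (Sn_mono n h))]
  refine iSup_le fun L => ?_
  rw [lintegral_finsetSum _ fun j _ => measurable_maj k f j]
  refine (Finset.sum_le_sum fun j _ => lintegral_maj k f j).trans ?_
  rw [← ENNReal.ofReal_sum_of_nonneg fun j _ => mul_nonneg (wt_nonneg k j)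
    ((abs_nonneg _).trans (dom_Gs k j ((∏ i, B k i (j i)).1 f) _ (fun y => by simp) 0))]
  refine ENNReal.ofReal_le_ofReal (disc_sum_bound hk hβ _ _ (wt_nonneg k) fun U => ?_)
  refine le_trans (Finset.sum_le_sum fun j _ => Finset.sum_le_sum fun u _ => ?_) (hb L U)
  have h2 := wt_le k j
  have h3 := c1_nonneg k d
  have h4 := hβ0 (j + u)
  rw [Finset.sum_add_distrib, pow_add]
  calc _ = wt k j * 2 ^ (∑ i, j i) * ((2 ^ d * c1 k d) * (2 ^ (∑ i, u i) * β (j + u))) := by ring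
    _ ≤ c2 k ^ d * (8 * π) ^ d * ((2 ^ d * c1 k d) * (2 ^ (∑ i, u i) * β (j + u))) := by gcongr
    _ = _ := by ring

end Pool.Agent.Lib.MP_919f0c_an.Up
end

-- part Pool.Agent.Lib.MP_919f0c_an.UpSum
section

/-! Summation over multi-indices. -/

open Filter Topology
open scoped Real

namespace Pool.Agent.Lib.MP_919f0c_an.Up

lemma card_level {d s : ℕ} (F : Finset (Fin (d + 1) → ℕ)) (hF : ∀ j ∈ F, ∑ i, j i = s) :
    F.card ≤ (s + 1) ^ d := by
  have := Finset.card_le_card_of_injOn (s := F)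
    (t := Fintype.piFinset fun _ : Fin d => Finset.range (s + 1)) Fin.tail (fun j hj => by
      simp only [Finset.mem_coe, Fintype.mem_piFinset, Finset.mem_range] at hj ⊢
      intro i
      have h1 := Finset.single_le_sum (f := j) (fun _ _ => Nat.zero_le _)
        (Finset.mem_univ i.succ)
      have := hF j hj
      unfold Fin.tail; omega) (fun j hj j' hj' h => by
      have h1 := hF j hj
      have h2 := hF j' hj'
      rw [Fin.sum_univ_succ] at h1 h2
      have h3 : ∀ i, j (Fin.succ i) = j' (Fin.succ i) := fun i => congrFun h i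
      simp only [h3] at h1
      ext i
      refine Fin.cases ?_ h3 i
      omega)
  simpa using this

lemma sum_geom_pi {d : ℕ} {x : ℝ} (h0 : 0 ≤ x) (h1 : x < 1) (U : Finset (Fin d → ℕ)) :
    ∑ u ∈ U, x ^ (∑ i, u i) ≤ ((1 - x)⁻¹) ^ d := by
  obtain ⟨M, hM⟩ : ∃ M, U ⊆ Fintype.piFinset fun _ => Finset.range M := by
    refine ⟨U.sup (fun u => ∑ i, u i) + 1, fun u hu => ?_⟩
    simp only [Fintype.mem_piFinset, Finset.mem_range]
    intro i
    have h2 := Finset.single_le_sum (f := u) (fun _ _ => Nat.zero_le _) (Finset.mem_univ i)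
    have h3 := Finset.le_sup (f := fun u : Fin d → ℕ => ∑ i, u i) hu
    omega
  refine (Finset.sum_le_sum_of_subset_of_nonneg hM fun _ _ _ => by positivity).trans ?_
  simp only [← Finset.prod_pow_eq_pow_sum]
  rw [← Finset.prod_univ_sum (fun _ : Fin d => Finset.range M) (fun _ m => x ^ m),
    Finset.prod_const, Finset.card_univ, Fintype.card_fin]
  refine pow_le_pow_left₀ (Finset.sum_nonneg fun _ _ => by positivity) ?_ _
  rw [← tsum_geometric_of_lt_one h0 h1]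
  exact (summable_geometric_of_lt_one h0 h1).sum_le_tsum _ fun _ _ => by positivity

lemma sum_levels (d : ℕ) {q : ℝ} (h0 : 0 < q) (h1 : q < 1) : ∃ C : ℝ, 0 ≤ C ∧
    ∀ (b : (Fin (d + 1) → ℕ) → ℝ) (K γ : ℝ), 0 ≤ K → 0 ≤ γ → γ ≤ 1 →
      (∀ S : Finset (Fin (d + 1) → ℕ), ∑ l ∈ S, b l ≤ K * (S.card : ℝ) ^ γ) →
      ∀ (n : ℕ) (S : Finset (Fin (d + 1) → ℕ)) (u : Fin (d + 1) → ℕ),
        (∀ j ∈ S, n < ∑ i, j i) →
        ∑ j ∈ S, q ^ (∑ i, j i) * b (j + u) ≤ C * K * (q ^ n * (((n : ℝ) + 1) ^ d) ^ γ) := by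
  have hs : Summable fun v : ℕ => ((v + 2 : ℕ) : ℝ) ^ d * q ^ (v + 2) :=
    (summable_nat_add_iff (f := fun v : ℕ => (v : ℝ) ^ d * q ^ v) 2).2
      (summable_pow_mul_geometric_of_norm_lt_one d (by rwa [Real.norm_eq_abs, abs_of_pos h0]))
  refine ⟨q⁻¹ * ∑' v : ℕ, ((v + 2 : ℕ) : ℝ) ^ d * q ^ (v + 2),
    mul_nonneg (by positivity) (tsum_nonneg fun _ => by positivity), ?_⟩
  intro b K γ hK hγ0 hγ1 hb n S u hS
  set M := S.sup (fun j => ∑ i, j i) + 1
  rw [← Finset.sum_fiberwise_of_maps_to (t := Finset.range M)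
    (g := fun j => ∑ i, j i - (n + 1)) (fun j hj => by
      have h3 := Finset.le_sup (f := fun u : Fin (d + 1) → ℕ => ∑ i, u i) hj
      simp only [Finset.mem_range]; omega)]
  have h2 : ∀ v : ℕ, ∑ j ∈ S with ∑ i, j i - (n + 1) = v, q ^ (∑ i, j i) * b (j + u) ≤
      q⁻¹ * (((v + 2 : ℕ) : ℝ) ^ d * q ^ (v + 2)) * K * (q ^ n * (((n : ℝ) + 1) ^ d) ^ γ) := by
    intro v
    set F := S.filter fun j => ∑ i, j i - (n + 1) = v with hF
    have hF1 : ∀ j ∈ F, ∑ i, j i = n + 1 + v := by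
      intro j hj
      rw [hF, Finset.mem_filter] at hj
      have := hS j hj.1
      omega
    rw [Finset.sum_congr rfl (g := fun j => q ^ (n + 1 + v) * b (j + u))
      fun j hj => by rw [hF1 j hj], ← Finset.mul_sum]
    have h3 : ∑ j ∈ F, b (j + u) ≤ K * (F.card : ℝ) ^ γ := by
      have := hb (F.map (addRightEmbedding u))
      simpa using this
    have h4 : (F.card : ℝ) ≤ ((n : ℝ) + 1) ^ d * ((v + 2 : ℕ) : ℝ) ^ d := by
      rw [← mul_pow]
      have h5 : (F.card : ℝ) ≤ ((n + 1 + v + 1 : ℕ) : ℝ) ^ d := by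
        exact_mod_cast card_level F hF1
      refine h5.trans (pow_le_pow_left₀ (by positivity) ?_ _)
      push_cast
      have : (0 : ℝ) ≤ n * v := by positivity
      have : (0 : ℝ) ≤ n := by positivity
      nlinarith
    have h6 : (F.card : ℝ) ^ γ ≤ (((n : ℝ) + 1) ^ d) ^ γ * ((v + 2 : ℕ) : ℝ) ^ d := by
      refine (Real.rpow_le_rpow (by positivity) h4 hγ0).trans ?_
      rw [Real.mul_rpow (by positivity) (by positivity)]
      refine mul_le_mul_of_nonneg_left ?_ (by positivity)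
      have h7 : (1 : ℝ) ≤ ((v + 2 : ℕ) : ℝ) ^ d :=
        one_le_pow₀ (by exact_mod_cast Nat.le_add_left 1 (v + 1))
      simpa using Real.rpow_le_rpow_of_exponent_le h7 hγ1
    calc q ^ (n + 1 + v) * ∑ j ∈ F, b (j + u)
        ≤ q ^ (n + 1 + v) * (K * ((((n : ℝ) + 1) ^ d) ^ γ * ((v + 2 : ℕ) : ℝ) ^ d)) := by
          refine mul_le_mul_of_nonneg_left (h3.trans ?_) (by positivity)
          gcongr
      _ = _ := by field_simp; ring
  refine (Finset.sum_le_sum fun v _ => h2 v).trans ?_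
  rw [← Finset.sum_mul, ← Finset.sum_mul, ← Finset.mul_sum]
  gcongr
  exact hs.sum_le_tsum _ fun _ _ => by positivity

lemma sum_double (d : ℕ) {q ρ : ℝ} (h0 : 0 < q) (h1 : q < 1) (hρ : 0 ≤ ρ) (hρq : ρ * q < 1) :
    ∃ C : ℝ, 0 ≤ C ∧
    ∀ (β : (Fin (d + 1) → ℕ) → ℝ) (K γ : ℝ), 0 ≤ K → 0 ≤ γ → γ ≤ 1 →
      (∀ S : Finset (Fin (d + 1) → ℕ),
        ∑ l ∈ S, (q⁻¹) ^ (∑ i, l i) * β l ≤ K * (S.card : ℝ) ^ γ) →
      ∀ (n : ℕ) (S U : Finset (Fin (d + 1) → ℕ)), (∀ j ∈ S, n < ∑ i, j i) →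
        ∑ j ∈ S, ∑ u ∈ U, ρ ^ (∑ i, u i) * β (j + u) ≤
          C * K * (q ^ n * (((n : ℝ) + 1) ^ d) ^ γ) := by
  obtain ⟨C, hC, h⟩ := sum_levels d h0 h1
  have h2 : 0 < 1 - ρ * q := by linarith
  refine ⟨((1 - ρ * q)⁻¹) ^ (d + 1) * C, by positivity, ?_⟩
  intro β K γ hK hγ0 hγ1 hb n S U hS
  rw [Finset.sum_comm]
  have h3 : ∀ u : Fin (d + 1) → ℕ, ∑ j ∈ S, ρ ^ (∑ i, u i) * β (j + u) ≤
      (ρ * q) ^ (∑ i, u i) * (C * K * (q ^ n * (((n : ℝ) + 1) ^ d) ^ γ)) := by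
    intro u
    refine le_trans (le_of_eq ?_) (mul_le_mul_of_nonneg_left
      (h (fun l => (q⁻¹) ^ (∑ i, l i) * β l) K γ hK hγ0 hγ1 hb n S u hS) (by positivity))
    rw [Finset.mul_sum]
    refine Finset.sum_congr rfl fun j _ => ?_
    simp only [Pi.add_apply, Finset.sum_add_distrib, pow_add, mul_pow, inv_pow]
    field_simp
  refine (Finset.sum_le_sum fun u _ => h3 u).trans ?_
  rw [← Finset.sum_mul]
  calc _ ≤ ((1 - ρ * q)⁻¹) ^ (d + 1) * (C * K * (q ^ n * (((n : ℝ) + 1) ^ d) ^ γ)) :=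
        mul_le_mul_of_nonneg_right (sum_geom_pi (by positivity) hρq U) (by positivity)
    _ = _ := by ring

lemma sum_Jn (d n : ℕ) : ∑ j ∈ Jn (d + 1) n, 2 ^ (∑ i, j i) ≤ 2 ^ (n + 1) * (n + 1) ^ d := by
  rw [← Finset.sum_fiberwise_of_maps_to (t := Finset.range (n + 1))
    (g := fun j => ∑ i, j i) (fun j hj => by
      rw [mem_Jn] at hj; simp only [Finset.mem_range]; omega)]
  have h2 : ∀ s ∈ Finset.range (n + 1), ∑ j ∈ Jn (d + 1) n with ∑ i, j i = s, 2 ^ (∑ i, j i) ≤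
      2 ^ s * (n + 1) ^ d := by
    intro s hs
    rw [Finset.sum_congr rfl (g := fun _ => 2 ^ s)
      fun j hj => by rw [(Finset.mem_filter.1 hj).2], Finset.sum_const, smul_eq_mul, mul_comm]
    refine Nat.mul_le_mul_left _ ((card_level (s := s) _
      fun j hj => (Finset.mem_filter.1 hj).2).trans (Nat.pow_le_pow_left ?_ _))
    have := Finset.mem_range.1 hs
    omega
  refine (Finset.sum_le_sum h2).trans ?_
  rw [← Finset.sum_mul]
  refine Nat.mul_le_mul_right _ ?_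
  rw [Nat.geomSum_eq le_rfl]
  simp

end Pool.Agent.Lib.MP_919f0c_an.Up
end

-- part Pool.Agent.Lib.MP_919f0c_an.UpBesov
section

/-! From the Besov norm to dyadic moduli of smoothness. -/

open MeasureTheory Filter Topology Pool.Agent.MixedBesov
open scoped Real ENNReal

namespace Pool.Agent.Lib.MP_919f0c_an.Up

variable {d : ℕ} {𝕜 : Type*} [RCLike 𝕜]

/-- support of a level -/
def supp (l : Fin d → ℕ) : Finset (Fin d) := Finset.univ.filter fun i => l i ≠ 0

/-- dyadic modulus -/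
noncomputable def βe (k : ℕ) (p : ℝ≥0∞) (f : Torus d → 𝕜) (l : Fin d → ℕ) : ℝ≥0∞ :=
  modulus k (supp l) p f fun i => 3 / 2 * hh (l i)

lemma modulus_mono (k : ℕ) (e : Finset (Fin d)) (p : ℝ≥0∞) (f : Torus d → 𝕜) {t t' : Fin d → ℝ}
    (h : ∀ i ∈ e, t i ≤ t' i) : modulus k e p f t ≤ modulus k e p f t' :=
  iSup₂_le fun u hu => le_iSup₂_of_le u (fun i hi => (hu i hi).trans_le (h i hi)) le_rfl

lemma mixed_eq (k : ℕ) (L : 𝕜 →L[ℝ] ℝ) (f : C(Torus d, 𝕜)) (l : Fin d → ℕ) (u : Fin d → ℝ)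
    (x : Torus d) :
    (∏ i, if l i = 0 then 1 else (E i (u i) - 1) ^ k).1
      ((⟨L, L.continuous⟩ : C(𝕜, ℝ)).comp f) x = L (mixedDiff k (supp l) u f x) := by
  have h1 : ∀ i, (if l i = 0 then 1 else (E i (u i) - 1) ^ k) =
      ∑ m ∈ (if i ∈ supp l then Finset.range (k + 1) else {0}),
        (if i ∈ supp l then ((-1 : ℝ) ^ (k - m) * (k.choose m : ℝ)) else 1) • E i (m * u i) := by
    intro i
    by_cases h : l i = 0
    · simp [supp, h, E_zero]
    · simp only [supp, h, Finset.mem_filter, Finset.mem_univ, ne_eq, not_false_eq_true, and_self,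
        if_true, if_false, sub_one_pow_eq, E_pow]
  simp only [h1]
  rw [Finset.prod_univ_sum, sum_app_apply, mixedDiff, map_sum]
  refine Finset.sum_congr rfl fun m _ => ?_
  rw [Finset.prod_smul, smul_app, ContinuousMap.smul_apply, E_prod_apply, map_smul,
    Fintype.prod_ite_mem]
  rfl

lemma mod_of_βe (k : ℕ) (p : ℝ≥0∞) [Fact (1 ≤ p)] (L : 𝕜 →L[ℝ] ℝ) (hL : ∀ z, ‖L z‖ ≤ ‖z‖)
    (f : C(Torus d, 𝕜)) (l : Fin d → ℕ) (hfin : βe k p f l ≠ ∞) :
    Mod p k ((⟨L, L.continuous⟩ : C(𝕜, ℝ)).comp f) l (βe k p f l).toReal := by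
  intro u hu
  rw [qn_eq]
  refine ENNReal.toReal_mono hfin ?_
  refine le_trans (eLpNorm_mono (g := mixedDiff k (supp l) u f) fun x => ?_) ?_
  · rw [mixed_eq]; exact hL _
  · refine le_iSup₂_of_le u (fun i hi => ?_) le_rfl
    have := hu i (Finset.mem_filter.1 hi).2
    have := hh_pos (l i)
    linarith

/-- constant relating the Besov weight and powers of two -/
noncomputable def kap (r : ℝ) : ℝ := (4 * π) ^ (-r) / 4

lemma kap_pos (r : ℝ) : 0 < kap r := by unfold kap; have := Real.pi_pos; positivity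

lemma kap_le_one {r : ℝ} (hr : 0 ≤ r) : kap r ≤ 1 := by
  have h1 : (4 * π) ^ (-r) ≤ 1 :=
    Real.rpow_le_one_of_one_le_of_nonpos (by linarith [Real.pi_gt_three]) (by linarith)
  unfold kap; linarith

lemma weight_eq (r : ℝ) (m : ℕ) :
    (2 * hh m) ^ (-r) = 4 * (kap r * (((2:ℝ) ^ (-r))⁻¹) ^ m) := by
  have hp := Real.pi_pos
  have h1 : 2 * hh m = 4 * π / 2 ^ m := by unfold hh; ring
  rw [h1, Real.div_rpow (by positivity) (by positivity), kap, inv_pow,
    ← Real.rpow_natCast ((2:ℝ) ^ (-r)), ← Real.rpow_mul zero_le_two, mul_comm (-r),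
    Real.rpow_mul zero_le_two, Real.rpow_natCast]
  field_simp

lemma prod_weight {r : ℝ} (hr : 0 ≤ r) (l : Fin d → ℕ) :
    kap r ^ d * (((2:ℝ) ^ (-r))⁻¹) ^ (∑ i, l i) ≤
      ∏ i ∈ supp l, kap r * (((2:ℝ) ^ (-r))⁻¹) ^ l i := by
  have h1 : kap r ^ d * (((2:ℝ) ^ (-r))⁻¹) ^ (∑ i, l i) =
      ∏ i, kap r * (((2:ℝ) ^ (-r))⁻¹) ^ l i := by
    rw [Finset.prod_mul_distrib, Finset.prod_pow_eq_pow_sum]; simp
  rw [h1, supp, Finset.prod_filter]
  have := kap_pos r
  refine Finset.prod_le_prod (fun i _ => by positivity) fun i _ => ?_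
  split_ifs with h
  · exact le_rfl
  · rw [not_not.1 h]; simpa using kap_le_one hr

/-- weighted dyadic modulus -/
noncomputable def xe (k : ℕ) (r : ℝ) (p : ℝ≥0∞) (f : Torus d → 𝕜) (l : Fin d → ℕ) : ℝ≥0∞ :=
  ENNReal.ofReal (kap r ^ d * (((2:ℝ) ^ (-r))⁻¹) ^ (∑ i, l i)) * βe k p f l

lemma two_hh_le {m : ℕ} (hm : m ≠ 0) : 2 * hh m ≤ 2 * π := by
  have h1 := hh_anti (Nat.one_le_iff_ne_zero.2 hm)
  have h2 : hh 1 = π := by unfold hh; ring
  linarith

lemma xe_le_top (k : ℕ) {r : ℝ} (hr : 0 ≤ r) (p : ℝ≥0∞) (f : Torus d → 𝕜) (l : Fin d → ℕ) :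
    xe k r p f l ≤ besovSemi k r p ∞ (supp l) f := by
  rw [besovSemi, if_pos rfl]
  refine le_iSup₂_of_le (fun i => if l i = 0 then π else 3 / 2 * hh (l i)) (fun i => ?_) ?_
  · have := Real.pi_pos
    have := hh_pos (l i)
    beta_reduce
    split_ifs with h
    · constructor <;> linarith
    · have := two_hh_le h
      constructor <;> linarith
  · refine mul_le_mul' ?_ (modulus_mono _ _ _ _ fun i hi => by
      rw [if_neg (Finset.mem_filter.1 hi).2])
    refine (ENNReal.ofReal_le_ofReal (prod_weight hr l)).trans ?_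
    have := kap_pos r
    rw [ENNReal.ofReal_prod_of_nonneg fun i _ => by positivity]
    refine Finset.prod_le_prod' fun i hi => ENNReal.ofReal_le_ofReal ?_
    beta_reduce
    rw [if_neg (Finset.mem_filter.1 hi).2]
    have h1 := weight_eq r (l i)
    have h2 := hh_pos (l i)
    have h3 : (2 * hh (l i)) ^ (-r) ≤ (3 / 2 * hh (l i)) ^ (-r) :=
      Real.rpow_le_rpow_of_nonpos (by positivity) (by linarith) (by linarith)
    have h4 : 0 ≤ kap r * (((2:ℝ) ^ (-r))⁻¹) ^ l i := by positivity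
    linarith

/-- the box of parameters attached to a level -/
def box (l : Fin d → ℕ) : Set (Fin d → ℝ) :=
  Set.pi Set.univ fun i => if l i = 0 then Set.Ioo 0 (2 * π)
    else Set.Ioo (3 / 2 * hh (l i)) (2 * hh (l i))

lemma measurableSet_box (l : Fin d → ℕ) : MeasurableSet (box l) :=
  MeasurableSet.univ_pi fun i => by split_ifs <;> exact measurableSet_Ioo

lemma box_subset (l : Fin d → ℕ) :
    box l ⊆ Set.pi Set.univ (fun _ : Fin d => Set.Ioo 0 (2 * π)) := by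
  intro t ht i hi
  have h1 := ht i hi
  by_cases h : l i = 0
  · simpa [h] using h1
  · simp only [h, if_false] at h1
    have := hh_pos (l i)
    have := two_hh_le h
    constructor <;> linarith [h1.1, h1.2]

lemma box_disj {l l' : Fin d → ℕ} (h : supp l = supp l') {t : Fin d → ℝ} (ht : t ∈ box l)
    (ht' : t ∈ box l') : l = l' := by
  ext i
  have h0 : l i ≠ 0 ↔ l' i ≠ 0 := by
    have := Finset.ext_iff.1 h i
    simpa [supp] using this
  by_cases hl : l i = 0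
  · rw [hl]; by_contra hc; exact h0.2 (Ne.symm hc) hl
  · have hl' := h0.1 hl
    have h1 := ht i (Set.mem_univ i)
    have h2 := ht' i (Set.mem_univ i)
    simp only [hl, hl', if_false] at h1 h2
    have key : ∀ a b : ℕ, a < b → 2 * hh b ≤ hh a := fun a b hab => by
      have := hh_anti (Nat.succ_le_of_lt hab)
      rw [hh_succ a]; linarith
    rcases lt_trichotomy (l i) (l' i) with h3 | h3 | h3
    · have := key _ _ h3
      have := hh_pos (l i)
      linarith [h1.1, h2.2]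
    · exact h3
    · have := key _ _ h3
      have := hh_pos (l' i)
      linarith [h2.1, h1.2]

lemma vol_box (l : Fin d → ℕ) :
    ∏ i ∈ supp l, ENNReal.ofReal (hh (l i) / 2) ≤ volume (box l) := by
  rw [box, volume_pi_pi, supp, Finset.prod_filter]
  refine Finset.prod_le_prod' fun i _ => ?_
  by_cases h : l i = 0
  · simp only [h, ne_eq, not_true_eq_false, if_false, if_true, Real.volume_Ioo, sub_zero]
    exact ENNReal.one_le_ofReal.2 (by linarith [Real.pi_gt_three])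
  · simp only [h, ne_eq, not_false_eq_true, if_true, if_false, Real.volume_Ioo]
    exact ENNReal.ofReal_le_ofReal (by linarith)

lemma sum_xe_pow_le (k : ℕ) {r : ℝ} (hr : 0 ≤ r) (p : ℝ≥0∞) {τ : ℝ} (hτ : 1 ≤ τ)
    (f : Torus d → 𝕜) (e : Finset (Fin d)) (S : Finset (Fin d → ℕ)) (hS : ∀ l ∈ S, supp l = e) :
    ∑ l ∈ S, xe k r p f l ^ τ ≤ ∫⁻ t in Set.pi Set.univ (fun _ : Fin d => Set.Ioo 0 (2 * π)),
      modulus k e p f t ^ τ * ∏ i ∈ e, ENNReal.ofReal (t i ^ (-τ * r - 1)) := by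
  set c : (Fin d → ℕ) → ℝ≥0∞ := fun l =>
    βe k p f l ^ τ * ∏ i ∈ e, ENNReal.ofReal ((2 * hh (l i)) ^ (-τ * r - 1)) with hc
  have h1 : ∀ t, ∑ l ∈ S, (box l).indicator (fun _ => c l) t ≤
      modulus k e p f t ^ τ * ∏ i ∈ e, ENNReal.ofReal (t i ^ (-τ * r - 1)) := by
    intro t
    by_cases h : ∃ l ∈ S, t ∈ box l
    · obtain ⟨l, hl, ht⟩ := h
      rw [Finset.sum_eq_single_of_mem l hl fun l' hl' hne => Set.indicator_of_notMem
        (fun ht' => hne (box_disj ((hS l' hl').trans (hS l hl).symm) ht' ht)) _,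
        Set.indicator_of_mem ht]
      have h2 : ∀ i ∈ e, 3 / 2 * hh (l i) < t i ∧ t i < 2 * hh (l i) := by
        intro i hi
        rw [← hS l hl] at hi
        have h3 := ht i (Set.mem_univ i)
        simpa only [(Finset.mem_filter.1 hi).2, if_false, Set.mem_Ioo] using h3
      refine mul_le_mul' (ENNReal.rpow_le_rpow ?_ (by linarith)) (Finset.prod_le_prod'
        fun i hi => ENNReal.ofReal_le_ofReal ?_)
      · rw [βe, hS l hl]
        exact modulus_mono _ _ _ _ fun i hi => (h2 i hi).1.le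
      · have := hh_pos (l i)
        exact Real.rpow_le_rpow_of_nonpos (by linarith [(h2 i hi).1]) (h2 i hi).2.le
          (by nlinarith)
    · push Not at h
      rw [Finset.sum_eq_zero fun l hl => Set.indicator_of_notMem (h l hl) _]
      exact zero_le
  refine le_trans ?_ (lintegral_mono h1)
  rw [lintegral_finsetSum _ fun l _ => measurable_const.indicator (measurableSet_box l)]
  refine Finset.sum_le_sum fun l hl => ?_
  rw [lintegral_indicator_const (measurableSet_box l),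
    Measure.restrict_apply (measurableSet_box l), Set.inter_eq_left.2 (box_subset l)]
  refine le_trans ?_ (mul_le_mul_right (vol_box l) _)
  rw [xe, ENNReal.mul_rpow_of_nonneg _ _ (by linarith), hc, mul_comm, mul_assoc, hS l hl,
    ← Finset.prod_mul_distrib]
  refine mul_le_mul_right ?_ _
  refine (ENNReal.rpow_le_rpow (ENNReal.ofReal_le_ofReal (prod_weight hr l))
    (by linarith)).trans ?_
  have := kap_pos r
  rw [hS l hl, ENNReal.ofReal_prod_of_nonneg fun i _ => by positivity,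
    ← ENNReal.prod_rpow_of_nonneg (by linarith)]
  refine Finset.prod_le_prod' fun i _ => ?_
  have h2 := hh_pos (l i)
  rw [ENNReal.ofReal_rpow_of_nonneg (by positivity) (by linarith),
    ← ENNReal.ofReal_mul (by positivity)]
  refine ENNReal.ofReal_le_ofReal ?_
  have h3 : kap r * (((2:ℝ) ^ (-r))⁻¹) ^ l i = (2 * hh (l i)) ^ (-r) * 4⁻¹ := by
    rw [weight_eq]; ring
  have h4 : (2 * hh (l i)) ^ (-τ * r - 1) * (hh (l i) / 2) =
      ((2 * hh (l i)) ^ (-r)) ^ τ * 4⁻¹ := by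
    rw [Real.rpow_sub_one (by positivity), ← Real.rpow_mul (by positivity),
      show -τ * r = -r * τ by ring]
    field_simp; norm_num
  rw [h3, h4, Real.mul_rpow (by positivity) (by positivity)]
  refine mul_le_mul_of_nonneg_left ?_ (by positivity)
  simpa using Real.rpow_le_rpow_of_exponent_ge (x := 4⁻¹) (by norm_num) (by norm_num) hτ

lemma sum_xe_le (k : ℕ) {r : ℝ} (hr : 0 ≤ r) (p : ℝ≥0∞) {θ : ℝ≥0∞} (hθ : 1 ≤ θ)
    (f : Torus d → 𝕜) (hf : besovNorm k r p θ f ≤ 1) (S : Finset (Fin d → ℕ)) :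
    ∑ l ∈ S, xe k r p f l ≤ ENNReal.ofReal (2 ^ d * (S.card : ℝ) ^ (1 - (1 / θ).toReal)) := by
  have hγ : 0 ≤ 1 - (1 / θ).toReal := by
    have : (1 / θ).toReal ≤ 1 := by
      simpa using ENNReal.toReal_mono (b := 1) (by simp) (a := 1 / θ) (by simpa using hθ)
    linarith
  have hsemi : ∀ e, besovSemi k r p θ e f ≤ 1 := fun e =>
    (Finset.single_le_sum (f := fun e => besovSemi k r p θ e f) (fun _ _ => zero_le)
      (Finset.mem_univ e)).trans hf
  have key : ∀ e, ∀ F : Finset (Fin d → ℕ), (∀ l ∈ F, supp l = e) →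
      ∑ l ∈ F, xe k r p f l ≤ (F.card : ℝ≥0∞) ^ (1 - (1 / θ).toReal) := by
    intro e F hF
    by_cases h : θ = ∞
    · subst h
      simpa using Finset.sum_le_card_nsmul F _ 1
        fun l _ => (xe_le_top k hr p f l).trans (hsemi _)
    · have hτ : 1 ≤ θ.toReal := by
        simpa using ENNReal.toReal_mono h hθ
      have h1 := sum_xe_pow_le k hr p hτ f e F hF
      have h2 := hsemi e
      rw [besovSemi, if_neg h] at h2
      have h3 := ENNReal.rpow_le_rpow h2 (z := θ.toReal) (by linarith)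
      rw [← ENNReal.rpow_mul, one_div, inv_mul_cancel₀ (by linarith), ENNReal.rpow_one,
        ENNReal.one_rpow] at h3
      have h4 := (ENNReal.rpow_sum_le_const_mul_sum_rpow F (xe k r p f) hτ).trans
        (mul_le_mul_right (h1.trans h3) _)
      have h5 := ENNReal.rpow_le_rpow h4 (z := θ.toReal⁻¹) (by positivity)
      rw [← ENNReal.rpow_mul, mul_inv_cancel₀ (by linarith), ENNReal.rpow_one, mul_one,
        ← ENNReal.rpow_mul] at h5
      convert h5 using 2
      rw [one_div, ENNReal.toReal_inv]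
      field_simp
  rw [← Finset.sum_fiberwise_of_maps_to (t := Finset.univ) (g := supp)
    fun _ _ => Finset.mem_univ _]
  refine (Finset.sum_le_card_nsmul _ _ ((S.card : ℝ≥0∞) ^ (1 - (1 / θ).toReal))
    fun e _ => ?_).trans (le_of_eq ?_)
  · refine (key e _ fun l hl => (Finset.mem_filter.1 hl).2).trans (ENNReal.rpow_le_rpow ?_ hγ)
    exact_mod_cast Finset.card_filter_le _ _
  · rw [ENNReal.ofReal_mul (by positivity), ← ENNReal.ofReal_rpow_of_nonneg (by positivity) hγ]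
    simp [ENNReal.ofReal_pow]

lemma βe_ne_top (k : ℕ) {r : ℝ} (hr : 0 ≤ r) (p : ℝ≥0∞) {θ : ℝ≥0∞} (hθ : 1 ≤ θ)
    (f : Torus d → 𝕜) (hf : besovNorm k r p θ f ≤ 1) (l : Fin d → ℕ) : βe k p f l ≠ ∞ := by
  intro h
  have h1 := sum_xe_le k hr p hθ f hf {l}
  have := kap_pos r
  rw [Finset.sum_singleton, xe, h, ENNReal.mul_top (by
    simp only [ne_eq, ENNReal.ofReal_eq_zero, not_le]; positivity)] at h1
  exact ENNReal.ofReal_ne_top (top_le_iff.1 h1)

lemma sum_β_le (k : ℕ) {r : ℝ} (hr : 0 ≤ r) (p : ℝ≥0∞) {θ : ℝ≥0∞} (hθ : 1 ≤ θ)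
    (f : Torus d → 𝕜) (hf : besovNorm k r p θ f ≤ 1) (S : Finset (Fin d → ℕ)) :
    ∑ l ∈ S, (((2:ℝ) ^ (-r))⁻¹) ^ (∑ i, l i) * (βe k p f l).toReal ≤
      2 ^ d / kap r ^ d * (S.card : ℝ) ^ (1 - (1 / θ).toReal) := by
  have h1 := ENNReal.toReal_mono ENNReal.ofReal_ne_top (sum_xe_le k hr p hθ f hf S)
  have := kap_pos r
  simp only [xe] at h1
  rw [ENNReal.toReal_sum fun l _ => ENNReal.mul_ne_top ENNReal.ofReal_ne_top
    (βe_ne_top k hr p hθ f hf l), ENNReal.toReal_ofReal (by positivity)] at h1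
  simp only [ENNReal.toReal_mul] at h1
  rw [div_mul_eq_mul_div, le_div_iff₀ (by positivity), Finset.sum_mul]
  refine le_trans (le_of_eq (Finset.sum_congr rfl fun l _ => ?_)) h1
  rw [ENNReal.toReal_ofReal (by positivity)]; ring

end Pool.Agent.Lib.MP_919f0c_an.Up
end

-- part Pool.Agent.Lib.MP_919f0c_an.UpMain
section

/-! The Smolyak upper bound for the sampling numbers of mixed Besov classes, `p = 1, ∞`. -/

open MeasureTheory Filter Topology Pool.Agent.MixedBesov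
open scoped Real ENNReal

namespace Pool.Agent.Lib.MP_919f0c_an.Up

variable {d : ℕ}

/-- weights of the stencil `Q` -/
noncomputable def wq (k j : ℕ) (a : ℕ × ℕ) (y : ℝ) : ℝ :=
  if ⌊y / hh j⌋ = (a.1 : ℤ) then Lg k a.2 (Int.fract (y / hh j)) else 0

/-- index set of the stencil `R` -/
def Ij (k j : ℕ) : Finset ((ℕ × ℕ) × Bool) :=
  (Finset.range (2 ^ j) ×ˢ Finset.range k) ×ˢ Finset.univ

/-- weights of the stencil `R` -/
noncomputable def wr (k j : ℕ) (a : (ℕ × ℕ) × Bool) (y : ℝ) : ℝ :=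
  if a.2 then wq k j a.1 y else if j = 0 then 0 else - wq k (j - 1) a.1 y

/-- nodes of the stencil `R` -/
noncomputable def sr (j : ℕ) (a : (ℕ × ℕ) × Bool) : ℝ :=
  ((a.1.1 : ℝ) + a.1.2) * hh (if a.2 then j else j - 1)

lemma Q_eq (k : ℕ) (i : Fin d) (j : ℕ) {M : ℕ} (hM : 2 ^ j ≤ M) (x : AddCircle (2 * π)) :
    Q k i j (rep x) = ∑ a ∈ Finset.range M ×ˢ Finset.range k,
      wq k j a (rep x) • E i (((a.1 : ℝ) + a.2) * hh j) := by
  obtain ⟨μ, hμ, hμ'⟩ := floor_rep x j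
  rw [Finset.sum_product, Finset.sum_eq_single_of_mem μ
    (Finset.mem_range.2 ((Finset.mem_range.1 hμ).trans_le hM))]
  · simp [Q, wq, hμ']
  · intro b _ hb
    have : ¬ (μ : ℤ) = b := by exact_mod_cast hb.symm
    simp [wq, hμ', this]

lemma R_eq (k : ℕ) (i : Fin d) (j : ℕ) (x : AddCircle (2 * π)) :
    R k i j (rep x) = ∑ a ∈ Ij k j, wr k j a (rep x) • E i (sr j a) := by
  rw [Ij, Finset.sum_product_right]
  simp only [Fintype.univ_bool, Finset.mem_singleton, Bool.true_eq_false, not_false_eq_true,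
    Finset.sum_insert, Finset.sum_singleton, wr, sr, if_true, Bool.false_eq_true, if_false]
  rw [← Q_eq k i j le_rfl, R]
  split_ifs with h
  · simp [h]
  · simp only [neg_smul, Finset.sum_neg_distrib]
    rw [← Q_eq k i (j - 1) (Nat.pow_le_pow_right zero_lt_two (Nat.sub_le _ _)), sub_eq_add_neg]

lemma measurable_wq (k j : ℕ) (a : ℕ × ℕ) : Measurable (wq k j a) :=
  Measurable.ite (measurableSet_eq_fun (Int.measurable_floor.comp (measurable_id.div_const _))
    measurable_const) ((continuous_Lg k _).measurable.comp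
      (measurable_fract.comp (measurable_id.div_const _))) measurable_const

lemma measurable_wr (k j : ℕ) (a : (ℕ × ℕ) × Bool) : Measurable (wr k j a) := by
  unfold wr
  split_ifs
  · exact measurable_wq _ _ _
  · exact measurable_const
  · exact (measurable_wq _ _ _).neg

lemma abs_wq_le {k : ℕ} (j : ℕ) {a : ℕ × ℕ} (ha : a.2 < k) (y : ℝ) : |wq k j a y| ≤ cL k := by
  unfold wq
  split_ifs
  · exact abs_Lg_le ha _
  · simpa using cL_nonneg k

lemma abs_wr_le {k j : ℕ} {a : (ℕ × ℕ) × Bool} (ha : a ∈ Ij k j) (y : ℝ) :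
    |wr k j a y| ≤ cL k := by
  have h : a.1.2 < k := by
    simp only [Ij, Finset.mem_product, Finset.mem_range] at ha
    exact ha.1.2
  unfold wr
  split_ifs
  · exact abs_wq_le _ h _
  · simpa using cL_nonneg k
  · rw [abs_neg]; exact abs_wq_le _ h _

/-- index set of the sampling points -/
def Lam (d k n : ℕ) : Finset (Σ _ : Fin d → ℕ, Fin d → (ℕ × ℕ) × Bool) :=
  (Jn d n).sigma fun j => Fintype.piFinset fun i => Ij k (j i)

/-- sampling points -/
noncomputable def xi (q : Σ _ : Fin d → ℕ, Fin d → (ℕ × ℕ) × Bool) : Torus d :=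
  fun i => (sr (q.1 i) (q.2 i) : AddCircle (2 * π))

/-- recovery functions -/
noncomputable def psi (k : ℕ) (q : Σ _ : Fin d → ℕ, Fin d → (ℕ × ℕ) × Bool) (x : Torus d) : ℝ :=
  ∏ i, wr k (q.1 i) (q.2 i) (rep (x i))

lemma Tn_eq (k n : ℕ) (f : C(Torus d, ℝ)) (x : Torus d) :
    Tn k n f x = ∑ q ∈ Lam d k n, psi k q x * f (xi q) := by
  rw [Tn, Lam, Finset.sum_sigma]
  refine Finset.sum_congr rfl fun j _ => ?_
  simp only [Dj, R_eq]
  rw [Finset.prod_univ_sum, sum_app_apply]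
  refine Finset.sum_congr rfl fun a _ => ?_
  rw [Finset.prod_smul, smul_app, ContinuousMap.smul_apply, E_prod_apply, zero_add]
  rfl

lemma measurable_psi (k : ℕ) (q : Σ _ : Fin d → ℕ, Fin d → (ℕ × ℕ) × Bool) :
    Measurable (psi k q) :=
  Finset.measurable_prod _ fun i _ =>
    (measurable_wr _ _ _).comp (measurable_rep.comp (measurable_pi_apply i))

lemma abs_psi_le {k n : ℕ} {q : Σ _ : Fin d → ℕ, Fin d → (ℕ × ℕ) × Bool} (hq : q ∈ Lam d k n)
    (x : Torus d) : |psi k q x| ≤ cL k ^ d := by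
  rw [psi, Finset.abs_prod]
  have : cL k ^ d = ∏ _i : Fin d, cL k := by simp
  rw [this]
  exact Finset.prod_le_prod (fun _ _ => abs_nonneg _) fun i _ =>
    abs_wr_le (Fintype.mem_piFinset.1 (Finset.mem_sigma.1 hq).2 i) _

lemma card_Lam (d k n : ℕ) :
    (Lam (d + 1) k n).card ≤ (2 * k) ^ (d + 1) * 2 * (2 ^ n * (n + 1) ^ d) := by
  rw [Lam, Finset.card_sigma]
  have h : ∀ j : Fin (d + 1) → ℕ, (Fintype.piFinset fun i => Ij k (j i)).card =
      (2 * k) ^ (d + 1) * 2 ^ (∑ i, j i) := by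
    intro j
    rw [Fintype.card_piFinset]
    simp only [Ij, Finset.card_product, Finset.card_range, Finset.card_univ, Fintype.card_bool,
      mul_assoc, Finset.prod_mul_distrib, Finset.prod_pow_eq_pow_sum, Finset.prod_const,
      Fintype.card_fin, mul_pow]
    ring
  simp only [h]
  rw [← Finset.mul_sum, mul_assoc]
  refine Nat.mul_le_mul_left _ ((sum_Jn d n).trans (le_of_eq (by ring)))

lemma sampling_le {𝕜 : Type*} [RCLike 𝕜] (F : Set C(Torus d, 𝕜)) (p : ℝ≥0∞) {k n m : ℕ}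
    (hm : (Lam d k n).card ≤ m) {b : ℝ≥0∞}
    (hb : ∀ f ∈ F, eLpNorm (fun y => f y - ∑ q ∈ Lam d k n, psi k q y • f (xi q)) p volume ≤ b) :
    samplingNumber F p m ≤ b := by
  obtain ⟨e⟩ : Nonempty (Lam d k n ↪ Fin m) :=
    Function.Embedding.nonempty_of_card_le (by simpa using hm)
  refine iInf_le_of_le (Function.extend e (fun q => xi q.1) 0) (iInf_le_of_le
    (Function.extend e (fun q y => (psi k q.1 y : 𝕜)) 0) (iInf_le_of_le (fun j => ?_)
      (iSup₂_le fun f hf => le_trans (le_of_eq ?_) (hb f hf))))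
  · by_cases h : ∃ q, e q = j
    · obtain ⟨q, rfl⟩ := h
      rw [e.injective.extend_apply]
      refine MemLp.of_bound (RCLike.continuous_ofReal.measurable.comp
        (measurable_psi k q.1)).aestronglyMeasurable (cL k ^ d) (Eventually.of_forall fun y => ?_)
      rw [RCLike.norm_ofReal]
      exact abs_psi_le q.2 y
    · rw [Function.extend_apply' _ _ _ h]
      exact MemLp.zero
  · congr 1
    ext y
    congr 1
    rw [← Finset.sum_coe_sort (Lam d k n)]
    symm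
    refine Fintype.sum_of_injective e e.injective _ _ (fun j hj => ?_) fun q => ?_
    · rw [Function.extend_apply' (fun (q : Lam d k n) y => (psi k q.1 y : 𝕜)) _ _ hj]
      simp
    · rw [e.injective.extend_apply, e.injective.extend_apply, RCLike.real_smul_eq_coe_mul,
        mul_comm]

lemma norm_err_le {𝕜 : Type*} [RCLike 𝕜] (k n : ℕ) (f : C(Torus d, 𝕜)) (y : Torus d) :
    ‖f y - ∑ q ∈ Lam d k n, psi k q y • f (xi q)‖ ≤
      |((⟨RCLike.reCLM, RCLike.reCLM.continuous⟩ : C(𝕜, ℝ)).comp f) y -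
        Tn k n ((⟨RCLike.reCLM, RCLike.reCLM.continuous⟩ : C(𝕜, ℝ)).comp f) y| +
      |((⟨RCLike.imCLM, RCLike.imCLM.continuous⟩ : C(𝕜, ℝ)).comp f) y -
        Tn k n ((⟨RCLike.imCLM, RCLike.imCLM.continuous⟩ : C(𝕜, ℝ)).comp f) y| := by
  have h1 : ∀ L : 𝕜 →L[ℝ] ℝ, ((⟨L, L.continuous⟩ : C(𝕜, ℝ)).comp f) y -
      Tn k n ((⟨L, L.continuous⟩ : C(𝕜, ℝ)).comp f) y =
      L (f y - ∑ q ∈ Lam d k n, psi k q y • f (xi q)) := by
    intro L
    rw [Tn_eq, map_sub, map_sum]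
    simp
  rw [h1, h1]
  generalize f y - ∑ q ∈ Lam d k n, psi k q y • f (xi q) = z
  conv_lhs => rw [← RCLike.re_add_im z]
  refine (norm_add_le _ _).trans (add_le_add (by simp) ?_)
  rw [norm_mul, RCLike.norm_ofReal]
  refine mul_le_of_le_one_right (abs_nonneg _) ?_
  by_cases h : (RCLike.I : 𝕜) = 0
  · simp [h]
  · exact (RCLike.norm_I_of_ne_zero h).le

lemma gamma_mem {θ : ℝ≥0∞} (hθ : 1 ≤ θ) :
    0 ≤ 1 - (1 / θ).toReal ∧ 1 - (1 / θ).toReal ≤ 1 := by
  have : (1 / θ).toReal ≤ 1 := by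
    simpa using ENNReal.toReal_mono (b := 1) (by simp) (a := 1 / θ) (by simpa using hθ)
  constructor <;> linarith [ENNReal.toReal_nonneg (a := 1 / θ)]

lemma level_bound (𝕜 : Type*) [RCLike 𝕜] (d k : ℕ) (r : ℝ) (p θ : ℝ≥0∞)
    (hp : p = 1 ∨ p = ∞) (hθ : 1 ≤ θ) (hr : (1 / p).toReal < r) (hk : r < k) :
    ∃ C : ℝ, 0 ≤ C ∧ ∀ n m : ℕ, (Lam (d + 1) k n).card ≤ m →
      samplingNumber (besovBall 𝕜 (d + 1) k r p θ) p m ≤ ENNReal.ofReal
        (C * (((2:ℝ) ^ (-r)) ^ n * (((n : ℝ) + 1) ^ d) ^ (1 - (1 / θ).toReal))) := by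
  have hr0 : 0 < r := ENNReal.toReal_nonneg.trans_lt hr
  have hk0 : 0 < k := by exact_mod_cast hr0.trans hk
  have hq0 : 0 < (2:ℝ) ^ (-r) := by positivity
  have hq1 : (2:ℝ) ^ (-r) < 1 := Real.rpow_lt_one_of_one_lt_of_neg one_lt_two (by linarith)
  have hK : 0 ≤ 2 ^ (d + 1) / kap r ^ (d + 1) := by have := kap_pos r; positivity
  obtain ⟨hγ0, hγ1⟩ := gamma_mem hθ
  have hre : ∀ z : 𝕜, ‖RCLike.reCLM z‖ ≤ ‖z‖ := fun z => RCLike.norm_re_le_norm z
  have him : ∀ z : 𝕜, ‖RCLike.imCLM z‖ ≤ ‖z‖ := fun z => RCLike.norm_im_le_norm z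
  have hSn : ∀ n L, ∀ j ∈ Sn (d + 1) n L, n < ∑ i, j i := fun n L j hj =>
    (Finset.mem_filter.1 hj).2
  rcases hp with rfl | rfl
  · have h2q : 2 * (2:ℝ) ^ (-r) < 1 := by
      have h1 : (1:ℝ) < r := by simpa using hr
      have := Real.rpow_lt_one_of_one_lt_of_neg (x := 2) (z := 1 + -r) one_lt_two (by linarith)
      rwa [Real.rpow_add two_pos, Real.rpow_one] at this
    obtain ⟨C, hC, h⟩ := sum_double d hq0 hq1 zero_le_two h2q
    set c := c2 k ^ (d + 1) * (8 * π) ^ (d + 1) * (2 ^ (d + 1) * c1 k (d + 1)) with hc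
    have hc0 : 0 ≤ c := by
      have := c2_nonneg k
      have := c1_nonneg k (d + 1)
      positivity
    refine ⟨2 * (c * (C * (2 ^ (d + 1) / kap r ^ (d + 1)))), by positivity, fun n m hm =>
      sampling_le _ _ hm fun f hf => ?_⟩
    set b := c * (C * (2 ^ (d + 1) / kap r ^ (d + 1)) *
      (((2:ℝ) ^ (-r)) ^ n * (((n : ℝ) + 1) ^ d) ^ (1 - (1 / θ).toReal))) with hb
    have key : ∀ L : 𝕜 →L[ℝ] ℝ, (∀ z, ‖L z‖ ≤ ‖z‖) →
        ∫⁻ y, ‖((⟨L, L.continuous⟩ : C(𝕜, ℝ)).comp f) y -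
          Tn k n ((⟨L, L.continuous⟩ : C(𝕜, ℝ)).comp f) y‖ₑ ≤ ENNReal.ofReal b := by
      intro L hL
      refine err_one hk0 (fun l => mod_of_βe k 1 L hL f l (βe_ne_top k hr0.le 1 hθ f hf l))
        (fun _ => ENNReal.toReal_nonneg) n fun M U => ?_
      simp only [← Finset.mul_sum]
      exact mul_le_mul_of_nonneg_left (h _ _ _ hK hγ0 hγ1 (sum_β_le k hr0.le 1 hθ f hf) n _ U
        (hSn n M)) hc0
    rw [eLpNorm_one_eq_lintegral_enorm]
    refine (lintegral_mono fun y => ?_).trans ((lintegral_add_left ?_ _).trans_le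
      ((add_le_add (key _ hre) (key _ him)).trans (le_of_eq ?_)))
    · rw [Real.enorm_eq_ofReal_abs, Real.enorm_eq_ofReal_abs,
        ← ENNReal.ofReal_add (abs_nonneg _) (abs_nonneg _), ← ofReal_norm]
      exact ENNReal.ofReal_le_ofReal (norm_err_le k n f y)
    · simp only [Tn_eq]
      refine Measurable.enorm (Measurable.sub (ContinuousMap.continuous _).measurable ?_)
      exact Finset.measurable_sum _ fun q _ => (measurable_psi k q).mul_const _
    · rw [← ENNReal.ofReal_add (by positivity) (by positivity)]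
      congr 1; rw [hb]; ring
  · obtain ⟨C, hC, h⟩ := sum_double d hq0 hq1 zero_le_one (by simpa using hq1)
    set c := c2 k ^ (d + 1) * cS k ^ (d + 1) with hc
    have hc0 : 0 ≤ c := by
      have := c2_nonneg k
      have := cS_nonneg k
      positivity
    refine ⟨2 * (c * (C * (2 ^ (d + 1) / kap r ^ (d + 1)))), by positivity, fun n m hm =>
      sampling_le _ _ hm fun f hf => ?_⟩
    set b := c * (C * (2 ^ (d + 1) / kap r ^ (d + 1)) *
      (((2:ℝ) ^ (-r)) ^ n * (((n : ℝ) + 1) ^ d) ^ (1 - (1 / θ).toReal))) with hb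
    have key : ∀ L : 𝕜 →L[ℝ] ℝ, (∀ z, ‖L z‖ ≤ ‖z‖) → ∀ y,
        |((⟨L, L.continuous⟩ : C(𝕜, ℝ)).comp f) y -
          Tn k n ((⟨L, L.continuous⟩ : C(𝕜, ℝ)).comp f) y| ≤ b := by
      intro L hL
      refine err_top hk0 (fun l => mod_of_βe k ∞ L hL f l (βe_ne_top k hr0.le ∞ hθ f hf l))
        n fun M => ?_
      simp only [← Finset.mul_sum]
      have := h _ _ _ hK hγ0 hγ1 (sum_β_le k hr0.le ∞ hθ f hf) n _ {0} (hSn n M)
      simp only [Finset.sum_singleton, one_pow, one_mul, add_zero] at this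
      exact mul_le_mul_of_nonneg_left this hc0
    rw [eLpNorm_exponent_top]
    refine eLpNormEssSup_le_of_ae_bound (Eventually.of_forall fun y => ?_)
    refine (norm_err_le k n f y).trans ((add_le_add (key _ hre y) (key _ him y)).trans
      (le_of_eq ?_))
    rw [hb]; ring

lemma choose_level (d c : ℕ) (hc : 0 < c) {m : ℕ} (hm : c ≤ m) :
    ∃ n : ℕ, c * (2 ^ n * (n + 1) ^ d) ≤ m ∧ m < c * (2 ^ (n + 1) * (n + 1 + 1) ^ d) := by
  have hex : ∃ n : ℕ, m < c * (2 ^ (n + 1) * (n + 1 + 1) ^ d) := by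
    refine ⟨m, ?_⟩
    have h1 : m < 2 ^ (m + 1) := (Nat.lt_two_pow_self).trans
      (Nat.pow_lt_pow_right one_lt_two (Nat.lt_succ_self m))
    have h2 : 0 < (m + 1 + 1) ^ d := by positivity
    calc m < 2 ^ (m + 1) := h1
      _ ≤ 2 ^ (m + 1) * (m + 1 + 1) ^ d := Nat.le_mul_of_pos_right _ h2
      _ ≤ _ := Nat.le_mul_of_pos_left _ hc
  refine ⟨Nat.find hex, ?_, Nat.find_spec hex⟩
  rcases h : Nat.find hex with _ | n
  · simpa using hm
  · exact not_lt.1 (Nat.find_min hex (by omega))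

theorem upper_bound (𝕜 : Type*) [RCLike 𝕜] (d k : ℕ) (hd : 1 ≤ d) (r : ℝ) (p θ : ℝ≥0∞)
    (hp : p = 1 ∨ p = ∞) (hθ : 1 ≤ θ) (hr : (1 / p).toReal < r) (hk : r < k) :
    ∃ C : ℝ, 0 < C ∧ ∃ m₀ : ℕ, ∀ m : ℕ, m₀ ≤ m →
      samplingNumber (besovBall 𝕜 d k r p θ) p m ≤
        ENNReal.ofReal (C * ((m : ℝ) ^ (-r) *
          Real.log m ^ (((d : ℝ) - 1) * (r + 1 - (1 / θ).toReal)))) := by
  obtain ⟨d, rfl⟩ : ∃ d', d = d' + 1 := ⟨d - 1, by omega⟩
  obtain ⟨C, hC, h⟩ := level_bound 𝕜 d k r p θ hp hθ hr hk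
  have hr0 : 0 < r := ENNReal.toReal_nonneg.trans_lt hr
  have hk0 : 0 < k := by exact_mod_cast hr0.trans hk
  obtain ⟨hγ0, hγ1⟩ := gamma_mem hθ
  set γ := 1 - (1 / θ).toReal with hγ
  set c := (2 * k) ^ (d + 1) * 2 with hc
  have hc0 : 0 < c := by positivity
  refine ⟨C * ((2 * c * 4 ^ d : ℝ) ^ r * 4 ^ d) + 1, by positivity, max c 3, fun m hm => ?_⟩
  obtain ⟨n, hn1, hn2⟩ := choose_level d c hc0 ((le_max_left _ _).trans hm)
  refine (h n m ((card_Lam d k n).trans hn1)).trans (ENNReal.ofReal_le_ofReal ?_)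
  have hm3 : (3 : ℝ) ≤ m := by exact_mod_cast (le_max_right _ _).trans hm
  have hlog : 1 ≤ Real.log m := by
    rw [Real.le_log_iff_exp_le (by linarith)]
    linarith [Real.exp_one_lt_d9]
  have h2n : (2 : ℝ) ^ n ≤ m := by
    have : 2 ^ n ≤ m := le_trans ((Nat.le_mul_of_pos_right _ (by positivity)).trans
      (Nat.le_mul_of_pos_left _ hc0)) hn1
    exact_mod_cast this
  have hn : (n : ℝ) + 2 ≤ 4 * Real.log m := by
    have h1 := Real.log_le_log (by positivity) h2n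
    rw [Real.log_pow] at h1
    have h2 := Real.log_two_gt_d9
    have h3 : (0 : ℝ) ≤ n := by positivity
    nlinarith
  set ℓ := Real.log m with hℓ
  have hA : ((2:ℝ) ^ (-r)) ^ n ≤ (2 * c * 4 ^ d : ℝ) ^ r * ((m : ℝ) ^ (-r) * ℓ ^ ((d : ℝ) * r)) := by
    have h1 : (m : ℝ) ≤ (2 * c * 4 ^ d * ℓ ^ d) * 2 ^ n := by
      have h2 : (m : ℝ) ≤ c * (2 ^ (n + 1) * ((n : ℝ) + 1 + 1) ^ d) := by exact_mod_cast hn2.le
      have h3 : ((n : ℝ) + 1 + 1) ^ d ≤ (4 * ℓ) ^ d := pow_le_pow_left₀ (by positivity)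
        (by linarith) _
      calc (m : ℝ) ≤ c * (2 ^ (n + 1) * (4 * ℓ) ^ d) := h2.trans (by gcongr)
        _ = _ := by rw [mul_pow]; ring
    have h4 : ((2:ℝ) ^ (-r)) ^ n = ((2:ℝ) ^ n) ^ (-r) := by
      rw [← Real.rpow_natCast, ← Real.rpow_mul zero_le_two, mul_comm, Real.rpow_mul zero_le_two,
        Real.rpow_natCast]
    have h5 : (m : ℝ) / (2 * c * 4 ^ d * ℓ ^ d) ≤ 2 ^ n := by
      rw [div_le_iff₀ (by positivity)]; linarith
    rw [h4]
    refine (Real.rpow_le_rpow_of_nonpos (by positivity) h5 (by linarith)).trans (le_of_eq ?_)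
    rw [Real.div_rpow (by positivity) (by positivity), Real.rpow_neg (x := 2 * c * 4 ^ d * ℓ ^ d)
      (by positivity), Real.mul_rpow (x := 2 * c * 4 ^ d) (by positivity) (by positivity),
      Real.rpow_mul (by positivity), Real.rpow_natCast, div_inv_eq_mul]
    ring
  have hB : (((n : ℝ) + 1) ^ d) ^ γ ≤ 4 ^ d * ℓ ^ ((d : ℝ) * γ) := by
    have h3 : ((n : ℝ) + 1) ^ d ≤ 4 ^ d * ℓ ^ d := by
      rw [← mul_pow]; exact pow_le_pow_left₀ (by positivity) (by linarith) _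
    refine (Real.rpow_le_rpow (by positivity) h3 hγ0).trans ?_
    rw [Real.mul_rpow (by positivity) (by positivity), Real.rpow_mul (by positivity),
      Real.rpow_natCast]
    refine mul_le_mul_of_nonneg_right ?_ (by positivity)
    simpa using Real.rpow_le_rpow_of_exponent_le (x := 4 ^ d) (one_le_pow₀ (by norm_num)) hγ1
  have hE : (((d + 1 : ℕ) : ℝ) - 1) * (r + 1 - (1 / θ).toReal) = d * r + d * γ := by
    rw [hγ]; push_cast; ring
  rw [hE, Real.rpow_add (by positivity)]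
  have hP : 0 ≤ (m : ℝ) ^ (-r) * (ℓ ^ ((d : ℝ) * r) * ℓ ^ ((d : ℝ) * γ)) := by positivity
  calc C * (((2:ℝ) ^ (-r)) ^ n * (((n : ℝ) + 1) ^ d) ^ γ)
      ≤ C * (((2 * c * 4 ^ d : ℝ) ^ r * ((m : ℝ) ^ (-r) * ℓ ^ ((d : ℝ) * r))) *
        (4 ^ d * ℓ ^ ((d : ℝ) * γ))) := by gcongr
    _ = C * ((2 * c * 4 ^ d : ℝ) ^ r * 4 ^ d) *
        ((m : ℝ) ^ (-r) * (ℓ ^ ((d : ℝ) * r) * ℓ ^ ((d : ℝ) * γ))) := by ring
    _ ≤ _ := by gcongr; linarith

end Pool.Agent.Lib.MP_919f0c_an.Up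
end
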