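import Pool.Agent.Lib.MP_919f0c_an.LpHaar
import Pool.Agent.Lib.MP_919f0c_an.LpRand
import Pool.Agent.Lib.MP_919f0c_an.UpMain

-- part Pool.Agent.Lib.MP_919f0c_an.LpCell
section

/-! The periodic random design attached to one cell of shapes. -/

set_option autoImplicit false

open Finset Matrix

namespace Pool.Agent.Lib.MP_919f0c_an.Lp

section Ops
variable {ι κ ν : Type*} [Fintype ι] [Fintype κ] [Fintype ν]

lemma OB.mul {p a b : ℝ} {A : Matrix ι κ ℝ} {B : Matrix κ ν ℝ} (ha : 0 ≤ a) (hA : OB p A a)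
    (hB : OB p B b) : OB p (A * B) (a * b) := fun g => by
  rw [← mulVec_mulVec, mul_assoc]
  exact (hA _).trans (mul_le_mul_of_nonneg_left (hB g) ha)

lemma OB_one {K : Matrix ι κ ℝ} {B : ℝ} (h : ∀ z, ∑ x, |K x z| ≤ B) : OB 1 K B :=
  (schur le_rfl K (B := ∑ x, ∑ z, |K x z|) (by positivity) (fun x => single_le_sum
    (f := fun x => ∑ z, |K x z|) (fun _ _ => by positivity) (mem_univ x)) h).mono (by simp)

lemma dual_nm {p q B : ℝ} (hpq : p.HolderConjugate q) (hB : 0 < B) {K : Matrix ι κ ℝ}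
    (h : OB q K (B ^ q)) (g : ι → ℝ) : nm p (Kᵀ *ᵥ g) ≤ B * nm p g :=
  nm_le_mul hpq.pos hB.le (dual hpq hB h g)

lemma sp_even (k : ℕ) (g : ι → ℝ) : sp (2 * (k + 1) : ℕ) g = ∑ x, g x ^ (2 * (k + 1)) :=
  sum_congr rfl fun x _ => by rw [Real.rpow_natCast, (even_two_mul _).pow_abs]

end Ops

lemma marc_le {q₀ q q₁ : ℝ} (h0 : 0 < q₀) (h1 : q₀ ≤ q) (h2 : q ≤ q₁) : ∃ C : ℝ, 0 < C ∧
    ∀ {ι : Type} [Fintype ι] (K : Matrix ι ι ℝ) (a ω : ℝ), 0 ≤ a →
      0 < ω → OB q₀ K (a * ω ^ q₀) → OB q₁ K (a * ω ^ q₁) → OB q K (C * a * ω ^ q) := by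
  rcases h1.eq_or_lt with rfl | h1
  · exact ⟨1, one_pos, fun K a ω _ _ h _ => by rwa [one_mul]⟩
  rcases h2.eq_or_lt with rfl | h2
  · exact ⟨1, one_pos, fun K a ω _ _ _ h => by rwa [one_mul]⟩
  obtain ⟨C, hC, h⟩ := marc.{0, 0} h0 h1 h2
  exact ⟨C, hC, fun K => h K⟩

lemma interp {p α c Q : ℝ} (hp : 1 < p) (h1 : α ≤ 1 / 2) (h2 : α ≤ 1 / p) (hc : 0 < c)
    (hQ : Real.conjExponent p ≤ Q) : ∃ C : ℝ, 0 < C ∧
    ∀ {ι : Type} [Fintype ι] (T : Matrix ι ι ℝ) (L σ : ℝ) (j : ℕ), 1 ≤ L → 1 ≤ σ → OB 1 T 3 →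
      OB 2 T (c * (1 / 2) ^ j * (L ^ (-(1 / 2) : ℝ) * (2 * σ) ^ j) ^ (2 : ℝ)) →
      OB Q T (c * (1 / 2) ^ j * (L ^ (-(1 / 2) : ℝ) * (2 * σ) ^ j) ^ Q) →
      ∀ g, nm p (Tᵀ *ᵥ g) ≤ C * (L ^ (-α) * (2 ^ (1 / p) * σ) ^ j) * nm p g := by
  have hpq := Real.HolderConjugate.conjExponent hp
  set q := Real.conjExponent p
  have hq := hpq.symm.pos
  have hp0 := hpq.pos
  have he : 1 / p * q = q - 1 := by
    have := hpq.symm.sub_one_mul_conj
    field_simp; linarith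
  have h3 : ((2 : ℝ) ^ (1 / p)) ^ q = 2 ^ q / 2 := by
    rw [← Real.rpow_mul zero_le_two, he, Real.rpow_sub_one two_ne_zero]
  rcases le_total 2 q with h | h
  · obtain ⟨C, hC, H⟩ := marc_le two_pos h hQ
    refine ⟨(C * c) ^ q⁻¹, by positivity, fun T L σ j hL hσ _ T2 TQ => dual_nm hpq (by positivity)
      ((H T _ _ (by positivity) (by positivity) T2 TQ).mono ?_)⟩
    have h4 := Real.rpow_le_rpow (by positivity) (Real.rpow_le_rpow_of_exponent_le hL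
      (neg_le_neg h1)) hq.le
    rw [Real.mul_rpow (x := _ ^ q⁻¹) (by positivity) (by positivity),
      Real.rpow_inv_rpow (by positivity) hq.ne', Real.mul_rpow (by positivity) (by positivity),
      Real.mul_rpow (by positivity) (by positivity), ← Real.rpow_pow_comm (by positivity),
      ← Real.rpow_pow_comm (by positivity), Real.mul_rpow (by positivity) (by positivity),
      Real.mul_rpow (by positivity) (by positivity), h3]
    calc _ = C * c * ((L ^ (-(1 / 2) : ℝ)) ^ q * (2 ^ q / 2 * σ ^ q) ^ j) := by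
          rw [show (2 : ℝ) ^ q / 2 * σ ^ q = 1 / 2 * (2 ^ q * σ ^ q) by ring, mul_pow (1 / 2 : ℝ)]; ring
      _ ≤ _ := by gcongr
  · obtain ⟨C, hC, H⟩ := marc_le one_pos hpq.symm.lt.le h
    refine ⟨(C * 9 / 3 ^ q) ^ q⁻¹ * c ^ (1 / p), by positivity, fun T L σ j hL hσ T1 T2 _ g => ?_⟩
    set A := c * (1 / 2) ^ j * (L ^ (-(1 / 2) : ℝ) * (2 * σ) ^ j) ^ (2 : ℝ) with hA
    have hA0 : 0 < A := by positivity
    have h4 := H T (9 / A) (A / 3) (by positivity) (by positivity)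
      (T1.mono (le_of_eq (by rw [Real.rpow_one]; field_simp; norm_num)))
      (T2.mono (le_of_eq (by rw [Real.rpow_two]; field_simp; norm_num)))
    refine (dual_nm hpq (B := (C * 9 / 3 ^ q) ^ q⁻¹ * A ^ (1 / p)) (by positivity)
      (h4.mono (le_of_eq ?_)) g).trans (mul_le_mul_of_nonneg_right ?_ (nm_nonneg _ _))
    · rw [Real.mul_rpow (by positivity) (by positivity), Real.rpow_inv_rpow (by positivity) hq.ne',
        ← Real.rpow_mul hA0.le, he, Real.rpow_sub_one hA0.ne', Real.div_rpow hA0.le (by norm_num)]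
      field_simp
    rw [mul_assoc]
    refine mul_le_mul_of_nonneg_left ?_ (by positivity)
    have h5 : A = c * (L⁻¹ * (2 * σ ^ 2) ^ j) := by
      rw [hA, Real.mul_rpow (by positivity) (by positivity), ← Real.rpow_mul (by positivity),
        show -(1 / 2 : ℝ) * 2 = -1 by norm_num, Real.rpow_neg_one, Real.rpow_two, ← pow_mul,
        mul_comm j, pow_mul, show (2 * σ) ^ 2 = 2 * (2 * σ ^ 2) by ring, mul_pow, one_div, inv_pow]
      field_simp
    have h6 : 2 * (1 / p) ≤ 1 := by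
      have := hpq.inv_add_inv_eq_one
      have := inv_anti₀ hq h
      rw [one_div]; linarith
    rw [h5, Real.mul_rpow hc.le (by positivity), Real.mul_rpow (by positivity) (by positivity),
      ← Real.rpow_pow_comm (by positivity), Real.mul_rpow (by positivity) (by positivity),
      Real.inv_rpow (by positivity), ← Real.rpow_neg (by positivity), ← Real.rpow_two,
      ← Real.rpow_mul (by positivity)]
    gcongr
    simpa using Real.rpow_le_rpow_of_exponent_le hσ h6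

variable {d : ℕ}

lemma card_bx {P p : Fin d → ℕ} (h : ∀ i, p i ≤ P i) (y : Gd P) :
    #{z : Gd P | bx p z = bx p y} = 2 ^ ∑ i, p i := by
  rw [show filter _ univ = Fintype.piFinset fun i => univ.filter
    fun z : Fin (2 ^ P i) => z.1 / 2 ^ p i = (y i).1 / 2 ^ p i from by
      ext z; simp [bx, funext_iff], Fintype.card_piFinset, ← prod_pow_eq_pow_sum]
  exact prod_congr rfl fun i _ => card_fib (h i) _

lemma Em_apply (W : ℕ) (s : Fin d → ℕ) (F : (Gd fun _ : Fin d => W) → ℝ) (x : Gd fun _ => W) :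
    (Em W s *ᵥ F) x = (2 ^ ∑ i, (W - s i))⁻¹ *
      ∑ z with bx (fun i => W - s i) z = bx (fun i => W - s i) x, F z := by
  rw [mul_sum, sum_filter]
  refine sum_congr rfl fun z _ => ?_
  simp [Em, tens, ek, prod_ite_zero, bx, funext_iff, prod_pow_eq_pow_sum]

lemma Em_fac (W : ℕ) (s : Fin d → ℕ) (F : (Gd fun _ : Fin d => W) → ℝ) :
    (Em W s *ᵥ F).FactorsThrough (bx fun i => W - s i) := fun x y h => by
  rw [Em_apply, Em_apply, h]

lemma Em_self {W : ℕ} {s : Fin d → ℕ} {F : (Gd fun _ : Fin d => W) → ℝ}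
    (h : F.FactorsThrough (bx fun i => W - s i)) : Em W s *ᵥ F = F := by
  funext x
  rw [Em_apply, sum_congr rfl fun z hz => h (mem_filter.1 hz).2, sum_const,
    card_bx fun i => Nat.sub_le _ _]
  simp

lemma Em_nonneg (W : ℕ) (s : Fin d → ℕ) (x z : Gd fun _ : Fin d => W) : 0 ≤ Em W s x z :=
  show 0 ≤ ∏ i, ek W (W - s i) (x i) (z i) from prod_nonneg fun _ _ => ek_nonneg _ _ _ _

lemma Em_row (W : ℕ) (s : Fin d → ℕ) (x : Gd fun _ : Fin d => W) : ∑ z, Em W s x z = 1 := by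
  simpa [mulVec, dotProduct] using congrFun (Em_self (W := W) (s := s) (F := fun _ => 1)
    fun _ _ _ => rfl) x

lemma Em_comm (W : ℕ) (s : Fin d → ℕ) (x z : Gd fun _ : Fin d => W) : Em W s x z = Em W s z x :=
  congrFun₂ (Em_symm W s) z x

lemma OB_Em {p : ℝ} (hp : 1 ≤ p) (W : ℕ) (s : Fin d → ℕ) : OB p (Em W s) 1 := by
  have h : ∀ x, ∑ z, |Em W s x z| ≤ 1 := fun x => by
    simp only [abs_of_nonneg (Em_nonneg _ _ _ _), Em_row, le_refl]
  simpa using schur hp (Em W s) zero_le_one h fun z => by simpa only [Em_comm W s _ z] using h z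

lemma exists_split {W : ℕ} {u : Fin d → ℕ} (hu : ∀ i, u i ≤ W) :
    ∃ e : Gd u × Gd (fun i => W - u i) ≃ Gd fun _ : Fin d => W,
      (∀ s : Fin d → ℕ, u ≤ s → ∀ c c' y y', bx (fun i => W - s i) (e (c', y')) =
        bx (fun i => W - s i) (e (c, y)) ↔ c' = c ∧ bx (fun i => W - s i) y' =
          bx (fun i => W - s i) y) ∧
      ∀ s : Fin d → ℕ, u ≤ s → ∀ χ c y, pf χ (fun i => W - s i) (e (c, y)) =
        pf χ (fun i => W - s i) y := by
  let e : Gd u × Gd (fun i => W - u i) ≃ Gd fun _ : Fin d => W :=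
    (Equiv.arrowProdEquivProdArrow _ _ _).symm.trans (Equiv.piCongrRight fun i =>
      finProdFinEquiv.trans (finCongr (by rw [← pow_add, Nat.add_sub_cancel' (hu i)])))
  have he : ∀ s : Fin d → ℕ, u ≤ s → ∀ c y i, (e (c, y) i).1 =
      y i + 2 ^ (W - s i) * (2 ^ (W - u i - (W - s i)) * c i) := fun s hs c y i => by
    rw [← mul_assoc, ← pow_add, Nat.add_sub_cancel' (Nat.sub_le_sub_left (hs i) W)]
    rfl
  refine ⟨e, fun s hs c c' y y' => ?_, fun s hs χ c y => prod_congr rfl fun i _ => by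
    rw [he s hs, tl, tl, Nat.add_mul_mod_self_left]⟩
  simp only [funext_iff, bx, he s hs, Nat.add_mul_div_left _ _ (Nat.two_pow_pos _), ← forall_and]
  refine forall_congr' fun i => ⟨fun h => ?_, fun h => by rw [h.1, h.2]⟩
  have h1 : ∀ z : Fin (2 ^ (W - u i)), z.1 / 2 ^ (W - s i) < 2 ^ (W - u i - (W - s i)) := fun z => by
    rw [Nat.div_lt_iff_lt_mul (Nat.two_pow_pos _), ← pow_add,
      Nat.sub_add_cancel (Nat.sub_le_sub_left (hs i) W)]
    exact z.2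
  have h2 := congrArg (· / 2 ^ (W - u i - (W - s i))) h
  simp only [Nat.add_mul_div_left _ _ (Nat.two_pow_pos _), Nat.div_eq_of_lt (h1 _), zero_add] at h2
  exact ⟨Fin.ext h2, by rwa [h2, add_left_inj] at h⟩

lemma fib_split {C Y G Λ Λ' : Type*} [Fintype C] [Fintype Y] [Fintype G] [DecidableEq Λ]
    [DecidableEq Λ'] [DecidableEq C] (e : C × Y ≃ G) {ρ : G → Λ} {ρ' : Y → Λ'}
    (h : ∀ c c' y y', ρ (e (c', y')) = ρ (e (c, y)) ↔ c' = c ∧ ρ' y' = ρ' y) (F : G → ℝ) (c : C)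
    (y : Y) : ∑ z with ρ z = ρ (e (c, y)), F z = ∑ y' with ρ' y' = ρ' y, F (e (c, y')) := by
  rw [sum_filter, sum_filter, ← e.sum_comp, Fintype.sum_prod_type, sum_comm]
  simp only [h, ite_and, sum_ite_eq', mem_univ, if_true]

lemma small_term {L σ : ℝ} (hL : 1 ≤ L) (hσ : 1 ≤ σ) (k j : ℕ) :
    ((L / 2 ^ j) ^ (2 * k + 2) + L / 2 ^ j) / (L ^ (k + 1) / 2 ^ j * σ ^ ((2 * k + 2) * j)) ^ 2 ≤
      2 ^ j * (2 * σ⁻¹ ^ j) := by
  have h1 : (L / 2 ^ j) ^ (2 * k + 2) ≤ L ^ (2 * k + 2) / 2 ^ j := by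
    rw [div_pow]
    exact div_le_div_of_nonneg_left (by positivity) (by positivity)
      (le_self_pow₀ (one_le_pow₀ one_le_two) (by omega))
  have h2 : L / 2 ^ j ≤ L ^ (2 * k + 2) / 2 ^ j :=
    div_le_div_of_nonneg_right (le_self_pow₀ hL (by omega)) (by positivity)
  have h3 : σ ^ j ≤ (σ ^ ((2 * k + 2) * j)) ^ 2 := by
    rw [← pow_mul]; exact pow_le_pow_right₀ hσ (by nlinarith)
  rw [div_le_iff₀ (by positivity), mul_pow]
  calc _ ≤ 2 * (L ^ (2 * k + 2) / 2 ^ j) := by linarith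
    _ = 2 ^ j * (2 * σ⁻¹ ^ j) * ((L ^ (k + 1) / 2 ^ j) ^ 2 * σ ^ j) := by
      rw [inv_pow]; field_simp; ring
    _ ≤ _ := by gcongr

lemma good_term {L σ c : ℝ} (hL : 1 ≤ L) (hσ : 1 ≤ σ) (hc : 0 ≤ c) (k j : ℕ) :
    (L / 2 ^ j)⁻¹ ^ (2 * (k + 1)) * (c * ((L / 2 ^ j) ^ (k + 1) + L / 2 ^ j) +
      L ^ (k + 1) / 2 ^ j * σ ^ ((2 * k + 2) * j)) ≤ (2 * c + 1) * (1 / 2) ^ j *
        (L ^ (-(1 / 2) : ℝ) * (2 * σ) ^ j) ^ ((2 * (k + 1) : ℕ) : ℝ) := by
  have h1 : (L / 2 ^ j) ^ (k + 1) ≤ L ^ (k + 1) / 2 ^ j := by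
    rw [div_pow]
    exact div_le_div_of_nonneg_left (by positivity) (by positivity)
      (le_self_pow₀ (one_le_pow₀ one_le_two) (by omega))
  have h2 : L / 2 ^ j ≤ L ^ (k + 1) / 2 ^ j :=
    div_le_div_of_nonneg_right (le_self_pow₀ hL (by omega)) (by positivity)
  have h3 : L ^ (k + 1) / 2 ^ j ≤ L ^ (k + 1) / 2 ^ j * σ ^ ((2 * k + 2) * j) :=
    le_mul_of_one_le_right (by positivity) (one_le_pow₀ hσ)
  have h4 : (L ^ (-(1 / 2) : ℝ)) ^ 2 = L⁻¹ := by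
    rw [← Real.rpow_two, ← Real.rpow_mul (by positivity), ← Real.rpow_neg_one]; norm_num
  rw [Real.rpow_natCast, mul_pow, pow_mul (L ^ _), h4]
  calc _ ≤ (L / 2 ^ j)⁻¹ ^ (2 * (k + 1)) *
      ((2 * c + 1) * (L ^ (k + 1) / 2 ^ j * σ ^ ((2 * k + 2) * j))) := by
        gcongr; nlinarith [mul_le_mul_of_nonneg_left (add_le_add (h1.trans h3) (h2.trans h3)) hc]
    _ = _ := by
      simp only [inv_div, div_pow, inv_pow, mul_pow, one_pow, ← pow_mul]
      field_simp; ring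

lemma sum_split {W : ℕ} {s : Fin d → ℕ} (h : ∀ i, s i ≤ W) :
    (2 : ℝ) ^ (∑ i, (W - s i)) = 2 ^ (d * W) / 2 ^ ∑ i, s i := by
  rw [eq_div_iff (by positivity), ← pow_add, ← sum_add_distrib]
  simp [Nat.sub_add_cancel (h _)]

/-- the design of one cell -/
theorem cell (d : ℕ) {p α μ : ℝ} (hp : 1 < p) (h1 : α ≤ 1 / 2) (h2 : α ≤ 1 / p)
    (hμ : 2 ^ (1 / p) < μ) {ι : Type} [Fintype ι] {Λ : ℝ} {χ : ι → Fin d → ℝ → ℝ}
    (hχ : ∀ a i, Prof Λ (χ a i)) : ∃ (K : ℕ) (C : ℝ), 0 < C ∧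
    ∀ (W n : ℕ) (u v : Fin d → ℕ) (L : ℝ), u ≤ v → (∀ i, v i ≤ W) →
      K * (∑ i, (v i - u i) + 1) + ∑ i, u i ≤ n → 1 ≤ L → L * 2 ^ n ≤ 2 ^ (d * W) →
      ∃ w : (Gd fun _ : Fin d => W) → ℝ, (∀ z, 0 ≤ w z) ∧ (#{z | w z ≠ 0} : ℝ) ≤ 2 * (L * 2 ^ n) ∧
        (∀ x, (Em W v *ᵥ w) x ≤ 2) ∧ ∀ s : Fin d → ℕ, u ≤ s → (∀ i, s i ≤ W) → n < ∑ i, s i →
          ∀ (a : ι) (γ : (Gd fun _ : Fin d => W) → ℝ), γ.FactorsThrough (bx fun i => W - s i) →
            nm p (Em W v *ᵥ fun z => (w z - 1) * (γ z * pf (χ a) (fun i => W - s i) z)) ≤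
              C * (L ^ (-α) * μ ^ (∑ i, s i - n)) * nm p γ := by
  classical
  obtain ⟨σ, hσ1, hσ2, hσ3⟩ : ∃ σ : ℝ, 1 < σ ∧ σ ≤ 4 / 3 ∧ 2 ^ (1 / p) * σ ≤ μ :=
    ⟨min (4 / 3) (μ / 2 ^ (1 / p)), lt_min (by norm_num) ((one_lt_div (by positivity)).2 hμ),
      min_le_left _ _, by rw [← le_div_iff₀' (by positivity)]; exact min_le_right _ _⟩
  obtain ⟨k₀, hk₀⟩ := exists_nat_ge (Real.conjExponent p)
  have hc1 := cR_pos 1
  have hc2 := cR_pos (k₀ + 1)
  obtain ⟨C, hC, H⟩ := interp (c := 2 * (cR 1 + cR (k₀ + 1)) + 1) (Q := (2 * (k₀ + 1) : ℕ)) hp h1 h2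
    (by positivity) (by push_cast; linarith [Nat.cast_nonneg (α := ℝ) k₀])
  set c := ∑ k ∈ ({0, k₀} : Finset ℕ), (2 * k + 2) * cR (2 * k + 2) with hc
  have hc0 : 0 ≤ c := sum_nonneg fun k _ => by have := cR_pos (2 * k + 2); positivity
  have hσi : σ⁻¹ < 1 := inv_lt_one_of_one_lt₀ hσ1
  set C₀ := 24 + Fintype.card ι * c * 2 * ((1 - σ⁻¹)⁻¹) ^ d with hC₀
  have hC₀0 : 0 < C₀ := by have := sub_pos.2 hσi; positivity
  obtain ⟨K, hK⟩ := exists_pow_lt_of_lt_one (x := min C₀⁻¹ (2 ^ (4 * k₀ + 6))⁻¹) (y := 2 / 3)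
    (by positivity) (by norm_num)
  refine ⟨K, C, hC, fun W n u v L huv hv hn hL hLn => ?_⟩
  have hu : ∀ i, u i ≤ W := fun i => (huv i).trans (hv i)
  set m := ∑ i, (v i - u i) with hm
  obtain ⟨D, hD⟩ : ∃ D, n = ∑ i, u i + D := ⟨n - ∑ i, u i, by omega⟩
  have hvm : ∑ i, v i = ∑ i, u i + m := by
    rw [hm, ← sum_add_distrib]
    exact sum_congr rfl fun i _ => (Nat.add_sub_cancel' (huv i)).symm
  obtain ⟨e, he1, he2⟩ := exists_split hu
  set a : ℝ := L * 2 ^ n / 2 ^ (d * W) with ha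
  have ha0 : 0 < a := by positivity
  let S := (Fintype.piFinset fun _ : Fin d => range (W + 1)).filter fun s => u ≤ s ∧ n < ∑ i, s i
  have hS : ∀ s ∈ S, (∀ i, s i ≤ W) ∧ u ≤ s ∧ n < ∑ i, s i := fun s hs => by
    simpa [S, Nat.lt_succ_iff] using hs
  have hY : (Fintype.card (Gd fun i => W - u i) : ℝ) = 2 ^ (d * W) / 2 ^ ∑ i, u i := by
    simp [← sum_split hu, prod_pow_eq_pow_sum]
  have hl : ∀ s : Fin d → ℕ, (∀ i, s i ≤ W) → n < ∑ i, s i →
      a * 2 ^ (∑ i, (W - s i)) = L / 2 ^ (∑ i, s i - n) := fun s hs h => by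
    rw [sum_split hs, pow_sub₀ _ two_ne_zero h.le, ha]; field_simp
  obtain ⟨b, hb1, hb2⟩ := design (Y := Gd fun i => W - u i) (S ×ˢ (univ : Finset ι) ×ˢ {0, k₀}) ha0
    ((div_le_one (by positivity)).2 hLn) (β := bx fun i => W - v i)
    (ρ := fun t => bx fun i => W - t.1 i) (nv := 2 ^ ∑ i, (W - v i))
    (n := fun t => 2 ^ ∑ i, (W - t.1 i)) (k := fun t => t.2.2) (by positivity)
    (card_bx fun i => Nat.sub_le_sub_left (huv i) W)
    (fun t ht => card_bx fun i => Nat.sub_le_sub_left ((hS _ (mem_product.1 ht).1).2.1 i) W)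
    (M := 2 ^ m)
    (by push_cast; rw [hY, sum_split hv, hvm, pow_add]; field_simp) (by positivity)
    (φ := fun t => pf (χ t.2.1) fun i => W - t.1 i) (fun t => abs_pf_le (hχ _) _)
    (τ := fun t => L ^ (t.2.2 + 1) / 2 ^ (∑ i, t.1 i - n) * σ ^ ((2 * t.2.2 + 2) * (∑ i, t.1 i - n)))
    (fun t => by positivity) (by
      have h3 : ∑ s ∈ S, σ⁻¹ ^ (∑ i, s i - n) ≤ σ ^ D * ((1 - σ⁻¹)⁻¹) ^ d := by
        refine le_trans (le_of_eq ?_) (mul_le_mul_of_nonneg_left (Up.sum_geom_pi (by positivity) hσi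
          (S.image fun s => s - u)) (by positivity))
        rw [sum_image fun s hs t ht h => funext fun i => by
          have := congrFun h i
          have := (hS s hs).2.1 i
          have := (hS t ht).2.1 i
          simp only [Pi.sub_apply] at *; omega, mul_sum]
        refine sum_congr rfl fun s hs => ?_
        have h4 : ∑ i, s i = ∑ i, u i + ∑ i, (s - u) i := by
          rw [← sum_add_distrib]
          exact sum_congr rfl fun i _ => (Nat.add_sub_cancel' ((hS s hs).2.1 i)).symm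
        have := (hS s hs).2.2
        rw [show ∑ i, (s - u) i = D + (∑ i, s i - n) by omega, pow_add, ← mul_assoc, ← mul_pow,
          mul_inv_cancel₀ (by positivity), one_pow, one_mul]
      have h5 : C₀ * ((2 ^ m) ^ (4 * k₀ + 6) * (2 / 3) ^ D) < 1 := by
        have h6 : (2 / 3 : ℝ) ^ D ≤ (2 / 3) ^ K * ((2 / 3) ^ K) ^ m := by
          rw [← pow_succ', ← pow_mul]
          exact pow_le_pow_of_le_one (by norm_num) (by norm_num) (by omega)
        have h7 : (2 ^ (4 * k₀ + 6) * (2 / 3 : ℝ) ^ K) ^ m ≤ 1 := pow_le_one₀ (by positivity)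
          (by rw [← le_inv_mul_iff₀ (by positivity), mul_one]; exact (lt_min_iff.1 hK).2.le)
        have h8 : C₀ * (2 / 3 : ℝ) ^ K < 1 := by
          rw [← lt_inv_mul_iff₀ hC₀0, mul_one]; exact (lt_min_iff.1 hK).1
        calc _ ≤ C₀ * ((2 ^ m) ^ (4 * k₀ + 6) * ((2 / 3) ^ K * ((2 / 3) ^ K) ^ m)) := by gcongr
          _ = C₀ * (2 / 3) ^ K * (2 ^ (4 * k₀ + 6) * (2 / 3 : ℝ) ^ K) ^ m := by
            rw [mul_pow, pow_right_comm]; ac_rfl
          _ < 1 := mul_lt_one_of_nonneg_of_lt_one_left (by positivity) h8 h7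
      refine lt_of_le_of_lt ?_ h5
      have hM : (1 : ℝ) ≤ 2 ^ m := one_le_pow₀ one_le_two
      rw [hC₀, add_mul]
      refine add_le_add ?_ (le_trans (sum_le_sum (g := fun t => (2 ^ m) ^ (4 * k₀ + 6) *
        (1 / 2) ^ D * (2 * σ⁻¹ ^ (∑ i, t.1 i - n) * ((2 * t.2.2 + 2) * cR (2 * t.2.2 + 2))))
        fun t ht => ?_) ?_)
      · push_cast
        rw [sum_split hv, ha, hvm, hD, div_le_iff₀ (by positivity)]
        calc (24 : ℝ) * 2 ^ m = 24 * ((2 ^ m) ^ 2 * (1 / 2) ^ D) * (1 * 2 ^ D / 2 ^ m) := by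
              rw [one_div, inv_pow]; field_simp
          _ ≤ 24 * ((2 ^ m) ^ (4 * k₀ + 6) * (2 / 3) ^ D) * (L * 2 ^ D / 2 ^ m) := by
              have : (1 / 2 : ℝ) ≤ 2 / 3 := by norm_num
              gcongr
              omega
          _ = _ := by simp only [pow_add]; field_simp
      · obtain ⟨hs1, hs2, hs3⟩ := hS _ (mem_product.1 ht).1
        have h6 : t.2.2 ≤ k₀ := by
          have := (mem_product.1 (mem_product.1 ht).2).2
          simp only [mem_insert, mem_singleton] at this; omega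
        have h7 := small_term hL hσ1.le t.2.2 (∑ i, t.1 i - n)
        have := cR_pos (2 * t.2.2 + 2)
        push_cast
        rw [hl _ hs1 hs3, hY, sum_split hs1]
        rw [← inv_mul_le_iff₀ (by positivity)] at h7
        generalize (L / 2 ^ (∑ i, t.1 i - n)) ^ (2 * t.2.2 + 2) + L / 2 ^ (∑ i, t.1 i - n) = X at *
        generalize (L ^ (t.2.2 + 1) / 2 ^ (∑ i, t.1 i - n) * σ ^ (_ * _)) ^ 2 = Y at *
        calc _ = (2 ^ m) ^ (4 * t.2.2 + 6) * (1 / 2) ^ D * ((2 ^ (∑ i, t.1 i - n))⁻¹ * (X / Y) *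
              ((2 * t.2.2 + 2) * cR (2 * t.2.2 + 2))) := by
              rw [show (2 : ℝ) ^ ∑ i, t.1 i = 2 ^ (∑ i, u i) * 2 ^ D * 2 ^ (∑ i, t.1 i - n) by
                rw [← pow_add, ← pow_add]; congr 1; omega, one_div, inv_pow]
              field_simp
          _ ≤ _ := (mul_le_mul_of_nonneg_left (mul_le_mul_of_nonneg_right h7 (by positivity))
              (by positivity)).trans (by gcongr)
      · simp only [sum_product, ← mul_sum, sum_const, ← sum_mul, ← hc, card_univ, nsmul_eq_mul]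
        calc _ = Fintype.card ι * c * 2 * ((2 ^ m) ^ (4 * k₀ + 6) * (1 / 2) ^ D *
              ∑ s ∈ S, σ⁻¹ ^ (∑ i, s i - n)) := by ring
          _ ≤ Fintype.card ι * c * 2 * ((2 ^ m) ^ (4 * k₀ + 6) * (1 / 2) ^ D *
              ((4 / 3) ^ D * ((1 - σ⁻¹)⁻¹) ^ d)) := by
              have := sub_pos.2 hσi
              gcongr
              exact h3.trans (by gcongr)
          _ = _ := by
              rw [show (2 / 3 : ℝ) = 1 / 2 * (4 / 3) by norm_num, mul_pow]; ring)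
  let w : (Gd fun _ : Fin d => W) → ℝ := fun z => if b (e.symm z).2 then a⁻¹ else 0
  have hw0 : ∀ z, 0 ≤ w z := fun z => by simp only [w]; split_ifs <;> positivity
  have hw : ∀ x, (Em W v *ᵥ w) x ≤ 2 := fun x => by
    obtain ⟨⟨c, y⟩, rfl⟩ := e.surjective x
    have h3 := hb1 y
    rw [Em_apply, fib_split e (he1 v huv), inv_mul_le_iff₀ (by positivity)]
    simp only [w, Equiv.symm_apply_apply, ← sum_filter, filter_filter, sum_const, nsmul_eq_mul]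
    rw [mul_inv_le_iff₀ ha0]
    push_cast at h3
    linarith
  refine ⟨w, hw0, ?_, hw, fun s hs1 hs2 hs3 a₀ γ hγ => ?_⟩
  · have h3 : ∑ x, (Em W v *ᵥ w) x = #{z | w z ≠ 0} * a⁻¹ := by
      simp only [mulVec, dotProduct]
      rw [sum_comm]
      simp only [← sum_mul, Em_comm W v _ _, Em_row, one_mul]
      rw [← nsmul_eq_mul, ← sum_const, sum_filter]
      refine sum_congr rfl fun z _ => ?_
      simp only [w]; split_ifs <;> simp_all
    have h4 := sum_le_card_nsmul univ _ 2 fun x _ => hw x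
    rw [h3, mul_inv_le_iff₀ ha0] at h4
    refine h4.trans (le_of_eq ?_)
    simp only [ha, card_univ, Fintype.card_pi, Fintype.card_fin, prod_const, nsmul_eq_mul, ← pow_mul]
    push_cast
    rw [mul_comm W]; field_simp
  set φ : (Gd fun _ : Fin d => W) → ℝ := pf (χ a₀) fun i => W - s i with hφ
  let T := Em W s * diagonal (fun z => (w z - 1) * φ z) * Em W v
  have h3 : ∀ k ∈ ({0, k₀} : Finset ℕ), OB (2 * (k + 1) : ℕ) T ((2 * (cR 1 + cR (k₀ + 1)) + 1) *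
      (1 / 2) ^ (∑ i, s i - n) * (L ^ (-(1 / 2) : ℝ) * (2 * σ) ^ (∑ i, s i - n)) ^
        ((2 * (k + 1) : ℕ) : ℝ)) := by
    intro k hk g
    have h4 : (1 : ℝ) ≤ (2 * (k + 1) : ℕ) := by exact_mod_cast (by omega : 1 ≤ 2 * (k + 1))
    have h5 := OB_Em h4 W v g
    rw [one_mul] at h5
    have hck : cR (k + 1) ≤ cR 1 + cR (k₀ + 1) := by
      simp only [mem_insert, mem_singleton] at hk
      rcases hk with rfl | rfl <;> linarith
    refine le_trans ?_ (mul_le_mul (((good_term hL hσ1.le (cR_pos (k + 1)).le k _).trans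
      (by gcongr))) h5 (sp_nonneg _ _) (by positivity))
    rw [← mulVec_mulVec, ← mulVec_mulVec, sp_even, sp_even, ← e.sum_comp, ← e.sum_comp,
      Fintype.sum_prod_type, Fintype.sum_prod_type, mul_sum]
    refine sum_le_sum fun c _ => ?_
    have h6 := hb2 (s, a₀, k) (mem_product.2 ⟨by simp [S, hs1, hs2, hs3],
      mem_product.2 ⟨mem_univ _, hk⟩⟩) (fun y => (Em W v *ᵥ g) (e (c, y)))
      fun y y' h => Em_fac W v g ((he1 v huv _ _ _ _).2 ⟨rfl, h⟩)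
    push_cast at h6
    rw [hl s hs2 hs3] at h6
    rw [mul_assoc]
    refine le_trans (le_of_eq ?_) (mul_le_mul_of_nonneg_left h6 (by positivity))
    rw [mul_sum]
    refine sum_congr rfl fun y _ => ?_
    rw [← mul_pow, Em_apply, fib_split e (he1 s hs1), ← hl s hs2 hs3, mul_sum, mul_sum]
    refine congrArg (· ^ _) (sum_congr rfl fun z _ => ?_)
    simp only [mulVec_diagonal, w, Equiv.symm_apply_apply, hφ, he2 s hs1, ζ]
    split_ifs <;> field_simp <;> ring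
  have h4 : OB 1 T 3 := by
    simp only [T, Matrix.mul_assoc]
    refine ((OB_Em le_rfl W s).mul zero_le_one (OB_one (B := 3) fun z => ?_)).mono (by simp)
    have h5 : ∀ x, |(diagonal (fun z => (w z - 1) * φ z) * Em W v) x z| ≤
        Em W v z x * w x + Em W v z x := fun x => by
      rw [diagonal_mul, abs_mul, abs_of_nonneg (Em_nonneg _ _ _ _), Em_comm, mul_comm, ← mul_add_one,
        abs_mul]
      refine mul_le_mul_of_nonneg_left ((mul_le_of_le_one_right (abs_nonneg _)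
        (abs_pf_le (hχ _) _ _)).trans ?_) (Em_nonneg _ _ _ _)
      rw [abs_le]; constructor <;> linarith [hw0 x]
    refine (sum_le_sum fun x _ => h5 x).trans ?_
    rw [sum_add_distrib, Em_row]
    linarith [show ∑ x, Em W v z x * w x ≤ 2 from hw z]
  have h5 := H T L σ _ hL hσ1.le h4 (by simpa using h3 0 (by simp)) (h3 k₀ (by simp)) γ
  simp only [T, transpose_mul, Em_symm, diagonal_transpose, ← mulVec_mulVec, Em_self hγ] at h5
  refine le_trans (le_of_eq ?_) (h5.trans ?_)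
  · congr 2; funext z; rw [mulVec_diagonal]; ring
  · have := nm_nonneg p γ
    gcongr

end Pool.Agent.Lib.MP_919f0c_an.Lp
end

-- part Pool.Agent.Lib.MP_919f0c_an.LpCells
section

/-! Whitney cells of shapes and the discrete recovery theorem. -/

set_option autoImplicit false

open Finset Matrix

namespace Pool.Agent.Lib.MP_919f0c_an.Lp

lemma geo_inj {α : Type*} {q : ℝ} (h0 : 0 ≤ q) (h1 : q < 1) (J : Finset α) (e : α → ℕ)
    (he : Set.InjOn e J) : ∑ m ∈ J, q ^ e m ≤ (1 - q)⁻¹ := by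
  rw [← sum_image (f := fun m : ℕ => q ^ m) he, ← tsum_geometric_of_lt_one h0 h1]
  exact (summable_geometric_of_lt_one h0 h1).sum_le_tsum _ fun _ _ => by positivity

lemma sum_dist {d : ℕ} {q : ℝ} (h0 : 0 ≤ q) (h1 : q < 1) (J : Finset (Fin d → ℕ)) (β : Fin d → ℕ) :
    ∑ s ∈ J, q ^ ∑ i, (s i - β i + (β i - s i)) ≤ (2 * (1 - q)⁻¹) ^ d := by
  refine (sum_le_sum_of_subset_of_nonneg (t := Fintype.piFinset fun i => J.image (· i))
    (fun s hs => Fintype.mem_piFinset.2 fun i => mem_image_of_mem _ hs)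
    fun _ _ _ => by positivity).trans ?_
  simp only [← prod_pow_eq_pow_sum]
  rw [← prod_univ_sum _ fun i m => q ^ (m - β i + (β i - m))]
  refine (prod_le_prod (fun _ _ => by positivity) fun i _ => ?_).trans
    (le_of_eq (by rw [prod_const, card_univ, Fintype.card_fin]))
  rw [← sum_filter_add_sum_filter_not _ fun m => m ≤ β i, two_mul]
  refine add_le_add (geo_inj h0 h1 _ _ fun a ha b hb h => ?_) (geo_inj h0 h1 _ _ fun a ha b hb h => ?_)
  all_goals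
    have := (mem_filter.1 ha).2
    have := (mem_filter.1 hb).2
    beta_reduce at h
    omega

lemma sum_scale {α : Type*} (𝒞 : Finset (ℕ × α)) (F : ℕ × α → ℝ) {B q : ℝ} (hB : 0 ≤ B)
    (h0 : 0 ≤ q) (h1 : q < 1) (h : ∀ κ, ∑ c ∈ 𝒞 with c.1 = κ, F c ≤ B * q ^ κ) :
    ∑ c ∈ 𝒞, F c ≤ B * (1 - q)⁻¹ := by
  rw [← sum_fiberwise_of_maps_to (g := Prod.fst) fun c hc => mem_image_of_mem _ hc]
  refine (sum_le_sum fun κ _ => h κ).trans ?_
  rw [← mul_sum]
  exact mul_le_mul_of_nonneg_left (geo_inj h0 h1 _ id (Set.injOn_id _)) hB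

lemma schur_w {α β : Type*} (𝒯 : Finset α) (S : Finset β) {τ A B : ℝ} (hτ : 1 ≤ τ) (hA : 0 ≤ A)
    (hB : 0 ≤ B) {w : α → β → ℝ} {R x : α → ℝ} {y : β → ℝ} (hw : ∀ c s, 0 ≤ w c s)
    (hy : ∀ s, 0 ≤ y s) (hx0 : ∀ c, 0 ≤ x c) (hx : ∀ c ∈ 𝒯, x c ≤ A * ∑ s ∈ S, w c s * y s)
    (hR : ∀ c ∈ 𝒯, ∑ s ∈ S, w c s ≤ R c) (hc : ∀ s ∈ S, ∑ c ∈ 𝒯, R c ^ (τ - 1) * w c s ≤ B) :
    (∑ c ∈ 𝒯, x c ^ τ) ^ (1 / τ) ≤ A * B ^ (1 / τ) * (∑ s ∈ S, y s ^ τ) ^ (1 / τ) := by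
  have h0 : 0 < τ := by linarith
  have h1 : ∑ c ∈ 𝒯, x c ^ τ ≤ A ^ τ * (B * ∑ s ∈ S, y s ^ τ) := by
    refine (sum_le_sum (g := fun c => A ^ τ * ∑ s ∈ S, R c ^ (τ - 1) * w c s * y s ^ τ)
      fun c h => (Real.rpow_le_rpow (hx0 c) (hx c h) h0.le).trans ?_).trans ?_
    · rw [Real.mul_rpow hA (sum_nonneg fun s _ => mul_nonneg (hw c s) (hy s))]
      simp only [mul_assoc, ← mul_sum]
      exact mul_le_mul_of_nonneg_left (wpow S hτ (hw c) hy (hR c h)) (by positivity)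
    · rw [← mul_sum, sum_comm, mul_sum _ _ B]
      refine mul_le_mul_of_nonneg_left (sum_le_sum fun s hs => ?_) (by positivity)
      rw [← sum_mul]
      exact mul_le_mul_of_nonneg_right (hc s hs) (Real.rpow_nonneg (hy s) _)
  have h2 : 0 ≤ ∑ s ∈ S, y s ^ τ := sum_nonneg fun s _ => Real.rpow_nonneg (hy s) _
  refine (Real.rpow_le_rpow (sum_nonneg fun c _ => Real.rpow_nonneg (hx0 c) _) h1
    (by positivity)).trans (le_of_eq ?_)
  rw [Real.mul_rpow (by positivity) (by positivity), Real.mul_rpow hB h2, one_div,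
    Real.rpow_rpow_inv hA h0.ne', mul_assoc]

variable {d : ℕ}

instance (u s : Fin d → ℕ) : Decidable (u ≤ s) := inferInstanceAs (Decidable (∀ i, u i ≤ s i))

/-- cells far from the level `n` -/
def cnd (K n : ℕ) (c : ℕ × (Fin d → ℕ)) : Prop := 2 ^ c.1 * (∑ i, c.2 i + K) ≤ n

instance (K n : ℕ) : DecidablePred (cnd (d := d) K n) := fun _ => Nat.decLe _ _

/-- dyadic cube of scale `κ` containing a shape -/
def cub (s : Fin d → ℕ) (κ : ℕ) : ℕ × (Fin d → ℕ) := (κ, fun i => s i / 2 ^ κ)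

/-- the cell containing a shape -/
def lab (K n : ℕ) (s : Fin d → ℕ) : ℕ × (Fin d → ℕ) :=
  cub s (Nat.findGreatest (fun κ => cnd K n (cub s κ)) n)

/-- lower corner -/
def lo (c : ℕ × (Fin d → ℕ)) (i : Fin d) : ℕ := c.2 i * 2 ^ c.1

/-- last shape -/
def vv (c : ℕ × (Fin d → ℕ)) (i : Fin d) : ℕ := (c.2 i + 1) * 2 ^ c.1 - 1

/-- filter level -/
def uu (c : ℕ × (Fin d → ℕ)) (i : Fin d) : ℕ := (c.2 i - 1) * 2 ^ c.1

lemma vv_add (c : ℕ × (Fin d → ℕ)) (i : Fin d) : vv c i + 1 = lo c i + 2 ^ c.1 := by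
  have := Nat.two_pow_pos c.1
  rw [vv, lo, add_one_mul]; omega

lemma lo_le_uu (c : ℕ × (Fin d → ℕ)) (i : Fin d) : uu c i ≤ lo c i ∧ lo c i ≤ uu c i + 2 ^ c.1 ∧
    (uu c i ≠ 0 → lo c i = uu c i + 2 ^ c.1) := by
  unfold uu lo
  rcases c.2 i with _ | m <;> simp [add_one_mul]

lemma lo_le (c : ℕ × (Fin d → ℕ)) : lo c ≤ vv c + 1 := fun i => by
  rw [Pi.add_apply, Pi.one_apply, vv_add]; exact Nat.le_add_right _ _

lemma mem_box {c : ℕ × (Fin d → ℕ)} {s : Fin d → ℕ} :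
    (∀ i, lo c i ≤ s i ∧ s i < vv c i + 1) ↔ cub s c.1 = c := by
  simp only [vv_add, cub, Prod.ext_iff, true_and, funext_iff, lo]
  refine forall_congr' fun i => ?_
  have := Nat.two_pow_pos c.1
  rw [Nat.div_eq_iff this]; omega

lemma lab_box {K n : ℕ} {s t : Fin d → ℕ} (h : cub t (lab K n s).1 = lab K n s) :
    lab K n t = lab K n s := by
  obtain ⟨h1, h2, h3⟩ := (Nat.findGreatest_eq_iff (P := fun κ => cnd K n (cub s κ)) (k := n)).1 rfl
  have h4 : ∀ κ, (lab K n s).1 ≤ κ → cub t κ = cub s κ := fun κ hκ =>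
    Prod.ext rfl (funext fun i => div_eq_of_le hκ (congrFun (congrArg Prod.snd h) i))
  rw [← h, lab]
  congr 1
  exact Nat.findGreatest_eq_iff.2 ⟨h1, fun h5 => by rw [h]; exact h2 h5,
    fun κ h5 h6 => by rw [h4 κ h5.le]; exact h3 h5 h6⟩

lemma sum_lo (c : ℕ × (Fin d → ℕ)) : ∑ i, lo c i = 2 ^ c.1 * ∑ i, c.2 i := by
  rw [mul_comm, sum_mul]; rfl

lemma lab_spec {K : ℕ} (hK : 0 < K) (n : ℕ) (s : Fin d → ℕ) :
    n < 2 ^ (lab K n s).1 * (∑ i, (lab K n s).2 i + 2 * K) ∧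
      (cnd K n (lab K n s) ∨ lab K n s = (0, s)) := by
  obtain ⟨-, h2, h3⟩ := (Nat.findGreatest_eq_iff (P := fun κ => cnd K n (cub s κ)) (k := n)).1 rfl
  unfold lab
  generalize Nat.findGreatest (fun κ => cnd K n (cub s κ)) n = κ at *
  refine ⟨?_, ?_⟩
  · have h4 : ¬ cnd K n (cub s (κ + 1)) := fun h => h3 κ.lt_succ_self
      ((Nat.lt_two_pow_self.le.trans (Nat.le_mul_of_pos_right _ (by omega))).trans h) h
    refine (not_le.1 h4).trans_le ?_
    have h5 : 2 * ∑ i, s i / 2 ^ (κ + 1) ≤ ∑ i, s i / 2 ^ κ := by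
      rw [mul_sum]
      exact sum_le_sum fun i _ => by rw [pow_succ, ← Nat.div_div_eq_div_mul]; omega
    simp only [cub]
    generalize ∑ i, s i / 2 ^ (κ + 1) = x at *
    rw [pow_succ, mul_assoc]
    exact Nat.mul_le_mul_left _ (by omega)
  · rcases eq_or_ne κ 0 with rfl | h
    · exact Or.inr (by simp [cub])
    · exact Or.inl (h2 h)

lemma cnd.vv_lt {K n : ℕ} (hK : 0 < K) {c : ℕ × (Fin d → ℕ)} (h : cnd K n c) (i : Fin d) :
    vv c i + 1 ≤ n := by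
  refine le_trans ?_ h
  rw [vv_add, lo, mul_comm, ← mul_add_one]
  exact Nat.mul_le_mul_left _ (add_le_add (single_le_sum (f := c.2) (fun _ _ => Nat.zero_le _)
    (mem_univ i)) hK)

/-- all cells -/
def Tc (d W K n : ℕ) : Finset (ℕ × (Fin d → ℕ)) :=
  (Fintype.piFinset fun _ => range (W + 1)).image (lab K n)

lemma Tc_spec {W K n : ℕ} (hK : 0 < K) (hn : n ≤ W) {c : ℕ × (Fin d → ℕ)} (hc : c ∈ Tc d W K n) :
    n < 2 ^ c.1 * (∑ i, c.2 i + 2 * K) ∧ (cnd K n c ∨ c.1 = 0) ∧ (∀ i, vv c i ≤ W) ∧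
      ∀ s, (∀ i, lo c i ≤ s i ∧ s i < vv c i + 1) → lab K n s = c := by
  obtain ⟨t, ht, rfl⟩ := mem_image.1 hc
  obtain ⟨h1, h2⟩ := lab_spec hK n t
  refine ⟨h1, h2.imp id fun h => by rw [h], fun i => ?_, fun s hs => lab_box (mem_box.1 hs)⟩
  rcases h2 with h | h
  · have := h.vv_lt hK i; omega
  · have := mem_range.1 (Fintype.mem_piFinset.1 ht i)
    rw [h]; simp only [vv]; omega

lemma Tc_fam {W K n : ℕ} (hK : 0 < K) (hn : n ≤ W) {𝒰 : Finset (ℕ × (Fin d → ℕ))}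
    (h : 𝒰 ⊆ Tc d W K n) : Fam 𝒰 (fun c => Dm W (lo c) (vv c + 1)) (2 ^ d) := by
  refine ⟨fun c _ => Dm_symm _ _ _, fun c hc c' hc' => ?_, fun c _ => Dm_row _ _ _⟩
  split_ifs with h1
  · rw [← h1, Dm_idem _ (lo_le c)]
  by_contra h2
  have h3 : ∀ i, lo c' i < vv c i + 1 ∧ lo c i < vv c' i + 1 := fun i => by
    by_contra h3
    exact h2 (Dm_orth W (lo_le c) (lo_le c') (i := i) (by simp only [Pi.add_apply, Pi.one_apply]; omega))
  refine h1 (((Tc_spec hK hn (h hc)).2.2.2 (fun i => max (lo c i) (lo c' i)) fun i => ?_).symm.trans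
    ((Tc_spec hK hn (h hc')).2.2.2 _ fun i => ?_))
  all_goals
    have := h3 i
    have := vv_add c i
    have := vv_add c' i
    have := Nat.two_pow_pos c.1
    have := Nat.two_pow_pos c'.1
    omega

lemma Tc_sum {W K n : ℕ} (hK : 0 < K) (hn : n ≤ W) :
    ∑ c ∈ Tc d W K n, Dm W (lo c) (vv c + 1) = 1 := by
  rw [← Dm_top, ← sum_Dm W (α := 0) (fun _ => Nat.zero_le _), ← sum_fiberwise_of_maps_to (g := lab K n)
    (t := Tc d W K n) fun s hs => mem_image_of_mem _ (by simpa using hs)]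
  refine sum_congr rfl fun c hc => ?_
  obtain ⟨-, -, h3, h4⟩ := Tc_spec hK hn hc
  rw [← sum_Dm W (lo_le c)]
  refine sum_congr ?_ fun _ _ => rfl
  ext s
  simp only [Fintype.mem_piFinset, mem_Ico, mem_filter, Pi.add_apply, Pi.one_apply, Pi.zero_apply,
    zero_le, true_and]
  exact ⟨fun h => ⟨fun i => by have := h i; have := h3 i; omega, h4 s h⟩,
    fun h => mem_box.2 (by rw [← h.2]; rfl)⟩

lemma Tc_inj {W K n : ℕ} (hK : 0 < K) (hn : n ≤ W) : Set.InjOn lo (Tc d W K n : Set (ℕ × (Fin d → ℕ))) := by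
  have h : ∀ c ∈ Tc d W K n, lab K n (lo c) = c := fun c hc => (Tc_spec hK hn hc).2.2.2 _ fun i => by
    have := vv_add c i
    have := Nat.two_pow_pos c.1
    omega
  intro c hc c' hc' h1
  rw [← h c hc, h1, h c' hc']

lemma dist_le {W K n : ℕ} (hK : 0 < K) (hn : n ≤ W) {c : ℕ × (Fin d → ℕ)} (hc : c ∈ Tc d W K n)
    {s : Fin d → ℕ} (hs : n < ∑ i, s i) (h : ¬ (cnd K n c ∧ uu c ≤ s)) :
    ∑ i, (s i - lo c i + (lo c i - s i)) ≤
      ∑ i, s i - n + (2 * K + 2) * (∑ i, (lo c i - s i) + 1) := by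
  obtain ⟨h1, h2, -⟩ := Tc_spec hK hn hc
  have h3 : 2 ^ c.1 ≤ ∑ i, (lo c i - s i) + 1 := by
    rcases h2 with h2 | h2
    · obtain ⟨i, hi⟩ : ∃ i, s i < uu c i := by simpa [h2, Pi.le_def] using h
      have := single_le_sum (f := fun i => lo c i - s i) (fun _ _ => Nat.zero_le _) (mem_univ i)
      have := (lo_le_uu c i).2.2
      omega
    · rw [h2]; omega
  have h4 : ∑ i, (s i - lo c i) + ∑ i, lo c i = ∑ i, s i + ∑ i, (lo c i - s i) := by
    rw [← sum_add_distrib, ← sum_add_distrib]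
    exact sum_congr rfl fun i _ => by omega
  have h5 := Nat.mul_le_mul_left (2 * K) h3
  rw [mul_add, ← sum_lo, mul_comm (2 ^ _)] at h1
  rw [sum_add_distrib, add_mul]
  omega

lemma card_scale {W K n : ℕ} (hK : 0 < K) (hn : n ≤ W) (κ : ℕ) :
    #{c ∈ (Tc (d + 1) W K n).filter (cnd K n) | c.1 = κ} ≤ (n / 2 ^ κ) ^ d * (2 * K) := by
  have h : ∀ c ∈ ((Tc (d + 1) W K n).filter (cnd K n)).filter fun c => c.1 = κ,
      c.1 = κ ∧ ∑ i, c.2 i + K ≤ n / 2 ^ κ ∧ n / 2 ^ κ < ∑ i, c.2 i + 2 * K := fun c hc => by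
    obtain ⟨h1, rfl⟩ := mem_filter.1 hc
    rw [Nat.le_div_iff_mul_le (Nat.two_pow_pos _), Nat.div_lt_iff_lt_mul (Nat.two_pow_pos _)]
    exact ⟨rfl, by rw [mul_comm]; exact (mem_filter.1 h1).2,
      by rw [mul_comm]; exact (Tc_spec hK hn (mem_filter.1 h1).1).1⟩
  refine (card_le_mul_card_image_of_maps_to (f := fun c => n / 2 ^ κ - ∑ i, c.2 i)
    (t := range (2 * K)) (fun c hc => mem_range.2 (by have := h c hc; omega)) _
    fun b _ => ?_).trans_eq (by rw [card_range])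
  rcases eq_empty_or_nonempty (filter (fun c : ℕ × (Fin (d + 1) → ℕ) => n / 2 ^ κ - ∑ i, c.2 i = b)
    _) with h1 | ⟨c, hc⟩
  · rw [h1]; exact Nat.zero_le _
  rw [← card_image_of_injOn (f := Prod.snd) fun c hc c' hc' h1 => Prod.ext
    ((h c (mem_filter.1 hc).1).1.trans (h c' (mem_filter.1 hc').1).1.symm) h1]
  have h2 := h c (mem_filter.1 hc).1
  have h3 := (mem_filter.1 hc).2
  refine (Up.card_level (s := ∑ i, c.2 i) _ fun a ha => ?_).trans (Nat.pow_le_pow_left (by omega) _)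
  obtain ⟨c', hc', rfl⟩ := mem_image.1 ha
  have := h c' (mem_filter.1 hc').1
  have := (mem_filter.1 hc').2
  omega

lemma col_scale {W K n : ℕ} (hK : 0 < K) (hn : n ≤ W) {q : ℝ} (h0 : 0 < q) (h1 : q < 1)
    {𝒰 : Finset (ℕ × (Fin d → ℕ))} (h𝒰 : 𝒰 ⊆ Tc d W K n) (κ : ℕ) (s : Fin d → ℕ) :
    ∑ c ∈ 𝒰 with c.1 = κ, (if uu c ≤ s then q ^ (∑ i, s i - n) else 0) ≤
      (q ^ (2 * K + d))⁻¹ * ((1 - q)⁻¹) ^ d := by
  have h : ∀ c ∈ (𝒰.filter fun c => c.1 = κ).filter fun c => uu c ≤ s,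
      c.1 = κ ∧ ∀ i, c.2 i ≤ s i / 2 ^ κ + 1 := fun c hc => by
    obtain ⟨h2, h3⟩ := mem_filter.1 hc
    obtain ⟨-, rfl⟩ := mem_filter.1 h2
    exact ⟨rfl, fun i => by
      have := (Nat.le_div_iff_mul_le (Nat.two_pow_pos _)).2 (h3 i); omega⟩
  rw [← sum_filter, le_inv_mul_iff₀ (by positivity), mul_sum]
  refine le_trans ?_ (Up.sum_geom_pi h0.le h1 (((𝒰.filter fun c => c.1 = κ).filter
    fun c => uu c ≤ s).image fun c i => s i / 2 ^ κ + 1 - c.2 i))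
  rw [sum_image fun c hc c' hc' h2 => Prod.ext ((h c hc).1.trans (h c' hc').1.symm)
    (funext fun i => by
      have := congrFun h2 i
      have := (h c hc).2 i
      have := (h c' hc').2 i
      beta_reduce at *; omega)]
  refine sum_le_sum fun c hc => ?_
  rw [← pow_add]
  refine pow_le_pow_of_le_one h0.le h1.le ?_
  have h2 := (Tc_spec hK hn (h𝒰 (mem_filter.1 (mem_filter.1 hc).1).1)).1
  have h3 : ∑ i, (s i / 2 ^ κ + 1 - c.2 i) + ∑ i, c.2 i = ∑ i, s i / 2 ^ κ + d := by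
    rw [← sum_add_distrib, sum_congr rfl fun i _ => Nat.sub_add_cancel ((h c hc).2 i)]
    simp [sum_add_distrib]
  have h4 : 2 ^ κ * ∑ i, s i / 2 ^ κ ≤ ∑ i, s i := by
    rw [mul_sum]; exact sum_le_sum fun i _ => Nat.mul_div_le _ _
  rw [(h c hc).1] at h2
  have h5 := Nat.le_mul_of_pos_left (∑ i, s i - n) (Nat.two_pow_pos κ)
  have h6 : ∑ i, s i / 2 ^ κ < ∑ i, c.2 i + 2 * K + (∑ i, s i - n) :=
    Nat.lt_of_mul_lt_mul_left (a := 2 ^ κ) (by rw [mul_add]; omega)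
  beta_reduce
  omega

lemma row_levels (d : ℕ) {q : ℝ} (h0 : 0 < q) (h1 : q < 1) : ∃ C : ℝ, 0 ≤ C ∧
    ∀ (n : ℕ) (S : Finset (Fin (d + 1) → ℕ)) (u : Fin (d + 1) → ℕ), ∑ i, u i ≤ n →
      (∀ s ∈ S, n < ∑ i, s i) → ∑ s ∈ S, (if u ≤ s then q ^ (∑ i, s i - n) else 0) ≤
        C * ((n - ∑ i, u i + 1 : ℕ) : ℝ) ^ d := by
  obtain ⟨C, hC, h⟩ := Up.sum_levels d h0 h1
  refine ⟨C, hC, fun n S u hu hS => ?_⟩
  have h2 : ∀ s ∈ S.filter fun s => u ≤ s, ∑ i, s i = ∑ i, u i + ∑ i, (s - u) i := fun s hs => by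
    rw [← sum_add_distrib]
    exact sum_congr rfl fun i _ => (Nat.add_sub_cancel' ((mem_filter.1 hs).2 i)).symm
  have h3 := h (fun _ => 1) 1 1 zero_le_one zero_le_one le_rfl (fun S => by simp) (n - ∑ i, u i)
    ((S.filter fun s => u ≤ s).image fun s => s - u) 0 fun j hj => by
      obtain ⟨s, hs, rfl⟩ := mem_image.1 hj
      have := h2 s hs
      have := hS s (mem_filter.1 hs).1
      omega
  rw [sum_image fun s hs t ht h => by
    rw [← tsub_add_cancel_of_le (mem_filter.1 hs).2, h, tsub_add_cancel_of_le (mem_filter.1 ht).2],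
    Real.rpow_one, mul_one, mul_left_comm] at h3
  push_cast
  refine le_of_mul_le_mul_left (le_trans (le_of_eq ?_) h3) (by positivity)
  rw [← sum_filter, mul_sum]
  refine sum_congr rfl fun s hs => ?_
  have := h2 s hs
  have := hS s (mem_filter.1 hs).1
  rw [mul_one, ← pow_add]; congr 1; omega

lemma exists_ell {α τ N : ℝ} (hα : 0 < α) (hτ : 1 ≤ τ) (h : τ - 1 < α * τ) (hN : 1 < N) :
    ∃ l : ℝ, 1 ≤ l ∧ l < N ∧ l ^ (-α) * (l ^ (-α) * N) ^ (τ - 1) < 1 := by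
  have h0 : 0 < α * τ := by positivity
  obtain ⟨γ, h1, h2⟩ := exists_between ((div_lt_one h0).2 h)
  have h3 : 0 ≤ γ := (div_nonneg (by linarith) h0.le).trans h1.le
  rw [div_lt_iff₀ h0] at h1
  have hN0 : 0 < N := by linarith
  refine ⟨N ^ γ, Real.one_le_rpow hN.le h3,
    by simpa using Real.rpow_lt_rpow_of_exponent_lt hN h2, ?_⟩
  rw [← Real.rpow_mul hN0.le, ← Real.rpow_add_one hN0.ne', ← Real.rpow_mul hN0.le,
    ← Real.rpow_add hN0]
  exact Real.rpow_lt_one_of_one_lt_of_neg hN (by linarith)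

lemma Adm.basic {p τ : ℝ} (h : Adm p τ) : 1 < p ∧ 1 ≤ τ ∧ ∃ α : ℝ, 0 < α ∧ α ≤ 1 / 2 ∧ α ≤ 1 / p ∧
    τ - 1 < α * τ := by
  rcases h with ⟨h1, h2, rfl⟩ | ⟨h2, h1, h3⟩
  · exact ⟨h1, h1.le, 1 / 2, by norm_num, le_rfl, one_div_le_one_div_of_le (by linarith) h2.le,
      by linarith⟩
  · exact ⟨by linarith, h1, 1 / p, by positivity, one_div_le_one_div_of_le two_pos h2, le_rfl,
      by rw [one_div]; linarith⟩

/-- piecewise smooth function on the boxes of shape `s` -/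
noncomputable def gs {ι : Type} [Fintype ι] {W : ℕ} (χ : ι → Fin d → ℝ → ℝ)
    (γ : (Fin d → ℕ) → ι → (Gd fun _ : Fin d => W) → ℝ) (s : Fin d → ℕ) :
    (Gd fun _ : Fin d => W) → ℝ := ∑ a, fun x => γ s a x * pf (χ a) (fun i => W - s i) x

/-- the discrete recovery theorem -/
theorem cells {d : ℕ} (hd : 1 ≤ d) {p τ μ Λ : ℝ} (h : Adm p τ) (hμ : 2 ^ (1 / p) < μ) (hΛ : 1 ≤ Λ)
    {ι : Type} [Fintype ι] {χ : ι → Fin (d + 1) → ℝ → ℝ} (hχ : ∀ a i, Prof Λ (χ a i)) :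
    ∃ C : ℝ, 0 < C ∧ ∀ n W : ℕ, n ≤ W → ∃ (𝒞 : Finset (ℕ × (Fin (d + 1) → ℕ)))
      (M : ℕ × (Fin (d + 1) → ℕ) → Matrix (Gd fun _ : Fin (d + 1) => W) (Gd fun _ => W) ℝ)
      (Z : ℕ × (Fin (d + 1) → ℕ) → Finset (Gd fun _ : Fin (d + 1) => W)),
      ∑ c ∈ 𝒞, (#(Z c) : ℝ) ≤ C * (2 ^ n * (n + 1) ^ d) ∧ (∀ c x, ∀ z ∉ Z c, M c x z = 0) ∧
      ∀ (S : Finset (Fin (d + 1) → ℕ)) (γ : (Fin (d + 1) → ℕ) → ι → (Gd fun _ => W) → ℝ)
        (F : (Gd fun _ => W) → ℝ) (Fc : (Fin (d + 1) → ℕ) → (Gd fun _ => W) → ℝ) (ε : ℝ), 0 ≤ ε →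
        (∀ s ∈ S, n < ∑ i, s i ∧ (∀ i, s i ≤ W) ∧
          ∀ a, (γ s a).FactorsThrough (bx fun i => W - s i)) →
        (∀ x, |F x - (∑ s ∈ S, gs χ γ s) x| ≤ ε) →
        (∀ u x, |Fc u x - (∑ s ∈ S with u ≤ s, gs χ γ s) x| ≤ ε) →
        nm p (F - ∑ c ∈ 𝒞, M c *ᵥ Fc (uu c)) ≤
          C * ((∑ s ∈ S, (μ ^ (∑ i, s i - n) * ∑ a, nm p (γ s a)) ^ τ) ^ (1 / τ) +
            (n + 1) ^ d * ε * nm p (1 : (Gd fun _ : Fin (d + 1) => W) → ℝ)) := by
  classical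
  obtain ⟨hp, hτ, α, hα0, hα1, hα2, hα3⟩ := h.basic
  obtain ⟨μ₀, hμ0, hμ1⟩ := exists_between hμ
  have hμ2 : 1 < μ₀ := (Real.one_lt_rpow one_lt_two (by positivity)).trans hμ0
  have hμ3 : 0 < μ := by linarith
  obtain ⟨K₀, C₁, hC₁, H₁⟩ := cell (d + 1) hp hα1 hα2 hμ0 hχ
  obtain ⟨C₂, hC₂, H₂⟩ := orth_sum.{0, 0} h (B := 2 ^ (d + 1)) (one_le_pow₀ one_le_two)
  set ρ := μ₀ / μ with hρ
  have hρ0 : 0 < ρ := by positivity
  have hρ1 : ρ < 1 := (div_lt_one hμ3).2 hμ1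
  obtain ⟨C₃, hC₃, H₃⟩ := row_levels d hρ0 hρ1
  obtain ⟨l, hl1, hl2, hl3⟩ := exists_ell hα0 hτ hα3 (N := 2 ^ d) (one_lt_pow₀ one_lt_two (by omega))
  set K := 2 * (d + 1) * (K₀ + 1) with hKd
  have hK : 0 < K := by positivity
  obtain ⟨q, hq0, hq1, hq2, hq3⟩ : ∃ q : ℝ, 0 < q ∧ q < 1 ∧ μ⁻¹ ≤ q ∧ 1 / 2 ≤ q ^ (2 * K + 2) := by
    refine ⟨max μ⁻¹ ((1 / 2) ^ ((2 * K + 2 : ℕ) : ℝ)⁻¹), by positivity, max_lt
      (inv_lt_one_of_one_lt₀ (by linarith)) (Real.rpow_lt_one (by norm_num) (by norm_num)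
        (by positivity)), le_max_left _ _, le_trans (le_of_eq ?_)
          (pow_le_pow_left₀ (by positivity) (le_max_right _ _) _)⟩
    rw [Real.rpow_inv_natCast_pow (by norm_num) (by omega)]
  have hq4 := sub_pos.2 hq1
  have hρ4 := sub_pos.2 hρ1
  have hl4 : l / 2 ^ d < 1 := (div_lt_one (by positivity)).2 hl2
  have hl5 := sub_pos.2 hl4
  have hl6 := sub_pos.2 hl3
  set B₁ := (2 * (1 - q)⁻¹) ^ (d + 1) with hB₁
  set B₂ := C₃ * ((2 * K + (d + 1) : ℕ) : ℝ) ^ d with hB₂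
  set B₃ := B₂ ^ (τ - 1) * ((ρ ^ (2 * K + (d + 1)))⁻¹ * ((1 - ρ)⁻¹) ^ (d + 1)) with hB₃
  set B₄ := 2 * K * (1 - l / 2 ^ d)⁻¹ with hB₄
  set A₁ := C₂ * ((8 * Λ) ^ (d + 1) * 2 * (B₁ ^ (τ - 1) * B₁) ^ (1 / τ)) with hA₁
  set A₂ := C₂ * (C₁ * (B₃ * (1 - l ^ (-α) * (l ^ (-α) * 2 ^ d) ^ (τ - 1))⁻¹) ^ (1 / τ)) with hA₂
  have hA₁0 : 0 ≤ A₁ := by positivity
  have hA₂0 : 0 ≤ A₂ := by positivity
  have hB₄0 : 0 ≤ B₄ := by positivity
  refine ⟨A₁ + A₂ + (1 + B₄ * (2 ^ (d + 1) * 2)), by positivity, fun n W hn => ?_⟩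
  set 𝒞 := (Tc (d + 1) W K n).filter (cnd K n) with h𝒞
  have h𝒞s : 𝒞 ⊆ Tc (d + 1) W K n := filter_subset _ _
  have hu : ∀ c ∈ 𝒞, K₀ * (∑ i, (vv c i - uu c i) + 1) + ∑ i, uu c i ≤ n := fun c hc => by
    refine le_trans ?_ (mem_filter.1 hc).2
    have h1 : ∑ i, uu c i ≤ ∑ i, lo c i := sum_le_sum fun i _ => (lo_le_uu c i).1
    have h2 := sum_le_card_nsmul univ (fun i => vv c i - uu c i + 1) (2 * 2 ^ c.1) fun i _ => by
      have := vv_add c i
      have := lo_le_uu c i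
      have := Nat.two_pow_pos c.1
      omega
    simp only [sum_add_distrib, sum_const, card_univ, Fintype.card_fin, smul_eq_mul] at h2
    have h3 := Nat.mul_le_mul (K₀.le_succ) (show ∑ i, (vv c i - uu c i) + 1 ≤
      (d + 1) * (2 * 2 ^ c.1) by omega)
    rw [mul_add (2 ^ _), ← sum_lo, add_comm]
    exact add_le_add h1 (h3.trans (le_of_eq (by rw [hKd, Nat.succ_eq_add_one]; ring)))
  choose! w hw0 hw1 hw2 hw3 using fun c (hc : c ∈ 𝒞) => H₁ W n (uu c) (vv c) (l ^ c.1)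
    (fun i => show uu c i ≤ vv c i by
      have := vv_add c i
      have := lo_le_uu c i
      have := Nat.two_pow_pos c.1
      omega) (Tc_spec hK hn (h𝒞s hc)).2.2.1 (hu c hc) (one_le_pow₀ hl1) (by
      have h1 : c.1 ≤ W := (Nat.lt_two_pow_self.le.trans ((Nat.le_mul_of_pos_right _
        (by omega)).trans (mem_filter.1 hc).2)).trans hn
      rw [add_mul, one_mul, pow_add, pow_mul]
      exact mul_le_mul ((pow_le_pow_left₀ (by linarith) hl2.le _).trans (pow_le_pow_right₀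
        (one_le_pow₀ one_le_two) h1)) (pow_le_pow_right₀ one_le_two hn) (by positivity)
        (by positivity))
  have hcnt : ∑ c ∈ 𝒞, l ^ c.1 ≤ B₄ * (n + 1) ^ d := by
    refine (sum_scale 𝒞 _ (B := 2 * K * (n + 1) ^ d) (by positivity) (by positivity) hl4
      fun κ => ?_).trans (le_of_eq (by rw [hB₄]; ring))
    rw [sum_congr rfl fun c hc => by rw [(mem_filter.1 hc).2], sum_const, nsmul_eq_mul]
    have h1 : (#{c ∈ 𝒞 | c.1 = κ} : ℝ) ≤ ((n / 2 ^ κ : ℕ) : ℝ) ^ d * (2 * K) := by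
      exact_mod_cast card_scale hK hn κ
    have h2 : ((n / 2 ^ κ : ℕ) : ℝ) ≤ (n + 1) / 2 ^ κ := Nat.cast_div_le.trans (by
      push_cast; gcongr; linarith)
    calc _ ≤ ((n + 1) / 2 ^ κ) ^ d * (2 * K) * l ^ κ := by gcongr; exact h1.trans (by gcongr)
      _ = _ := by rw [div_pow, div_pow, pow_right_comm]; ring
  let D := fun c : ℕ × (Fin (d + 1) → ℕ) => Dm W (lo c) (vv c + 1)
  refine ⟨𝒞, fun c => D c * diagonal (w c), fun c => univ.filter fun z => w c z ≠ 0, ?_,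
    fun c x z hz => (mul_diagonal _ _ _ _).trans (by rw [show w c z = 0 by simpa using hz, mul_zero]),
    fun S γ F Fc ε hε hS hF hFc => ?_⟩
  · refine (sum_le_sum hw1).trans ?_
    rw [← mul_sum, ← sum_mul]
    have h1 : (1 : ℝ) ≤ 2 ^ (d + 1) := one_le_pow₀ one_le_two
    calc _ ≤ 2 * (B₄ * (n + 1) ^ d * 2 ^ n) := by gcongr
      _ = B₄ * (1 * 2) * (2 ^ n * (n + 1) ^ d) := by ring
      _ ≤ _ := by gcongr; nlinarith [mul_le_mul_of_nonneg_left h1 hB₄0]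
  let y := fun s : Fin (d + 1) → ℕ => μ ^ (∑ i, s i - n) * ∑ a, nm p (γ s a)
  have hy : ∀ s, 0 ≤ y s := fun s => mul_nonneg (by positivity) (sum_nonneg fun _ _ => nm_nonneg _ _)
  let G := fun u : Fin (d + 1) → ℕ => ∑ s ∈ S with u ≤ s, gs χ γ s
  let h₁ := fun c => D c *ᵥ ∑ s ∈ S with ¬ (cnd K n c ∧ uu c ≤ s), gs χ γ s
  let h₂ := fun c => Em W (vv c) *ᵥ fun z => (w c z - 1) * G (uu c) z
  let h₃ := fun c => Em W (vv c) *ᵥ fun z => w c z * (Fc (uu c) z - G (uu c) z)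
  have hid : F - ∑ c ∈ 𝒞, (D c * diagonal (w c)) *ᵥ Fc (uu c) =
      ∑ c ∈ Tc (d + 1) W K n, D c *ᵥ h₁ c + -(∑ c ∈ 𝒞, D c *ᵥ h₂ c) +
        ((F - ∑ s ∈ S, gs χ γ s) + -∑ c ∈ 𝒞, D c *ᵥ h₃ c) := by
    have e1 : ∑ c ∈ Tc (d + 1) W K n, D c *ᵥ h₁ c + ∑ c ∈ 𝒞, D c *ᵥ G (uu c) =
        ∑ s ∈ S, gs χ γ s := by
      rw [← one_mulVec (∑ s ∈ S, gs χ γ s), ← Tc_sum hK hn, sum_mulVec, h𝒞, sum_filter,
        ← sum_add_distrib]
      refine sum_congr rfl fun c _ => ?_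
      simp only [h₁, D, mulVec_mulVec, Dm_idem _ (lo_le c)]
      split_ifs with h1
      · simp only [← mulVec_add, h1, true_and, G, sum_filter_not_add_sum_filter]
      · simp [h1]
    have e2 : ∀ c, (D c * diagonal (w c)) *ᵥ Fc (uu c) =
        D c *ᵥ h₂ c + D c *ᵥ h₃ c + D c *ᵥ G (uu c) := fun c => by
      simp only [h₂, h₃, D, mulVec_mulVec, Dm_Em _ (lo_le c), ← mulVec_add]
      rw [← mulVec_mulVec]
      congr 1; funext z; simp only [mulVec_diagonal, Pi.add_apply]; ring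
    simp only [e2, sum_add_distrib, ← e1]; abel
  have b1 := (H₂ _ D (Tc_fam hK hn subset_rfl) h₁).trans (mul_le_mul_of_nonneg_left (schur_w _ S hτ
    (A := (8 * Λ) ^ (d + 1) * 2) (B := B₁ ^ (τ - 1) * B₁) (by positivity) (by positivity)
    (w := fun c s => q ^ ∑ i, (s i - lo c i + (lo c i - s i))) (R := fun _ => B₁) (y := y)
    (fun _ _ => by positivity) hy (fun _ => nm_nonneg _ _) (fun c hc => by
      simp only [h₁, mulVec_sum]
      rw [mul_sum]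
      refine (nm_sum hp.le _ _).trans ((sum_le_sum fun s hs => ?_).trans
        (sum_le_sum_of_subset_of_nonneg (filter_subset _ _) fun s _ _ => by
          have := hy s; positivity))
      obtain ⟨hs1, hs2⟩ := mem_filter.1 hs
      rw [gs, mulVec_sum]
      refine (nm_sum hp.le _ _).trans ((sum_le_sum fun a _ => nm_Dm_decay hp.le (lo_le c) (fun i =>
        (lo_le c i).trans (Nat.succ_le_succ ((Tc_spec hK hn hc).2.2.1 i))) hΛ (hχ a)
        ((hS s hs1).2.2 a)).trans ?_)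
      have h1 := pow_le_pow_of_le_one hq0.le hq1.le (dist_le hK hn hc (hS s hs1).1 hs2)
      rw [pow_add, pow_mul] at h1
      have h2 := sum_nonneg fun a (_ : a ∈ univ) => nm_nonneg p (γ s a)
      rw [← mul_sum]
      calc _ = (8 * Λ) ^ (d + 1) * 2 * (μ⁻¹ ^ (∑ i, s i - n) * (1 / 2) ^ (∑ i, (lo c i - s i) + 1) *
            y s) := by simp only [y, inv_pow, pow_succ]; field_simp
        _ ≤ _ := by
          have := hy s
          gcongr
          exact le_trans (by gcongr) h1)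
    (fun c _ => sum_dist hq0.le hq1 _ _) fun s _ => by
      rw [← mul_sum]
      refine mul_le_mul_of_nonneg_left (le_trans (le_of_eq ?_) (sum_dist hq0.le hq1
        ((Tc (d + 1) W K n).image lo) s)) (by positivity)
      rw [sum_image (Tc_inj hK hn)]
      simp only [add_comm]) hC₂.le)
  have b2 := (H₂ _ D (Tc_fam hK hn h𝒞s) h₂).trans (mul_le_mul_of_nonneg_left (schur_w _ S hτ
    (A := C₁) (B := B₃ * (1 - l ^ (-α) * (l ^ (-α) * 2 ^ d) ^ (τ - 1))⁻¹) hC₁.le (by positivity)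
    (w := fun c s => (l ^ (-α)) ^ c.1 * if uu c ≤ s then ρ ^ (∑ i, s i - n) else 0)
    (R := fun c => B₂ * (l ^ (-α) * 2 ^ d) ^ c.1) (y := y)
    (fun _ _ => by split_ifs <;> positivity) hy (fun _ => nm_nonneg _ _) (fun c hc => by
      have h1 : h₂ c = ∑ s ∈ S with uu c ≤ s, ∑ a, Em W (vv c) *ᵥ fun z => (w c z - 1) *
          (γ s a z * pf (χ a) (fun i => W - s i) z) := by
        simp only [h₂, ← mulVec_sum]
        congr 1; funext z; simp only [G, gs, Finset.sum_apply, mul_sum]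
      rw [h1, mul_sum]
      refine (nm_sum hp.le _ _).trans ?_
      rw [sum_filter]
      refine sum_le_sum fun s hs => ?_
      split_ifs with h2
      · refine (nm_sum hp.le _ _).trans ((sum_le_sum fun a _ => hw3 c hc s h2 (hS s hs).2.1
          (hS s hs).1 a _ ((hS s hs).2.2 a)).trans (le_of_eq ?_))
        rw [← mul_sum, ← Real.rpow_pow_comm (by linarith)]
        simp only [y, hρ, div_pow]; field_simp
      · simp)
    (fun c hc => by
      rw [← mul_sum, mul_pow, mul_left_comm]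
      refine mul_le_mul_of_nonneg_left ((H₃ n S (uu c) (by have := hu c hc; omega)
        fun s hs => (hS s hs).1).trans ?_) (by positivity)
      rw [hB₂, mul_assoc, pow_right_comm, ← mul_pow]
      have h1 := (Tc_spec hK hn (h𝒞s hc)).1
      have h2 := sum_le_sum fun i (_ : i ∈ univ) => (lo_le_uu c i).2.1
      simp only [sum_add_distrib, sum_const, card_univ, Fintype.card_fin, smul_eq_mul] at h2
      rw [mul_add, ← sum_lo, mul_comm] at h1
      have h3 : n - ∑ i, uu c i + 1 ≤ (2 * K + (d + 1)) * 2 ^ c.1 := by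
        have := hu c hc
        rw [add_mul]; omega
      gcongr
      exact_mod_cast h3)
    fun s _ => sum_scale 𝒞 _ (by positivity) (by positivity) hl3 fun κ => by
      rw [sum_congr rfl fun c hc => by rw [(mem_filter.1 hc).2], ← mul_sum, ← mul_sum,
        Real.mul_rpow (by positivity) (by positivity), ← Real.rpow_pow_comm (by positivity), hB₃,
        mul_pow]
      have := col_scale hK hn hρ0 hρ1 h𝒞s κ s
      calc _ ≤ B₂ ^ (τ - 1) * ((l ^ (-α) * 2 ^ d) ^ (τ - 1)) ^ κ * ((l ^ (-α)) ^ κ *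
            ((ρ ^ (2 * K + (d + 1)))⁻¹ * ((1 - ρ)⁻¹) ^ (d + 1))) := by gcongr
        _ = _ := by ring) hC₂.le)
  have hp0 : 0 < p := by linarith
  have b3 : nm p (F - ∑ s ∈ S, gs χ γ s) ≤ ε * nm p (1 : (Gd fun _ : Fin (d + 1) => W) → ℝ) :=
    nm_smul_le hp0 hε fun x => by simpa using hF x
  have b4 : ∀ c ∈ 𝒞, nm p (D c *ᵥ h₃ c) ≤ l ^ c.1 * (2 ^ (d + 1) * (2 * ε *
      nm p (1 : (Gd fun _ : Fin (d + 1) => W) → ℝ))) := fun c hc => by
    have := nm_nonneg p (1 : (Gd fun _ : Fin (d + 1) => W) → ℝ)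
    refine (nm_Dm hp.le _ _ _ _).trans (le_trans ?_ (le_mul_of_one_le_left (by positivity)
      (one_le_pow₀ hl1)))
    refine mul_le_mul_of_nonneg_left (nm_smul_le hp0 (by positivity) fun x => ?_) (by positivity)
    refine (abs_sum_le_sum_abs _ _).trans ((sum_le_sum (g := fun z => Em W (vv c) x z * w c z * ε)
      fun z _ => ?_).trans ?_)
    · rw [← mul_assoc, abs_mul, abs_of_nonneg (mul_nonneg (Em_nonneg _ _ _ _) (hw0 c hc z))]
      exact mul_le_mul_of_nonneg_left (hFc _ z) (mul_nonneg (Em_nonneg _ _ _ _) (hw0 c hc z))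
    · rw [← sum_mul]
      simpa [mulVec, dotProduct] using mul_le_mul_of_nonneg_right (hw2 c hc x) hε
  have b5 := (nm_sum hp.le _ _).trans (sum_le_sum b4)
  rw [← sum_mul] at b5
  rw [hid]
  refine (nm_add hp.le _ _).trans ((add_le_add (nm_add hp.le _ _) (nm_add hp.le _ _)).trans ?_)
  rw [nm_neg, nm_neg]
  have h1 := nm_nonneg p (1 : (Gd fun _ : Fin (d + 1) => W) → ℝ)
  have h2 : 0 ≤ (∑ s ∈ S, y s ^ τ) ^ (1 / τ) :=
    Real.rpow_nonneg (sum_nonneg fun s _ => Real.rpow_nonneg (hy s) _) _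
  have h3 : (1 : ℝ) ≤ (n + 1) ^ d := one_le_pow₀ (by simp)
  have b6 := b5.trans (mul_le_mul_of_nonneg_right hcnt (by positivity))
  have b7 := b3.trans (le_mul_of_one_le_left (by positivity) h3)
  rw [← mul_assoc, ← hA₁] at b1
  rw [← mul_assoc, ← hA₂] at b2
  generalize (∑ s ∈ S, y s ^ τ) ^ (1 / τ) = Y at *
  have h4 : 0 ≤ (n + 1) ^ d * ε * nm p (1 : (Gd fun _ : Fin (d + 1) => W) → ℝ) := by positivity
  nlinarith [mul_nonneg (add_nonneg hA₁0 hA₂0) h4, mul_nonneg (show 0 ≤ 1 + B₄ * (2 ^ (d + 1) * 2)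
    by positivity) h2]

end Pool.Agent.Lib.MP_919f0c_an.Lp
end
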