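import Mathlib

-- part Pool.Agent.Lib.MP_919f0c_an.LpTools
section

/-! Finite `ℓ_p` norms: Schur test, duality and real interpolation for matrices. -/

set_option autoImplicit false

open Finset Matrix

namespace Pool.Agent.Lib.MP_919f0c_an.Lp

variable {ι κ : Type*} [Fintype ι] [Fintype κ]

/-- sum of `p`-th powers -/
noncomputable def sp (p : ℝ) (g : ι → ℝ) : ℝ := ∑ x, |g x| ^ p

/-- the `ℓ_p` norm -/
noncomputable def nm (p : ℝ) (g : ι → ℝ) : ℝ := sp p g ^ (1 / p)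

lemma sp_nonneg (p : ℝ) (g : ι → ℝ) : 0 ≤ sp p g := sum_nonneg fun _ _ => by positivity

lemma nm_nonneg (p : ℝ) (g : ι → ℝ) : 0 ≤ nm p g := Real.rpow_nonneg (sp_nonneg p g) _

lemma nm_pow {p : ℝ} (hp : 0 < p) (g : ι → ℝ) : nm p g ^ p = sp p g := by
  rw [nm, ← Real.rpow_mul (sp_nonneg p g), one_div, inv_mul_cancel₀ hp.ne', Real.rpow_one]

lemma nm_le {p A : ℝ} (hp : 0 < p) (hA : 0 ≤ A) {g : ι → ℝ} (h : sp p g ≤ A ^ p) : nm p g ≤ A := by
  rw [← nm_pow hp] at h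
  exact (Real.rpow_le_rpow_iff (nm_nonneg p g) hA hp).1 h

lemma nm_le_mul {p A : ℝ} (hp : 0 < p) (hA : 0 ≤ A) {g : ι → ℝ} {h : κ → ℝ}
    (H : sp p g ≤ A ^ p * sp p h) : nm p g ≤ A * nm p h :=
  nm_le hp (mul_nonneg hA (nm_nonneg p h)) (by rwa [Real.mul_rpow hA (nm_nonneg p h), nm_pow hp])

lemma sp_mono {p : ℝ} (hp : 0 ≤ p) {g h : ι → ℝ} (H : ∀ x, |g x| ≤ |h x|) : sp p g ≤ sp p h :=
  sum_le_sum fun x _ => Real.rpow_le_rpow (abs_nonneg _) (H x) hp

lemma nm_mono {p : ℝ} (hp : 0 ≤ p) {g h : ι → ℝ} (H : ∀ x, |g x| ≤ |h x|) : nm p g ≤ nm p h :=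
  Real.rpow_le_rpow (sp_nonneg p g) (sp_mono hp H) (by positivity)

lemma nm_add {p : ℝ} (hp : 1 ≤ p) (g h : ι → ℝ) : nm p (g + h) ≤ nm p g + nm p h :=
  Real.Lp_add_le univ g h hp

lemma nm_zero {p : ℝ} (hp : 0 < p) : nm p (0 : ι → ℝ) = 0 := by
  simp [nm, sp, hp.ne']

lemma nm_sum {α : Type*} {p : ℝ} (hp : 1 ≤ p) (s : Finset α) (g : α → ι → ℝ) :
    nm p (∑ a ∈ s, g a) ≤ ∑ a ∈ s, nm p (g a) := by
  classical
  induction s using Finset.induction_on with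
  | empty => simp [nm_zero (zero_lt_one.trans_le hp)]
  | insert a s ha ih =>
    rw [sum_insert ha, sum_insert ha]
    exact (nm_add hp _ _).trans (add_le_add le_rfl ih)

lemma nm_smul_le {p c : ℝ} (hp : 0 < p) (hc : 0 ≤ c) {g h : ι → ℝ} (H : ∀ x, |g x| ≤ c * |h x|) :
    nm p g ≤ c * nm p h := by
  refine nm_le_mul hp hc ?_
  rw [sp, sp, mul_sum]
  refine sum_le_sum fun x _ => ?_
  rw [← Real.mul_rpow hc (abs_nonneg _)]
  exact Real.rpow_le_rpow (abs_nonneg _) (H x) hp.le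

lemma nm_neg (p : ℝ) (g : ι → ℝ) : nm p (-g) = nm p g := by simp [nm, sp]

lemma abs_le_nm {p : ℝ} (hp : 0 < p) (g : ι → ℝ) (x : ι) : |g x| ≤ nm p g := by
  refine (Real.rpow_le_rpow_iff (abs_nonneg _) (nm_nonneg p g) hp).1 ?_
  rw [nm_pow hp]
  exact single_le_sum (f := fun x => |g x| ^ p) (fun _ _ => by positivity) (mem_univ x)

lemma wpow {α : Type*} (s : Finset α) {p : ℝ} (hp : 1 ≤ p) {w f : α → ℝ} (hw : ∀ i, 0 ≤ w i)
    (hf : ∀ i, 0 ≤ f i) {B : ℝ} (hB : ∑ i ∈ s, w i ≤ B) :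
    (∑ i ∈ s, w i * f i) ^ p ≤ B ^ (p - 1) * ∑ i ∈ s, w i * f i ^ p := by
  have h0 : 0 ≤ ∑ i ∈ s, w i := sum_nonneg fun i _ => hw i
  have h1 : 0 ≤ ∑ i ∈ s, w i * f i ^ p := sum_nonneg fun i _ => by
    have := hw i; have := hf i; positivity
  have hp0 : 0 < p := zero_lt_one.trans_le hp
  refine (Real.rpow_le_rpow (sum_nonneg fun i _ => mul_nonneg (hw i) (hf i))
    (Real.inner_le_weight_mul_Lp_of_nonneg s hp w f hw hf) hp0.le).trans ?_
  rw [Real.mul_rpow (by positivity) (by positivity), ← Real.rpow_mul h0, ← Real.rpow_mul h1,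
    inv_mul_cancel₀ hp0.ne', Real.rpow_one, show (1 - p⁻¹) * p = p - 1 by field_simp]
  exact mul_le_mul_of_nonneg_right (Real.rpow_le_rpow h0 hB (by linarith)) h1

/-- bound for the `p`-th power of the operator norm -/
def OB (p : ℝ) (K : Matrix ι κ ℝ) (A : ℝ) : Prop := ∀ g, sp p (K *ᵥ g) ≤ A * sp p g

lemma OB.mono {p A B : ℝ} {K : Matrix ι κ ℝ} (h : OB p K A) (hAB : A ≤ B) : OB p K B :=
  fun g => (h g).trans (mul_le_mul_of_nonneg_right hAB (sp_nonneg p g))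

lemma schur {p : ℝ} (hp : 1 ≤ p) (K : Matrix ι κ ℝ) {B B' : ℝ} (hB : 0 ≤ B)
    (hr : ∀ x, ∑ z, |K x z| ≤ B) (hc : ∀ z, ∑ x, |K x z| ≤ B') : OB p K (B ^ (p - 1) * B') := by
  intro g
  have h1 : ∀ x, |(K *ᵥ g) x| ^ p ≤ B ^ (p - 1) * ∑ z, |K x z| * |g z| ^ p := fun x =>
    (Real.rpow_le_rpow (abs_nonneg _) ((abs_sum_le_sum_abs _ _).trans
      (le_of_eq (sum_congr rfl fun z _ => abs_mul (K x z) (g z)))) (by linarith)).trans
      (wpow univ hp (fun z => abs_nonneg (K x z)) (fun z => abs_nonneg (g z)) (hr x))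
  refine (sum_le_sum fun x _ => h1 x).trans ?_
  rw [← mul_sum, sum_comm, mul_assoc, sp, mul_sum _ _ B']
  refine mul_le_mul_of_nonneg_left (sum_le_sum fun z _ => ?_) (Real.rpow_nonneg hB _)
  rw [← sum_mul]
  exact mul_le_mul_of_nonneg_right (hc z) (by positivity)

lemma nm_schur {p : ℝ} (hp : 1 ≤ p) (K : Matrix ι κ ℝ) {B : ℝ} (hB : 0 ≤ B)
    (hr : ∀ x, ∑ z, |K x z| ≤ B) (hc : ∀ z, ∑ x, |K x z| ≤ B) (g : κ → ℝ) :
    nm p (K *ᵥ g) ≤ B * nm p g := by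
  refine nm_le_mul (by linarith) hB ?_
  have := schur hp K hB hr hc g
  rwa [← Real.rpow_add_one' hB (by linarith), sub_add_cancel] at this

lemma dual {p q A : ℝ} (hpq : p.HolderConjugate q) (hA : 0 < A) {K : Matrix ι κ ℝ}
    (h : OB q K (A ^ q)) : OB p Kᵀ (A ^ p) := by
  intro g
  set u := Kᵀ *ᵥ g with hu
  set v : κ → ℝ := fun y => SignType.sign (u y) * |u y| ^ (p - 1) with hv
  have hp := hpq.pos
  have hq := hpq.symm.pos
  have h1 : ∀ y, |u y| ^ p = v y * u y := fun y => by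
    rw [hv]; beta_reduce
    rw [mul_right_comm, sign_mul_self, mul_comm,
      ← Real.rpow_add_one' (abs_nonneg _) (by linarith), sub_add_cancel]
  have h2 : sp q v ≤ sp p u := sum_le_sum fun y _ => by
    have h3 : |v y| ≤ |u y| ^ (p - 1) := by
      rw [hv]; beta_reduce
      rw [abs_mul, abs_of_nonneg (a := |u y| ^ (p - 1)) (by positivity)]
      refine mul_le_of_le_one_left (by positivity) ?_
      rcases SignType.trichotomy (SignType.sign (u y)) with h | h | h <;> rw [h] <;> simp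
    refine (Real.rpow_le_rpow (abs_nonneg _) h3 hq.le).trans (le_of_eq ?_)
    rw [← Real.rpow_mul (abs_nonneg _), hpq.sub_one_mul_conj]
  have h3 : sp p u = ∑ x, (A * g x) * ((K *ᵥ v) x / A) := by
    have : ∀ x, (A * g x) * ((K *ᵥ v) x / A) = g x * (K *ᵥ v) x := fun x => by field_simp
    simp only [this, sp, h1]
    exact (dotProduct_comm _ _).trans
      (by rw [hu, mulVec_transpose]; exact (dotProduct_mulVec g K v).symm)
  have h4 : sp p u ≤ A ^ p * sp p g / p + sp p u / q := by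
    conv_lhs => rw [h3]
    refine (sum_le_sum fun x _ => Real.young_inequality _ _ hpq).trans ?_
    rw [sum_add_distrib, ← sum_div, ← sum_div]
    refine add_le_add (le_of_eq ?_) (div_le_div_of_nonneg_right ?_ hq.le)
    · rw [sp, mul_sum]
      congr 1
      refine sum_congr rfl fun x _ => ?_
      rw [abs_mul, abs_of_pos hA, Real.mul_rpow hA.le (abs_nonneg _)]
    · have h5 : ∑ x, |(K *ᵥ v) x / A| ^ q = sp q (K *ᵥ v) / A ^ q := by
        rw [sp, sum_div]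
        refine sum_congr rfl fun x _ => ?_
        rw [abs_div, abs_of_pos hA, Real.div_rpow (abs_nonneg _) hA.le]
      rw [h5, div_le_iff₀ (by positivity), mul_comm]
      exact (h v).trans (mul_le_mul_of_nonneg_left h2 (by positivity))
  have h5 : sp p u / q = sp p u - sp p u / p := by
    have := hpq.inv_add_inv_eq_one
    rw [div_eq_mul_inv, div_eq_mul_inv, show q⁻¹ = 1 - p⁻¹ by linarith]; ring
  rw [h5] at h4
  exact (div_le_div_iff_of_pos_right hp).1 (by linarith)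

lemma geom_int {ρ : ℝ} (h0 : 0 ≤ ρ) (h1 : ρ < 1) (J : Finset ℤ) (e : ℤ → ℤ)
    (he : Function.Injective e) (hJ : ∀ i ∈ J, 0 ≤ e i) :
    ∑ i ∈ J, ρ ^ (e i).toNat ≤ (1 - ρ)⁻¹ := by
  rw [← sum_image (s := J) (g := fun i => (e i).toNat) (f := fun m : ℕ => ρ ^ m)
    (fun i hi j hj h => he (by have := hJ i hi; have := hJ j hj; beta_reduce at h; omega)),
    ← tsum_geometric_of_lt_one h0 h1]
  exact (summable_geometric_of_lt_one h0 h1).sum_le_tsum _ fun _ _ => by positivity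

lemma dyadic (H : ℝ) (hH : 0 < H) : ∃ m : ℤ, (2 : ℝ) ^ (m : ℝ) ≤ H ∧ H < 2 * 2 ^ (m : ℝ) := by
  obtain ⟨m, h1, h2⟩ := exists_mem_Ico_zpow hH (one_lt_two (α := ℝ))
  refine ⟨m, by rwa [Real.rpow_intCast], ?_⟩
  rwa [Real.rpow_intCast, mul_comm, ← zpow_add_one₀ two_ne_zero]

lemma sum_low {e : ℝ} (he : 0 < e) (J : Finset ℤ) {H : ℝ} (hH : 0 < H) :
    ∑ i ∈ J.filter (fun i : ℤ => (2 : ℝ) ^ (i : ℝ) < H), ((2 : ℝ) ^ (i : ℝ)) ^ e ≤
      H ^ e * (1 - 2 ^ (-e))⁻¹ := by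
  obtain ⟨m, h1, h2⟩ := dyadic H hH
  have hi : ∀ i ∈ J.filter fun i : ℤ => (2 : ℝ) ^ (i : ℝ) < H, 0 ≤ m - i := fun i hi => by
    have h3 := (mem_filter.1 hi).2.trans h2
    rw [mul_comm, ← Real.rpow_add_one two_ne_zero,
      Real.rpow_lt_rpow_left_iff one_lt_two] at h3
    have : i < m + 1 := by exact_mod_cast h3
    omega
  refine le_trans (sum_le_sum fun i h => ?_) ((le_of_eq (mul_sum _ _ _).symm).trans
    (mul_le_mul_of_nonneg_left (geom_int (by positivity)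
      (Real.rpow_lt_one_of_one_lt_of_neg one_lt_two (neg_lt_zero.2 he)) _ (fun i => m - i)
      (fun a b h => by beta_reduce at h; omega) hi) (by positivity)))
  refine le_trans (le_of_eq ?_) (mul_le_mul_of_nonneg_right
    (Real.rpow_le_rpow (by positivity) h1 he.le) (by positivity))
  have h4 : (((m - i).toNat : ℕ) : ℝ) = m - i := by
    have := Int.toNat_of_nonneg (hi i h)
    exact_mod_cast this
  rw [← Real.rpow_natCast, h4, ← Real.rpow_mul zero_le_two, ← Real.rpow_mul zero_le_two,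
    ← Real.rpow_mul zero_le_two, ← Real.rpow_add two_pos]
  congr 1; ring

lemma sum_high {e : ℝ} (he : 0 < e) (J : Finset ℤ) {H : ℝ} (hH : 0 < H) :
    ∑ i ∈ J.filter (fun i : ℤ => ¬ (2 : ℝ) ^ (i : ℝ) < H), ((2 : ℝ) ^ (i : ℝ)) ^ (-e) ≤
      H ^ (-e) * (2 ^ e * (1 - 2 ^ (-e))⁻¹) := by
  obtain ⟨m, h1, h2⟩ := dyadic H hH
  have hi : ∀ i ∈ J.filter fun i : ℤ => ¬ (2 : ℝ) ^ (i : ℝ) < H, 0 ≤ i - m := fun i hi => by
    have h3 := h1.trans (not_lt.1 (mem_filter.1 hi).2)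
    rw [Real.rpow_le_rpow_left_iff one_lt_two] at h3
    have : m ≤ i := by exact_mod_cast h3
    omega
  rw [← mul_assoc]
  refine le_trans (sum_le_sum fun i h => ?_) ((le_of_eq (mul_sum _ _ _).symm).trans
    (mul_le_mul_of_nonneg_left (geom_int (by positivity)
      (Real.rpow_lt_one_of_one_lt_of_neg one_lt_two (neg_lt_zero.2 he)) _ (fun i => i - m)
      (fun a b h => by beta_reduce at h; omega) hi) (by positivity)))
  have h5 := Real.rpow_le_rpow_of_nonpos hH h2.le (show -e ≤ 0 by linarith)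
  refine le_trans (le_of_eq ?_) (mul_le_mul_of_nonneg_right
    (mul_le_mul_of_nonneg_right h5 (by positivity)) (by positivity))
  have h4 : (((i - m).toNat : ℕ) : ℝ) = i - m := by
    have := Int.toNat_of_nonneg (hi i h)
    exact_mod_cast this
  rw [← Real.rpow_natCast, h4, Real.mul_rpow zero_le_two (by positivity),
    ← Real.rpow_mul zero_le_two, ← Real.rpow_mul zero_le_two,
    ← Real.rpow_mul zero_le_two, ← Real.rpow_add two_pos, ← Real.rpow_add two_pos,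
    ← Real.rpow_add two_pos]
  congr 1; ring

universe u v in
lemma marc_one {q₀ q q₁ : ℝ} (h0 : 0 < q₀) (h1 : q₀ < q) (h2 : q < q₁) : ∃ C : ℝ, 0 < C ∧
    ∀ {ι : Type u} {κ : Type v} [Fintype ι] [Fintype κ] (K : Matrix ι κ ℝ) (a : ℝ), 0 ≤ a →
      OB q₀ K a → OB q₁ K a → OB q K (C * a) := by
  have hg : ∀ e : ℝ, 0 < e → 0 < (1 - (2 : ℝ) ^ (-e))⁻¹ := fun e he => inv_pos.2 (by
    linarith [Real.rpow_lt_one_of_one_lt_of_neg (x := 2) (z := -e) one_lt_two (by linarith)])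
  have g0 := hg (q - q₀) (by linarith)
  have g1 := hg (q₁ - q) (by linarith)
  refine ⟨2 ^ q * (2 ^ q₀ * (1 - 2 ^ (-(q - q₀)))⁻¹ +
    2 ^ q₁ * (2 ^ (q₁ - q) * (1 - 2 ^ (-(q₁ - q)))⁻¹)), by positivity,
    fun {ι κ} _ _ K a ha H0 H1 g => ?_⟩
  classical
  let t : ℤ → ℝ := fun i => (2 : ℝ) ^ (i : ℝ)
  have ht : ∀ i, 0 < t i := fun i => by positivity
  let b : ℤ → κ → ℝ := fun i z => if t i < |g z| then g z else 0
  let s : ℤ → κ → ℝ := fun i z => if t i < |g z| then 0 else g z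
  let F : ℤ → ι → ℝ := fun i x => 2 ^ q * (2 ^ q₀ * (t i ^ (q - q₀) * |(K *ᵥ b i) x| ^ q₀) +
    2 ^ q₁ * (t i ^ (-(q₁ - q)) * |(K *ᵥ s i) x| ^ q₁))
  have hF : ∀ i x, 0 ≤ F i x := fun i x => by have := ht i; positivity
  have key : ∀ x, ∃ i, |(K *ᵥ g) x| ^ q ≤ F i x := by
    intro x
    rcases (abs_nonneg ((K *ᵥ g) x)).eq_or_lt with h | h
    · exact ⟨0, by rw [← h, Real.zero_rpow (by linarith)]; exact hF 0 x⟩
    obtain ⟨i, h3, h4⟩ := dyadic _ h
    refine ⟨i, ?_⟩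
    have h5 : (K *ᵥ g) x = (K *ᵥ b i) x + (K *ᵥ s i) x := by
      rw [← Pi.add_apply, ← mulVec_add]
      congr 2; funext z; simp only [b, s, Pi.add_apply]; split_ifs <;> simp
    have h6 : ∀ (y e : ℝ), 0 < e → t i ≤ 2 * |y| → t i ^ q ≤ 2 ^ e * (t i ^ (q - e) * |y| ^ e) := by
      intro y e he hy
      have := Real.rpow_le_rpow (ht i).le hy he.le
      rw [Real.mul_rpow zero_le_two (abs_nonneg _)] at this
      calc t i ^ q = t i ^ (q - e) * t i ^ e := by rw [← Real.rpow_add (ht i), sub_add_cancel]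
        _ ≤ t i ^ (q - e) * (2 ^ e * |y| ^ e) :=
          mul_le_mul_of_nonneg_left this (by have := ht i; positivity)
        _ = _ := by ring
    refine (Real.rpow_le_rpow h.le h4.le (by linarith)).trans ?_
    rw [Real.mul_rpow zero_le_two (by positivity)]
    refine mul_le_mul_of_nonneg_left ?_ (by positivity)
    have h7 := abs_add_le ((K *ᵥ b i) x) ((K *ᵥ s i) x)
    rw [← h5] at h7
    have := ht i
    rcases le_total (|(K *ᵥ b i) x|) (|(K *ᵥ s i) x|) with h8 | h8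
    · rw [neg_sub]
      exact (h6 _ q₁ (by linarith) (by simp only [t]; linarith)).trans
        (le_add_of_nonneg_left (by positivity))
    · exact (h6 _ q₀ h0 (by simp only [t]; linarith)).trans (le_add_of_nonneg_right (by positivity))
  choose I hI using key
  have h3 : sp q (K *ᵥ g) ≤ ∑ i ∈ univ.image I, ∑ x, F i x := by
    rw [sum_comm]
    exact sum_le_sum fun x _ => (hI x).trans (single_le_sum (f := fun i => F i x)
      (fun i _ => hF i x) (mem_image_of_mem I (mem_univ x)))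
  have h4 : ∀ i, ∑ x, F i x ≤ 2 ^ q * (2 ^ q₀ * (a * ∑ z, t i ^ (q - q₀) * |b i z| ^ q₀) +
      2 ^ q₁ * (a * ∑ z, t i ^ (-(q₁ - q)) * |s i z| ^ q₁)) := by
    intro i
    have := ht i
    simp only [F, ← mul_sum, sum_add_distrib]
    rw [mul_left_comm a, mul_left_comm a]
    gcongr
    · exact H0 (b i)
    · exact H1 (s i)
  refine h3.trans ((sum_le_sum fun i _ => h4 i).trans ?_)
  simp only [← mul_sum, sum_add_distrib]
  simp only [mul_sum (s := univ)]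
  rw [sum_comm, sum_comm (s := univ.image I)]
  have h5 : ∀ z, ∑ i ∈ univ.image I, t i ^ (q - q₀) * |b i z| ^ q₀ ≤
      (1 - 2 ^ (-(q - q₀)))⁻¹ * |g z| ^ q := by
    intro z
    rcases (abs_nonneg (g z)).eq_or_lt with h | h
    · have : ∀ i, b i z = 0 := fun i => if_neg (by rw [← h]; exact (ht i).not_gt)
      simp only [this, abs_zero, Real.zero_rpow h0.ne', mul_zero, sum_const_zero]; positivity
    have h6 := mul_le_mul_of_nonneg_right (sum_low (e := q - q₀) (by linarith) (univ.image I) h)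
      (show 0 ≤ |g z| ^ q₀ by positivity)
    rw [mul_right_comm, ← Real.rpow_add h, sub_add_cancel, sum_filter, sum_mul, mul_comm] at h6
    refine le_trans (le_of_eq (sum_congr rfl fun i _ => ?_)) h6
    simp only [b, t]; split_ifs <;> simp [h0.ne']
  have h6 : ∀ z, ∑ i ∈ univ.image I, t i ^ (-(q₁ - q)) * |s i z| ^ q₁ ≤
      2 ^ (q₁ - q) * (1 - 2 ^ (-(q₁ - q)))⁻¹ * |g z| ^ q := by
    intro z
    have hq₁ : q₁ ≠ 0 := by linarith
    rcases (abs_nonneg (g z)).eq_or_lt with h | h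
    · have : ∀ i, s i z = 0 := fun i => by simp only [s, abs_eq_zero.1 h.symm, ite_self]
      simp only [this, abs_zero, Real.zero_rpow hq₁, mul_zero, sum_const_zero]; positivity
    have h6 := mul_le_mul_of_nonneg_right (sum_high (e := q₁ - q) (by linarith) (univ.image I) h)
      (show 0 ≤ |g z| ^ q₁ by positivity)
    rw [mul_right_comm, ← Real.rpow_add h, show -(q₁ - q) + q₁ = q by ring, sum_filter, sum_mul,
      mul_comm] at h6
    refine le_trans (le_of_eq (sum_congr rfl fun i _ => ?_)) h6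
    simp only [s, t]; split_ifs <;> simp [hq₁]
  have h7 := sum_le_sum fun z (_ : z ∈ univ) => h5 z
  have h8 := sum_le_sum fun z (_ : z ∈ univ) => h6 z
  rw [← mul_sum] at h7 h8
  calc _ ≤ 2 ^ q * (2 ^ q₀ * (a * ((1 - 2 ^ (-(q - q₀)))⁻¹ * ∑ z, |g z| ^ q)) +
      2 ^ q₁ * (a * (2 ^ (q₁ - q) * (1 - 2 ^ (-(q₁ - q)))⁻¹ * ∑ z, |g z| ^ q))) := by gcongr
    _ = _ := by rw [sp]; ring

lemma OB_smul {p c A : ℝ} (hc : 0 < c) {K : Matrix ι κ ℝ} (h : OB p K A) :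
    OB p (c • K) (c ^ p * A) := by
  intro g
  rw [smul_mulVec, mul_assoc]
  refine le_trans (le_of_eq ?_) (mul_le_mul_of_nonneg_left (h g) (by positivity))
  rw [sp, sp, mul_sum]
  refine sum_congr rfl fun x _ => ?_
  rw [Pi.smul_apply, smul_eq_mul, abs_mul, abs_of_pos hc, Real.mul_rpow hc.le (abs_nonneg _)]

universe u v in
/-- real interpolation -/
lemma marc {q₀ q q₁ : ℝ} (h0 : 0 < q₀) (h1 : q₀ < q) (h2 : q < q₁) : ∃ C : ℝ, 0 < C ∧
    ∀ {ι : Type u} {κ : Type v} [Fintype ι] [Fintype κ] (K : Matrix ι κ ℝ) (a ω : ℝ), 0 ≤ a →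
      0 < ω → OB q₀ K (a * ω ^ q₀) → OB q₁ K (a * ω ^ q₁) → OB q K (C * a * ω ^ q) := by
  obtain ⟨C, hC, h⟩ := marc_one.{u, v} h0 h1 h2
  refine ⟨C, hC, fun K a ω ha hω H0 H1 => ?_⟩
  have e : ∀ e : ℝ, ω⁻¹ ^ e * (a * ω ^ e) = a := fun e => by
    rw [Real.inv_rpow hω.le]; field_simp
  have h3 := OB_smul hω (h (ω⁻¹ • K) a ha (by simpa only [e] using OB_smul (inv_pos.2 hω) H0)
    (by simpa only [e] using OB_smul (inv_pos.2 hω) H1))
  rwa [smul_smul, mul_inv_cancel₀ hω.ne', one_smul, mul_comm] at h3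

end Pool.Agent.Lib.MP_919f0c_an.Lp
end

-- part Pool.Agent.Lib.MP_919f0c_an.LpHaar
section

/-! Tensor Haar projections on a finite dyadic grid. -/

set_option autoImplicit false

open Finset Matrix

namespace Pool.Agent.Lib.MP_919f0c_an.Lp

section Orth

universe u v

lemma orth_two {G : Type u} {ι : Type v} [Fintype G] [Fintype ι] [DecidableEq ι]
    (D : ι → Matrix G G ℝ) (hs : ∀ c, (D c)ᵀ = D c)
    (ho : ∀ c c', D c * D c' = if c = c' then D c else 0) :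
    OB 2 (of fun (y : ι × G) x => D y.1 x y.2) 1 := by
  intro h
  set u := ∑ c, D c *ᵥ h with hu
  have h1 : ∀ c c', (D c *ᵥ h) ⬝ᵥ (D c' *ᵥ h) = if c = c' then h ⬝ᵥ (D c *ᵥ h) else 0 := by
    intro c c'
    rw [dotProduct_mulVec, vecMul_mulVec, hs, ho, dotProduct_mulVec]
    split_ifs <;> simp
  have h2 : u ⬝ᵥ u = h ⬝ᵥ u := by
    simp only [hu, sum_dotProduct, dotProduct_sum, h1, sum_ite_eq', mem_univ, if_true]
  have h3 : sp 2 ((of fun (y : ι × G) x => D y.1 x y.2) *ᵥ h) = h ⬝ᵥ u := by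
    rw [sp, Fintype.sum_prod_type, hu, dotProduct_sum]
    refine sum_congr rfl fun c _ => ?_
    have := h1 c c
    rw [if_pos rfl] at this
    rw [← this]
    refine sum_congr rfl fun z _ => ?_
    rw [Real.rpow_two, sq_abs, sq]
    congr 1 <;> exact sum_congr rfl fun x _ => by rw [← hs c]; simp
  have h4 : 0 ≤ (h - u) ⬝ᵥ (h - u) := sum_nonneg fun x _ => mul_self_nonneg _
  rw [sub_dotProduct, dotProduct_sub, dotProduct_sub, h2, dotProduct_comm u h] at h4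
  have h5 : sp 2 h = h ⬝ᵥ h := sum_congr rfl fun x _ => by rw [Real.rpow_two, sq_abs, sq]
  rw [h3, h5]; linarith

/-- a family of mutually orthogonal projections with bounded kernels -/
structure Fam {G : Type u} {ι : Type v} [Fintype G] [DecidableEq ι] (𝒯 : Finset ι)
    (D : ι → Matrix G G ℝ) (B : ℝ) : Prop where
  symm : ∀ c ∈ 𝒯, (D c)ᵀ = D c
  orth : ∀ c ∈ 𝒯, ∀ c' ∈ 𝒯, D c * D c' = if c = c' then D c else 0
  row : ∀ c ∈ 𝒯, ∀ x, ∑ z, |D c x z| ≤ B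

lemma big_apply {G : Type u} {ι : Type v} [Fintype G] (𝒯 : Finset ι) (D : ι → Matrix G G ℝ)
    (g : ι → G → ℝ) {p A : ℝ} (h : OB p (of fun (y : 𝒯 × G) x => D y.1 x y.2)ᵀ A) :
    sp p (∑ c ∈ 𝒯, D c *ᵥ g c) ≤ A * ∑ c ∈ 𝒯, sp p (g c) := by
  have := h fun y => g y.1 y.2
  rw [sp, sp, Fintype.sum_prod_type, sum_coe_sort 𝒯 fun c => ∑ z, |g c z| ^ p] at this
  refine le_trans (le_of_eq (sum_congr rfl fun x _ => ?_)) this
  rw [Finset.sum_apply, mulVec, dotProduct, Fintype.sum_prod_type, ← sum_coe_sort 𝒯]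
  rfl

lemma Fam.two {G : Type u} {ι : Type v} [Fintype G] [DecidableEq ι] {𝒯 : Finset ι}
    {D : ι → Matrix G G ℝ} {B : ℝ} (h : Fam 𝒯 D B) :
    OB 2 (of fun (y : 𝒯 × G) x => D y.1 x y.2) 1 :=
  orth_two (fun c : 𝒯 => D c) (fun c => h.symm c c.2) fun c c' => by
    rw [h.orth c c.2 c' c'.2]; exact if_congr Subtype.ext_iff.symm rfl rfl

lemma Fam.big_row {G : Type u} {ι : Type v} [Fintype G] [DecidableEq ι] {𝒯 : Finset ι}
    {D : ι → Matrix G G ℝ} {B : ℝ} (h : Fam 𝒯 D B) :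
    (∀ y : 𝒯 × G, ∑ x, |D y.1 x y.2| ≤ B) ∧ ∀ x, ∑ y : 𝒯 × G, |D y.1 x y.2| ≤ #𝒯 * B := by
  refine ⟨fun y => ?_, fun x => ?_⟩
  · rw [← h.symm _ y.1.2]; exact h.row _ y.1.2 _
  · rw [Fintype.sum_prod_type]
    simpa using sum_le_card_nsmul univ _ B fun (c : 𝒯) _ => h.row c c.2 x

lemma orth_small {p B : ℝ} (h1 : 1 < p) (h2 : p < 2) (hB : 1 ≤ B) : ∃ C : ℝ, 0 < C ∧
    ∀ {G : Type u} {ι : Type v} [Fintype G] [DecidableEq ι] (𝒯 : Finset ι) (D : ι → Matrix G G ℝ),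
      Fam 𝒯 D B → ∀ g : ι → G → ℝ,
        nm p (∑ c ∈ 𝒯, D c *ᵥ g c) ≤ C * (∑ c ∈ 𝒯, nm p (g c) ^ p) ^ (1 / p) := by
  obtain ⟨C, hC, h⟩ := marc.{u, max u v} one_pos h1 h2
  have hp : 0 < p := by linarith
  refine ⟨(C * B) ^ (1 / p), by positivity, fun 𝒯 D hD g => ?_⟩
  have h3 := h (of fun (y : 𝒯 × _) x => D y.1 x y.2)ᵀ B 1 (by linarith) one_pos
    ((schur le_rfl _ (by positivity) hD.big_row.2 hD.big_row.1).mono (by simp))
    ((dual Real.HolderConjugate.two_two one_pos (by simpa using hD.two)).mono (by simpa using hB))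
  have h4 := big_apply 𝒯 D g h3
  simp only [nm_pow hp]
  rw [← Real.mul_rpow (by positivity) (sum_nonneg fun c _ => sp_nonneg _ _)]
  exact Real.rpow_le_rpow (sp_nonneg _ _) (by simpa using h4) (by positivity)

lemma orth_card {p B : ℝ} (h2 : 2 ≤ p) (hB : 1 ≤ B) : ∃ C : ℝ, 0 < C ∧
    ∀ {G : Type u} {ι : Type v} [Fintype G] [DecidableEq ι] (𝒯 : Finset ι) (D : ι → Matrix G G ℝ),
      Fam 𝒯 D B → ∀ (g : ι → G → ℝ) (t : ℝ), 0 ≤ t → (∀ c ∈ 𝒯, nm p (g c) ≤ t) →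
        nm p (∑ c ∈ 𝒯, D c *ᵥ g c) ≤ C * ((#𝒯 : ℝ) ^ (1 - p⁻¹) * t) := by
  have hp : 0 < p := by linarith
  have hpq := Real.HolderConjugate.conjExponent (show 1 < p by linarith)
  set q := Real.conjExponent p
  have hq := hpq.symm.pos
  have he := hpq.inv_add_inv_eq_one
  obtain ⟨C, hC, h⟩ : ∃ C : ℝ, 0 < C ∧ ∀ {G : Type u} {ι : Type v} [Fintype G] [DecidableEq ι]
      (𝒯 : Finset ι) (D : ι → Matrix G G ℝ), Fam 𝒯 D B → 0 < #𝒯 →
      OB q (of fun (y : 𝒯 × G) x => D y.1 x y.2) (C * (#𝒯 : ℝ) ^ (2 - q)) := by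
    rcases h2.eq_or_lt with rfl | h2
    · have : q = 2 := by simp only [q, Real.conjExponent]; norm_num
      exact ⟨1, one_pos, fun 𝒯 D hD _ => by simpa [this] using hD.two⟩
    have hq2 : q < 2 := by
      have := inv_strictAnti₀ two_pos h2
      exact (inv_lt_inv₀ two_pos hq).1 (by linarith)
    obtain ⟨C, hC, h⟩ := marc.{max u v, u} one_pos hpq.symm.lt hq2
    refine ⟨C * B, by positivity, fun 𝒯 D hD h0 => ?_⟩
    have h0' : (0 : ℝ) < #𝒯 := by exact_mod_cast h0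
    refine (h _ (B * #𝒯 ^ 2) (#𝒯 : ℝ)⁻¹ (by positivity) (by positivity)
      ((schur le_rfl _ (by linarith) hD.big_row.1 hD.big_row.2).mono (le_of_eq ?_))
      (hD.two.mono ?_)).mono (le_of_eq ?_)
    · simp; field_simp
    · rw [Real.rpow_two]; field_simp; exact hB
    · rw [Real.rpow_sub h0', Real.inv_rpow h0'.le, Real.rpow_two]; field_simp
  refine ⟨C ^ q⁻¹, by positivity, fun 𝒯 D hD g t ht hg => ?_⟩
  rcases Nat.eq_zero_or_pos #𝒯 with h0 | h0
  · rw [card_eq_zero.1 h0, sum_empty, nm_zero hp]; positivity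
  have h0' : (0 : ℝ) < #𝒯 := by exact_mod_cast h0
  have h3 := big_apply 𝒯 D g (dual hpq (A := (C * (#𝒯 : ℝ) ^ (2 - q)) ^ q⁻¹) (by positivity)
    (by rw [Real.rpow_inv_rpow (by positivity) hq.ne']; exact h 𝒯 D hD h0))
  refine nm_le hp (by positivity) (h3.trans ?_)
  have h4 : ∑ c ∈ 𝒯, sp p (g c) ≤ ((#𝒯 : ℝ) ^ p⁻¹ * t) ^ p := by
    rw [Real.mul_rpow (by positivity) ht, Real.rpow_inv_rpow h0'.le hp.ne', ← nsmul_eq_mul]
    refine sum_le_card_nsmul _ _ _ fun c hc => ?_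
    rw [← nm_pow hp]
    exact Real.rpow_le_rpow (nm_nonneg _ _) (hg c hc) hp.le
  refine (mul_le_mul_of_nonneg_left h4 (by positivity)).trans (le_of_eq ?_)
  rw [← Real.mul_rpow (by positivity) (by positivity), Real.mul_rpow hC.le (by positivity),
    ← Real.rpow_mul h0'.le, mul_assoc, ← mul_assoc (_ ^ _) _ t, ← Real.rpow_add h0']
  congr 4
  rw [sub_mul, mul_inv_cancel₀ hq.ne']; linarith

/-- the admissible pairs of exponents -/
def Adm (p τ : ℝ) : Prop := (1 < p ∧ p < 2 ∧ τ = p) ∨ (2 ≤ p ∧ 1 ≤ τ ∧ τ * (1 - p⁻¹) < 1)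

lemma orth_sum {p τ B : ℝ} (h : Adm p τ) (hB : 1 ≤ B) : ∃ C : ℝ, 0 < C ∧
    ∀ {G : Type u} {ι : Type v} [Fintype G] [DecidableEq ι] (𝒯 : Finset ι) (D : ι → Matrix G G ℝ),
      Fam 𝒯 D B → ∀ g : ι → G → ℝ,
        nm p (∑ c ∈ 𝒯, D c *ᵥ g c) ≤ C * (∑ c ∈ 𝒯, nm p (g c) ^ τ) ^ (1 / τ) := by
  rcases h with ⟨h1, h2, rfl⟩ | ⟨h2, h1, h3⟩
  · exact orth_small h1 h2 hB
  obtain ⟨C, hC, h⟩ := orth_card.{u, v} h2 hB
  have hp : 0 < p := by linarith
  have hτ : 0 < τ := by linarith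
  set e := 1 - τ * (1 - p⁻¹) with he
  have he0 : 0 < e := by linarith
  have hg0 : 0 < (1 - (2 : ℝ) ^ (-e))⁻¹ := inv_pos.2 (by
    linarith [Real.rpow_lt_one_of_one_lt_of_neg (x := 2) (z := -e) one_lt_two (by linarith)])
  refine ⟨C * (2 * (2 ^ e * (1 - (2 : ℝ) ^ (-e))⁻¹)), by positivity, fun 𝒯 D hD g => ?_⟩
  classical
  set σ := (∑ c ∈ 𝒯, nm p (g c) ^ τ) ^ (1 / τ) with hσ
  have hn : ∀ c, 0 ≤ nm p (g c) ^ τ := fun c => Real.rpow_nonneg (nm_nonneg _ _) _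
  have hστ : σ ^ τ = ∑ c ∈ 𝒯, nm p (g c) ^ τ := by
    rw [hσ, one_div, Real.rpow_inv_rpow (sum_nonneg fun c _ => hn c) hτ.ne']
  have hσ0 : 0 ≤ σ := Real.rpow_nonneg (sum_nonneg fun c _ => hn c) _
  let 𝒰 := 𝒯.filter fun c => 0 < nm p (g c)
  choose! m hm using fun c (hc : 0 < nm p (g c)) => dyadic _ hc
  have h4 : ∑ c ∈ 𝒯, D c *ᵥ g c = ∑ i ∈ 𝒰.image m, ∑ c ∈ 𝒰 with m c = i, D c *ᵥ g c := by
    rw [sum_fiberwise_of_maps_to fun c hc => mem_image_of_mem m hc, sum_filter]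
    refine sum_congr rfl fun c _ => ?_
    split_ifs with h5
    · rfl
    · have : g c = 0 := funext fun x => abs_nonpos_iff.1 ((abs_le_nm hp _ x).trans (not_lt.1 h5))
      rw [this, mulVec_zero]
  have h5 : ∀ i ∈ 𝒰.image m, nm p (∑ c ∈ 𝒰 with m c = i, D c *ᵥ g c) ≤
      C * (2 * σ ^ (1 - e)) * ((2 : ℝ) ^ (i : ℝ)) ^ e := by
    intro i _
    have hsub : (𝒰.filter fun c => m c = i) ⊆ 𝒯 := (filter_subset _ _).trans (filter_subset _ _)
    have hc : ∀ c ∈ 𝒰.filter fun c => m c = i,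
        (2 : ℝ) ^ (i : ℝ) ≤ nm p (g c) ∧ nm p (g c) < 2 * 2 ^ (i : ℝ) := fun c hc => by
      rw [← (mem_filter.1 hc).2]; exact hm c (mem_filter.1 (mem_filter.1 hc).1).2
    refine (h _ D ⟨fun c hc => hD.symm c (hsub hc), fun c hc c' hc' => hD.orth c (hsub hc) c'
      (hsub hc'), fun c hc => hD.row c (hsub hc)⟩ g _ (by positivity)
      fun c h => (hc c h).2.le).trans ?_
    set t := (2 : ℝ) ^ (i : ℝ)
    have ht : 0 < t := by positivity
    have h6 : (#(𝒰.filter fun c => m c = i) : ℝ) ≤ (σ / t) ^ τ := by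
      rw [Real.div_rpow hσ0 ht.le, le_div_iff₀ (by positivity), hστ, ← nsmul_eq_mul]
      exact (card_nsmul_le_sum _ _ _ fun c h => Real.rpow_le_rpow ht.le (hc c h).1 hτ.le).trans
        (sum_le_sum_of_subset_of_nonneg hsub fun c _ _ => hn c)
    have h7 := Real.rpow_le_rpow (by positivity) h6 (show 0 ≤ 1 - p⁻¹ by
      linarith [inv_le_one_of_one_le₀ (show 1 ≤ p by linarith)])
    rw [← Real.rpow_mul (by positivity), show τ * (1 - p⁻¹) = 1 - e by linarith,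
      Real.div_rpow hσ0 ht.le, Real.rpow_sub ht, Real.rpow_one] at h7
    rw [mul_assoc]
    refine mul_le_mul_of_nonneg_left ((mul_le_mul_of_nonneg_right h7 (by positivity)).trans
      (le_of_eq ?_)) hC.le
    field_simp
  rw [h4]
  refine (nm_sum (by linarith) _ _).trans ((sum_le_sum h5).trans ?_)
  rcases (𝒰.image m).eq_empty_or_nonempty with h6 | ⟨i, hi⟩
  · rw [h6, sum_empty]; positivity
  have h7 : ∀ c ∈ 𝒯, nm p (g c) ≤ σ := fun c hc => by
    rw [← Real.rpow_le_rpow_iff (nm_nonneg _ _) hσ0 hτ, hστ]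
    exact single_le_sum (f := fun c => nm p (g c) ^ τ) (fun c _ => hn c) hc
  obtain ⟨c, hc, -⟩ := mem_image.1 hi
  have hσp : 0 < σ := (mem_filter.1 hc).2.trans_le (h7 c (mem_filter.1 hc).1)
  have h8 := sum_low he0 (𝒰.image m) (H := 2 * σ) (by positivity)
  rw [filter_true_of_mem fun i hi => by
    obtain ⟨c, hc, rfl⟩ := mem_image.1 hi
    linarith [(hm c (mem_filter.1 hc).2).1, h7 c (mem_filter.1 hc).1]] at h8
  rw [← mul_sum]
  refine (mul_le_mul_of_nonneg_left h8 (by positivity)).trans (le_of_eq ?_)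
  rw [Real.mul_rpow zero_le_two hσ0, Real.rpow_sub hσp, Real.rpow_one]
  field_simp

end Orth

section Tens
variable {d : ℕ} {X : Fin d → Type*} [∀ i, Fintype (X i)]

/-- tensor product of matrices -/
def tens (A : ∀ i, Matrix (X i) (X i) ℝ) : Matrix (∀ i, X i) (∀ i, X i) ℝ :=
  of fun x z => ∏ i, A i (x i) (z i)

lemma sum_pi_prod (F : ∀ i, X i → ℝ) : ∑ z : ∀ i, X i, ∏ i, F i (z i) = ∏ i, ∑ z, F i z := by
  rw [prod_univ_sum, Fintype.piFinset_univ]

lemma tens_mul (A B : ∀ i, Matrix (X i) (X i) ℝ) : tens A * tens B = tens fun i => A i * B i := by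
  ext x y
  simp only [tens, mul_apply, of_apply, ← prod_mul_distrib]
  exact sum_pi_prod fun i z => A i (x i) z * B i z (y i)

omit [∀ i, Fintype (X i)] in
lemma tens_one [∀ i, DecidableEq (X i)] : tens (fun i => (1 : Matrix (X i) (X i) ℝ)) = 1 := by
  ext x y
  simp [tens, one_apply, prod_ite_zero, funext_iff]

omit [∀ i, Fintype (X i)] in
lemma tens_sum (J : Fin d → Finset ℕ) (A : ∀ i, ℕ → Matrix (X i) (X i) ℝ) :
    tens (fun i => ∑ j ∈ J i, A i j) = ∑ s ∈ Fintype.piFinset J, tens fun i => A i (s i) := by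
  ext x y
  simp only [tens, of_apply, Matrix.sum_apply]
  exact prod_univ_sum J fun i j => A i j (x i) (y i)

lemma tens_row {A : ∀ i, Matrix (X i) (X i) ℝ} {B : ℝ} (h : ∀ i x, ∑ z, |A i x z| ≤ B)
    (x : ∀ i, X i) : ∑ z, |tens A x z| ≤ B ^ d := by
  simp only [tens, of_apply, abs_prod]
  rw [sum_pi_prod fun i z => |A i (x i) z|]
  simpa using prod_le_prod (s := univ) (fun i _ => sum_nonneg fun z _ => abs_nonneg (A i (x i) z))
    fun i _ => h i (x i)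

lemma nm_tens {p B : ℝ} (hp : 1 ≤ p) (hB : 0 ≤ B) {A : ∀ i, Matrix (X i) (X i) ℝ}
    (hs : ∀ i x z, A i x z = A i z x) (h : ∀ i x, ∑ z, |A i x z| ≤ B) (g : (∀ i, X i) → ℝ) :
    nm p (tens A *ᵥ g) ≤ B ^ d * nm p g :=
  nm_schur hp _ (by positivity) (tens_row h) (fun z => by
    simpa only [tens, of_apply, hs _ _ (z _)] using tens_row h z) g

end Tens

lemma card_fib {W p : ℕ} (h : p ≤ W) (x : Fin (2 ^ W)) :
    #{z : Fin (2 ^ W) | z.1 / 2 ^ p = x.1 / 2 ^ p} = 2 ^ p := by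
  have hp : 0 < 2 ^ p := by positivity
  have h1 : x.1 / 2 ^ p * 2 ^ p + 2 ^ p ≤ 2 ^ W := by
    have h2 : 2 ^ W = 2 ^ (W - p) * 2 ^ p := by rw [← pow_add, Nat.sub_add_cancel h]
    have h3 : x.1 / 2 ^ p < 2 ^ (W - p) := by rw [Nat.div_lt_iff_lt_mul hp, ← h2]; exact x.2
    rw [← add_one_mul]
    exact (Nat.mul_le_mul_right _ h3).trans h2.ge
  rw [← card_map Fin.valEmbedding, show map Fin.valEmbedding _ =
    Ico (x.1 / 2 ^ p * 2 ^ p) (x.1 / 2 ^ p * 2 ^ p + 2 ^ p) from ?_]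
  · simp
  ext z
  simp only [mem_map, mem_filter, mem_univ, true_and, Fin.valEmbedding_apply, mem_Ico,
    Nat.div_eq_iff hp]
  exact ⟨fun ⟨y, hy, h⟩ => by omega, fun hz => ⟨⟨z, by omega⟩, by simp only; omega, rfl⟩⟩

lemma div_eq_of_le {x z p q : ℕ} (h : p ≤ q) (hx : x / 2 ^ p = z / 2 ^ p) :
    x / 2 ^ q = z / 2 ^ q := by
  rw [← Nat.add_sub_cancel' h, pow_add, ← Nat.div_div_eq_div_mul, hx, Nat.div_div_eq_div_mul]

/-- averaging over blocks of length `2 ^ p` -/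
noncomputable def ek (W p : ℕ) : Matrix (Fin (2 ^ W)) (Fin (2 ^ W)) ℝ :=
  of fun x z => if z.1 / 2 ^ p = x.1 / 2 ^ p then (2 ^ p)⁻¹ else 0

lemma ek_nonneg (W p : ℕ) (x z : Fin (2 ^ W)) : 0 ≤ ek W p x z := by
  simp only [ek, of_apply]; split_ifs <;> positivity

lemma ek_symm (W p : ℕ) (x z : Fin (2 ^ W)) : ek W p x z = ek W p z x := by
  simp only [ek, of_apply, eq_comm]

lemma ek_row {W p : ℕ} (h : p ≤ W) (x : Fin (2 ^ W)) : ∑ z, ek W p x z = 1 := by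
  simp [ek, ← sum_filter, card_fib h]

lemma ek_mul {W p q : ℕ} (hp : p ≤ W) (hq : q ≤ W) : ek W p * ek W q = ek W (max p q) := by
  have key : ∀ p q, p ≤ q → p ≤ W → ek W p * ek W q = ek W q := fun p q h hp => by
    ext x y
    rw [mul_apply, ← one_mul (ek W q x y), ← ek_row hp x, sum_mul]
    refine sum_congr rfl fun z _ => ?_
    by_cases h1 : z.1 / 2 ^ p = x.1 / 2 ^ p
    · simp only [ek, of_apply, div_eq_of_le h h1]
    · simp [ek, h1]
  rcases le_total p q with h | h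
  · rw [max_eq_right h, key p q h hp]
  · ext x y
    rw [max_eq_left h, ek_symm, ← congrFun₂ (key q p h hq) y x, mul_apply, mul_apply]
    exact sum_congr rfl fun z _ => by rw [ek_symm W p, ek_symm W q, mul_comm]

/-- projection onto the levels below `j` -/
noncomputable def fk (W j : ℕ) : Matrix (Fin (2 ^ W)) (Fin (2 ^ W)) ℝ :=
  if j = 0 then 0 else ek W (W + 1 - j)

lemma fk_mul (W a b : ℕ) : fk W a * fk W b = fk W (min a b) := by
  unfold fk
  by_cases ha : a = 0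
  · simp [ha]
  by_cases hb : b = 0
  · simp [hb]
  rw [if_neg ha, if_neg hb, if_neg (by omega), ek_mul (by omega) (by omega)]
  congr 1; omega

lemma fk_symm (W j : ℕ) (x z : Fin (2 ^ W)) : fk W j x z = fk W j z x := by
  unfold fk; split_ifs
  · rfl
  · exact ek_symm _ _ _ _

lemma fk_row (W j : ℕ) (x : Fin (2 ^ W)) : ∑ z, |fk W j x z| ≤ 1 := by
  unfold fk; split_ifs
  · simp
  · simp only [abs_of_nonneg (ek_nonneg _ _ _ _)]
    exact (ek_row (by omega) x).le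

lemma fk_top (W : ℕ) : fk W (W + 1) = 1 := by
  ext x z
  simp [fk, ek, one_apply, Fin.ext_iff, eq_comm]

lemma dk_row (W a b : ℕ) (x : Fin (2 ^ W)) : ∑ z, |(fk W b - fk W a) x z| ≤ 2 := by
  refine (sum_le_sum fun z _ => abs_sub _ _).trans ?_
  rw [sum_add_distrib]; linarith [fk_row W a x, fk_row W b x]

variable {d : ℕ}

/-- the dyadic grid -/
abbrev Gd (P : Fin d → ℕ) : Type := ∀ i, Fin (2 ^ P i)

/-- projection onto the blocks in a box of shapes -/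
noncomputable def Dm (W : ℕ) (α β : Fin d → ℕ) : Matrix (Gd fun _ : Fin d => W)
    (Gd fun _ : Fin d => W) ℝ := tens fun i => fk W (β i) - fk W (α i)

/-- averaging over the boxes of shape `s` -/
noncomputable def Em (W : ℕ) (s : Fin d → ℕ) : Matrix (Gd fun _ : Fin d => W)
    (Gd fun _ : Fin d => W) ℝ := tens fun i => ek W (W - s i)

lemma Dm_symm (W : ℕ) (α β : Fin d → ℕ) : (Dm W α β)ᵀ = Dm W α β := by
  ext x z
  simp only [Dm, tens, transpose_apply, of_apply, Matrix.sub_apply, fk_symm W _ (x _)]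

lemma Em_symm (W : ℕ) (s : Fin d → ℕ) : (Em W s)ᵀ = Em W s := by
  ext x z
  simp only [Em, tens, transpose_apply, of_apply, ek_symm W _ (x _)]

lemma Dm_row (W : ℕ) (α β : Fin d → ℕ) (x : Gd fun _ : Fin d => W) :
    ∑ z, |Dm W α β x z| ≤ 2 ^ d := tens_row (fun _ => dk_row W _ _) x

lemma nm_Dm {p : ℝ} (hp : 1 ≤ p) (W : ℕ) (α β : Fin d → ℕ) (g : (Gd fun _ : Fin d => W) → ℝ) :
    nm p (Dm W α β *ᵥ g) ≤ 2 ^ d * nm p g :=
  nm_tens hp zero_le_two (fun _ x z => by simp only [Matrix.sub_apply, fk_symm W _ x])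
    (fun _ => dk_row W _ _) g

lemma Dm_idem (W : ℕ) {α β : Fin d → ℕ} (h : α ≤ β) : Dm W α β * Dm W α β = Dm W α β := by
  rw [Dm, tens_mul]
  congr 1; funext i
  simp [mul_sub, sub_mul, fk_mul, h i]

lemma Dm_orth (W : ℕ) {α β α' β' : Fin d → ℕ} (h : α ≤ β) (h' : α' ≤ β') {i : Fin d}
    (hi : β i ≤ α' i ∨ β' i ≤ α i) : Dm W α β * Dm W α' β' = 0 := by
  rw [Dm, Dm, tens_mul]
  ext x z
  refine prod_eq_zero (mem_univ i) ?_
  have h1 := h i
  have h2 := h' i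
  rcases hi with hi | hi
  · simp [mul_sub, sub_mul, fk_mul, hi, hi.trans h2, h1.trans hi, (h1.trans hi).trans h2]
  · simp [mul_sub, sub_mul, fk_mul, hi, hi.trans h1, h2.trans hi, (h2.trans hi).trans h1]

lemma Dm_Em (W : ℕ) {α v : Fin d → ℕ} (h : α ≤ v + 1) : Dm W α (v + 1) * Em W v = Dm W α (v + 1) := by
  rw [Dm, Em, tens_mul]
  congr 1; funext i
  have : ek W (W - v i) = fk W (v i + 1) := by simp [fk]
  simp [this, sub_mul, fk_mul, show α i ≤ v i + 1 from h i]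

lemma sum_Dm (W : ℕ) {α β : Fin d → ℕ} (h : α ≤ β) :
    ∑ s ∈ Fintype.piFinset fun i => Ico (α i) (β i), Dm W s (s + 1) = Dm W α β := by
  simp only [Dm, Pi.add_apply, Pi.one_apply]
  rw [← tens_sum _ fun _ j => fk W (j + 1) - fk W j]
  congr 1; funext i
  exact sum_Ico_sub _ (h i)

lemma Dm_top (W : ℕ) : Dm (d := d) W 0 (fun _ => W + 1) = 1 := by
  simp only [Dm, fk_top, Pi.zero_apply]
  simpa [fk] using tens_one

/-- local coordinate in a block of length `2 ^ p` -/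
noncomputable def tl (p x : ℕ) : ℝ := ((x % 2 ^ p : ℕ) : ℝ) / 2 ^ p

lemma tl_mem (p x : ℕ) : tl p x ∈ Set.Icc (0 : ℝ) 1 := by
  refine ⟨by unfold tl; positivity, (div_le_one (by positivity)).2 ?_⟩
  exact_mod_cast (Nat.mod_lt x (by positivity)).le

lemma tl_lip {p q x z : ℕ} (h : p ≤ q) (hx : x / 2 ^ p = z / 2 ^ p) :
    |tl q x - tl q z| ≤ (1 / 2) ^ (q - p) := by
  have h1 := Nat.div_add_mod x (2 ^ q)
  have h2 := Nat.div_add_mod z (2 ^ q)
  have h3 := Nat.div_add_mod x (2 ^ p)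
  have h4 := Nat.div_add_mod z (2 ^ p)
  have h5 := Nat.mod_lt x (show 0 < 2 ^ p by positivity)
  have h6 := Nat.mod_lt z (show 0 < 2 ^ p by positivity)
  rw [div_eq_of_le h hx] at h1
  rw [hx] at h3
  have h7 : x % 2 ^ q ≤ z % 2 ^ q + 2 ^ p ∧ z % 2 ^ q ≤ x % 2 ^ q + 2 ^ p := by omega
  have h8 : ((x % 2 ^ q : ℕ) : ℝ) ≤ (z % 2 ^ q : ℕ) + 2 ^ p := by exact_mod_cast h7.1
  have h9 : ((z % 2 ^ q : ℕ) : ℝ) ≤ (x % 2 ^ q : ℕ) + 2 ^ p := by exact_mod_cast h7.2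
  rw [tl, tl, ← sub_div, abs_div, abs_of_pos (a := (2 : ℝ) ^ q) (by positivity),
    div_le_iff₀ (by positivity), show (1 / 2 : ℝ) ^ (q - p) * 2 ^ q = 2 ^ p by
      rw [← Nat.sub_add_cancel h, pow_add, Nat.add_sub_cancel, ← mul_assoc, ← mul_pow]; simp,
    abs_le]
  constructor <;> linarith

/-- bounded Lipschitz profile -/
structure Prof (Λ : ℝ) (χ : ℝ → ℝ) : Prop where
  bd : ∀ t ∈ Set.Icc (0 : ℝ) 1, |χ t| ≤ 1
  lip : ∀ t ∈ Set.Icc (0 : ℝ) 1, ∀ t' ∈ Set.Icc (0 : ℝ) 1, |χ t - χ t'| ≤ Λ * |t - t'|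

lemma dk_prof {W a b s : ℕ} (hsa : s < a) (hab : a ≤ b) (ha : a ≤ W + 1) {Λ : ℝ} (hΛ : 0 ≤ Λ)
    {χ : ℝ → ℝ} (hχ : Prof Λ χ) (x : Fin (2 ^ W)) :
    |∑ z, (fk W b - fk W a) x z * χ (tl (W - s) z)| ≤ 4 * Λ * (1 / 2) ^ (a - s) := by
  have key : ∀ j, a ≤ j → |∑ z, fk W j x z * χ (tl (W - s) z) - χ (tl (W - s) x)| ≤
      2 * Λ * (1 / 2) ^ (a - s) := by
    intro j hj
    have h1 := ek_row (show W + 1 - j ≤ W by omega) x
    have h0 : ∀ c : ℝ, c = ∑ z, ek W (W + 1 - j) x z * c := fun c => by rw [← sum_mul, h1, one_mul]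
    rw [fk, if_neg (by omega), h0 (χ (tl (W - s) x)), h0 (2 * Λ * _), ← sum_sub_distrib]
    refine (abs_sum_le_sum_abs _ _).trans (sum_le_sum fun z _ => ?_)
    rw [← mul_sub, abs_mul, abs_of_nonneg (ek_nonneg _ _ _ _)]
    by_cases h2 : z.1 / 2 ^ (W + 1 - j) = x.1 / 2 ^ (W + 1 - j)
    · refine mul_le_mul_of_nonneg_left ((hχ.lip _ (tl_mem _ _) _ (tl_mem _ _)).trans ?_)
        (ek_nonneg _ _ _ _)
      have h3 := tl_lip (q := W - s) (by omega) (div_eq_of_le (q := W + 1 - a) (by omega) h2)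
      rw [show a - s = W - s - (W + 1 - a) + 1 by omega, pow_succ]
      nlinarith [mul_le_mul_of_nonneg_left h3 hΛ]
    · simp [ek, h2]
  simp only [Matrix.sub_apply, sub_mul, sum_sub_distrib]
  have := abs_sub_le (∑ z, fk W b x z * χ (tl (W - s) z)) (χ (tl (W - s) x))
    (∑ z, fk W a x z * χ (tl (W - s) z))
  linarith [key a le_rfl, key b hab, abs_sub_comm (χ (tl (W - s) x))
    (∑ z, fk W a x z * χ (tl (W - s) z))]

/-- index of the box containing a grid point -/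
def bx {P : Fin d → ℕ} (p : Fin d → ℕ) (y : Gd P) : Fin d → ℕ := fun i => (y i).1 / 2 ^ p i

/-- tensor profile in the boxes of shape `s` -/
noncomputable def pf {P : Fin d → ℕ} (χ : Fin d → ℝ → ℝ) (p : Fin d → ℕ) (y : Gd P) : ℝ :=
  ∏ i, χ i (tl (p i) (y i))

lemma abs_pf_le {P : Fin d → ℕ} {Λ : ℝ} {χ : Fin d → ℝ → ℝ} (hχ : ∀ i, Prof Λ (χ i))
    (p : Fin d → ℕ) (y : Gd P) : |pf χ p y| ≤ 1 := by
  rw [pf, abs_prod]
  exact prod_le_one (fun _ _ => abs_nonneg _) fun i _ => (hχ i).bd _ (tl_mem _ _)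

/-- decay of the high Haar blocks of a piecewise smooth function -/
lemma nm_Dm_decay {p : ℝ} (hp : 1 ≤ p) {W : ℕ} {α β s : Fin d → ℕ} (h : α ≤ β)
    (hα : ∀ i, α i ≤ W + 1) {Λ : ℝ} (hΛ : 1 ≤ Λ) {χ : Fin d → ℝ → ℝ} (hχ : ∀ i, Prof Λ (χ i))
    {γ : (Gd fun _ : Fin d => W) → ℝ} (hγ : γ.FactorsThrough (bx fun i => W - s i)) :
    nm p (Dm W α β *ᵥ fun x => γ x * pf χ (fun i => W - s i) x) ≤
      (8 * Λ) ^ d * (1 / 2) ^ (∑ i, (α i - s i)) * nm p γ := by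
  let A : Fin d → Matrix (Fin (2 ^ W)) (Fin (2 ^ W)) ℝ := fun i =>
    if s i < α i then 1 else fk W (β i) - fk W (α i)
  let A' : Fin d → Matrix (Fin (2 ^ W)) (Fin (2 ^ W)) ℝ := fun i =>
    if s i < α i then fk W (β i) - fk W (α i) else 1
  have h1 : Dm W α β = tens A * tens A' := by
    rw [tens_mul, Dm]; congr 1; funext i; simp only [A, A']; split_ifs <;> simp
  rw [h1, ← mulVec_mulVec, show 8 * Λ = 2 * (4 * Λ) by ring, mul_pow, mul_assoc, mul_assoc]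
  refine (nm_tens hp zero_le_two (fun i x z => ?_) (fun i x => ?_) _).trans
    (mul_le_mul_of_nonneg_left ?_ (by positivity))
  · simp only [A]; split_ifs
    · simp [one_apply, eq_comm]
    · simp only [Matrix.sub_apply, fk_symm W _ x]
  · simp only [A]; split_ifs
    · simp [one_apply, apply_ite abs]
    · exact dk_row W _ _ x
  rw [← mul_assoc]
  refine nm_smul_le (by linarith) (by positivity) fun x => ?_
  have h2 : (tens A' *ᵥ fun x => γ x * pf χ (fun i => W - s i) x) x =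
      (∏ i, ∑ z, A' i (x i) z * χ i (tl (W - s i) z)) * γ x := by
    rw [← sum_pi_prod fun i z => A' i (x i) z * χ i (tl (W - s i) z), sum_mul]
    refine sum_congr rfl fun z _ => ?_
    simp only [tens, of_apply, pf, prod_mul_distrib]
    by_cases h3 : ∏ i, A' i (x i) (z i) = 0
    · simp [h3]
    rw [hγ (show bx _ z = bx _ x from funext fun i => ?_)]
    · ring
    have h4 := prod_ne_zero_iff.1 h3 i (mem_univ i)
    simp only [A'] at h4
    split_ifs at h4 with h5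
    · have h6 := h i
      by_contra h7
      have h8 : ∀ j, α i ≤ j → fk W j (x i) (z i) = 0 := fun j hj => by
        rw [fk, if_neg (by omega)]
        exact if_neg fun h9 => h7 (div_eq_of_le (show W + 1 - j ≤ W - s i by omega) h9)
      exact h4 (by rw [Matrix.sub_apply, h8 _ h6, h8 _ le_rfl, sub_self])
    · rw [bx, bx, show x i = z i from by_contra fun h6 => h4 (one_apply_ne h6)]
  rw [h2, abs_mul, abs_prod, ← prod_pow_eq_pow_sum, show (4 * Λ) ^ d = ∏ _i : Fin d, 4 * Λ by simp,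
    ← prod_mul_distrib]
  refine mul_le_mul_of_nonneg_right (prod_le_prod (fun _ _ => abs_nonneg _) fun i _ => ?_)
    (abs_nonneg _)
  simp only [A']; split_ifs with h3
  · exact dk_prof h3 (h i) (hα i) (by linarith) (hχ i) _
  · simp only [one_apply, ite_mul, one_mul, zero_mul, sum_ite_eq, mem_univ, if_true,
      Nat.sub_eq_zero_of_le (not_lt.1 h3), pow_zero, mul_one]
    linarith [(hχ i).bd _ (tl_mem (W - s i) (x i))]

end Pool.Agent.Lib.MP_919f0c_an.Lp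
end
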