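import Pool.Agent.Lib.MP_919f0c_an.LowerMain
import Pool.Agent.Lib.MP_919f0c_an.LpHaar
import Pool.Agent.Lib.MP_919f0c_an.LpRand

-- part Pool.Agent.Lib.MP_919f0c_an.LpLower
section

/-! The lower bound for the sampling numbers in `L_p`, `1 < p < ∞`. -/

set_option autoImplicit false

open Finset MeasureTheory Filter Pool.Agent.MixedBesov
open scoped Real ENNReal

namespace Pool.Agent.Lib.MP_919f0c_an.Lp

lemma eLp_le_of_int {Y E : Type*} [MeasurableSpace Y] {μ : Measure Y} [NormedAddCommGroup E]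
    {P : ℝ≥0∞} (hp : 1 < P.toReal) {f : Y → E} {G : Y → ℝ} {B : ℝ} (hB : 0 ≤ B)
    (hG : Integrable G μ) (h : ∀ x, ‖f x‖ ^ P.toReal ≤ G x) (hI : ∫ x, G x ∂μ ≤ B ^ P.toReal) :
    eLpNorm f P μ ≤ ENNReal.ofReal B := by
  have h0 : P ≠ 0 := by rintro rfl; norm_num at hp
  have h1 : P ≠ ∞ := by rintro rfl; norm_num at hp
  rw [eLpNorm_eq_lintegral_rpow_enorm_toReal h0 h1, one_div,
    ENNReal.rpow_inv_le_iff (by linarith), ENNReal.ofReal_rpow_of_nonneg hB (by linarith)]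
  refine le_trans (lintegral_mono fun x => ?_) ((ofReal_integral_eq_lintegral_ofReal hG
    (Eventually.of_forall fun x => le_trans (by positivity) (h x))).ge.trans
      (ENNReal.ofReal_le_ofReal hI))
  rw [← ofReal_norm, ENNReal.ofReal_rpow_of_nonneg (norm_nonneg _) (by linarith)]
  exact ENNReal.ofReal_le_ofReal (h x)

lemma diff_p (d k : ℕ) {P : ℝ≥0∞} (hp : 1 < P.toReal) : ∃ C : ℝ, 0 < C ∧ ∀ (𝕜 : Type*) [RCLike 𝕜]
    (n : ℕ) (𝒮 𝒮₀ : Finset (Fin d → ℕ)), (∀ s ∈ 𝒮, ∑ i, s i = n) → ∀ (a : Idx 𝒮 → ℝ) (A : ℝ),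
    0 ≤ A → (∀ α : Idx 𝒮, α.1.1 ∉ 𝒮₀ → a α = 0) → (∀ s, ∑ κ, |a ⟨s, κ⟩| ^ P.toReal ≤ A ^ P.toReal) →
    ∀ (e : Finset (Fin d)) (h : Fin d → ℝ), eLpNorm (mixedDiff k e h (testFn 𝕜 a)) P volume ≤
      ENNReal.ofReal (A * C * ((2 * π) ^ d / 2 ^ n) ^ (1 / P.toReal) *
        Phi k 𝒮₀ e fun i => |h i|) := by
  obtain ⟨C, hC0, hC⟩ := exists_mixedDiff_psiT d k
  refine ⟨C * (k + 1) ^ d, by positivity, fun 𝕜 _ n 𝒮 𝒮₀ h𝒮 a A hA h0 ha e h => ?_⟩
  have hπ := Real.pi_pos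
  set Φ := Phi k 𝒮₀ e fun i => |h i| with hΦ
  have hΦ0 : 0 ≤ Φ := Phi_nonneg _ _ _ fun _ _ => abs_nonneg _
  let Mw : (Fin d → ℕ) → ℝ := fun s =>
    if s ∈ 𝒮₀ then C * ∏ i ∈ e, min 1 ((2 ^ s i * |h i|) ^ k) else 0
  have hm : ∀ s : Fin d → ℕ, 0 ≤ ∏ i ∈ e, min 1 ((2 ^ s i * |h i|) ^ k) := fun s =>
    prod_nonneg fun i _ => le_min zero_le_one (by positivity)
  have hMw : ∀ s, 0 ≤ Mw s := fun s => by
    have := hm s; simp only [Mw]; split_ifs <;> positivity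
  have hM : ∑ s : 𝒮, Mw s ≤ C * Φ := by
    rw [sum_coe_sort 𝒮 Mw, sum_ite_mem, hΦ, Phi, mul_sum]
    exact sum_le_sum_of_subset_of_nonneg inter_subset_right fun s _ _ => by have := hm s; positivity
  let G : Idx 𝒮 → Torus d → ℝ := fun α x => ∏ i, cnt k (α.1.1 i) (α.2 i) (h i) (x i)
  have hG0 : ∀ α x, 0 ≤ G α x := fun α x => prod_nonneg fun i _ => cnt_nonneg _ _ _ _ _
  have hi : ∀ α : Idx 𝒮, Integrable fun x => Mw α.1.1 * G α x * |a α| ^ P.toReal := fun α =>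
    ((integrable_prod_cnt k α.1.1 α.2 h).const_mul _).mul_const _
  refine eLp_le_of_int hp (by positivity) ((integrable_finsetSum univ fun α _ => hi α).const_mul
    ((C * Φ * (k + 1) ^ d) ^ (P.toReal - 1))) (fun x => le_trans ?_ (wpow univ hp.le
      (fun α => mul_nonneg (hMw _) (hG0 α x)) (fun α => abs_nonneg (a α)) ?_)) ?_
  · rw [mixedDiff_testFn, RCLike.norm_ofReal]
    refine Real.rpow_le_rpow (abs_nonneg _) ((abs_sum_le_sum_abs _ _).trans
      (sum_le_sum fun α _ => ?_)) (by linarith)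
    by_cases h1 : α.1.1 ∈ 𝒮₀
    · simp only [Mw, if_pos h1]
      rw [abs_mul, mul_comm]
      exact mul_le_mul_of_nonneg_right (hC e h α.1.1 α.2 x) (abs_nonneg _)
    · simp [h0 α h1]
  · rw [Fintype.sum_sigma]
    simp only [← mul_sum, G, sum_prod_cnt, ← sum_mul]
    gcongr
  rw [integral_const_mul, integral_finsetSum _ fun α _ => hi α, Fintype.sum_sigma]
  have h1 : ∀ s : 𝒮, ∑ κ : Pos s.1, ∫ x, Mw s * G ⟨s, κ⟩ x * |a ⟨s, κ⟩| ^ P.toReal ≤
      Mw s * ((k + 1) ^ d * ((2 * π) ^ d / 2 ^ n) * A ^ P.toReal) := fun s => by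
    have := hMw s
    refine (sum_le_sum fun κ _ => ?_).trans ((mul_sum _ _ _).ge.trans
      ((mul_le_mul_of_nonneg_left (ha s) (by positivity)).trans_eq (mul_assoc _ _ _)))
    rw [integral_mul_const, integral_const_mul, ← h𝒮 s.1 s.2]
    gcongr
    exact integral_prod_cnt_le k s.1 κ h
  refine (mul_le_mul_of_nonneg_left ((sum_le_sum fun s _ => h1 s).trans ((sum_mul _ _ _).ge.trans
    (mul_le_mul_of_nonneg_right hM (by positivity)))) (by positivity)).trans (le_of_eq ?_)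
  rw [show A * (C * (k + 1) ^ d) * ((2 * π) ^ d / 2 ^ n) ^ (1 / P.toReal) * Φ =
    C * Φ * (k + 1) ^ d * (((2 * π) ^ d / 2 ^ n) ^ (1 / P.toReal) * A) by ring,
    Real.mul_rpow (x := C * Φ * (k + 1) ^ d) (z := P.toReal) (by positivity) (by positivity),
    Real.mul_rpow (y := A) (by positivity) hA, one_div,
    Real.rpow_inv_rpow (by positivity) (by linarith), ← mul_assoc (C * Φ), ← mul_assoc (C * Φ),
    mul_assoc (C * Φ * _), ← mul_assoc, ← Real.rpow_add_one' (by positivity) (by linarith),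
    sub_add_cancel]

lemma young_bound {Y I Ω : Type*} [MeasurableSpace Y] [Fintype I] [Fintype Ω] (μ : Measure Y)
    [IsFiniteMeasure μ] {p q L w Φ X V : ℝ} (hpq : p.HolderConjugate q) (hL : 0 < L) (hw : 0 ≤ w)
    (hΦ : 0 < Φ) (hX : 0 ≤ X) (hV : 0 < V) (hμ : μ.real Set.univ ≤ V) {z e : I → Y → ℝ}
    {ϖ : Ω → ℝ} {a : Ω → I → ℝ} (hπ : ∀ ω, 0 ≤ ϖ ω) (hπ1 : ∑ ω, ϖ ω ≤ 1)
    (hi : Integrable (fun y => ∑ β, z β y * e β y) μ) (h : L ≤ w * ∫ y, ∑ β, z β y * e β y ∂μ)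
    (hc : ∀ y, w * ∑ β, z β y * e β y = ∑ ω, ϖ ω * ((∑ β, a ω β * z β y) * ∑ β, a ω β * e β y))
    (hm : ∀ y, ∑ ω, ϖ ω * |∑ β, a ω β * z β y| ^ q ≤ Φ)
    (hF : ∀ ω, Integrable (fun y => |∑ β, a ω β * e β y| ^ p) μ)
    (hF' : ∀ ω, ∫ y, |∑ β, a ω β * e β y| ^ p ∂μ ≤ X ^ p) : L ≤ 2 * (V * Φ) ^ q⁻¹ * X := by
  have hp := hpq.pos
  have hq := hpq.symm.pos
  set l := (L / (2 * (V * Φ))) ^ q⁻¹ with hl
  have hl0 : 0 < l := by positivity
  have hlq : l ^ q = L / (2 * (V * Φ)) := Real.rpow_inv_rpow (by positivity) hq.ne'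
  have h1 : ∀ y, w * ∑ β, z β y * e β y ≤
      l ^ q * Φ + ∑ ω, ϖ ω * (l ^ p)⁻¹ * |∑ β, a ω β * e β y| ^ p := fun y => by
    rw [hc]
    refine le_trans ?_ (add_le_add (mul_le_mul_of_nonneg_left (hm y) (by positivity)) le_rfl)
    rw [mul_sum, ← sum_add_distrib]
    refine sum_le_sum fun ω _ => ?_
    rw [mul_left_comm (l ^ q), mul_assoc (ϖ ω), ← mul_add]
    refine mul_le_mul_of_nonneg_left ?_ (hπ ω)
    generalize ∑ β, a ω β * z β y = s
    generalize ∑ β, a ω β * e β y = t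
    have h2 := Real.young_inequality (l * s) (t / l) hpq.symm
    rw [abs_mul, abs_div, abs_of_pos hl0, Real.mul_rpow hl0.le (abs_nonneg _),
      Real.div_rpow (abs_nonneg _) hl0.le, show l * s * (t / l) = s * t by field_simp] at h2
    exact h2.trans (add_le_add (div_le_self (by positivity) hpq.symm.lt.le)
      ((div_le_self (by positivity) hpq.lt.le).trans_eq (div_eq_inv_mul _ _)))
  have h2 := integral_mono (hi.const_mul w) ((integrable_const _).add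
    (integrable_finsetSum univ fun ω _ => (hF ω).const_mul _)) h1
  simp only [Pi.add_apply] at h2
  rw [integral_const_mul, integral_add (integrable_const _) (integrable_finsetSum univ
    fun ω _ => (hF ω).const_mul _), integral_finsetSum _ fun ω _ => (hF ω).const_mul _,
    integral_const, smul_eq_mul] at h2
  have h3 : ∑ ω, ∫ y, ϖ ω * (l ^ p)⁻¹ * |∑ β, a ω β * e β y| ^ p ∂μ ≤ (X / l) ^ p := by
    refine (sum_le_sum (g := fun ω => ϖ ω * (X / l) ^ p) fun ω _ => ?_).trans ?_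
    · have := hπ ω
      rw [integral_const_mul, Real.div_rpow hX hl0.le, mul_assoc, div_eq_inv_mul]
      gcongr; exact hF' ω
    · rw [← sum_mul]; exact mul_le_of_le_one_left (by positivity) hπ1
  have h4 : μ.real Set.univ * (l ^ q * Φ) ≤ L / 2 :=
    (mul_le_mul_of_nonneg_right hμ (by positivity)).trans_eq (by rw [hlq]; field_simp)
  have h5 : (L / 2) ^ p⁻¹ ≤ X / l := by
    rw [Real.rpow_inv_le_iff_of_pos (by positivity) (by positivity) hp]; linarith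
  rw [le_div_iff₀ hl0, hl, ← div_div, Real.div_rpow (x := L / 2) (by positivity) (by positivity),
    ← mul_div_assoc,
    ← Real.rpow_add (by positivity), hpq.inv_add_inv_eq_one, Real.rpow_one,
    div_le_iff₀ (by positivity)] at h5
  linarith

theorem lower_core (d k : ℕ) {r : ℝ} (hr : 0 < r) (hk : r < k) {P : ℝ≥0∞} {q : ℝ}
    (hpq : P.toReal.HolderConjugate q) : ∃ δ c : ℝ, 0 < δ ∧ δ ≤ 1 ∧ 0 < c ∧
    ∀ (𝕜 : Type*) [RCLike 𝕜] (θ : ℝ≥0∞), 1 ≤ θ → ∀ (n : ℕ) (𝒮 : Finset (Fin d → ℕ)),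
    (∀ s ∈ 𝒮, ∑ i, s i = n) → 0 < #𝒮 → ∀ m : ℕ, (m : ℝ) ≤ δ * (#𝒮 * 2 ^ n) →
    ∀ {Ω : Type} [Fintype Ω] (ϖ : Ω → ℝ) (a : Ω → Idx 𝒮 → ℝ) (w Φ A N : ℝ), 0 < w → 0 < Φ →
      0 < A → 0 < N → (∀ ω, 0 ≤ ϖ ω) → ∑ ω, ϖ ω ≤ 1 →
      (∀ x e : Idx 𝒮 → ℝ, w * ∑ β, x β * e β =
        ∑ ω, ϖ ω * ((∑ β, a ω β * x β) * ∑ β, a ω β * e β)) →
      (∀ x : Idx 𝒮 → ℝ, (∀ β, |x β| ≤ 3) → ∑ β, x β ^ 2 ≤ #𝒮 →
        ∑ ω, ϖ ω * |∑ β, a ω β * x β| ^ q ≤ Φ) →
      (∀ ω, ∃ 𝒮₀ ⊆ 𝒮, (#𝒮₀ : ℝ) ≤ N ∧ (∀ α : Idx 𝒮, α.1.1 ∉ 𝒮₀ → a ω α = 0) ∧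
        ∀ s, ∑ κ, |a ω ⟨s, κ⟩| ^ P.toReal ≤ A ^ P.toReal) →
      ENNReal.ofReal (c * (w * #𝒮 / (Φ ^ q⁻¹ * (A * ((2 : ℝ) ^ n)⁻¹ ^ P.toReal⁻¹ *
        ((2 ^ n) ^ r * N ^ (1 / θ).toReal))))) ≤ samplingNumber (besovBall 𝕜 d k r P θ) P m := by
  have hπ := Real.pi_pos
  have hp := hpq.lt
  have hP0 : P ≠ 0 := by rintro rfl; norm_num at hp
  have hP1 : P ≠ ∞ := by rintro rfl; norm_num at hp
  have hP : 1 ≤ P := by
    rw [← ENNReal.ofReal_one]; exact ENNReal.ofReal_le_of_le_toReal hp.le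
  obtain ⟨δ, hδ0, hδ1, hrig⟩ := exists_rigid d
  obtain ⟨C₁, hC₁, hdiff⟩ := diff_p d k hp
  obtain ⟨C₂, hC₂, hbes⟩ := exists_besov_bound d k hr hk
  refine ⟨δ, π ^ d / 2 / (2 * ((2 * π) ^ d) ^ q⁻¹ * (C₁ * ((2 * π) ^ d) ^ P.toReal⁻¹ * C₂)), hδ0,
    hδ1, by positivity, fun 𝕜 _ θ hθ n 𝒮 h𝒮 hS m hm Ω _ π₀ a w Φ A N hw hΦ hA hN h0 h1 hc hmo ha =>
      le_iInf fun x => le_iInf fun ψ => le_iInf fun hψ => ?_⟩
  set R := ⨆ f ∈ besovBall 𝕜 d k r P θ,
    eLpNorm (fun y => f y - ∑ j, f (x j) * ψ j y) P volume with hR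
  by_cases hRt : R = ∞
  · rw [hRt]; exact le_top
  refine ENNReal.ofReal_le_of_le_toReal ?_
  let er : Idx 𝒮 → Torus d → ℝ := fun β y =>
    psiT β.1.1 β.2 y - ∑ j, psiT β.1.1 β.2 (x j) * RCLike.re (ψ j y)
  have her : ∀ β, MemLp (er β) P volume := fun β => ((continuous_psiT _ _).memLp_of_hasCompactSupport
    (HasCompactSupport.of_compactSpace _)).sub (memLp_finsetSum _ fun j _ => (hψ j).re.const_mul _)
  obtain ⟨z, hz1, hz2, hz3, hz4, hz5⟩ := hrig n 𝒮 h𝒮 m hm fun j β => psiT β.1.1 β.2 (x j)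
  have hL : π ^ d / 2 * #𝒮 ≤ ∫ y, ∑ β, z β y * er β y := by
    refine hz5.trans (le_of_eq (integral_congr_ae (Eventually.of_forall fun y => ?_)))
    simp only [er, mul_sub, sum_sub_distrib, mul_sum]
    rw [sum_comm]
    simp only [← mul_assoc, ← sum_mul, hz4, zero_mul, sum_const_zero, sub_zero]
  set B := A * C₁ * ((2 * π) ^ d / 2 ^ n) ^ (1 / P.toReal) with hB
  set D := B * (C₂ * (2 ^ n) ^ r * N ^ (1 / θ).toReal) with hD
  have hD0 : 0 < D := by positivity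
  have hF : ∀ ω, MemLp (fun y => ∑ β, a ω β * er β y) P volume := fun ω =>
    memLp_finsetSum _ fun β _ => (her β).const_mul _
  have hS' : (0 : ℝ) < #𝒮 := by exact_mod_cast hS
  have key := young_bound volume hpq (L := w * (π ^ d / 2 * #𝒮)) (X := D * R.toReal)
    (V := (2 * π) ^ d) (by positivity) hw.le hΦ (by positivity) (by positivity) (by
      rw [← Set.pi_univ Set.univ, real_pi]
      simp [Measure.real, ENNReal.toReal_ofReal hπ.le]) h0 h1
    (integrable_finsetSum _ fun β _ => ((her β).integrable hP).bdd_mul (hz1 β).aestronglyMeasurable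
      (Eventually.of_forall fun y => hz2 β y)) (mul_le_mul_of_nonneg_left hL hw.le)
    (fun y => hc _ _) (fun y => hmo _ (fun β => hz2 β y) (by simpa using hz3 y))
    (fun ω => (hF ω).integrable_norm_rpow hP0 hP1) fun ω => by
      obtain ⟨𝒮₀, h2, h3, h4, h5⟩ := ha ω
      have hmem : testFn 𝕜 (fun β => D⁻¹ * a ω β) ∈ besovBall 𝕜 d k r P θ := by
        refine (hbes 𝕜 P θ hθ n 𝒮₀ (fun s hs => h𝒮 s (h2 hs)) (D⁻¹ * B) (by positivity) _
          fun e h => (hdiff 𝕜 n 𝒮 𝒮₀ h𝒮 _ (D⁻¹ * A) (by positivity)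
            (fun α hα => by rw [h4 α hα, mul_zero]) (fun s => ?_) e h).trans_eq ?_).trans ?_
        · simp only [abs_mul, abs_of_pos (inv_pos.2 hD0),
            Real.mul_rpow (inv_pos.2 hD0).le (abs_nonneg _), ← mul_sum]
          rw [Real.mul_rpow (by positivity) hA.le]
          exact mul_le_mul_of_nonneg_left (h5 s) (by positivity)
        · rw [hB]; congr 1; ring
        · rw [ENNReal.ofReal_le_one, mul_assoc, inv_mul_le_one₀ hD0, hD]
          gcongr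
      have h6 := (eLpNorm_mono (f := fun y => D⁻¹ * ∑ β, a ω β * er β y) fun y => ?_).trans
        (le_iSup₂_of_le (f := fun (f : C(Torus d, 𝕜)) (_ : f ∈ besovBall 𝕜 d k r P θ) =>
          eLpNorm (fun y => f y - ∑ j, f (x j) * ψ j y) P volume) _ hmem le_rfl)
      · rw [((hF ω).const_mul _).eLpNorm_eq_integral_rpow_norm hP0 hP1, ← hR,
          ENNReal.ofReal_le_iff_le_toReal hRt, Real.rpow_inv_le_iff_of_pos
            (integral_nonneg fun _ => by positivity) (by positivity) hpq.pos] at h6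
        simp only [norm_mul, Real.norm_eq_abs, abs_of_pos (inv_pos.2 hD0),
          Real.mul_rpow (inv_pos.2 hD0).le (abs_nonneg _), integral_const_mul] at h6
        rwa [Real.inv_rpow hD0.le, inv_mul_le_iff₀ (by positivity),
          ← Real.mul_rpow hD0.le (by positivity)] at h6
      refine le_trans (le_of_eq ?_) (RCLike.abs_re_le_norm _)
      rw [Real.norm_eq_abs]
      congr 1
      simp only [testFn, ContinuousMap.coe_mk, map_sub, map_sum, RCLike.ofReal_re,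
        RCLike.re_ofReal_mul, er, mul_sub, sum_sub_distrib, mul_sum, sum_mul]
      rw [sum_comm]
      congr 1
      · exact sum_congr rfl fun _ _ => by ring
      · exact sum_congr rfl fun _ _ => sum_congr rfl fun _ _ => by ring
  rw [div_mul_div_comm, div_le_iff₀ (by positivity)]
  refine le_trans (le_of_eq (by ring)) (key.trans_eq ?_)
  rw [hD, hB, Real.mul_rpow (by positivity) hΦ.le, div_eq_mul_inv ((2 * π) ^ d),
    Real.mul_rpow (by positivity) (by positivity), one_div]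
  ring

section
variable {S : Type*} [Fintype S] [DecidableEq S] {K : S → Type*} [∀ s, Fintype (K s)]

lemma cov_sum {w : ∀ s, K s → ℝ} (hw : PW w) {ξ η : ∀ s, K s → ℝ}
    (hξ : ∀ s, ∑ κ, w s κ * ξ s κ = 0) : Ex w (fun b => (∑ s, ξ s (b s)) * ∑ s, η s (b s)) =
      ∑ s, ∑ κ, w s κ * (ξ s κ * η s κ) := by
  simp only [sum_mul_sum, Ex_sum]
  refine sum_congr rfl fun s _ => ?_
  rw [sum_eq_single s (fun t _ h => ?_) (by simp), Ex_coord hw s fun κ => ξ s κ * η s κ]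
  rw [Ex_mul hw {s} (fun b b' h => by rw [h s (mem_singleton_self s)])
    (fun b b' h' => by rw [h' t (by simpa using h)]), Ex_coord hw, hξ, zero_mul]

end

/-- sign -/
def sg (ε : Bool) : ℝ := if ε then 1 else -1

lemma abs_sg (ε : Bool) : |sg ε| = 1 := by cases ε <;> simp [sg]

lemma part_scheme {I T : Type} [Fintype I] [DecidableEq I] [Fintype T] [DecidableEq T] (t : I → T)
    (x e : I → ℝ) : (Fintype.card T : ℝ)⁻¹ * ∑ β, x β * e β =
      ∑ ω : T × (I → Bool), (Fintype.card T : ℝ)⁻¹ * (∏ _β : I, 2⁻¹) *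
        ((∑ β, (if t β = ω.1 then sg (ω.2 β) else 0) * x β) *
          ∑ β, (if t β = ω.1 then sg (ω.2 β) else 0) * e β) := by
  simp only [mul_assoc]
  rw [← mul_sum, Fintype.sum_prod_type]
  congr 1
  refine Eq.symm ((sum_congr rfl fun τ _ => (cov_sum (K := fun _ : I => Bool)
    (w := fun _ _ => 2⁻¹) ⟨fun _ _ => by norm_num, fun _ => by simp⟩
    (ξ := fun β ε => (if t β = τ then sg ε else 0) * x β)
    (η := fun β ε => (if t β = τ then sg ε else 0) * e β) fun β => by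
      split_ifs <;> simp [sg])).trans ?_)
  rw [sum_comm]
  refine sum_congr rfl fun β _ => ?_
  rw [sum_eq_single (t β) (fun τ _ h => by simp [h.symm]) (by simp)]
  simp [sg]; ring

lemma part_one {I T : Type} [Fintype I] [DecidableEq I] [Fintype T] :
    ∑ _ω : T × (I → Bool), (Fintype.card T : ℝ)⁻¹ * (∏ _β : I, 2⁻¹) ≤ 1 := by
  simp only [sum_const, card_univ, Fintype.card_prod, Fintype.card_pi, Fintype.card_bool,
    prod_const, nsmul_eq_mul, inv_pow]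
  push_cast
  rw [mul_mul_mul_comm, mul_inv_cancel₀ (a := 2 ^ _) (by positivity), mul_one]
  exact mul_inv_le_one

end Pool.Agent.Lib.MP_919f0c_an.Lp
end

-- part Pool.Agent.Lib.MP_919f0c_an.LpLower2
section

/-! The lower bound for the sampling numbers in `L_p`, `1 < p < ∞`. -/

set_option autoImplicit false

open Finset MeasureTheory Filter Pool.Agent.MixedBesov
open scoped Real ENNReal

namespace Pool.Agent.Lib.MP_919f0c_an.Lp

theorem lower_level_p (d k : ℕ) {r γ : ℝ} (hr : 0 < r) (hk : r < k) {P θ : ℝ≥0∞}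
    (hp : 1 < P.toReal) (hθ : 1 ≤ θ) (hγ : γ = 0 ∨ P.toReal ≤ 2 ∧ γ = P.toReal⁻¹ - (1 / θ).toReal)
    (𝕜 : Type*) [RCLike 𝕜] : ∃ δ c : ℝ, 0 < δ ∧ δ ≤ 1 ∧ 0 < c ∧
    ∀ (n : ℕ) (𝒮 : Finset (Fin d → ℕ)), (∀ s ∈ 𝒮, ∑ i, s i = n) → 0 < #𝒮 → #𝒮 ≤ 2 ^ n →
      ∀ m : ℕ, (m : ℝ) ≤ δ * (#𝒮 * 2 ^ n) →
      ENNReal.ofReal (c * (((2 : ℝ) ^ n) ^ (-r) * (#𝒮 : ℝ) ^ γ)) ≤
        samplingNumber (besovBall 𝕜 d k r P θ) P m := by
  classical
  have hpq := Real.HolderConjugate.conjExponent hp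
  obtain ⟨δ, c, hδ0, hδ1, hc, H⟩ := lower_core d k hr hk hpq
  set p := P.toReal
  set q := Real.conjExponent p
  have hq := hpq.symm.pos
  have he := hpq.inv_add_inv_eq_one
  have hq2 : p ≤ 2 → 2 ≤ q := fun h => (inv_le_inv₀ hq two_pos).1 (by
    linarith [inv_anti₀ hpq.pos h])
  rcases hγ with rfl | ⟨h2, rfl⟩
  · rcases le_total p 2 with h2 | h2
    · refine ⟨δ, c / (3 ^ (q - 2)) ^ q⁻¹, hδ0, hδ1, by positivity, fun n 𝒮 h𝒮 h0 h1 m hm => ?_⟩
      have h0' : (0 : ℝ) < #𝒮 := by exact_mod_cast h0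
      have hN : (Fintype.card (Idx 𝒮) : ℝ) = #𝒮 * 2 ^ n := by rw [card_Idx 𝒮 h𝒮]; simp
      refine le_trans (ENNReal.ofReal_le_ofReal (le_of_eq ?_)) (H 𝕜 θ hθ n 𝒮 h𝒮 h0 m hm
        (Ω := Idx 𝒮 × (Idx 𝒮 → Bool)) (fun _ => (Fintype.card (Idx 𝒮) : ℝ)⁻¹ * ∏ _β : Idx 𝒮, 2⁻¹)
        (fun ω β => if id β = ω.1 then sg (ω.2 β) else 0) (Fintype.card (Idx 𝒮) : ℝ)⁻¹
        (3 ^ (q - 2) * (2 ^ n)⁻¹) 1 1
        (by rw [hN]; positivity) (by positivity) one_pos one_pos (fun _ => by positivity) part_one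
        (part_scheme id) (fun x hx hx2 => ?_) fun ω => ⟨{ω.1.1.1}, by simp, by simp,
          fun α hα => if_neg fun h => hα (by rw [← h]; simp), fun s => ?_⟩)
      · rw [hN, Real.mul_rpow (by positivity) (by positivity), Real.rpow_neg (by positivity),
          show ((2 : ℝ) ^ n)⁻¹ ^ q⁻¹ = (2 ^ n)⁻¹ / (2 ^ n)⁻¹ ^ p⁻¹ by
            rw [eq_div_iff (by positivity), ← Real.rpow_add (by positivity), add_comm, he,
              Real.rpow_one]]
        simp only [Real.rpow_zero, Real.one_rpow]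
        field_simp
      · refine le_trans (sum_le_sum fun ω _ => mul_le_mul_of_nonneg_left (c := 3 ^ (q - 2) *
          ((∑ β, (if id β = ω.1 then sg (ω.2 β) else 0) * x β) *
            ∑ β, (if id β = ω.1 then sg (ω.2 β) else 0) * x β)) ?_ (by positivity)) ?_
        · rw [← sq, ← sq_abs, ← Real.rpow_two, ← sub_add_cancel q 2,
            Real.rpow_add' (abs_nonneg _) (by linarith), add_sub_cancel_right]
          gcongr
          · linarith [hq2 h2]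
          · simpa [abs_mul, abs_sg] using hx ω.1
        · simp only [mul_left_comm _ ((3 : ℝ) ^ (q - 2))]
          rw [← mul_sum, ← part_scheme id x x, hN, mul_inv, mul_right_comm]
          refine mul_le_mul_of_nonneg_left (mul_le_of_le_one_left (by positivity) ?_) (by positivity)
          rw [inv_mul_le_one₀ h0']
          simpa only [sq] using hx2
      · refine le_trans (sum_le_sum (g := fun κ => if (⟨s, κ⟩ : Idx 𝒮) = ω.1 then 1 else 0)
          fun κ _ => ?_) ?_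
        · simp only [id]; split_ifs <;> simp [abs_sg, hpq.pos.ne']
        · rw [Real.one_rpow, sum_boole]
          exact Nat.cast_le_one.2 (card_le_one.2 fun a ha b hb => eq_of_heq (Sigma.mk.inj
            ((mem_filter.1 ha).2.trans (mem_filter.1 hb).2.symm)).2)
    · refine ⟨δ, c / 2 ^ q⁻¹, hδ0, hδ1, by positivity, fun n 𝒮 h𝒮 h0 h1 m hm => ?_⟩
      have h0' : (0 : ℝ) < #𝒮 := by exact_mod_cast h0
      refine le_trans (ENNReal.ofReal_le_ofReal (le_of_eq ?_)) (H 𝕜 θ hθ n 𝒮 h𝒮 h0 m hm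
        (Ω := 𝒮 × (Idx 𝒮 → Bool)) (fun _ => (Fintype.card 𝒮 : ℝ)⁻¹ * ∏ _β : Idx 𝒮, 2⁻¹)
        (fun ω β => if β.1 = ω.1 then sg (ω.2 β) else 0) (Fintype.card 𝒮 : ℝ)⁻¹ 2
        ((2 ^ n) ^ p⁻¹) 1
        (by simpa using h0) two_pos (by positivity) one_pos (fun _ => by positivity) part_one
        (part_scheme Sigma.fst) (fun x hx hx2 => ?_) fun ω => ⟨{ω.1.1}, by simp, by simp,
          fun α hα => if_neg fun h => hα (by rw [← h]; simp), fun s => ?_⟩)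
      · rw [Real.rpow_neg (by positivity), Real.inv_rpow (by positivity), Fintype.card_coe]
        simp only [Real.rpow_zero, Real.one_rpow]
        field_simp
      · refine le_trans (sum_le_sum fun ω _ => mul_le_mul_of_nonneg_left (c := 1 +
          (∑ β, (if β.1 = ω.1 then sg (ω.2 β) else 0) * x β) *
            ∑ β, (if β.1 = ω.1 then sg (ω.2 β) else 0) * x β) ?_ (by positivity)) ?_
        · have h3 : q ≤ 2 := (inv_le_inv₀ two_pos hq).1 (by linarith [inv_anti₀ two_pos h2])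
          rw [← sq, ← sq_abs, ← Real.rpow_two]
          generalize hy : |∑ β : Idx 𝒮, (if β.1 = ω.1 then sg (ω.2 β) else 0) * x β| = y
          have : 0 ≤ y := hy ▸ abs_nonneg _
          rcases le_total y 1 with h | h
          · exact (Real.rpow_le_one this h hq.le).trans (le_add_of_nonneg_right (by positivity))
          · exact (Real.rpow_le_rpow_of_exponent_le h h3).trans (by linarith)
        · simp only [mul_add, mul_one, sum_add_distrib]
          rw [← part_scheme Sigma.fst x x]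
          refine le_of_le_of_eq (add_le_add part_one ?_) one_add_one_eq_two
          rw [Fintype.card_coe, inv_mul_le_one₀ h0']
          simpa only [sq] using hx2
      · rw [Real.rpow_inv_rpow (by positivity) hpq.pos.ne']
        refine (sum_le_card_nsmul _ _ 1 fun κ _ => ?_).trans (by rw [card_univ, card_Pos, h𝒮 s.1 s.2]; simp)
        split_ifs <;> simp [abs_sg, hpq.pos.ne']
  obtain ⟨j, hj⟩ := exists_nat_ge q
  have c1 := cR_pos (0 + 1)
  have c2 := cR_pos (j + 1)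
  set C := cR (0 + 1) * (1 + 9 ^ 0) + cR (j + 1) * (1 + 9 ^ j) with hC
  refine ⟨δ, c / C ^ q⁻¹, hδ0, hδ1, by positivity, fun n 𝒮 h𝒮 h0 h1 m hm => ?_⟩
  have h0' : (0 : ℝ) < #𝒮 := by exact_mod_cast h0
  have hw : PW (K := fun s : 𝒮 => Pos s.1 × Bool) fun _ _ => (2 ^ n)⁻¹ * 2⁻¹ :=
    ⟨fun _ _ => by positivity, fun s => by
      rw [sum_const, card_univ, Fintype.card_prod, card_Pos, h𝒮 s.1 s.2]; simp; field_simp⟩
  have hs : ∀ (b : ∀ s : 𝒮, Pos s.1 × Bool) (x : Idx 𝒮 → ℝ),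
      ∑ β, (if (b β.1).1 = β.2 then sg (b β.1).2 else 0) * x β =
        ∑ s, sg (b s).2 * x ⟨s, (b s).1⟩ := fun b x => by simp [Fintype.sum_sigma]
  have h3 : ∀ (x : Idx 𝒮 → ℝ) (s : 𝒮),
      ∑ κ : Pos s.1 × Bool, (2 ^ n)⁻¹ * 2⁻¹ * (sg κ.2 * x ⟨s, κ.1⟩) = 0 := fun x s => by
    simp [Fintype.sum_prod_type, sg]
  refine le_trans (ENNReal.ofReal_le_ofReal (le_of_eq ?_)) (H 𝕜 θ hθ n 𝒮 h𝒮 h0 m hm
    (fun _ : ∀ s : 𝒮, Pos s.1 × Bool => ∏ _s : 𝒮, (2 ^ n)⁻¹ * 2⁻¹)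
    (fun b β => if (b β.1).1 = β.2 then sg (b β.1).2 else 0) (2 ^ n)⁻¹ (C * (#𝒮 * (2 ^ n)⁻¹)) 1 #𝒮
    (by positivity) (by positivity) one_pos h0' (fun _ => by positivity)
    (by simpa [Ex] using (Ex_const hw 1).le) (fun x e => ?_) (fun x hx hx2 => ?_)
    fun b => ⟨𝒮, subset_rfl, le_rfl, fun α hα => absurd α.1.2 hα, fun s => ?_⟩)
  · rw [Real.mul_rpow (by positivity) (by positivity), Real.mul_rpow (by positivity) (by positivity),
      Real.rpow_neg (by positivity), show p⁻¹ = 1 - q⁻¹ by linarith, Real.rpow_sub h0',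
      Real.rpow_sub h0', Real.rpow_sub (by positivity), Real.rpow_one, Real.rpow_one]
    field_simp
  · simp only [hs]
    refine Eq.trans ?_ (cov_sum hw (h3 x) (η := fun s κ => sg κ.2 * e ⟨s, κ.1⟩)).symm
    simp only [Fintype.sum_sigma, Fintype.sum_prod_type, mul_sum, Fintype.sum_bool, sg]
    exact sum_congr rfl fun _ _ => sum_congr rfl fun _ _ => by simp; ring
  · have hV : (#𝒮 : ℝ) * (2 ^ n)⁻¹ ≤ 1 := by
      rw [mul_inv_le_iff₀ (by positivity), one_mul]; exact_mod_cast h1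
    have h4 : ∀ i, Vm (K := fun s : 𝒮 => Pos s.1 × Bool) (fun _ _ => (2 ^ n)⁻¹ * 2⁻¹)
        (fun s κ => sg κ.2 * x ⟨s, κ.1⟩) (2 * (i + 1)) univ ≤ 9 ^ i * (#𝒮 * (2 ^ n)⁻¹) := fun i => by
      refine le_trans ?_ (mul_le_mul_of_nonneg_left (mul_le_mul_of_nonneg_right hx2
        (by positivity)) (by positivity))
      simp only [Vm, Fintype.sum_sigma, Fintype.sum_prod_type, mul_sum, sum_mul, Fintype.sum_bool]
      refine sum_le_sum fun s _ => sum_le_sum fun κ _ => ?_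
      have h5 : x ⟨s, κ⟩ ^ 2 ≤ 9 := by nlinarith [abs_le.1 (hx ⟨s, κ⟩)]
      simp only [sg, if_true, Bool.false_eq_true, if_false, one_mul, neg_mul, pow_mul, neg_sq]
      calc _ = (x ⟨s, κ⟩ ^ 2) ^ i * (x ⟨s, κ⟩ ^ 2 * (2 ^ n)⁻¹) := by ring
        _ ≤ _ := by gcongr
    have h5 : ∀ i, Ex (K := fun s : 𝒮 => Pos s.1 × Bool) (fun _ _ => (2 ^ n)⁻¹ * 2⁻¹)
        (fun b => (∑ s, sg (b s).2 * x ⟨s, (b s).1⟩) ^ (2 * (i + 1))) ≤
          cR (i + 1) * (1 + 9 ^ i) * (#𝒮 * (2 ^ n)⁻¹) := fun i => by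
      have h6 := h4 0
      rw [pow_zero, one_mul] at h6
      refine (rosenthal hw (h3 x) i univ).trans ?_
      rw [mul_assoc, add_mul, one_mul]
      exact mul_le_mul_of_nonneg_left (add_le_add ((pow_le_of_le_one (Vm_nonneg hw _ 1 _)
        (h6.trans hV) (by omega)).trans h6) (h4 i)) (cR_pos _).le
    rw [hC, add_mul]
    refine le_trans ?_ (add_le_add (h5 0) (h5 j))
    rw [← Ex_add]
    simp only [hs]
    refine Ex_mono hw fun b => ?_
    rw [← (even_two_mul _).pow_abs, ← (even_two_mul (j + 1)).pow_abs, ← Real.rpow_natCast,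
      ← Real.rpow_natCast]
    generalize hy : |∑ s : 𝒮, sg (b s).2 * x ⟨s, (b s).1⟩| = y
    have : 0 ≤ y := hy ▸ abs_nonneg _
    rcases le_total y 1 with h | h
    · exact (Real.rpow_le_rpow_of_exponent_ge' this h (by positivity)
        (by simpa using hq2 h2)).trans (le_add_of_nonneg_right (by positivity))
    · exact (Real.rpow_le_rpow_of_exponent_le h (by push_cast; linarith)).trans
        (le_add_of_nonneg_left (by positivity))
  · rw [sum_eq_single (b s).1 (fun κ _ h => by simp [h.symm, hpq.pos.ne']) (by simp)]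
    simp [abs_sg]

theorem lower_Lp (𝕜 : Type*) [RCLike 𝕜] {d k : ℕ} (hd : 1 ≤ d) {r γ : ℝ} (hr : 0 < r) (hk : r < k)
    {P θ : ℝ≥0∞} (hp : 1 < P.toReal) (hθ : 1 ≤ θ) (hγ0 : 0 ≤ γ)
    (hγ : γ = 0 ∨ P.toReal ≤ 2 ∧ γ = P.toReal⁻¹ - (1 / θ).toReal) :
    ∃ c : ℝ, 0 < c ∧ ∃ m₀ : ℕ, ∀ m : ℕ, m₀ ≤ m →
      ENNReal.ofReal (c * ((m : ℝ) ^ (-r) * Real.log m ^ (((d : ℝ) - 1) * (r + γ)))) ≤
        samplingNumber (besovBall 𝕜 d k r P θ) P m := by
  obtain ⟨d, rfl⟩ := Nat.exists_eq_add_of_le' hd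
  obtain ⟨δ, c, hδ0, hδ1, hc0, hlev⟩ := lower_level_p (d + 1) k hr hk hp hθ hγ 𝕜
  obtain ⟨n₀, hn₀, hcard⟩ := eventually_card_pow_le (d + 1)
  set D : ℝ := 2 * (d + 1) ^ 2 with hD
  have hD0 : 0 < D := by positivity
  refine ⟨c * (2 ^ (-r) * δ ^ r * (D ^ (d * (r + γ)))⁻¹), by positivity,
    max 2 ⌈Real.exp ((d + 1) * n₀)⌉₊, fun m hm => ?_⟩
  have hm2 : 2 ≤ m := (le_max_left _ _).trans hm
  have hm0 : (0 : ℝ) < m := by exact_mod_cast (show 0 < m by omega)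
  obtain ⟨n, h1, h2, h3⟩ := exists_level d hδ0 hδ1 m hm2
  have hlog : (d + 1) * n₀ ≤ Real.log m := by
    rw [Real.le_log_iff_exp_le hm0]
    exact (Nat.le_ceil _).trans (by exact_mod_cast (le_max_right _ _).trans hm)
  have hn : n₀ ≤ n + 1 := by exact_mod_cast le_of_mul_le_mul_left (hlog.trans h3) (by positivity)
  have hn1 : (1 : ℝ) ≤ n := by exact_mod_cast (show 1 ≤ n by omega)
  have hS := card_shapes_ge_real d (n + 1)
  refine le_trans (ENNReal.ofReal_le_ofReal ?_) (hlev (n + 1) (shapes (d + 1) (n + 1))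
    sum_of_mem_shapes (by exact_mod_cast (show (0 : ℝ) < _ from lt_of_lt_of_le (by positivity) hS))
    ((Nat.le_self_pow (by norm_num) _).trans (hcard _ hn)) m
    (h1.trans (by rw [mul_assoc]; gcongr)))
  rw [mul_assoc c]
  refine mul_le_mul_of_nonneg_left ?_ hc0.le
  set L := Real.log m with hL
  have hL0 : 0 ≤ L := Real.log_nonneg (by exact_mod_cast (show 1 ≤ m by omega))
  set X : ℝ := (n : ℝ) / (d + 1) with hX
  have hX0 : 0 < X := by positivity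
  have hLX : L / D ≤ X := by
    rw [hX, hD, div_le_div_iff₀ (by positivity) (by positivity)]
    have : (0 : ℝ) < d + 1 := by positivity
    nlinarith [mul_le_mul_of_nonneg_right h3 this.le, mul_pos this this]
  have hA : (m : ℝ) ^ (-r) * (δ ^ r * (X ^ d) ^ r) ≤ ((2 : ℝ) ^ n) ^ (-r) := by
    have h4 : (2 : ℝ) ^ n ≤ m / (δ * X ^ d) := by
      rw [le_div_iff₀ (by positivity)]; linarith
    refine le_trans (le_of_eq ?_) (Real.rpow_le_rpow_of_nonpos (by positivity) h4 (by linarith))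
    rw [Real.div_rpow hm0.le (by positivity), Real.rpow_neg (show 0 ≤ δ * X ^ d by positivity),
      Real.mul_rpow hδ0.le (by positivity), div_inv_eq_mul]
  have hB : (X ^ d) ^ γ ≤ ((shapes (d + 1) (n + 1)).card : ℝ) ^ γ := by
    refine Real.rpow_le_rpow (by positivity) (le_trans ?_ hS) hγ0
    rw [hX]; push_cast; gcongr; linarith
  have hC : L ^ (d * (r + γ)) * (D ^ (d * (r + γ)))⁻¹ ≤ (X ^ d) ^ r * (X ^ d) ^ γ := by
    rw [← div_eq_mul_inv, ← Real.div_rpow hL0 hD0.le, ← Real.rpow_add (by positivity),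
      ← Real.rpow_natCast X d, ← Real.rpow_mul hX0.le]
    exact Real.rpow_le_rpow (by positivity) hLX (by positivity)
  rw [Nat.cast_succ, add_sub_cancel_right, pow_succ (2 : ℝ) n,
    Real.mul_rpow (x := (2 : ℝ) ^ n) (by positivity) (by norm_num)]
  calc 2 ^ (-r) * δ ^ r * (D ^ (d * (r + γ)))⁻¹ * ((m : ℝ) ^ (-r) * L ^ (d * (r + γ)))
      = 2 ^ (-r) * (δ ^ r * (m : ℝ) ^ (-r)) * (L ^ (d * (r + γ)) * (D ^ (d * (r + γ)))⁻¹) := by
        ring
    _ ≤ 2 ^ (-r) * (δ ^ r * (m : ℝ) ^ (-r)) * ((X ^ d) ^ r * (X ^ d) ^ γ) := by gcongr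
    _ = 2 ^ (-r) * ((m : ℝ) ^ (-r) * (δ ^ r * (X ^ d) ^ r)) * (X ^ d) ^ γ := by ring
    _ ≤ 2 ^ (-r) * ((2 : ℝ) ^ n) ^ (-r) * ((shapes (d + 1) (n + 1)).card : ℝ) ^ γ := by gcongr
    _ = _ := by ring

end Pool.Agent.Lib.MP_919f0c_an.Lp
end
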