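import Pool.Agent.Lib.MP_919f0c_an.LpCells

-- part Pool.Agent.Lib.MP_919f0c_an.LpDisc
section

/-! Discrete `ℓ_p` norms of the Smolyak blocks, and their block structure. -/

set_option autoImplicit false

open Finset MeasureTheory Filter Topology Pool.Agent.MixedBesov Pool.Agent.Lib.MP_919f0c_an.Up
open scoped Real ENNReal

namespace Pool.Agent.Lib.MP_919f0c_an.Lp

variable {d : ℕ}

/-- total mass of an operator -/
def Ms (y : Alg (Torus d)) (M : ℝ) : Prop := y.1 1 = M • 1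

lemma Ms.mul {x y : Alg (Torus d)} {a b : ℝ} (h : Ms x a) (h' : Ms y b) : Ms (x * y) (a * b) := by
  unfold Ms at *
  rw [mul_app, h', map_smul, h, smul_smul, mul_comm b]

lemma ms_prod {y : Fin d → Alg (Torus d)} {a : ℝ} (h : ∀ i, Ms (y i) a) (s : Finset (Fin d)) :
    Ms (∏ i ∈ s, y i) (a ^ #s) := by
  induction s using Finset.induction_on with
  | empty => simp [Ms]
  | insert b s hb ih => rw [prod_insert hb, card_insert_of_notMem hb, pow_succ']; exact (h b).mul ih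

lemma ms_E (i : Fin d) (s : ℝ) : Ms (E i s) 1 := by ext x; simp [E_apply]

lemma ms_St (k : ℕ) (i : Fin d) (j : ℕ) : Ms (St k i j) (cS k) := by
  rw [Ms, ← H_one i, ← mul_app, St_mul_H, smul_app]

lemma ms_Mp (k : ℕ) (i : Fin d) (δ : ℝ) :
    Ms (Mp k i δ) (∑ m ∈ range k, (k.choose (m + 1) : ℝ)) := by
  rw [Ms, Mp, sum_app, sum_smul]
  refine sum_congr rfl fun m _ => ?_
  ext x; simp [A_apply]

/-- power of the modulus -/
noncomputable def pw (P : ℝ≥0∞) (φ : C(Torus d, ℝ)) : C(Torus d, ℝ) :=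
  ⟨fun x => |φ x| ^ P.toReal, φ.continuous.abs.rpow_const fun _ => Or.inr ENNReal.toReal_nonneg⟩

lemma jensen {y : Alg (Torus d)} (hy : Dom y y) {a M : ℝ} (h : Ms y a) (hM : 0 < M) (ha : a ≤ M)
    {P : ℝ≥0∞} (hp : 1 < P.toReal) (φ : C(Torus d, ℝ)) (x : Torus d) :
    |y.1 φ x| ^ P.toReal ≤ M ^ (P.toReal - 1) * y.1 (pw P φ) x := by
  have hpq := Real.HolderConjugate.conjExponent hp
  set p := P.toReal
  set q := Real.conjExponent p
  obtain ⟨t, ht⟩ : ∃ t, |y.1 φ x| = M * t := ⟨|y.1 φ x| / M, by field_simp⟩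
  have ht0 : 0 ≤ t := nonneg_of_mul_nonneg_right (by rw [← ht]; positivity) hM
  have hq := hpq.symm.pos
  have h1 := hy (t ^ (p - 1) • φ) (p⁻¹ • pw P φ + (t ^ p / q) • 1) (fun z => by
    have := Real.young_inequality_of_nonneg (abs_nonneg (φ z)) (Real.rpow_nonneg ht0 (p - 1)) hpq
    rw [← Real.rpow_mul ht0, hpq.sub_one_mul_conj] at this
    simpa [pw, abs_mul, abs_of_nonneg (Real.rpow_nonneg ht0 (p - 1)), mul_comm, div_eq_mul_inv]
      using this) x
  rw [map_smul, map_add, map_smul, map_smul, h] at h1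
  simp only [ContinuousMap.smul_apply, ContinuousMap.add_apply, smul_eq_mul, abs_mul, ht,
    ContinuousMap.one_apply, mul_one, abs_of_nonneg (Real.rpow_nonneg ht0 (p - 1))] at h1
  rw [mul_left_comm, ← Real.rpow_add_one' ht0 (by linarith), sub_add_cancel, div_eq_mul_inv,
    show q⁻¹ = 1 - p⁻¹ by linarith [hpq.inv_add_inv_eq_one]] at h1
  have h2 : 0 ≤ t ^ p * (1 - p⁻¹) := mul_nonneg (by positivity) (by
    linarith [hpq.inv_add_inv_eq_one, inv_pos.2 hq])
  have h3 : M * t ^ p ≤ y.1 (pw P φ) x := le_of_mul_le_mul_left (a := p⁻¹)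
    (by nlinarith [mul_le_mul_of_nonneg_left ha h2]) (by positivity)
  rw [ht, Real.mul_rpow hM.le ht0]
  refine le_trans (le_of_eq ?_) (mul_le_mul_of_nonneg_left h3 (by positivity))
  rw [← mul_assoc, ← Real.rpow_add_one hM.ne', sub_add_cancel]

lemma sum_fib_le {ι Λ : Type*} [Fintype ι] [DecidableEq Λ] {μ : ι → Λ} {T : Finset Λ} {N : ℝ}
    (hN0 : 0 ≤ N) (hμ : ∀ x, μ x ∈ T) (hN : ∀ x, (#{z | μ z = μ x} : ℝ) ≤ N) {F : Λ → ℝ}
    (hF : ∀ m, 0 ≤ F m) : ∑ x, F (μ x) ≤ N * ∑ m ∈ T, F m := by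
  rw [sum_comp F μ]
  refine le_trans (sum_le_sum fun m hm => ?_) ((mul_sum _ _ _).ge.trans (mul_le_mul_of_nonneg_left
    (sum_le_sum_of_subset_of_nonneg (image_subset_iff.2 fun x _ => hμ x) fun m _ _ => hF m) hN0))
  obtain ⟨x, -, rfl⟩ := mem_image.1 hm
  rw [nsmul_eq_mul]
  exact mul_le_mul_of_nonneg_right (hN x) (hF _)

/-- stencil majorant at a node -/
noncomputable def Es (k : ℕ) (j m : Fin d → ℕ) : Alg (Torus d) :=
  ∏ i, E i (m i * hh (j i - 1)) * St k i (j i)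

lemma dom_Es (k : ℕ) (j m : Fin d → ℕ) : Dom (Es k j m) (Es k j m) :=
  Dom.prod _ fun i _ => (dom_E i _).mul (dom_St k i _)

section
variable {P : ℝ≥0∞} [Fact (1 ≤ P)]

lemma mod_nonneg {k : ℕ} {f : C(Torus d, ℝ)} {l : Fin d → ℕ} {b : ℝ} (h : Mod P k f l b) : 0 ≤ b :=
  (qn_nonneg _ _).trans (h 0 fun i _ => by simpa using (hh_pos _).le)

lemma int_pw (hp : 1 < P.toReal) (φ : C(Torus d, ℝ)) : ∫ x, pw P φ x = qn P φ ^ P.toReal := by
  have h0 : P ≠ 0 := by rintro rfl; norm_num at hp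
  have h1 : P ≠ ∞ := by rintro rfl; norm_num at hp
  have h2 : 0 ≤ ∫ x, ‖φ x‖ ^ P.toReal := integral_nonneg fun x => by positivity
  rw [qn_eq, MemLp.eLpNorm_eq_integral_rpow_norm h0 h1 ⟨φ.continuous.aestronglyMeasurable,
    (eLpNorm_ne_top P φ).lt_top⟩, ENNReal.toReal_ofReal (by positivity),
    Real.rpow_inv_rpow h2 (by positivity)]
  rfl

lemma term_p (hp : 1 < P.toReal) (d k : ℕ) : ∃ C : ℝ, 0 ≤ C ∧ ∀ {ι : Type} [Fintype ι]
    (f : C(Torus d, ℝ)) (β : (Fin d → ℕ) → ℝ) (j : Fin d → ℕ) (μ : ι → Fin d → ℕ) (N : ℝ),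
    (∀ l, Mod P k f l (β l)) → 0 ≤ N → (∀ x i, μ x i < 2 ^ (j i - 1)) →
    (∀ x, (#{z | μ z = μ x} : ℝ) ≤ N) → ∀ a : Fin d → ℕ × Bool,
    nm P.toReal (fun x => (Es k j (μ x)).1 ((∏ i, Mp k i (hh (lev (j i) (a i) + 1))).1
      |(∏ i, bb k i (j i) (a i) * yy k i (j i) (a i)).1 f|) 0) ≤
      C * (N * 2 ^ ∑ i, j i) ^ (1 / P.toReal) *
        ((2 ^ (1 / P.toReal)) ^ (∑ i, (a i).1) * β (j + fun i => (a i).1)) := by
  set p := P.toReal
  have hc := cS_nonneg k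
  set a₀ := (1 * cS k * ∑ m ∈ range k, (k.choose (m + 1) : ℝ)) ^ #(univ : Finset (Fin d))
  have ha₀ : 0 ≤ a₀ := by positivity
  set c := (cS k * (k * 2 ^ k * k * 2)) ^ d * ((2 * π) ^ d)⁻¹ with hcd
  have hc0 : 0 ≤ c := by have := Real.pi_pos; positivity
  refine ⟨((a₀ + 1) ^ (p - 1) * c) ^ (1 / p) * (2 ^ k) ^ d, by positivity,
    fun f β j μ N hβ hN0 hμ hN a => ?_⟩
  have hb := mod_nonneg (hβ (j + fun i => (a i).1))
  set g := (∏ i, bb k i (j i) (a i) * yy k i (j i) (a i)).1 f with hg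
  let Y := fun m : Fin d → ℕ => ∏ i, E i (m i * hh (j i - 1)) * St k i (j i) *
    Mp k i (hh (lev (j i) (a i) + 1))
  have hY : ∀ m, Dom (Y m) (Y m) := fun m => Dom.prod _ fun i _ =>
    ((dom_E i _).mul (dom_St k i _)).mul (dom_Mp k i _)
  have hpw : ∀ z, |pw P |g| z| ≤ pw P g z := fun z => by
    simp [pw, abs_of_nonneg (Real.rpow_nonneg (abs_nonneg _) _)]
  have h1 := sum_fib_le hN0 (fun x => Fintype.mem_piFinset.2 fun i => mem_range.2 (hμ x i)) hN
    (F := fun m => (Y m).1 (pw P |g|) 0) fun m => (abs_nonneg _).trans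
      (hY m (pw P |g|) _ (fun z => (abs_of_nonneg (Real.rpow_nonneg (abs_nonneg _) _)).le) 0)
  have h2 := (le_abs_self _).trans (Dom.prod univ (fun i _ => dom_GSM k i (j := j i)
    (l := lev (j i) (a i)) (m := j i + (a i).1) (by unfold lev; split_ifs <;> omega)
    (by unfold lev; split_ifs <;> omega)) _ _ hpw 0)
  simp only [Gr, sum_mul] at h2
  rw [prod_univ_sum, sum_app_apply, prod_smul, smul_app, ContinuousMap.smul_apply, prod_H_apply,
    smul_eq_mul, int_pw hp, prod_mul_distrib, prod_const, prod_pow_eq_pow_sum, card_univ,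
    Fintype.card_fin, sum_add_distrib, pow_add] at h2
  have h3 : qn P g ≤ (2 ^ k) ^ d * β (j + fun i => (a i).1) := by
    have h4 := Bd.prod P univ (a := 2 ^ k) (by positivity)
      (fun i => bd_bb P k i (j i) (a i)) ((∏ i, yy k i (j i) (a i)).1 f)
    rw [← mul_app, ← prod_mul_distrib, ← hg, card_univ, Fintype.card_fin] at h4
    exact h4.trans (mul_le_mul_of_nonneg_left (mod_prod P (hβ _) (fun i => yy k i (j i) (a i))
      fun i => avg_yy P k i (j i) (a i)) (by positivity))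
  have hp0 : 0 < p := by linarith
  refine nm_le hp0 (by positivity) ((sum_le_sum fun x _ => ?_).trans ((mul_sum _ _ _).ge.trans
    (mul_le_mul_of_nonneg_left (h1.trans (mul_le_mul_of_nonneg_left h2 hN0))
      (show 0 ≤ (a₀ + 1) ^ (p - 1) by positivity)) |>.trans ?_))
  · beta_reduce
    rw [Es, ← mul_app, ← prod_mul_distrib]
    exact jensen (hY _) (ms_prod (fun i => ((ms_E i _).mul (ms_St k i _)).mul (ms_Mp k i _)) _)
      (by positivity) (by linarith) hp _ _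
  have h5 := Real.rpow_le_rpow (qn_nonneg _ _) h3 hp0.le
  rw [Real.rpow_pow_comm zero_le_two, one_div]
  simp (disch := positivity) only [Real.mul_rpow, Real.rpow_inv_rpow] at h5 ⊢
  calc _ = (a₀ + 1) ^ (p - 1) * c * (N * 2 ^ ∑ i, j i) * 2 ^ (∑ i, (a i).1) * qn P g ^ p := by
        rw [hcd]; ring
    _ ≤ _ := (mul_le_mul_of_nonneg_left h5 (by positivity)).trans (le_of_eq (by ring))

lemma sum_bool_pi (L : ℕ) (F : (Fin d → ℕ) → ℝ) :
    ∑ a ∈ Fintype.piFinset fun _ : Fin d => range (L + 1) ×ˢ (univ : Finset Bool),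
      F (fun i => (a i).1) = 2 ^ d * ∑ u ∈ Fintype.piFinset fun _ : Fin d => range (L + 1), F u := by
  rw [sum_bij' (t := Fintype.piFinset (fun _ : Fin d => range (L + 1)) ×ˢ
    (univ : Finset (Fin d → Bool))) (g := fun q => F q.1)
    (fun a _ => (fun i => (a i).1, fun i => (a i).2)) (fun q _ => fun i => (q.1 i, q.2 i))
    (by simp +contextual [Fintype.mem_piFinset]) (by simp +contextual [Fintype.mem_piFinset])
    (fun _ _ => rfl) (fun _ _ => rfl) (fun _ _ => rfl), sum_product, mul_sum]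
  simp

/-- a Smolyak block at a point with real coordinates -/
noncomputable def qs (k : ℕ) (f : C(Torus d, ℝ)) (j : Fin d → ℕ) (y : Fin d → ℝ) : ℝ :=
  (∏ i, R k i (j i) (y i)).1 f 0

lemma core {k : ℕ} (hk : 0 < k) (hp : 1 < P.toReal) (d : ℕ) : ∃ C : ℝ, 0 ≤ C ∧
    ∀ {ι : Type} [Fintype ι] (f : C(Torus d, ℝ)) (β : (Fin d → ℕ) → ℝ) (j : Fin d → ℕ)
    (y : ι → Fin d → ℝ) (μ : ι → Fin d → ℕ) (N b : ℝ), (∀ l, Mod P k f l (β l)) → 0 ≤ N →
    (∀ x i, ⌊y x i / hh (j i - 1)⌋ = μ x i) → (∀ x i, μ x i < 2 ^ (j i - 1)) →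
    (∀ x, (#{z | μ z = μ x} : ℝ) ≤ N) →
    (∀ U : Finset (Fin d → ℕ), ∑ u ∈ U, (2 ^ (1 / P.toReal)) ^ (∑ i, u i) * β (j + u) ≤ b) →
    nm P.toReal (fun x => qs k f j (y x)) ≤ C * (N * 2 ^ ∑ i, j i) ^ (1 / P.toReal) * b := by
  obtain ⟨C, hC, H⟩ := term_p hp d k
  have hc := c2_nonneg k
  refine ⟨c2 k ^ d * (2 ^ d * C), by positivity, fun {ι} _ f β j y μ N b hβ hN0 hy hμ hN hb => ?_⟩
  set g := (∏ i, B k i (j i)).1 f with hg
  have h1 : nm P.toReal (fun x => qs k f j (y x)) ≤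
      c2 k ^ d * nm P.toReal fun x => (Es k j (μ x)).1 |g| 0 := by
    refine nm_smul_le (by linarith) (by positivity) fun x => ?_
    choose z hz hz' using fun i => R_struct k i (j i) (y x i)
    simp only [qs, hz, hy, Int.cast_natCast]
    rw [prod_mul_distrib, mul_app]
    have h1 := Dom.prod univ (fun i _ => (dom_E i (μ x i * hh (j i - 1))).mul (hz' i)) g |g|
      (fun _ => by simp) 0
    simp only [mul_smul_comm] at h1
    rw [prod_smul, smul_app] at h1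
    refine h1.trans ?_
    simpa [Es] using mul_le_mul_of_nonneg_left (le_abs_self ((Es k j (μ x)).1 |g| 0))
      (pow_nonneg hc d)
  rw [mul_assoc, mul_assoc]
  refine h1.trans (mul_le_mul_of_nonneg_left ?_ (by positivity))
  have h2 := strong_prod univ (x := fun i L => B k i (j i) * Ml k i (j i + L))
    (x0 := fun i => B k i (j i)) (fun i φ => by
      simp only [mul_app]
      refine ((B k i (j i)).1.continuous.tendsto φ).comp ?_
      exact tendsto_M hk i (tendsto_hh.comp (tendsto_atTop_mono (fun L => by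
        show L ≤ j i + L + 1
        omega) tendsto_id)) φ) f
  rw [tendsto_iff_norm_sub_tendsto_zero] at h2
  have h3 := (h2.mul_const (nm P.toReal fun x => (Es k j (μ x)).1 1 0)).add_const
    (2 ^ d * C * ((N * 2 ^ ∑ i, j i) ^ (1 / P.toReal) * b))
  rw [zero_mul, zero_add] at h3
  refine ge_of_tendsto' h3 fun L => ?_
  set gL := (∏ i, B k i (j i) * Ml k i (j i + L)).1 f with hgL
  let T := Fintype.piFinset fun _ : Fin d => range (L + 1) ×ˢ (univ : Finset Bool)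
  let ψ : (Fin d → ℕ × Bool) → C(Torus d, ℝ) := fun a =>
    (∏ i, Mp k i (hh (lev (j i) (a i) + 1))).1
      |(∏ i, bb k i (j i) (a i) * yy k i (j i) (a i)).1 f|
  have h4 : ∀ x, |(|g| : C(Torus d, ℝ)) x| ≤ (‖gL - g‖ • (1 : C(Torus d, ℝ)) + ∑ a ∈ T, ψ a) x := by
    intro x
    have h5 : |gL x| ≤ ∑ a ∈ T, ψ a x := by
      rw [hgL]
      simp only [tele]
      rw [prod_univ_sum, sum_app_apply]
      refine (abs_sum_le_sum_abs _ _).trans (sum_le_sum fun a _ => ?_)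
      rw [prod_mul_distrib, mul_app]
      exact Dom.prod _ (fun i _ => dom_mm k i (j i) (a i)) _ _ (fun y => by simp) x
    have h6 := (gL - g).norm_coe_le_norm x
    simp only [ContinuousMap.sub_apply, Real.norm_eq_abs] at h6
    simp only [ContinuousMap.abs_apply, abs_abs, ContinuousMap.add_apply,
      ContinuousMap.smul_apply, ContinuousMap.one_apply, smul_eq_mul, mul_one,
      ContinuousMap.sum_apply]
    linarith [abs_sub_abs_le_abs_sub (g x) (gL x), abs_sub_comm (g x) (gL x)]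
  refine (nm_mono (by positivity) (h := (fun x => ‖gL - g‖ * (Es k j (μ x)).1 1 0) +
    ∑ a ∈ T, fun x => (Es k j (μ x)).1 (ψ a) 0) fun x => ?_).trans ((nm_add hp.le _ _).trans
      (add_le_add (nm_smul_le (by linarith) (norm_nonneg _) fun x => by rw [abs_mul, abs_norm])
        ((nm_sum hp.le _ _).trans ?_)))
  · refine (dom_Es k j _ _ _ h4 0).trans (le_trans (le_of_eq ?_) (le_abs_self _))
    simp
  · refine (sum_le_sum fun a _ => H f β j μ N hβ hN0 hμ hN a).trans ?_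
    rw [← mul_sum, sum_bool_pi L fun u => (2 ^ (1 / P.toReal)) ^ (∑ i, u i) * β (j + u)]
    calc _ ≤ C * (N * 2 ^ ∑ i, j i) ^ (1 / P.toReal) * (2 ^ d * b) := by gcongr; exact hb _
      _ = _ := by ring

end

lemma floor_loc {j l : ℕ} (h : l ≤ j) (μ : ℕ) {t : ℝ} (h0 : 0 ≤ t) (h1 : t < 1) :
    ⌊(μ + t) * hh j / hh l⌋ = (μ / 2 ^ (j - l) : ℕ) ∧
      Int.fract ((μ + t) * hh j / hh l) = tl (j - l) μ + t / 2 ^ (j - l) := by
  have h2 : (μ + t) * hh j / hh l = (μ / 2 ^ (j - l) : ℕ) + (tl (j - l) μ + t / 2 ^ (j - l)) := by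
    have h3 : (μ : ℝ) = 2 ^ (j - l) * (μ / 2 ^ (j - l) : ℕ) + (μ % 2 ^ (j - l) : ℕ) := by
      exact_mod_cast (Nat.div_add_mod μ _).symm
    have := Real.pi_pos
    rw [hh, hh, tl, show (2 : ℝ) ^ j = 2 ^ l * 2 ^ (j - l) by rw [← pow_add, Nat.add_sub_cancel' h]]
    field_simp
    linarith
  have h3 : ((μ % 2 ^ (j - l) : ℕ) : ℝ) + 1 ≤ 2 ^ (j - l) := by
    exact_mod_cast Nat.mod_lt μ (Nat.two_pow_pos _)
  have h4 : tl (j - l) μ + t / 2 ^ (j - l) ∈ Set.Ico (0 : ℝ) 1 :=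
    ⟨add_nonneg (tl_mem _ _).1 (by positivity), by
      rw [tl, ← add_div, div_lt_one (by positivity)]; linarith⟩
  rw [h2, Int.floor_natCast_add, Int.fract_natCast_add, Int.floor_eq_zero_iff.2 h4,
    Int.fract_eq_self.2 h4]
  exact ⟨add_zero _, rfl⟩

lemma node_mem {k : ℕ} (a : Fin k) : (0 : ℝ) ≤ (a : ℕ) / k ∧ ((a : ℕ) : ℝ) / k < 1 :=
  ⟨by positivity, (div_lt_one (by exact_mod_cast a.pos)).2 (by exact_mod_cast a.2)⟩

lemma Q_interp {k j l : ℕ} (hk : 0 < k) (i : Fin d) (h : l ≤ j) (μ : ℕ) {t : ℝ} (h0 : 0 ≤ t)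
    (h1 : t < 1) : Q k i l ((μ + t) * hh j) =
      ∑ a : Fin k, Lg k a (k * t) • Q k i l ((μ + (a : ℕ) / k) * hh j) := by
  simp only [Q, floor_loc h μ h0 h1, fun a : Fin k => floor_loc h μ (node_mem a).1 (node_mem a).2,
    smul_sum, smul_smul]
  rw [sum_comm]
  refine sum_congr rfl fun ν hν => ?_
  rw [← sum_smul]
  congr 1
  have h2 := Lg_repro (k := k) (Lagrange.basis (range k) (fun a : ℕ => (a : ℝ)) ν) (by
    rw [Lagrange.natDegree_basis Nat.cast_injective.injOn hν, card_range]; omega)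
    (tl (j - l) μ) (1 / k / 2 ^ (j - l)) (k * t)
  have h3 : (k : ℝ) ≠ 0 := by positivity
  rw [sum_range, show 1 / k / 2 ^ (j - l) * (k * t) = t / 2 ^ (j - l) by field_simp] at h2
  refine h2.symm.trans (sum_congr rfl fun a _ => ?_)
  rw [Lg, Lg]
  congr 3; ring

lemma R_interp {k : ℕ} (hk : 0 < k) (i : Fin d) (j μ : ℕ) {t : ℝ} (h0 : 0 ≤ t) (h1 : t < 1) :
    R k i j ((μ + t) * hh j) =
      ∑ a : Fin k, Lg k a (k * t) • R k i j ((μ + (a : ℕ) / k) * hh j) := by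
  unfold R
  split_ifs with h
  · exact Q_interp hk i (Nat.zero_le _) μ h0 h1
  · rw [Q_interp hk i le_rfl μ h0 h1, Q_interp hk i (Nat.sub_le _ _) μ h0 h1]
    simp only [smul_sub, sum_sub_distrib]

lemma exists_prof (k : ℕ) : ∃ Λ : ℝ, 1 ≤ Λ ∧ ∀ a : Fin k, Prof Λ fun t => Lg k a (k * t) / Λ := by
  have hc : ∀ a : ℕ, ContDiff ℝ 1 fun t => Lg k a (k * t) := fun a =>
    (Polynomial.contDiff_aeval (𝕜 := ℝ) _ 1).comp (contDiff_const.mul contDiff_id)
  choose K hK using fun a : Fin k =>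
    (hc a).contDiffOn.exists_lipschitzOnWith one_ne_zero (convex_Icc (0 : ℝ) 1) isCompact_Icc
  choose M hM using fun a : Fin k =>
    isCompact_Icc.exists_bound_of_continuousOn (s := Set.Icc (0 : ℝ) 1) (hc a).continuous.continuousOn
  have h0 : ∀ a, 0 ≤ |M a| + K a := fun a => by positivity
  have h1 : 0 ≤ ∑ a, (|M a| + K a) := sum_nonneg fun a _ => h0 a
  refine ⟨1 + ∑ a, (|M a| + K a), by linarith, fun a => ?_⟩
  have h2 := single_le_sum (fun a _ => h0 a) (mem_univ a)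
  set Λ := 1 + ∑ a, (|M a| + K a)
  have h3 : 1 ≤ Λ := by linarith
  refine ⟨fun t ht => ?_, fun t ht s hs => ?_⟩
  · rw [abs_div, abs_of_pos (a := Λ) (by linarith), div_le_one (by linarith)]
    linarith [hM a t ht, le_abs_self (M a), (K a).2, Real.norm_eq_abs (Lg k a (k * t))]
  · rw [← sub_div, abs_div, abs_of_pos (a := Λ) (by linarith)]
    refine (div_le_self (abs_nonneg _) h3).trans (((hK a).dist_le_mul t ht s hs).trans ?_)
    exact mul_le_mul_of_nonneg_right (by linarith [abs_nonneg (M a)]) (abs_nonneg _)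

/-- interpolation node in the box of shape `s` containing a grid point -/
noncomputable def nd {k W : ℕ} (s : Fin d → ℕ) (a : Fin d → Fin k) (ν : Gd fun _ : Fin d => W)
    (i : Fin d) : ℝ := ((bx (fun i => W - s i) ν i : ℕ) + (a i : ℕ) / k) * hh (s i)

lemma qs_block {k W : ℕ} (hk : 0 < k) (f : C(Torus d, ℝ)) {s : Fin d → ℕ} (hs : ∀ i, s i ≤ W)
    (ν : Gd fun _ : Fin d => W) {t : Fin d → ℝ} (h0 : ∀ i, 0 ≤ t i) (h1 : ∀ i, t i < 1) :
    qs k f s (fun i => ((ν i : ℕ) + t i) * hh W) = ∑ a : Fin d → Fin k, qs k f s (nd s a ν) *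
      ∏ i, Lg k (a i) (k * (tl (W - s i) (ν i) + t i / 2 ^ (W - s i))) := by
  have h2 : ∀ i, R k i (s i) (((ν i : ℕ) + t i) * hh W) = ∑ a : Fin k,
      Lg k a (k * (tl (W - s i) (ν i) + t i / 2 ^ (W - s i))) •
        R k i (s i) (((bx (fun i => W - s i) ν i : ℕ) + (a : ℕ) / k) * hh (s i)) := fun i => by
    obtain ⟨h3, h4⟩ := floor_loc (hs i) (ν i) (h0 i) (h1 i)
    rw [← h4, ← R_interp hk i _ _ (Int.fract_nonneg _) (Int.fract_lt_one _), bx,
      ← Int.cast_natCast (R := ℝ) (_ / _), ← h3, Int.floor_add_fract,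
      div_mul_cancel₀ _ (hh_pos _).ne']
  simp only [qs, h2]
  rw [prod_univ_sum, Fintype.piFinset_univ, sum_app_apply]
  refine sum_congr rfl fun a _ => ?_
  rw [prod_smul, smul_app, ContinuousMap.smul_apply, smul_eq_mul, mul_comm]
  rfl

lemma floor_nd {k W : ℕ} {s : Fin d → ℕ} (hs : ∀ i, s i ≤ W) (a : Fin d → Fin k)
    (ν : Gd fun _ : Fin d => W) (i : Fin d) :
    ⌊nd s a ν i / hh (s i - 1)⌋ = (bx (fun i => W - (s i - 1)) ν i : ℕ) ∧
      bx (fun i => W - (s i - 1)) ν i < 2 ^ (s i - 1) := by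
  have := hs i
  refine ⟨?_, ?_⟩
  · rw [nd, (floor_loc (Nat.sub_le _ _) _ (node_mem _).1 (node_mem _).2).1, bx, bx,
      Nat.div_div_eq_div_mul, ← pow_add]
    congr 3; omega
  · rw [bx, Nat.div_lt_iff_lt_mul (Nat.two_pow_pos _), ← pow_add, Nat.add_sub_cancel' (by omega)]
    exact (ν i).2

lemma abs_prod_sub {ι : Type*} (s : Finset ι) {x y : ι → ℝ} (hx : ∀ i, |x i| ≤ 1)
    (hy : ∀ i, |y i| ≤ 1) : |∏ i ∈ s, x i - ∏ i ∈ s, y i| ≤ ∑ i ∈ s, |x i - y i| := by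
  classical
  induction s using Finset.induction_on with
  | empty => simp
  | insert a s ha ih =>
    have h1 : |∏ i ∈ s, y i| ≤ 1 := by
      rw [abs_prod]; exact prod_le_one (fun _ _ => abs_nonneg _) fun i _ => hy i
    rw [prod_insert ha, prod_insert ha, sum_insert ha, show ∀ a b c e : ℝ, a * b - c * e =
      (a - c) * e + a * (b - e) from fun _ _ _ _ => by ring]
    refine (abs_add_le _ _).trans (add_le_add ?_ ?_) <;> rw [abs_mul]
    · exact mul_le_of_le_one_right (abs_nonneg _) h1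
    · exact (mul_le_of_le_one_left (abs_nonneg _) (hx a)).trans ih

/-- stencil below the level `u` -/
noncomputable def Qm (k : ℕ) (i : Fin d) (u : ℕ) (y : ℝ) : Alg (Torus d) :=
  if u = 0 then 0 else Q k i (u - 1) y

/-- filtered residual of the Smolyak operator -/
noncomputable def Res (k n : ℕ) (u : Fin d → ℕ) (y : Fin d → ℝ) (f : C(Torus d, ℝ)) : ℝ :=
  (∏ i, (E i (y i) - Qm k i (u i) (y i))).1 f 0 - ∑ s ∈ Jn d n with u ≤ s, qs k f s y

lemma Res_le {k : ℕ} (hk : 0 < k) (n : ℕ) (u : Fin d → ℕ) (y : Fin d → ℝ) (f : C(Torus d, ℝ))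
    {ε : ℝ} (h : ∀ L, ∑ s ∈ Sn d n L, |qs k f s y| ≤ ε) : |Res k n u y f| ≤ ε := by
  have h1 := strong_prod univ (x := fun i L => Q k i L (y i) - Qm k i (u i) (y i))
    (x0 := fun i => E i (y i) - Qm k i (u i) (y i))
    (fun i φ => (tendsto_Q hk i _ φ).sub_const _) f
  have h2 := (((ContinuousMap.evalCLM ℝ (0 : Torus d)).continuous.tendsto _).comp h1).sub_const
    (∑ s ∈ Jn d n with u ≤ s, qs k f s y)
  refine le_of_tendsto h2.abs ?_
  filter_upwards [eventually_ge_atTop (n + ∑ i, u i)] with L hL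
  have hu : ∀ (j : Fin d → ℕ) i, j i ≤ ∑ i, j i := fun j i =>
    single_le_sum (f := j) (fun _ _ => Nat.zero_le _) (mem_univ i)
  have h3 : ∀ i, Q k i L (y i) - Qm k i (u i) (y i) = ∑ j ∈ Ico (u i) (L + 1), R k i j (y i) := by
    intro i
    rw [sum_Ico_eq_sub _ (by have := hu u i; omega), sum_R, Qm]
    rcases u i with _ | m
    · simp
    · simp [sum_R]
  have h4 : (∏ i, (Q k i L (y i) - Qm k i (u i) (y i))).1 f 0 =
      ∑ s ∈ Sn d n L with u ≤ s, qs k f s y + ∑ s ∈ Jn d n with u ≤ s, qs k f s y := by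
    simp only [h3]
    rw [prod_univ_sum, sum_app_apply,
      ← sum_filter_add_sum_filter_not _ fun j : Fin d → ℕ => n < ∑ i, j i]
    congr 1 <;> refine sum_congr ?_ fun _ _ => rfl <;> ext j
    · simp only [Sn, mem_filter, Fintype.mem_piFinset, mem_Ico, mem_range, forall_and, Pi.le_def]
      tauto
    · simp only [mem_Jn, mem_filter, Fintype.mem_piFinset, mem_Ico, forall_and, Pi.le_def, not_lt]
      exact ⟨fun h => ⟨h.2, h.1.1⟩, fun h => ⟨⟨h.2, fun i => by have := hu j i; omega⟩, h.1⟩⟩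
  refine le_trans ?_ (h L)
  show |(∏ i, (Q k i L (y i) - Qm k i (u i) (y i))).1 f 0 - _| ≤ _
  rw [h4, add_sub_cancel_right]
  exact (abs_sum_le_sum_abs _ _).trans (sum_le_sum_of_subset_of_nonneg (filter_subset _ _)
    fun _ _ _ => abs_nonneg _)

lemma Res_zero (k n : ℕ) (y : Fin d → ℝ) (f : C(Torus d, ℝ)) :
    Res k n 0 y f = f (fun i => (y i : AddCircle (2 * π))) - ∑ s ∈ Jn d n, qs k f s y := by
  simp [Res, Qm, E_prod_apply]

lemma Res_sub {k n m : ℕ} (h : n ≤ m) (u : Fin d → ℕ) (y : Fin d → ℝ) (f : C(Torus d, ℝ)) :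
    Res k n u y f - ∑ s ∈ Jn d m \ Jn d n with u ≤ s, qs k f s y = Res k m u y f := by
  simp only [Res, sum_filter]
  rw [← sum_sdiff (s₁ := Jn d n) (s₂ := Jn d m) fun s hs => mem_Jn.2 ((mem_Jn.1 hs).trans h)]
  ring

/-- functionals using only the values on `Ξ` -/
noncomputable def Sp (Ξ : Finset (Torus d)) : Submodule ℝ (C(Torus d, ℝ) → ℝ) :=
  Submodule.span ℝ ((fun ξ (f : C(Torus d, ℝ)) => f ξ) '' Ξ)

lemma Sp_mono {Ξ Ξ' : Finset (Torus d)} (h : Ξ ⊆ Ξ') : Sp Ξ ≤ Sp Ξ' :=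
  Submodule.span_mono (Set.image_mono h)

lemma mem_Sp {α : Type*} {Ξ : Finset (Torus d)} (I : Fin d → Finset α) (c z : Fin d → α → ℝ)
    (h : ∀ a ∈ Fintype.piFinset I, (fun i => (z i (a i) : AddCircle (2 * π))) ∈ Ξ) :
    (fun f => (∏ i, ∑ a ∈ I i, c i a • E i (z i a)).1 f 0) ∈ Sp Ξ := by
  rw [prod_univ_sum]
  simp only [sum_app_apply, prod_smul, smul_app, ContinuousMap.smul_apply, E_prod_apply, zero_add]
  rw [← Finset.sum_fn]
  exact Submodule.sum_mem _ fun a ha => Submodule.smul_mem _ _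
    (Submodule.subset_span ⟨_, h a ha, rfl⟩)

open Classical in
lemma Res_mem (k n : ℕ) (u : Fin d → ℕ) (x : Torus d) : ∃ Ξ : Finset (Torus d), #Ξ ≤ (k + 1) ^ d ∧
    Res k n u (fun i => rep (x i)) ∈ Sp ((Lam d k n).image xi ∪ Ξ) ∧
    (fun f => Tn k n f x) ∈ Sp ((Lam d k n).image xi) := by
  have h1 : ∀ s ∈ Jn d n, (fun f => qs k f s fun i => rep (x i)) ∈ Sp ((Lam d k n).image xi) := by
    intro s hs
    simp only [qs, R_eq]
    exact mem_Sp _ _ _ fun a ha => mem_image.2 ⟨⟨s, a⟩, mem_sigma.2 ⟨hs, ha⟩, rfl⟩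
  let z : Fin d → ℕ → ℝ := fun i a => if a = k then rep (x i) else
    ((⌊rep (x i) / hh (u i - 1)⌋ : ℝ) + a) * hh (u i - 1)
  refine ⟨(Fintype.piFinset fun _ => range (k + 1)).image
    fun a i => (z i (a i) : AddCircle (2 * π)), card_image_le.trans (by simp), ?_, ?_⟩
  · have h2 : ∀ i, E i (rep (x i)) - Qm k i (u i) (rep (x i)) = ∑ a ∈ range (k + 1),
        (if a = k then 1 else if u i = 0 then 0 else
          -Lg k a (Int.fract (rep (x i) / hh (u i - 1)))) • E i (z i a) := fun i => by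
      rw [sum_range_succ, sub_eq_neg_add, Qm, Q]
      congr 1
      · refine Eq.symm ((sum_congr rfl fun a ha => by rw [if_neg (mem_range.1 ha).ne,
          show z i a = _ from if_neg (mem_range.1 ha).ne]).trans ?_)
        split_ifs <;> simp
      · simp [z]
    unfold Res
    simp only [h2]
    refine Submodule.sub_mem _ (mem_Sp _ _ _ fun a ha => mem_union_right _ (mem_image_of_mem _ ha)) ?_
    rw [← Finset.sum_fn]
    exact Submodule.sum_mem _ fun s hs => Sp_mono subset_union_left (h1 s (mem_filter.1 hs).1)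
  · unfold Tn
    rw [← Finset.sum_fn]
    exact Submodule.sum_mem _ h1

end Pool.Agent.Lib.MP_919f0c_an.Lp
end

-- part Pool.Agent.Lib.MP_919f0c_an.LpUpper
section

/-! The upper bound for the sampling numbers of mixed Besov classes in `L_p`, `1 < p < ∞`. -/

set_option autoImplicit false

open Finset MeasureTheory Filter Topology Pool.Agent.MixedBesov Pool.Agent.Lib.MP_919f0c_an.Up
open scoped Real ENNReal Matrix

namespace Pool.Agent.Lib.MP_919f0c_an.Lp

variable {d : ℕ}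

/-- grid cell containing a point -/
noncomputable def cx (W : ℕ) (y : Torus d) : Gd fun _ : Fin d => W :=
  fun i => Fin.ofNat (2 ^ W) ⌊rep (y i) / hh W⌋.toNat

/-- grid point -/
noncomputable def gp {W : ℕ} (ν : Gd fun _ : Fin d => W) : Torus d :=
  fun i => (((ν i : ℕ) * hh W : ℝ) : AddCircle (2 * π))

lemma cx_spec (W : ℕ) (y : Torus d) (i : Fin d) :
    rep (y i) = ((cx W y i : ℕ) + Int.fract (rep (y i) / hh W)) * hh W := by
  obtain ⟨μ, h1, h2⟩ := floor_rep (y i) W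
  rw [cx, Fin.val_ofNat, h2, Int.toNat_natCast, Nat.mod_eq_of_lt (mem_range.1 h1),
    ← Int.cast_natCast, ← h2, Int.floor_add_fract, div_mul_cancel₀ _ (hh_pos _).ne']

lemma rep_gp {W : ℕ} (ν : Gd fun _ : Fin d => W) (i : Fin d) :
    rep (gp ν i) = ((ν i : ℕ) + 0) * hh W := by
  have h : ((ν i : ℕ) : ℝ) < 2 ^ W := by exact_mod_cast (ν i).2
  have := hh_pos W
  rw [add_zero, rep, gp, AddCircle.equivIco_coe_eq ⟨by positivity, by
    rw [zero_add, hh, mul_div_assoc', div_lt_iff₀ (by positivity)]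
    nlinarith [Real.pi_pos]⟩]

lemma measurable_cx (W : ℕ) (F : (Gd fun _ : Fin d => W) → ℝ) : Measurable fun y => F (cx W y) :=
  (measurable_of_countable fun z : Fin d → ℤ => F fun i => Fin.ofNat (2 ^ W) (z i).toNat).comp
    (measurable_pi_lambda _ fun i => Int.measurable_floor.comp
      ((measurable_rep.comp (measurable_pi_apply i)).div_const _))

lemma eLp_cx {P : ℝ≥0∞} (hp : 1 < P.toReal) {W : ℕ} {e : Torus d → ℝ}
    {h : (Gd fun _ : Fin d => W) → ℝ} (H : ∀ y, |e y| ≤ |h (cx W y)|) :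
    eLpNorm e P volume ≤ ENNReal.ofReal (((2 * hh W) ^ d) ^ (1 / P.toReal) * nm P.toReal h) := by
  have h0 : P ≠ 0 := by rintro rfl; norm_num at hp
  have h1 : P ≠ ∞ := by rintro rfl; norm_num at hp
  have := hh_pos W
  let b := fun x : Gd fun _ : Fin d => W => Set.pi Set.univ fun i => Metric.closedBall (gp x i) (hh W)
  have hb : ∀ x, MeasurableSet (b x) := fun x =>
    MeasurableSet.univ_pi fun _ => Metric.isClosed_closedBall.measurableSet
  rw [eLpNorm_eq_lintegral_rpow_enorm_toReal h0 h1, nm, ← Real.mul_rpow (by positivity)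
    (sp_nonneg _ _), ← ENNReal.ofReal_rpow_of_nonneg (mul_nonneg (by positivity) (sp_nonneg _ _))
    (by positivity)]
  refine ENNReal.rpow_le_rpow ((lintegral_mono (g := fun y => ∑ x, (b x).indicator
    (fun _ => ENNReal.ofReal (|h x| ^ P.toReal)) y) fun y => ?_).trans ?_) (by positivity)
  · refine le_trans ?_ (single_le_sum (fun _ _ => zero_le) (mem_univ (cx W y)))
    rw [Set.indicator_of_mem, Real.enorm_eq_ofReal_abs,
      ENNReal.ofReal_rpow_of_nonneg (abs_nonneg _) (by positivity)]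
    · exact ENNReal.ofReal_le_ofReal (Real.rpow_le_rpow (abs_nonneg _) (H y) (by positivity))
    intro i _
    rw [Metric.mem_closedBall, dist_eq_norm, ← coe_rep (y i), gp, ← AddCircle.coe_sub]
    refine (QuotientAddGroup.norm_mk_le_norm).trans ?_
    have h2 := Int.fract_nonneg (rep (y i) / hh W)
    have h3 := Int.fract_lt_one (rep (y i) / hh W)
    have h4 := cx_spec W y i
    rw [Real.norm_eq_abs, abs_le]
    constructor <;> nlinarith
  · rw [lintegral_finsetSum _ fun x _ => measurable_const.indicator (hb x), sp, mul_sum,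
      ENNReal.ofReal_sum_of_nonneg fun _ _ => by positivity]
    refine sum_le_sum fun x _ => ?_
    rw [lintegral_indicator_const (hb x), volume_pi_pi, mul_comm,
      ENNReal.ofReal_mul (by positivity), ENNReal.ofReal_pow (by positivity)]
    refine mul_le_mul_left ((prod_le_pow_card _ _ (ENNReal.ofReal (2 * hh W)) fun i _ => ?_).trans
      (by simp)) _
    rw [AddCircle.volume_closedBall]
    exact ENNReal.ofReal_le_ofReal (min_le_right _ _)

lemma lp_mono {α : Type*} (S : Finset α) {τ c : ℝ} (hτ : 0 < τ) (hc : 0 ≤ c) {a b : α → ℝ}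
    (ha : ∀ s, 0 ≤ a s) (hb : ∀ s, 0 ≤ b s) (h : ∀ s ∈ S, a s ≤ c * b s) :
    (∑ s ∈ S, a s ^ τ) ^ (1 / τ) ≤ c * (∑ s ∈ S, b s ^ τ) ^ (1 / τ) := by
  refine (Real.rpow_le_rpow (sum_nonneg fun s _ => Real.rpow_nonneg (ha s) _)
    (sum_le_sum fun s hs => Real.rpow_le_rpow (ha s) (h s hs) hτ.le) (by positivity)).trans_eq ?_
  simp only [Real.mul_rpow hc (hb _), ← mul_sum]
  rw [Real.mul_rpow (by positivity) (sum_nonneg fun s _ => Real.rpow_nonneg (hb s) _), one_div,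
    Real.rpow_rpow_inv hc hτ.ne']

lemma zbound (d : ℕ) {ρ ν τ K γ : ℝ} (hρ0 : 0 ≤ ρ) (hρ1 : ρ < 1) (hν0 : 0 < ν) (hν1 : ν < 1)
    (hτ : 1 ≤ τ) (hK : 0 ≤ K) (hγ0 : 0 ≤ γ) (hγ1 : γ ≤ 1) : ∃ C : ℝ, 0 ≤ C ∧
    ∀ x : (Fin (d + 1) → ℕ) → ℝ, (∀ l, 0 ≤ x l) →
      (∀ S : Finset (Fin (d + 1) → ℕ), ∑ l ∈ S, x l ^ τ ≤ K * (#S : ℝ) ^ γ) →
      ∃ b : (Fin (d + 1) → ℕ) → ℝ, (∀ s, 0 ≤ b s) ∧ (∀ s, b s ≤ C) ∧
        (∀ s (U : Finset (Fin (d + 1) → ℕ)), ∑ u ∈ U, ρ ^ (∑ i, u i) * x (s + u) ≤ b s) ∧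
        ∀ (n : ℕ) (S : Finset (Fin (d + 1) → ℕ)), (∀ s ∈ S, n < ∑ i, s i) →
          (∑ s ∈ S, (ν ^ (∑ i, s i - n) * b s) ^ τ) ^ (1 / τ) ≤
            C * (((n : ℝ) + 1) ^ d) ^ (γ / τ) := by
  have h0 : 0 < τ := by linarith
  have := sub_pos.2 hρ1
  obtain ⟨C, hC, H⟩ := sum_levels d (Real.rpow_pos_of_pos hν0 τ) (Real.rpow_lt_one hν0.le hν1 h0)
  set B := ((1 - ρ)⁻¹) ^ (d + 1)
  refine ⟨(B ^ (τ - 1) * (B * ((C + 1) * K))) ^ τ⁻¹, by positivity, fun x hx hS => ?_⟩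
  have hx' : ∀ l, 0 ≤ x l ^ τ := fun l => Real.rpow_nonneg (hx l) _
  have h1 : ∀ (F : (Fin (d + 1) → ℕ) → ℝ) (c : ℝ), 0 ≤ c → (∀ u, F u ≤ c) →
      ∀ U : Finset (Fin (d + 1) → ℕ), ∑ u ∈ U, ρ ^ (∑ i, u i) * F u ≤ B * c := fun F c hc h U => by
    refine (sum_le_sum fun u _ => mul_le_mul_of_nonneg_left (h u) (by positivity)).trans ?_
    rw [← sum_mul]
    exact mul_le_mul_of_nonneg_right (sum_geom_pi hρ0 hρ1 U) hc
  have h2 := fun s => h1 (fun u => x (s + u) ^ τ) ((C + 1) * K) (by positivity) fun u => by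
    have := hS {s + u}
    simp only [sum_singleton, card_singleton, Nat.cast_one, Real.one_rpow] at this
    nlinarith [mul_nonneg hC hK]
  have h3 : ∀ s u, 0 ≤ ρ ^ (∑ i, u i) * x (s + u) ^ τ := fun s u => by have := hx' (s + u); positivity
  have h4 := fun s => summable_of_sum_le (h3 s) (h2 s)
  have h5 : ∀ s, 0 ≤ ∑' u, ρ ^ (∑ i, u i) * x (s + u) ^ τ := fun s => tsum_nonneg (h3 s)
  refine ⟨fun s => (B ^ (τ - 1) * ∑' u, ρ ^ (∑ i, u i) * x (s + u) ^ τ) ^ τ⁻¹, fun s => by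
    have := h5 s; positivity, fun s => ?_, fun s U => ?_, fun n S hn => ?_⟩
  · have := h5 s
    have := (h4 s).tsum_le_of_sum_le (h2 s)
    beta_reduce; gcongr
  · have := h5 s
    rw [Real.le_rpow_inv_iff_of_pos (sum_nonneg fun u _ => mul_nonneg (by positivity) (hx _))
      (by positivity) h0]
    exact (wpow U hτ (fun _ => by positivity) (fun u => hx (s + u)) (sum_geom_pi hρ0 hρ1 U)).trans
      (mul_le_mul_of_nonneg_left ((h4 s).sum_le_tsum U fun u _ => h3 s u) (by positivity))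
  have h6 : ∑ s ∈ S, (ν ^ τ) ^ (∑ i, s i) * ∑' u, ρ ^ (∑ i, u i) * x (s + u) ^ τ ≤
      B * (C * K * ((ν ^ τ) ^ n * (((n : ℝ) + 1) ^ d) ^ γ)) := by
    refine hasSum_le_of_sum_le (hasSum_sum fun s _ => (h4 s).hasSum.mul_left _) fun U => ?_
    simp only [mul_left_comm (_ ^ ∑ i, _) (ρ ^ _), ← mul_sum]
    exact h1 _ _ (by positivity) (fun u => H _ K γ hK hγ0 hγ1 hS n S u hn) U
  rw [one_div, div_eq_mul_inv, Real.rpow_mul (by positivity), ← Real.mul_rpow (by positivity)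
    (by positivity)]
  refine Real.rpow_le_rpow (sum_nonneg fun s _ => by have := h5 s; positivity)
    (le_of_mul_le_mul_left (a := (ν ^ τ) ^ n) ?_ (by positivity)) (by positivity)
  calc _ = B ^ (τ - 1) * ∑ s ∈ S, (ν ^ τ) ^ (∑ i, s i) *
        ∑' u, ρ ^ (∑ i, u i) * x (s + u) ^ τ := by
        rw [mul_sum, mul_sum]
        refine sum_congr rfl fun s hs => ?_
        have := h5 s
        rw [Real.mul_rpow (by positivity) (by positivity), Real.rpow_inv_rpow (by positivity) h0.ne',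
          ← Real.rpow_pow_comm hν0.le, ← mul_assoc, ← pow_add, Nat.add_sub_cancel' (hn s hs).le]
        ring
    _ ≤ B ^ (τ - 1) * (B * ((C + 1) * K * ((ν ^ τ) ^ n * (((n : ℝ) + 1) ^ d) ^ γ))) :=
        mul_le_mul_of_nonneg_left (h6.trans (by gcongr; linarith)) (by positivity)
    _ = _ := by ring

lemma nm_one {p : ℝ} {ι : Type*} [Fintype ι] :
    nm p (1 : ι → ℝ) = (Fintype.card ι : ℝ) ^ (1 / p) := by simp [nm, sp]

theorem level_real {d k : ℕ} (hd : 1 ≤ d) (hk : 0 < k) {P : ℝ≥0∞} [Fact (1 ≤ P)] {τ q K γ : ℝ}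
    (h : Adm P.toReal τ) (hq0 : 0 < q) (hq : 2 ^ (1 / P.toReal) * q < 1) (hK : 0 ≤ K)
    (hγ0 : 0 ≤ γ) (hγ1 : γ ≤ 1) : ∃ C : ℝ, 0 < C ∧ ∀ n : ℕ, ∃ (Ξ : Finset (Torus (d + 1)))
      (ψ : Torus (d + 1) → Torus (d + 1) → ℝ), (#Ξ : ℝ) ≤ C * (2 ^ n * (n + 1) ^ d) ∧
      (∀ ξ, MemLp (ψ ξ) P volume) ∧ ∀ (f : C(Torus (d + 1), ℝ)) (β : (Fin (d + 1) → ℕ) → ℝ),
        (∀ l, Mod P k f l (β l)) → (∀ S : Finset (Fin (d + 1) → ℕ),
          ∑ l ∈ S, (q⁻¹ ^ (∑ i, l i) * β l) ^ τ ≤ K * (#S : ℝ) ^ γ) →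
        eLpNorm (fun y => f y - ∑ ξ ∈ Ξ, ψ ξ y * f ξ) P volume ≤
          ENNReal.ofReal (C * (q ^ n * (((n : ℝ) + 1) ^ d) ^ (γ / τ))) := by
  classical
  obtain ⟨hp, hτ, -⟩ := h.basic
  set p := P.toReal
  set ρ := 2 ^ (1 / p) * q with hρ
  have hρ0 : 0 < ρ := by positivity
  obtain ⟨μ, hμ1, hμ2⟩ := exists_between ((lt_div_iff₀ hq0).2 hq)
  have hμ0 : 0 < μ := lt_trans (by positivity) hμ1
  obtain ⟨Λ, hΛ, hχ⟩ := exists_prof k
  obtain ⟨C₁, hC₁, H₁⟩ := cells hd h hμ1 hΛ (ι := Fin (d + 1) → Fin k)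
    (χ := fun a i t => Lg k (a i) (k * t) / Λ) fun a i => hχ (a i)
  obtain ⟨C₂, hC₂, H₂⟩ := core hk hp (d + 1)
  obtain ⟨C₃, hC₃, H₃⟩ := zbound d hρ0.le hq (mul_pos hμ0 hq0) ((lt_div_iff₀ hq0).1 hμ2) hτ hK hγ0 hγ1
  set σ := √ρ
  have hσ0 : 0 < σ := Real.sqrt_pos.2 hρ0
  have hσ1 : σ < 1 := (Real.sqrt_lt' one_pos).2 (by simpa using hq)
  have := sub_pos.2 hσ1
  set A := (k : ℝ) ^ (d + 1) * (Λ ^ (d + 1) * (C₂ * (2 ^ (d + 1)) ^ (1 / p))) with hA
  have hπ := Real.pi_pos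
  refine ⟨(2 * k) ^ (d + 1) * 2 + (k + 1) ^ (d + 1) * C₁ +
    ((4 * π) ^ (d + 1)) ^ (1 / p) * (C₁ * (A * C₃ + 1) + 3), by positivity, fun n => ?_⟩
  have h1n : (1 : ℝ) ≤ (n + 1) ^ d := one_le_pow₀ (by simp)
  obtain ⟨m, hnm, hm⟩ : ∃ m, n ≤ m ∧
      (n + 1) ^ d * (C₂ * C₃ * ((1 - σ)⁻¹) ^ (d + 1) * σ ^ m) ≤ q ^ n := by
    have := ((tendsto_pow_atTop_nhds_zero_of_lt_one hσ0.le hσ1).const_mul
      (C₂ * C₃ * ((1 - σ)⁻¹) ^ (d + 1))).const_mul (((n : ℝ) + 1) ^ d)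
    rw [mul_zero, mul_zero] at this
    exact ((eventually_ge_atTop n).and (this.eventually_le_const (by positivity))).exists
  obtain ⟨j, hj⟩ : ∃ j : ℕ, #(Jn (d + 1) m) * (k ^ (d + 1) * (Λ ^ (d + 1) * (C₂ * C₃) *
      ((d + 1) * (Λ * (1 / 2) ^ j)))) ≤ q ^ n := by
    have := ((((((tendsto_pow_atTop_nhds_zero_of_lt_one (r := (1 / 2 : ℝ)) (by norm_num)
      (by norm_num)).const_mul Λ).const_mul ((d : ℝ) + 1)).const_mul (Λ ^ (d + 1) * (C₂ * C₃))).const_mul
      ((k : ℝ) ^ (d + 1))).const_mul (#(Jn (d + 1) m) : ℝ))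
    simp only [mul_zero] at this
    exact (this.eventually_le_const (by positivity)).exists
  set ε := C₂ * C₃ * ((1 - σ)⁻¹) ^ (d + 1) * σ ^ m with hε
  have hε0 : 0 ≤ ε := by positivity
  set W := m + j with hW
  obtain ⟨𝒞, M, Z, hZ, hM, H⟩ := H₁ n W (by omega)
  choose Ξ hΞ1 hΞ2 hΞ3 using fun (c : ℕ × (Fin (d + 1) → ℕ)) (z : Gd fun _ : Fin (d + 1) => W) =>
    Res_mem k n (uu c) (gp z)
  set Ξ₀ := (Lam (d + 1) k n).image xi ∪ 𝒞.biUnion fun c => (Z c).biUnion (Ξ c)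
  choose w hw using fun ν : Gd fun _ : Fin (d + 1) => W =>
    (Submodule.mem_span_image_finset_iff_exists_fun' ℝ).1 (show (fun f => Tn k n f (gp ν)) +
      ∑ c ∈ 𝒞, ∑ z, M c ν z • Res k n (uu c) (fun i => rep (gp z i)) ∈ Sp Ξ₀ from
      Submodule.add_mem _ (Sp_mono subset_union_left (hΞ3 0 ν)) (Submodule.sum_mem _ fun c hc =>
        Submodule.sum_mem _ fun z _ => by
          by_cases hz : z ∈ Z c
          · exact Submodule.smul_mem _ _ (Sp_mono (union_subset_union_right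
              ((subset_biUnion_of_mem _ hz).trans (subset_biUnion_of_mem
                (fun c => (Z c).biUnion (Ξ c)) hc))) (hΞ2 c z))
          · rw [hM c ν z hz, zero_smul]; exact Submodule.zero_mem _))
  refine ⟨Ξ₀, fun ξ y => w (cx W y) ξ, ?_, fun ξ => MemLp.of_bound
    (measurable_cx W fun ν => w ν ξ).aestronglyMeasurable (∑ ν, ‖w ν ξ‖) (Eventually.of_forall
      fun y => single_le_sum (f := fun ν => ‖w ν ξ‖) (fun _ _ => norm_nonneg _) (mem_univ _)),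
    fun f β hβ hS => ?_⟩
  · have h1 : #Ξ₀ ≤ (2 * k) ^ (d + 1) * 2 * (2 ^ n * (n + 1) ^ d) +
        (k + 1) ^ (d + 1) * ∑ c ∈ 𝒞, #(Z c) := by
      refine (card_union_le _ _).trans (add_le_add (card_image_le.trans (card_Lam d k n))
        (card_biUnion_le.trans ?_))
      rw [mul_sum]
      exact sum_le_sum fun c _ => (card_biUnion_le_card_mul _ _ _ fun z _ => hΞ1 c z).trans_eq
        (mul_comm _ _)
    have h2 : (#Ξ₀ : ℝ) ≤ (2 * k) ^ (d + 1) * 2 * (2 ^ n * (n + 1) ^ d) +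
        (k + 1) ^ (d + 1) * ∑ c ∈ 𝒞, (#(Z c) : ℝ) := by exact_mod_cast h1
    rw [add_mul, add_mul, mul_assoc _ C₁]
    exact (h2.trans (by gcongr)).trans (le_add_of_nonneg_right (by positivity))
  obtain ⟨b, hb0, hb1, hb2, hb3⟩ := H₃ _ (fun l => mul_nonneg (by positivity) (mod_nonneg (hβ l))) hS
  have hb : ∀ s (U : Finset (Fin (d + 1) → ℕ)),
      ∑ u ∈ U, (2 ^ (1 / p)) ^ (∑ i, u i) * β (s + u) ≤ q ^ (∑ i, s i) * b s := fun s U => by
    refine le_trans (le_of_eq ?_) (mul_le_mul_of_nonneg_left (hb2 s U) (by positivity))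
    rw [mul_sum]
    refine sum_congr rfl fun u _ => ?_
    simp only [hρ, Pi.add_apply, sum_add_distrib, pow_add, mul_pow, inv_pow]
    field_simp
  have hsup : ∀ (s : Fin (d + 1) → ℕ) (y : Fin (d + 1) → ℝ) (ν : Fin (d + 1) → ℕ),
      (∀ i, ⌊y i / hh (s i - 1)⌋ = ν i ∧ ν i < 2 ^ (s i - 1)) →
      |qs k f s y| ≤ C₂ * C₃ * ρ ^ ∑ i, s i := fun s y ν hν => by
    refine (abs_le_nm (by linarith) (fun _ : Unit => qs k f s y) ()).trans ((H₂ f β s (fun _ => y)
      (fun _ => ν) 1 _ hβ zero_le_one (fun _ i => (hν i).1) (fun _ i => (hν i).2)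
      (fun _ => by simp) (hb s)).trans ?_)
    rw [one_mul, ← Real.rpow_pow_comm zero_le_two, hρ, mul_pow]
    calc _ ≤ C₂ * (2 ^ (1 / p)) ^ (∑ i, s i) * (q ^ (∑ i, s i) * C₃) := by gcongr; exact hb1 s
      _ = _ := by ring
  have hres : ∀ u (x : Torus (d + 1)), |Res k m u (fun i => rep (x i)) f| ≤ ε := fun u x => by
    refine Res_le hk m u _ f fun L => (sum_le_sum (g := fun s => C₂ * C₃ * σ ^ m * σ ^ ∑ i, s i)
      fun s hs => ?_).trans ?_
    · choose ν h1 h2 using fun i => floor_rep (x i) (s i - 1)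
      refine (hsup s _ ν fun i => ⟨h2 i, mem_range.1 (h1 i)⟩).trans ?_
      rw [← Real.mul_self_sqrt hρ0.le, mul_pow, ← mul_assoc]
      gcongr _ * ?_ * _
      exact pow_le_pow_of_le_one hσ0.le hσ1.le (mem_filter.1 hs).2.le
    · rw [← mul_sum]
      exact (mul_le_mul_of_nonneg_left (sum_geom_pi hσ0.le hσ1 _) (by positivity)).trans_eq
        (by rw [hε]; ring)
  have hJ : ∀ s ∈ Jn (d + 1) m, ∀ i, s i ≤ m := fun s hs i =>
    (single_le_sum (f := s) (fun _ _ => Nat.zero_le _) (mem_univ i)).trans (mem_Jn.1 hs)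
  have hblock : ∀ s ∈ Jn (d + 1) m, ∀ (ν : Gd fun _ : Fin (d + 1) => W) (t : Fin (d + 1) → ℝ),
      (∀ i, 0 ≤ t i) → (∀ i, t i < 1) → qs k f s (fun i => ((ν i : ℕ) + t i) * hh W) =
        ∑ a : Fin (d + 1) → Fin k, Λ ^ (d + 1) * qs k f s (nd s a ν) *
          ∏ i, Lg k (a i) (k * (tl (W - s i) (ν i) + t i / 2 ^ (W - s i))) / Λ := by
    intro s hs ν t h0 h1
    rw [qs_block hk f (fun i => (hJ s hs i).trans (by omega)) ν h0 h1]
    refine sum_congr rfl fun a _ => ?_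
    rw [prod_div_distrib, prod_const, card_univ, Fintype.card_fin]
    field_simp
  let γ₀ := fun (s : Fin (d + 1) → ℕ) (a : Fin (d + 1) → Fin k) (ν : Gd fun _ : Fin (d + 1) => W) =>
    Λ ^ (d + 1) * qs k f s (nd s a ν)
  have hS' : ∀ s ∈ Jn (d + 1) m \ Jn (d + 1) n, n < ∑ i, s i := fun s hs =>
    not_le.1 fun h => (mem_sdiff.1 hs).2 (mem_Jn.2 h)
  have hFc : ∀ u x, |Res k n u (fun i => rep (gp x i)) f - (∑ s ∈ Jn (d + 1) m \ Jn (d + 1) n with
      u ≤ s, gs (fun a i t => Lg k (a i) (k * t) / Λ) γ₀ s) x| ≤ ε := fun u x => by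
    refine le_trans (le_of_eq ?_) (hres u (gp x))
    rw [← Res_sub hnm, Finset.sum_apply]
    congr 2
    refine sum_congr rfl fun s hs => ?_
    simp only [rep_gp]
    rw [hblock s (mem_sdiff.1 (mem_filter.1 hs).1).1 x _ (fun _ => le_rfl) fun _ => one_pos]
    simp [gs, pf, γ₀]
  have main := H (Jn (d + 1) m \ Jn (d + 1) n) γ₀ (fun x => Res k n 0 (fun i => rep (gp x i)) f)
    (fun u x => Res k n u (fun i => rep (gp x i)) f) ε hε0 (fun s hs => ⟨hS' s hs,
      fun i => (hJ s (mem_sdiff.1 hs).1 i).trans (by omega), fun a x y hxy => by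
        simp only [γ₀]; unfold nd; rw [hxy]⟩) (fun x => by simpa using hFc 0 x) hFc
  set V := nm p (1 : (Gd fun _ : Fin (d + 1) => W) → ℝ) with hV
  have hV' : V = (2 ^ ((d + 1) * W)) ^ (1 / p) := by
    rw [hV, nm_one]; simp [← pow_mul, mul_comm]
  have hV0 : 0 ≤ V := nm_nonneg _ _
  have hlp := (lp_mono _ (by linarith) (c := A * V * q ^ n) (by positivity)
    (a := fun s => μ ^ (∑ i, s i - n) * ∑ a, nm p (γ₀ s a))
    (fun s => mul_nonneg (by positivity) (sum_nonneg fun _ _ => nm_nonneg _ _))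
    (fun s => mul_nonneg (by positivity) (hb0 s)) fun s hs => by
      have h1 : ∀ i, s i ≤ W := fun i => (hJ s (mem_sdiff.1 hs).1 i).trans (by omega)
      have h2 : (2 : ℝ) ^ (∑ i, (W - (s i - 1))) * 2 ^ ∑ i, s i ≤ 2 ^ (d + 1) * 2 ^ ((d + 1) * W) := by
        rw [← pow_add, ← pow_add, ← sum_add_distrib]
        refine pow_le_pow_right₀ one_le_two ((sum_le_card_nsmul _ _ (W + 1) fun i _ => ?_).trans
          (by simp [mul_add, add_comm]))
        have := h1 i; omega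
      have h3 := sum_le_card_nsmul univ (fun a => nm p (γ₀ s a)) _ fun a _ =>
        (nm_smul_le (c := Λ ^ (d + 1)) (by linarith) (by positivity) fun x => by
          simp only [γ₀]; rw [abs_mul, abs_of_nonneg (by positivity)]).trans
        (mul_le_mul_of_nonneg_left (H₂ f β s (nd s a) _ (2 ^ ∑ i, (W - (s i - 1))) _ hβ
          (by positivity) (fun x i => (floor_nd h1 a x i).1) (fun x i => (floor_nd h1 a x i).2)
          (fun x => by rw [card_bx fun i => Nat.sub_le _ _]; simp) (hb s)) (by positivity))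
      simp only [card_univ, Fintype.card_pi, Fintype.card_fin, prod_const, nsmul_eq_mul,
        Nat.cast_pow] at h3
      have := hb0 s
      calc _ ≤ μ ^ (∑ i, s i - n) * (k ^ (d + 1) * (Λ ^ (d + 1) * (C₂ *
            (2 ^ (d + 1) * 2 ^ ((d + 1) * W)) ^ (1 / p) * (q ^ (∑ i, s i) * b s)))) := by
            gcongr; exact h3.trans (by gcongr)
        _ = _ := by
            rw [Real.mul_rpow (by positivity) (by positivity), ← hV', hA, mul_pow μ,
              show q ^ ∑ i, s i = q ^ n * q ^ (∑ i, s i - n) by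
                rw [← pow_add, Nat.add_sub_cancel' (hS' s hs).le]]
            ring).trans (mul_le_mul_of_nonneg_left (hb3 n _ hS') (by positivity))
  set g := (fun x => Res k n 0 (fun i => rep (gp x i)) f) -
    ∑ c ∈ 𝒞, M c *ᵥ fun x => Res k n (uu c) (fun i => rep (gp x i)) f with hg
  have hdisc : ∀ y, |f y - f (gp (cx W y))| ≤ 3 * q ^ n := fun y => by
    have h1 := hres 0 y
    have h2 := hres 0 (gp (cx W y))
    simp only [Res_zero, coe_rep] at h1 h2
    have h3 : |∑ s ∈ Jn (d + 1) m, (qs k f s fun i => rep (y i)) -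
        ∑ s ∈ Jn (d + 1) m, qs k f s fun i => rep (gp (cx W y) i)| ≤ q ^ n := by
      rw [← sum_sub_distrib]
      refine (abs_sum_le_sum_abs _ _).trans ((sum_le_card_nsmul _ _ _ fun s hs => ?_).trans
        ((nsmul_eq_mul _ _).trans_le hj))
      have h1 : ∀ i, s i ≤ W := fun i => (hJ s hs i).trans (by omega)
      rw [funext (cx_spec W y), funext (rep_gp _), hblock s hs _ _ (fun _ => Int.fract_nonneg _)
        fun _ => Int.fract_lt_one _, hblock s hs _ _ (fun _ => le_rfl) fun _ => one_pos,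
        ← sum_sub_distrib]
      refine (abs_sum_le_sum_abs _ _).trans ((sum_le_card_nsmul _ _ (Λ ^ (d + 1) * (C₂ * C₃) *
        ((d + 1) * (Λ * (1 / 2) ^ j))) fun a _ => ?_).trans (by simp))
      have h4 : ∀ (i) (t : ℝ), 0 ≤ t → t < 1 →
          tl (W - s i) (cx W y i) + t / 2 ^ (W - s i) ∈ Set.Icc (0 : ℝ) 1 := fun i t h0 h2 => by
        rw [← (floor_loc (h1 i) _ h0 h2).2]
        exact ⟨Int.fract_nonneg _, (Int.fract_lt_one _).le⟩
      have h5 := fun i => h4 i _ (Int.fract_nonneg (rep (y i) / hh W)) (Int.fract_lt_one _)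
      have h6 := fun i => h4 i _ le_rfl one_pos
      rw [← mul_sub, abs_mul, abs_mul, abs_of_nonneg (a := Λ ^ (d + 1)) (by positivity)]
      refine mul_le_mul (mul_le_mul_of_nonneg_left ((hsup s _ _ (floor_nd h1 a _)).trans
        (mul_le_of_le_one_right (by positivity) (pow_le_one₀ hρ0.le hq.le))) (by positivity))
        ((abs_prod_sub _ (fun i => (hχ (a i)).bd _ (h5 i)) fun i => (hχ (a i)).bd _ (h6 i)).trans
          ((sum_le_card_nsmul _ _ (Λ * (1 / 2) ^ j) fun i _ => ((hχ (a i)).lip _ (h5 i) _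
            (h6 i)).trans (mul_le_mul_of_nonneg_left ?_ (by linarith))).trans (by simp)))
        (abs_nonneg _) (by positivity)
      have h7 := Int.fract_nonneg (rep (y i) / hh W)
      have h8 := hJ s hs i
      rw [zero_div, add_zero, add_sub_cancel_left, abs_of_nonneg (by positivity), div_pow, one_pow]
      exact div_le_div₀ zero_le_one (Int.fract_lt_one _).le (by positivity)
        (pow_le_pow_right₀ one_le_two (by omega))
    have h4 := le_mul_of_one_le_left hε0 h1n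
    rw [abs_le] at *
    constructor <;> linarith
  refine (eLp_cx hp (h := (fun x => |g x|) + fun _ => 3 * q ^ n) fun y => ?_).trans
    (ENNReal.ofReal_le_ofReal ?_)
  · have h1 := congrFun (hw (cx W y)) f
    simp only [Finset.sum_apply, Pi.smul_apply, smul_eq_mul, Pi.add_apply] at h1
    have h2 : f y - ∑ ξ ∈ Ξ₀, w (cx W y) ξ * f ξ = g (cx W y) + (f y - f (gp (cx W y))) := by
      rw [h1, hg, Pi.sub_apply, Res_zero, Finset.sum_apply]
      simp only [coe_rep, Tn, Dj, qs, Matrix.mulVec, dotProduct]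
      ring
    rw [h2]
    exact (abs_add_le _ _).trans ((add_le_add le_rfl (hdisc y)).trans (le_abs_self _))
  have h1 : nm p ((fun x => |g x|) + fun _ => 3 * q ^ n) ≤ nm p g + 3 * q ^ n * V :=
    (nm_add hp.le _ _).trans (add_le_add (nm_mono (by linarith) fun x => by simp)
      (nm_smul_le (by linarith) (by positivity) fun x => by simp [abs_of_pos hq0]))
  have h2 : ((2 * hh W) ^ (d + 1)) ^ (1 / p) * V = ((4 * π) ^ (d + 1)) ^ (1 / p) := by
    have := hh_pos W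
    rw [hV', ← Real.mul_rpow (by positivity) (by positivity), mul_comm (d + 1), pow_mul, ← mul_pow]
    congr 2
    unfold hh; field_simp; norm_num
  have h3 : 1 ≤ (((n : ℝ) + 1) ^ d) ^ (γ / τ) := Real.one_le_rpow h1n (by positivity)
  have := hh_pos W
  generalize (((n : ℝ) + 1) ^ d) ^ (γ / τ) = X at *
  have h4 : q ^ n * V ≤ q ^ n * X * V := by gcongr; exact le_mul_of_one_le_right (by positivity) h3
  calc _ ≤ ((2 * hh W) ^ (d + 1)) ^ (1 / p) * (C₁ * (A * V * q ^ n * (C₃ * X) + q ^ n * X * V) +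
        3 * (q ^ n * X * V)) := by
        gcongr
        exact h1.trans (add_le_add (main.trans (mul_le_mul_of_nonneg_left (add_le_add hlp
          ((mul_le_mul_of_nonneg_right hm hV0).trans h4)) hC₁.le)) (by linarith))
    _ = ((2 * hh W) ^ (d + 1)) ^ (1 / p) * V * (C₁ * (A * C₃ + 1) + 3) * (q ^ n * X) := by ring
    _ ≤ _ := by
        rw [h2]
        gcongr
        exact le_add_of_nonneg_left (by positivity)

lemma holder_card {α : Type*} (F : Finset α) {x : α → ℝ} (hx : ∀ l, 0 ≤ x l) {τ t : ℝ} (hτ : 0 < τ)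
    (ht : 0 < t) (h : ∑ l ∈ F, x l ^ t ≤ 1) : ∑ l ∈ F, x l ^ τ ≤ (#F : ℝ) ^ max (1 - τ * t⁻¹) 0 := by
  rcases le_total t τ with h1 | h1
  · rw [max_eq_right (by rw [sub_nonpos, le_mul_inv_iff₀ ht]; linarith), Real.rpow_zero]
    refine (sum_le_sum fun l hl => Real.rpow_le_rpow_of_exponent_ge' (hx l) ?_ ht.le h1).trans h
    rw [← Real.rpow_le_rpow_iff (hx l) zero_le_one ht, Real.one_rpow]
    exact (single_le_sum (f := fun l => x l ^ t) (fun l _ => Real.rpow_nonneg (hx l) _) hl).trans h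
  · have h2 := wpow F (p := t / τ) ((one_le_div hτ).2 h1) (w := fun _ => 1) (f := fun l => x l ^ τ)
      (fun _ => zero_le_one) (fun l => Real.rpow_nonneg (hx l) _) (B := #F) (by simp)
    simp only [one_mul, ← Real.rpow_mul (hx _), mul_div_cancel₀ _ hτ.ne'] at h2
    rw [max_eq_left (by rw [sub_nonneg, mul_inv_le_iff₀ ht]; linarith), ← Real.rpow_le_rpow_iff
      (sum_nonneg fun l _ => Real.rpow_nonneg (hx l) _) (by positivity) (div_pos ht hτ),
      ← Real.rpow_mul (by positivity), show (1 - τ * t⁻¹) * (t / τ) = t / τ - 1 by field_simp]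
    exact h2.trans (mul_le_of_le_one_right (by positivity) h)

variable {𝕜 : Type*} [RCLike 𝕜]

lemma sum_β_pow (k : ℕ) {r τ : ℝ} (hr : 0 ≤ r) (hτ : 0 < τ) (p : ℝ≥0∞) {θ : ℝ≥0∞} (hθ : 1 ≤ θ)
    (f : Torus d → 𝕜) (hf : besovNorm k r p θ f ≤ 1) (S : Finset (Fin d → ℕ)) :
    ∑ l ∈ S, ((((2:ℝ) ^ (-r))⁻¹) ^ (∑ i, l i) * (βe k p f l).toReal) ^ τ ≤
      2 ^ d / (kap r ^ d) ^ τ * (#S : ℝ) ^ max (1 - τ * (1 / θ).toReal) 0 := by
  have hk := kap_pos r
  have hsemi : ∀ e, besovSemi k r p θ e f ≤ 1 := fun e =>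
    (single_le_sum (f := fun e => besovSemi k r p θ e f) (fun _ _ => zero_le) (mem_univ e)).trans hf
  have hfin : ∀ l, xe k r p f l ≠ ∞ := fun l =>
    ENNReal.mul_ne_top ENNReal.ofReal_ne_top (βe_ne_top k hr p hθ f hf l)
  have key : ∀ e, ∀ F : Finset (Fin d → ℕ), (∀ l ∈ F, supp l = e) →
      ∑ l ∈ F, (xe k r p f l).toReal ^ τ ≤ (#F : ℝ) ^ max (1 - τ * (1 / θ).toReal) 0 := by
    intro e F hF
    by_cases h : θ = ∞
    · subst h
      simpa using sum_le_card_nsmul F _ 1 fun l _ => Real.rpow_le_one ENNReal.toReal_nonneg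
        (ENNReal.toReal_mono ENNReal.one_ne_top ((xe_le_top k hr p f l).trans (hsemi _))) hτ.le
    · have h0 : 1 ≤ θ.toReal := by simpa using ENNReal.toReal_mono h hθ
      have h2 := hsemi e
      rw [besovSemi, if_neg h] at h2
      have h3 := ENNReal.rpow_le_rpow h2 (z := θ.toReal) (by linarith)
      rw [← ENNReal.rpow_mul, one_div, inv_mul_cancel₀ (by linarith), ENNReal.rpow_one,
        ENNReal.one_rpow] at h3
      have h4 := ENNReal.toReal_mono ENNReal.one_ne_top ((sum_xe_pow_le k hr p h0 f e F hF).trans h3)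
      rw [ENNReal.toReal_sum fun l _ => ENNReal.rpow_ne_top_of_nonneg (by linarith) (hfin l)] at h4
      rw [one_div, ENNReal.toReal_inv]
      exact holder_card F (fun _ => ENNReal.toReal_nonneg) hτ (by linarith)
        (by simpa only [ENNReal.toReal_rpow, ENNReal.toReal_one] using h4)
  rw [div_mul_eq_mul_div, le_div_iff₀ (by positivity), sum_mul,
    ← sum_fiberwise_of_maps_to (t := univ) (g := supp) fun _ _ => mem_univ _]
  refine (sum_le_card_nsmul _ _ ((#S : ℝ) ^ max (1 - τ * (1 / θ).toReal) 0)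
    fun e _ => ?_).trans (by simp)
  refine le_trans (le_of_eq (sum_congr rfl fun l _ => ?_)) ((key e _
    fun l hl => (mem_filter.1 hl).2).trans (Real.rpow_le_rpow (by positivity)
      (by exact_mod_cast card_filter_le _ _) (le_max_right _ _)))
  rw [xe, ENNReal.toReal_mul, ENNReal.toReal_ofReal (by positivity),
    ← Real.mul_rpow (by positivity) (by positivity)]
  congr 1; ring

lemma sampling_le' (F : Set C(Torus d, 𝕜)) {P : ℝ≥0∞} (hP : 1 ≤ P) {m : ℕ} (Ξ : Finset (Torus d))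
    {ψ : Torus d → Torus d → ℝ} (hψ : ∀ ξ, MemLp (ψ ξ) P volume) (hm : #Ξ ≤ m) {b : ℝ≥0∞}
    (hb : ∀ f ∈ F, ∀ L : 𝕜 →L[ℝ] ℝ, (∀ z, ‖L z‖ ≤ ‖z‖) →
      eLpNorm (fun y => L (f y) - ∑ ξ ∈ Ξ, ψ ξ y * L (f ξ)) P volume ≤ b) :
    samplingNumber F P m ≤ b + b := by
  obtain ⟨e⟩ : Nonempty (Ξ ↪ Fin m) := Function.Embedding.nonempty_of_card_le (by simpa using hm)
  refine iInf_le_of_le (Function.extend e (fun q => q.1) 0) (iInf_le_of_le
    (Function.extend e (fun q y => (ψ q.1 y : 𝕜)) 0) (iInf_le_of_le (fun j => ?_)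
      (iSup₂_le fun f hf => ?_)))
  · by_cases h : ∃ q, e q = j
    · obtain ⟨q, rfl⟩ := h
      rw [e.injective.extend_apply]
      exact (hψ q.1).ofReal
    · rw [Function.extend_apply' _ _ _ h]
      exact MemLp.zero
  have hm : ∀ L : 𝕜 →L[ℝ] ℝ, AEStronglyMeasurable
      (fun y => ‖L (f y) - ∑ ξ ∈ Ξ, ψ ξ y * L (f ξ)‖) volume := fun L =>
    ((L.continuous.comp f.continuous).aestronglyMeasurable.sub
      (Finset.aestronglyMeasurable_fun_sum _ fun ξ _ => (hψ ξ).1.mul_const _)).norm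
  refine (eLpNorm_mono_real fun y => ?_).trans ((eLpNorm_add_le (hm RCLike.reCLM) (hm RCLike.imCLM)
    hP).trans (add_le_add ((eLpNorm_norm _).trans_le (hb f hf _ RCLike.norm_re_le_norm))
      ((eLpNorm_norm _).trans_le (hb f hf _ RCLike.norm_im_le_norm))))
  have h1 : ∀ L : 𝕜 →L[ℝ] ℝ, L (f y) - ∑ ξ ∈ Ξ, ψ ξ y * L (f ξ) =
      L (f y - ∑ ξ ∈ Ξ, ψ ξ y • f ξ) := fun L => by simp
  rw [Pi.add_apply, h1, h1, ← sum_coe_sort Ξ, Fintype.sum_of_injective e e.injective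
    (fun q : Ξ => ψ q y • f q) _ (fun j hj => ?_) fun q => ?_]
  · generalize f y - _ = z
    conv_lhs => rw [← RCLike.re_add_im z]
    refine (norm_add_le _ _).trans (add_le_add (by simp) ?_)
    rw [norm_mul, RCLike.norm_ofReal]
    refine mul_le_of_le_one_right (abs_nonneg _) ?_
    by_cases h : (RCLike.I : 𝕜) = 0
    · simp [h]
    · exact (RCLike.norm_I_of_ne_zero h).le
  · rw [Function.extend_apply' (fun (q : Ξ) y => (ψ q.1 y : 𝕜)) _ _ hj]
    simp
  · rw [e.injective.extend_apply, e.injective.extend_apply, RCLike.real_smul_eq_coe_mul, mul_comm]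

lemma level_to_m (d : ℕ) {c : ℕ} (hc0 : 0 < c) {C r γ : ℝ} (hC : 0 ≤ C) (hr0 : 0 < r) (hγ0 : 0 ≤ γ)
    {φ : ℕ → ℝ≥0∞} (h : ∀ n m : ℕ, c * (2 ^ n * (n + 1) ^ d) ≤ m →
      φ m ≤ ENNReal.ofReal (C * (((2:ℝ) ^ (-r)) ^ n * (((n : ℝ) + 1) ^ d) ^ γ))) :
    ∃ C : ℝ, 0 < C ∧ ∃ m₀ : ℕ, ∀ m : ℕ, m₀ ≤ m →
      φ m ≤ ENNReal.ofReal (C * ((m : ℝ) ^ (-r) * Real.log m ^ (d * (r + γ)))) := by
  refine ⟨C * ((2 * c * 4 ^ d : ℝ) ^ r * (4 ^ d) ^ γ) + 1, by positivity, max c 3, fun m hm => ?_⟩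
  obtain ⟨n, hn1, hn2⟩ := choose_level d c hc0 ((le_max_left _ _).trans hm)
  refine (h n m hn1).trans (ENNReal.ofReal_le_ofReal ?_)
  have hm3 : (3 : ℝ) ≤ m := by exact_mod_cast (le_max_right _ _).trans hm
  have hlog : 1 ≤ Real.log m := by
    rw [Real.le_log_iff_exp_le (by linarith)]
    linarith [Real.exp_one_lt_d9]
  have h2n : (2 : ℝ) ^ n ≤ m := by
    exact_mod_cast le_trans ((Nat.le_mul_of_pos_right _ (by positivity)).trans
      (Nat.le_mul_of_pos_left _ hc0)) hn1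
  have hn : (n : ℝ) + 2 ≤ 4 * Real.log m := by
    have h1 := Real.log_le_log (by positivity) h2n
    rw [Real.log_pow] at h1
    nlinarith [Real.log_two_gt_d9, Nat.cast_nonneg (α := ℝ) n]
  set ℓ := Real.log m
  have hA : ((2:ℝ) ^ (-r)) ^ n ≤ (2 * c * 4 ^ d : ℝ) ^ r * ((m : ℝ) ^ (-r) * (ℓ ^ d) ^ r) := by
    have h5 : (m : ℝ) / (2 * c * 4 ^ d * ℓ ^ d) ≤ 2 ^ n := by
      have h2 : (m : ℝ) ≤ c * (2 ^ (n + 1) * ((n : ℝ) + 1 + 1) ^ d) := by exact_mod_cast hn2.le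
      rw [div_le_iff₀ (by positivity)]
      calc (m : ℝ) ≤ c * (2 ^ (n + 1) * (4 * ℓ) ^ d) := h2.trans (by gcongr; linarith)
        _ = _ := by rw [mul_pow]; ring
    rw [Real.rpow_pow_comm zero_le_two]
    refine (Real.rpow_le_rpow_of_nonpos (by positivity) h5 (by linarith)).trans (le_of_eq ?_)
    rw [Real.div_rpow (by positivity) (by positivity), Real.rpow_neg (x := 2 * c * 4 ^ d * ℓ ^ d)
      (by positivity), Real.mul_rpow (x := 2 * c * 4 ^ d) (by positivity) (by positivity),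
      div_inv_eq_mul]
    ring
  have hB : (((n : ℝ) + 1) ^ d) ^ γ ≤ (4 ^ d) ^ γ * (ℓ ^ d) ^ γ := by
    rw [← Real.mul_rpow (by positivity) (by positivity), ← mul_pow]
    gcongr; linarith
  rw [Real.rpow_natCast_mul (by positivity), Real.rpow_add (by positivity)]
  calc _ ≤ C * (((2 * c * 4 ^ d : ℝ) ^ r * ((m : ℝ) ^ (-r) * (ℓ ^ d) ^ r)) *
        ((4 ^ d) ^ γ * (ℓ ^ d) ^ γ)) := by gcongr
    _ = C * ((2 * c * 4 ^ d : ℝ) ^ r * (4 ^ d) ^ γ) *
        ((m : ℝ) ^ (-r) * ((ℓ ^ d) ^ r * (ℓ ^ d) ^ γ)) := by ring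
    _ ≤ _ := by gcongr; linarith

theorem upper_Lp (𝕜 : Type*) [RCLike 𝕜] {d k : ℕ} (hd : 2 ≤ d) {r τ : ℝ} {p θ : ℝ≥0∞}
    (h : Adm p.toReal τ) (hθ : 1 ≤ θ) (hr : (1 / p).toReal < r) (hk : r < k) :
    ∃ C : ℝ, 0 < C ∧ ∃ m₀ : ℕ, ∀ m : ℕ, m₀ ≤ m →
      samplingNumber (besovBall 𝕜 d k r p θ) p m ≤ ENNReal.ofReal (C * ((m : ℝ) ^ (-r) *
        Real.log m ^ (((d : ℝ) - 1) * (r + max (1 / τ - (1 / θ).toReal) 0)))) := by
  obtain ⟨d, rfl⟩ : ∃ d', d = d' + 1 := ⟨d - 1, by omega⟩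
  obtain ⟨hp, hτ, -⟩ := h.basic
  have hP : 1 ≤ p := by
    rw [← ENNReal.ofReal_one]; exact ENNReal.ofReal_le_of_le_toReal hp.le
  have := Fact.mk hP
  have hr0 : 0 < r := ENNReal.toReal_nonneg.trans_lt hr
  have hτ0 : 0 < τ := by linarith
  have hκ := kap_pos r
  obtain ⟨C, hC, H⟩ := level_real (d := d) (k := k) (by omega) (by exact_mod_cast hr0.trans hk) h
    (q := 2 ^ (-r)) (K := 2 ^ (d + 1) / (kap r ^ (d + 1)) ^ τ)
    (γ := max (1 - τ * (1 / θ).toReal) 0) (by positivity) (by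
      rw [← Real.rpow_add two_pos]
      refine Real.rpow_lt_one_of_one_lt_of_neg one_lt_two ?_
      rw [one_div, ENNReal.toReal_inv] at hr
      rw [one_div]; linarith) (by positivity) (le_max_right _ _)
    (max_le (sub_le_self _ (by positivity)) zero_le_one)
  rw [show max (1 - τ * (1 / θ).toReal) 0 / τ = max (1 / τ - (1 / θ).toReal) 0 by
    rw [← max_div_div_right hτ0.le, zero_div, sub_div, mul_div_cancel_left₀ _ hτ0.ne']] at H
  rw [Nat.cast_succ, add_sub_cancel_right]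
  refine level_to_m d (c := ⌈C⌉₊) (C := C + C) (Nat.ceil_pos.2 hC) (by positivity) hr0
    (le_max_right _ _) fun n m hm => ?_
  obtain ⟨Ξ, ψ, h1, h2, h3⟩ := H n
  rw [add_mul, ENNReal.ofReal_add (by positivity) (by positivity)]
  refine sampling_le' _ hP Ξ h2 (le_trans ?_ hm) fun f hf L hL => h3
    ((⟨L, L.continuous⟩ : C(𝕜, ℝ)).comp f) _ (fun l => mod_of_βe k p L hL f l
      (βe_ne_top k hr0.le p hθ f hf l)) (sum_β_pow k hr0.le hτ0 p hθ f hf)
  exact_mod_cast h1.trans (mul_le_mul_of_nonneg_right (Nat.le_ceil C) (by positivity))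

end Pool.Agent.Lib.MP_919f0c_an.Lp
end
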