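import Mathlib
import Pool.Agent.Lib.MP_919f0c_an.Defs

-- part Pool.Agent.Lib.MP_919f0c_an.UpAlg
section

/-! A commutative algebra of translation invariant operators on `C(G, ℝ)`. -/

open MeasureTheory Filter Topology

namespace Pool.Agent.Lib.MP_919f0c_an.Up

variable {G : Type*} [AddCommGroup G] [TopologicalSpace G] [IsTopologicalAddGroup G]
  [CompactSpace G]

/-- translation operator -/
noncomputable def sh (u : G) : C(G, ℝ) →L[ℝ] C(G, ℝ) :=
  LinearMap.mkContinuous
    { toFun := fun φ => φ.comp ⟨fun x => x + u, by fun_prop⟩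
      map_add' := fun φ ψ => by ext x; simp
      map_smul' := fun c φ => by ext x; simp } 1
    (fun φ => by
      rw [one_mul]
      exact (ContinuousMap.norm_le _ (norm_nonneg _)).2 fun x => φ.norm_coe_le_norm _)

@[simp] lemma sh_apply (u : G) (φ : C(G, ℝ)) (x : G) : sh u φ x = φ (x + u) := rfl

lemma norm_sh_le (u : G) (φ : C(G, ℝ)) : ‖sh u φ‖ ≤ ‖φ‖ :=
  (ContinuousMap.norm_le _ (norm_nonneg _)).2 fun _ => φ.norm_coe_le_norm _

lemma sh_mul (u v : G) : sh u * sh v = sh (u + v) := by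
  ext φ x; simp [add_assoc]

lemma continuous_sh (φ : C(G, ℝ)) : Continuous fun u : G => sh u φ :=
  (ContinuousMap.curry ⟨fun p : G × G => φ (p.2 + p.1), by fun_prop⟩).continuous

lemma ii_sh (c : C(ℝ, G)) (φ : C(G, ℝ)) :
    IntervalIntegrable (fun t => sh (c t) φ) volume 0 1 :=
  ((continuous_sh φ).comp c.continuous).intervalIntegrable _ _

/-- average of translations along a curve -/
noncomputable def av (c : C(ℝ, G)) : C(G, ℝ) →L[ℝ] C(G, ℝ) :=
  LinearMap.mkContinuous
    { toFun := fun φ => ∫ t in (0:ℝ)..1, sh (c t) φ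
      map_add' := fun φ ψ => by
        simp only [map_add]
        exact intervalIntegral.integral_add (ii_sh c φ) (ii_sh c ψ)
      map_smul' := fun a φ => by
        simp only [map_smul, RingHom.id_apply]
        exact intervalIntegral.integral_smul _ _ } 1
    (fun φ => by
      have := intervalIntegral.norm_integral_le_of_norm_le_const (a := 0) (b := 1)
        (f := fun t => sh (c t) φ) (C := ‖φ‖) (fun t _ => norm_sh_le _ _)
      simpa using this)

lemma av_def (c : C(ℝ, G)) (φ : C(G, ℝ)) : av c φ = ∫ t in (0:ℝ)..1, sh (c t) φ := rfl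

lemma clm_av {Y : Type*} [NormedAddCommGroup Y] [NormedSpace ℝ Y] [CompleteSpace Y]
    (L : C(G, ℝ) →L[ℝ] Y) (c : C(ℝ, G)) (φ : C(G, ℝ)) :
    L (av c φ) = ∫ t in (0:ℝ)..1, L (sh (c t) φ) := by
  rw [av_def, L.intervalIntegral_comp_comm (ii_sh c φ)]

lemma av_apply (c : C(ℝ, G)) (φ : C(G, ℝ)) (x : G) :
    av c φ x = ∫ t in (0:ℝ)..1, φ (x + c t) :=
  clm_av (ContinuousMap.evalCLM ℝ x) c φ

variable (G) in
/-- the bicommutant of the translations -/
noncomputable def Alg : Subalgebra ℝ (C(G, ℝ) →L[ℝ] C(G, ℝ)) :=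
  Subalgebra.centralizer ℝ (Set.centralizer (Set.range (sh (G := G))))

noncomputable instance : CommRing (Alg G) :=
  { (inferInstance : Ring (Alg G)) with
    mul_comm := fun x y => Subtype.ext <|
      Set.centralizer_centralizer_comm_of_comm (S := Set.range (sh (G := G)))
        (by
          rintro _ ⟨u, rfl⟩ _ ⟨v, rfl⟩
          rw [sh_mul, sh_mul, add_comm]) _ x.2 _ y.2 }

/-- translation as an element of the algebra -/
noncomputable def Sh (u : G) : Alg G :=
  ⟨sh u, Set.subset_centralizer_centralizer (S := Set.range (sh (G := G))) ⟨u, rfl⟩⟩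

/-- curve average as an element of the algebra -/
noncomputable def Av (c : C(ℝ, G)) : Alg G :=
  ⟨av c, by
    intro T hT
    ext1 φ
    have h : ∀ u ψ, sh u (T ψ) = T (sh u ψ) := fun u ψ =>
      congrArg (fun S : C(G, ℝ) →L[ℝ] C(G, ℝ) => S ψ) (hT (sh u) ⟨u, rfl⟩)
    show T (av c φ) = av c (T φ)
    rw [clm_av T, av_def]
    simp only [h]⟩

@[simp] lemma Sh_apply (u : G) (φ : C(G, ℝ)) (x : G) : (Sh u).1 φ x = φ (x + u) := rfl

lemma Av_apply (c : C(ℝ, G)) (φ : C(G, ℝ)) (x : G) :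
    (Av c).1 φ x = ∫ t in (0:ℝ)..1, φ (x + c t) := av_apply c φ x

lemma Sh_mul (u v : G) : Sh u * Sh v = Sh (u + v) := Subtype.ext (sh_mul u v)

lemma Sh_zero : Sh (0 : G) = 1 := by
  apply Subtype.ext; ext φ x; simp

lemma Sh_prod {ι : Type*} (s : Finset ι) (u : ι → G) : ∏ i ∈ s, Sh (u i) = Sh (∑ i ∈ s, u i) := by
  classical
  induction s using Finset.induction_on with
  | empty => simp [Sh_zero]
  | insert a s ha ih => rw [Finset.prod_insert ha, Finset.sum_insert ha, ih, Sh_mul]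

lemma Sh_pow (u : G) (n : ℕ) : Sh u ^ n = Sh (n • u) := by
  induction n with
  | zero => simp [Sh_zero]
  | succ n ih => rw [pow_succ, ih, Sh_mul, succ_nsmul]

lemma mul_app (x y : Alg G) (φ : C(G, ℝ)) : (x * y).1 φ = x.1 (y.1 φ) := rfl
lemma add_app (x y : Alg G) (φ : C(G, ℝ)) : (x + y).1 φ = x.1 φ + y.1 φ := rfl
lemma sub_app (x y : Alg G) (φ : C(G, ℝ)) : (x - y).1 φ = x.1 φ - y.1 φ := rfl
lemma neg_app (x : Alg G) (φ : C(G, ℝ)) : (-x).1 φ = - x.1 φ := rfl
lemma one_app (φ : C(G, ℝ)) : (1 : Alg G).1 φ = φ := rfl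
lemma zero_app (φ : C(G, ℝ)) : (0 : Alg G).1 φ = 0 := rfl
lemma smul_app (c : ℝ) (x : Alg G) (φ : C(G, ℝ)) : (c • x).1 φ = c • x.1 φ := rfl
lemma sum_app {ι : Type*} (s : Finset ι) (x : ι → Alg G) (φ : C(G, ℝ)) :
    (∑ i ∈ s, x i).1 φ = ∑ i ∈ s, (x i).1 φ := by
  classical
  induction s using Finset.induction_on with
  | empty => simp
  | insert a s ha ih => rw [Finset.sum_insert ha, Finset.sum_insert ha, add_app, ih]

lemma sum_app_apply {ι : Type*} (s : Finset ι) (x : ι → Alg G) (φ : C(G, ℝ)) (g : G) :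
    (∑ i ∈ s, x i).1 φ g = ∑ i ∈ s, (x i).1 φ g := by
  rw [sum_app, ContinuousMap.sum_apply]

/-- `x` is dominated by the positive operator `y` -/
def Dom (x y : Alg G) : Prop :=
  ∀ φ ψ : C(G, ℝ), (∀ g, |φ g| ≤ ψ g) → ∀ g, |x.1 φ g| ≤ y.1 ψ g

lemma Dom.mul {x y x' y' : Alg G} (h : Dom x y) (h' : Dom x' y') : Dom (x * x') (y * y') :=
  fun φ ψ hh => h _ _ (h' φ ψ hh)

lemma Dom.add {x y x' y' : Alg G} (h : Dom x y) (h' : Dom x' y') : Dom (x + x') (y + y') := by
  intro φ ψ hh g
  simp only [add_app, ContinuousMap.add_apply]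
  exact (abs_add_le _ _).trans (add_le_add (h φ ψ hh g) (h' φ ψ hh g))

lemma Dom.neg {x y : Alg G} (h : Dom x y) : Dom (-x) y := by
  intro φ ψ hh g
  simpa [neg_app] using h φ ψ hh g

lemma Dom.sub {x y x' y' : Alg G} (h : Dom x y) (h' : Dom x' y') : Dom (x - x') (y + y') := by
  rw [sub_eq_add_neg]; exact h.add h'.neg

lemma Dom.smul {x y : Alg G} (h : Dom x y) {a b : ℝ} (hab : |a| ≤ b) : Dom (a • x) (b • y) := by
  intro φ ψ hh g
  simp only [smul_app, ContinuousMap.smul_apply, smul_eq_mul, abs_mul]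
  exact mul_le_mul hab (h φ ψ hh g) (abs_nonneg _) ((abs_nonneg _).trans hab)

lemma Dom.one : Dom (1 : Alg G) 1 := fun _ _ hh => hh

lemma Dom.zero : Dom (0 : Alg G) 0 := by
  intro φ ψ _ g; simp [zero_app]

lemma Dom.zero_left {x y : Alg G} (h : Dom x y) : Dom 0 y := by
  intro φ ψ hh g
  simp only [zero_app, ContinuousMap.zero_apply, abs_zero]
  exact (abs_nonneg _).trans (h φ ψ hh g)

lemma Dom.add_right {x y x' y' : Alg G} (h : Dom x y) (h' : Dom x' y') : Dom x (y + y') := by
  simpa using h.add h'.zero_left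

lemma Dom.sh (u : G) : Dom (Sh u) (Sh u) := fun _ _ hh _ => hh _

lemma Dom.av (c : C(ℝ, G)) : Dom (Av c) (Av c) := by
  intro φ ψ hh g
  rw [Av_apply, Av_apply]
  refine (intervalIntegral.abs_integral_le_integral_abs zero_le_one).trans ?_
  refine intervalIntegral.integral_mono_on zero_le_one ?_ ?_ fun t _ => hh _
  · exact Continuous.intervalIntegrable (by fun_prop) _ _
  · exact Continuous.intervalIntegrable (by fun_prop) _ _

lemma Dom.sum {ι : Type*} (s : Finset ι) {x y : ι → Alg G} (h : ∀ i ∈ s, Dom (x i) (y i)) :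
    Dom (∑ i ∈ s, x i) (∑ i ∈ s, y i) := by
  classical
  induction s using Finset.induction_on with
  | empty => simpa using Dom.zero
  | insert a s ha ih =>
    rw [Finset.sum_insert ha, Finset.sum_insert ha]
    exact (h a (by simp)).add (ih fun i hi => h i (by simp [hi]))

lemma Dom.prod {ι : Type*} (s : Finset ι) {x y : ι → Alg G} (h : ∀ i ∈ s, Dom (x i) (y i)) :
    Dom (∏ i ∈ s, x i) (∏ i ∈ s, y i) := by
  classical
  induction s using Finset.induction_on with
  | empty => simpa using Dom.one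
  | insert a s ha ih =>
    rw [Finset.prod_insert ha, Finset.prod_insert ha]
    exact (h a (by simp)).mul (ih fun i hi => h i (by simp [hi]))

lemma Dom.pow {x y : Alg G} (h : Dom x y) (n : ℕ) : Dom (x ^ n) (y ^ n) := by
  induction n with
  | zero => simpa using Dom.one
  | succ n ih => rw [pow_succ, pow_succ]; exact ih.mul h

lemma Dom.trans {x y z : Alg G} (h : Dom x y) (h' : Dom y z) : Dom x z := by
  intro φ ψ hh g
  refine (h φ ψ hh g).trans ((le_abs_self _).trans (h' ψ ψ (fun g => ?_) g))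
  rw [abs_of_nonneg ((abs_nonneg _).trans (hh g))]

/-- a sum over a smaller index set is dominated by the sum over a larger one -/
lemma Dom.sum_subset {ι : Type*} {s t : Finset ι} (hst : s ⊆ t) {y : ι → Alg G}
    (h : ∀ i ∈ t, Dom (y i) (y i)) : Dom (∑ i ∈ s, y i) (∑ i ∈ t, y i) := by
  classical
  rw [← Finset.sum_sdiff hst, add_comm]
  exact (Dom.sum s fun i hi => h i (hst hi)).add_right
    (Dom.sum _ fun i hi => h i (Finset.mem_sdiff.1 hi).1)

/-- strong convergence of products -/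
lemma strong_mul {x y : ℕ → Alg G} {x0 y0 : Alg G}
    (hx : ∀ φ, Tendsto (fun L => (x L).1 φ) atTop (𝓝 (x0.1 φ)))
    (hy : ∀ φ, Tendsto (fun L => (y L).1 φ) atTop (𝓝 (y0.1 φ))) (φ : C(G, ℝ)) :
    Tendsto (fun L => (x L * y L).1 φ) atTop (𝓝 ((x0 * y0).1 φ)) := by
  obtain ⟨C, hC⟩ := banach_steinhaus (g := fun L => (x L).1) (fun ψ => by
    obtain ⟨C, hC⟩ := (hx ψ).norm.bddAbove_range
    exact ⟨C, fun L => hC ⟨L, rfl⟩⟩)
  have h1 : Tendsto (fun L => (x L).1 ((y L).1 φ - y0.1 φ)) atTop (𝓝 0) := by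
    refine squeeze_zero_norm (a := fun L => C * ‖(y L).1 φ - y0.1 φ‖) (fun L => ?_) ?_
    · exact ((x L).1.le_opNorm _).trans (mul_le_mul_of_nonneg_right (hC L) (norm_nonneg _))
    · simpa using (tendsto_iff_norm_sub_tendsto_zero.1 (hy φ)).const_mul C
  have := h1.add (hx (y0.1 φ))
  simp only [zero_add] at this
  refine this.congr fun L => ?_
  rw [mul_app, map_sub, sub_add_cancel]

lemma strong_prod {ι : Type*} (s : Finset ι) {x : ι → ℕ → Alg G} {x0 : ι → Alg G}
    (hx : ∀ i φ, Tendsto (fun L => (x i L).1 φ) atTop (𝓝 ((x0 i).1 φ))) (φ : C(G, ℝ)) :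
    Tendsto (fun L => (∏ i ∈ s, x i L).1 φ) atTop (𝓝 ((∏ i ∈ s, x0 i).1 φ)) := by
  classical
  induction s using Finset.induction_on generalizing φ with
  | empty => simp
  | insert a s ha ih =>
    simp only [Finset.prod_insert ha]
    exact strong_mul (hx a) ih φ

end Pool.Agent.Lib.MP_919f0c_an.Up
end

-- part Pool.Agent.Lib.MP_919f0c_an.UpTorus
section

/-! Coordinate translations and averages on the torus. -/

open MeasureTheory Filter Topology Pool.Agent.MixedBesov
open scoped Real ENNReal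

namespace Pool.Agent.Lib.MP_919f0c_an.Up

variable {d : ℕ}

/-- the point `s e_i` of the torus -/
noncomputable def pt (i : Fin d) (s : ℝ) : Torus d := Pi.single i (s : AddCircle (2 * π))

lemma pt_add (i : Fin d) (s t : ℝ) : pt i (s + t) = pt i s + pt i t := by
  simp [pt, Pi.single_add]

lemma pt_zero (i : Fin d) : pt i 0 = 0 := by simp [pt]

lemma pt_period (i : Fin d) (s : ℝ) : pt i (s + 2 * π) = pt i s := by
  simp [pt]

lemma pt_nsmul (i : Fin d) (n : ℕ) (s : ℝ) : n • pt i s = pt i (n * s) := by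
  induction n with
  | zero => simp [pt_zero]
  | succ n ih => rw [succ_nsmul, ih, ← pt_add]; congr 1; push_cast; ring

lemma continuous_pt (i : Fin d) : Continuous (pt i) := by
  unfold pt
  exact (continuous_single i).comp (AddCircle.continuous_mk' _)

lemma sum_pt (s : Fin d → ℝ) : ∑ i, pt i (s i) = fun i => (s i : AddCircle (2 * π)) := by
  simp only [pt]
  exact Finset.univ_sum_single fun i => (s i : AddCircle (2 * π))

/-- translation by `s` in the coordinate `i` -/
noncomputable def E (i : Fin d) (s : ℝ) : Alg (Torus d) := Sh (pt i s)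

/-- average over translations by `[0, a]` in the coordinate `i` -/
noncomputable def A (i : Fin d) (a : ℝ) : Alg (Torus d) :=
  Av ⟨fun t => pt i (t * a), (continuous_pt i).comp (by fun_prop)⟩

/-- full average in the coordinate `i` -/
noncomputable def H (i : Fin d) : Alg (Torus d) := A i (2 * π)

lemma E_apply (i : Fin d) (s : ℝ) (φ : C(Torus d, ℝ)) (x : Torus d) :
    (E i s).1 φ x = φ (x + pt i s) := rfl

lemma A_apply (i : Fin d) (a : ℝ) (φ : C(Torus d, ℝ)) (x : Torus d) :
    (A i a).1 φ x = ∫ t in (0:ℝ)..1, φ (x + pt i (t * a)) := Av_apply _ φ x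

lemma E_mul (i : Fin d) (s t : ℝ) : E i s * E i t = E i (s + t) := by
  rw [E, E, E, Sh_mul, pt_add]

lemma E_pow (i : Fin d) (s : ℝ) (n : ℕ) : E i s ^ n = E i (n * s) := by
  rw [E, E, Sh_pow, pt_nsmul]

lemma E_zero (i : Fin d) : E i 0 = 1 := by rw [E, pt_zero, Sh_zero]

lemma E_prod_apply (s : Fin d → ℝ) (φ : C(Torus d, ℝ)) (x : Torus d) :
    (∏ i, E i (s i)).1 φ x = φ (x + fun i => (s i : AddCircle (2 * π))) := by
  simp only [E]
  rw [Sh_prod, sum_pt, Sh_apply]

lemma A_zero (i : Fin d) : A i 0 = 1 := by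
  apply Subtype.ext; ext φ x
  rw [A_apply]; simp [pt_zero]

lemma dom_E (i : Fin d) (s : ℝ) : Dom (E i s) (E i s) := Dom.sh _
lemma dom_A (i : Fin d) (a : ℝ) : Dom (A i a) (A i a) := Dom.av _
lemma dom_H (i : Fin d) : Dom (H i) (H i) := Dom.av _

lemma A_apply' (i : Fin d) {a : ℝ} (ha : a ≠ 0) (φ : C(Torus d, ℝ)) (x : Torus d) (c : ℝ) :
    (A i a).1 φ (x + pt i c) = a⁻¹ * ∫ y in c..c + a, φ (x + pt i y) := by
  rw [A_apply]
  have := intervalIntegral.integral_comp_mul_add (a := 0) (b := 1)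
    (fun y => φ (x + pt i y)) ha c
  simp only [mul_zero, zero_add, mul_one, smul_eq_mul] at this
  rw [add_comm c a, ← this]
  congr 1; ext t
  rw [add_assoc, ← pt_add]; congr 3; ring

lemma per_int (i : Fin d) (φ : C(Torus d, ℝ)) (x : Torus d) (c : ℝ) :
    ∫ y in c..c + 2 * π, φ (x + pt i y) = 2 * π * (H i).1 φ x := by
  have hp : Function.Periodic (fun y => φ (x + pt i y)) (2 * π) := fun y => by
    simp only [pt_period]
  rw [hp.intervalIntegral_add_eq c 0]
  have := A_apply' i Real.two_pi_pos.ne' φ x 0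
  rw [pt_zero, add_zero] at this
  rw [H, this, ← mul_assoc, mul_inv_cancel₀ Real.two_pi_pos.ne', one_mul]

lemma E_mul_H (i : Fin d) (s : ℝ) : E i s * H i = H i := by
  apply Subtype.ext; ext φ x
  show (H i).1 φ (x + pt i s) = (H i).1 φ x
  rw [H, A_apply' i Real.two_pi_pos.ne', per_int, ← mul_assoc,
    inv_mul_cancel₀ Real.two_pi_pos.ne', one_mul, H]

lemma H_one (i : Fin d) : (H i).1 1 = 1 := by
  ext x; rw [H, A_apply]; simp

/-- mesh size at level `j` -/
noncomputable def hh (j : ℕ) : ℝ := 2 * π / 2 ^ j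

lemma hh_pos (j : ℕ) : 0 < hh j := div_pos Real.two_pi_pos (by positivity)

lemma hh_succ (j : ℕ) : hh j = 2 * hh (j + 1) := by
  unfold hh; rw [pow_succ]; field_simp

lemma hh_anti {j l : ℕ} (h : j ≤ l) : hh l ≤ hh j :=
  div_le_div_of_nonneg_left Real.two_pi_pos.le (by positivity)
    (pow_le_pow_right₀ one_le_two h)

/-- sum over the grid of level `j` in the coordinate `i` -/
noncomputable def Gr (i : Fin d) (j : ℕ) : Alg (Torus d) :=
  ∑ μ ∈ Finset.range (2 ^ j), E i (μ * hh j)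

lemma dom_Gr (i : Fin d) (j : ℕ) : Dom (Gr i j) (Gr i j) := Dom.sum _ fun _ _ => dom_E _ _

lemma dom_Gr_A (i : Fin d) (j K : ℕ) {a : ℝ} (ha : 0 < a) (haK : a ≤ K * hh j) :
    Dom (Gr i j * A i a) ((K * (2 * π) / a) • H i) := by
  intro φ ψ hφ x
  refine (((dom_Gr i j).mul (dom_A i a)) φ ψ hφ x).trans ?_
  have h0 : ∀ y, 0 ≤ ψ y := fun y => (abs_nonneg _).trans (hφ y)
  have hc : Continuous fun y => ψ (x + pt i y) :=
    ψ.continuous.comp (continuous_const.add (continuous_pt i))
  rw [mul_app, Gr, sum_app_apply]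
  simp only [E_apply, A_apply' i ha.ne', smul_app, ContinuousMap.smul_apply, smul_eq_mul]
  have h1 : ∀ μ : ℕ, ∫ y in (μ * hh j)..(μ * hh j + a), ψ (x + pt i y) ≤
      ∑ s ∈ Finset.range K, ∫ y in ((μ + s : ℝ) * hh j)..((μ + s + 1 : ℝ) * hh j),
        ψ (x + pt i y) := by
    intro μ
    have := intervalIntegral.sum_integral_adjacent_intervals (f := fun y => ψ (x + pt i y))
      (μ := volume) (a := fun s : ℕ => (μ + s : ℝ) * hh j) (n := K)
      (fun _ _ => hc.intervalIntegrable _ _)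
    simp only [Nat.cast_add, Nat.cast_one, ← add_assoc, Nat.cast_zero, add_zero] at this
    rw [this]
    refine intervalIntegral.integral_mono_interval le_rfl (by linarith) (by linarith)
      (Eventually.of_forall fun y => h0 _) (hc.intervalIntegrable _ _)
  have h2 : ∀ s : ℕ, ∑ μ ∈ Finset.range (2 ^ j),
      ∫ y in ((μ + s : ℝ) * hh j)..((μ + s + 1 : ℝ) * hh j), ψ (x + pt i y) =
      2 * π * (H i).1 ψ x := by
    intro s
    have := intervalIntegral.sum_integral_adjacent_intervals (f := fun y => ψ (x + pt i y))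
      (μ := volume) (a := fun μ : ℕ => (μ + s : ℝ) * hh j) (n := 2 ^ j)
      (fun _ _ => hc.intervalIntegrable _ _)
    simp only [Nat.cast_add, Nat.cast_one, Nat.cast_zero, zero_add, add_right_comm _ (1:ℝ)]
      at this
    rw [this, ← per_int i ψ x (s * hh j)]
    congr 1
    unfold hh; push_cast; field_simp; ring
  rw [← Finset.mul_sum]
  calc a⁻¹ * ∑ μ ∈ Finset.range (2 ^ j), ∫ y in (μ * hh j)..(μ * hh j + a), ψ (x + pt i y)
      ≤ a⁻¹ * ∑ μ ∈ Finset.range (2 ^ j), ∑ s ∈ Finset.range K,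
          ∫ y in ((μ + s : ℝ) * hh j)..((μ + s + 1 : ℝ) * hh j), ψ (x + pt i y) :=
        mul_le_mul_of_nonneg_left (Finset.sum_le_sum fun μ _ => h1 μ) (inv_nonneg.2 ha.le)
    _ = _ := by
        rw [Finset.sum_comm]
        simp only [h2, Finset.sum_const, Finset.card_range, nsmul_eq_mul]
        field_simp

lemma integrable_cm (φ : C(Torus d, ℝ)) : Integrable φ volume :=
  φ.continuous.integrable_of_hasCompactSupport (HasCompactSupport.of_compactSpace _)

/-- the integral as a continuous functional -/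
noncomputable def intC : C(Torus d, ℝ) →L[ℝ] ℝ :=
  LinearMap.mkContinuous
    { toFun := fun φ => ∫ x, φ x
      map_add' := fun φ ψ => by
        simpa using integral_add (integrable_cm φ) (integrable_cm ψ)
      map_smul' := fun c φ => by simpa using integral_const_mul c φ }
    ((volume : Measure (Torus d)).real Set.univ)
    (fun φ => by
      exact (norm_integral_le_of_norm_le_const
        (Eventually.of_forall fun x => φ.norm_coe_le_norm x)).trans_eq (mul_comm _ _))

lemma intC_apply (φ : C(Torus d, ℝ)) : intC φ = ∫ x, φ x := rfl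

lemma vol_univ : (volume : Measure (Torus d)) Set.univ = ENNReal.ofReal ((2 * π) ^ d) := by
  rw [volume_pi, Measure.pi_univ]
  simp [AddCircle.measure_univ, ENNReal.ofReal_pow Real.two_pi_pos.le]

lemma intC_H (i : Fin d) (φ : C(Torus d, ℝ)) : intC ((H i).1 φ) = intC φ := by
  have h : ∀ u, intC (sh u φ) = intC φ := fun u => by
    simp only [intC_apply, sh_apply]
    exact integral_add_right_eq_self (fun x => φ x) u
  have := clm_av intC ⟨fun t => pt i (t * (2 * π)), (continuous_pt i).comp (by fun_prop)⟩ φ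
  simp only [h] at this
  refine this.trans ?_
  simp

lemma intC_prod_H (s : Finset (Fin d)) (φ : C(Torus d, ℝ)) :
    intC ((∏ i ∈ s, H i).1 φ) = intC φ := by
  induction s using Finset.induction_on with
  | empty => simp
  | insert a s ha ih => rw [Finset.prod_insert ha, mul_app, intC_H, ih]

lemma prod_H_apply (φ : C(Torus d, ℝ)) (x : Torus d) :
    (∏ i, H i).1 φ x = ((2 * π) ^ d)⁻¹ * ∫ y, φ y := by
  have h1 : ∀ z : Torus d, (∏ i, H i).1 φ z = (∏ i, H i).1 φ 0 := by
    intro z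
    choose s hs using fun i => QuotientAddGroup.mk_surjective (z i)
    have hz : z = 0 + fun i => (s i : AddCircle (2 * π)) := by
      ext i; simp [hs]
    rw [hz, ← E_prod_apply, ← mul_app, ← Finset.prod_mul_distrib]
    simp only [E_mul_H]
  have h2 := intC_prod_H Finset.univ φ
  rw [intC_apply, intC_apply] at h2
  simp only [h1, integral_const, smul_eq_mul] at h2
  rw [h1, ← h2, Measure.real, vol_univ, ENNReal.toReal_ofReal (by positivity), ← mul_assoc,
    inv_mul_cancel₀ (by positivity), one_mul]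

lemma prod_H_one : (∏ i : Fin d, H i).1 1 = 1 := by
  have : ∀ s : Finset (Fin d), (∏ i ∈ s, H i).1 1 = 1 := by
    intro s
    induction s using Finset.induction_on with
    | empty => simp
    | insert a s ha ih => rw [Finset.prod_insert ha, mul_app, ih, H_one]
  exact this _

/-- the `L_p` seminorm -/
noncomputable def qn (p : ℝ≥0∞) [Fact (1 ≤ p)] (φ : C(Torus d, ℝ)) : ℝ :=
  ‖ContinuousMap.toLp p volume ℝ φ‖

section
variable (p : ℝ≥0∞) [Fact (1 ≤ p)]

lemma qn_eq (φ : C(Torus d, ℝ)) : qn p φ = (eLpNorm φ p volume).toReal := by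
  rw [qn, Lp.norm_def, eLpNorm_congr_ae (ContinuousMap.coeFn_toLp volume φ)]

lemma eLpNorm_ne_top (φ : C(Torus d, ℝ)) : eLpNorm φ p volume ≠ ∞ := by
  rw [← eLpNorm_congr_ae (ContinuousMap.coeFn_toLp (p := p) (𝕜 := ℝ) volume φ)]
  exact Lp.eLpNorm_ne_top _

lemma qn_nonneg (φ : C(Torus d, ℝ)) : 0 ≤ qn p φ := norm_nonneg _

lemma qn_E (i : Fin d) (s : ℝ) (φ : C(Torus d, ℝ)) : qn p ((E i s).1 φ) = qn p φ := by
  rw [qn_eq, qn_eq]
  congr 1
  exact eLpNorm_comp_measurePreserving (g := φ) φ.continuous.aestronglyMeasurable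
    (measurePreserving_add_right volume (pt i s))

/-- `x` has `L_p` operator norm at most `c` -/
def Bd (x : Alg (Torus d)) (c : ℝ) : Prop := ∀ φ, qn p (x.1 φ) ≤ c * qn p φ

lemma Bd.one : Bd p (1 : Alg (Torus d)) 1 := fun φ => by simp

lemma Bd.mono {x : Alg (Torus d)} {a b : ℝ} (h : Bd p x a) (hab : a ≤ b) : Bd p x b :=
  fun φ => (h φ).trans (mul_le_mul_of_nonneg_right hab (qn_nonneg p φ))

lemma Bd.mul {x y : Alg (Torus d)} {a b : ℝ} (ha : 0 ≤ a) (h : Bd p x a) (h' : Bd p y b) :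
    Bd p (x * y) (a * b) := fun φ => by
  rw [mul_app, mul_assoc]
  exact (h _).trans (mul_le_mul_of_nonneg_left (h' φ) ha)

lemma Bd.pow {x : Alg (Torus d)} {a : ℝ} (ha : 0 ≤ a) (h : Bd p x a) (n : ℕ) :
    Bd p (x ^ n) (a ^ n) := by
  induction n with
  | zero => simpa using Bd.one p
  | succ n ih => rw [pow_succ, pow_succ]; exact Bd.mul p (by positivity) ih h

lemma Bd.prod {ι : Type*} (s : Finset ι) {x : ι → Alg (Torus d)} {a : ℝ} (ha : 0 ≤ a)
    (h : ∀ i, Bd p (x i) a) : Bd p (∏ i ∈ s, x i) (a ^ s.card) := by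
  classical
  induction s using Finset.induction_on with
  | empty => simpa using Bd.one p
  | insert b s hb ih =>
    rw [Finset.prod_insert hb, Finset.card_insert_of_notMem hb, pow_succ']
    exact Bd.mul p ha (h b) ih

lemma Bd.E_sub_one (i : Fin d) (s : ℝ) : Bd p (E i s - 1) 2 := fun φ => by
  have := qn_E p i s φ
  rw [sub_app, one_app]
  unfold qn at *
  rw [map_sub]
  linarith [norm_sub_le (ContinuousMap.toLp p volume ℝ ((E i s).1 φ))
    (ContinuousMap.toLp p volume ℝ φ)]

end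

lemma qn_one (φ : C(Torus d, ℝ)) : qn 1 φ = ∫ x, |φ x| := by
  rw [qn, L1.norm_eq_integral_norm]
  refine integral_congr_ae ?_
  filter_upwards [ContinuousMap.coeFn_toLp (p := 1) (𝕜 := ℝ) volume φ] with x hx
  rw [hx, Real.norm_eq_abs]

lemma abs_le_qn_top (φ : C(Torus d, ℝ)) (x : Torus d) : |φ x| ≤ qn ∞ φ := by
  by_contra hc
  have ho : IsOpen {y | qn ∞ φ < |φ y|} := isOpen_lt continuous_const (by fun_prop)
  have h0 : volume {y | qn ∞ φ < |φ y|} = 0 := by
    have h1 := ae_le_eLpNormEssSup (f := φ) (μ := (volume : Measure (Torus d)))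
    have h2 : ∀ᵐ y, ¬ (qn ∞ φ < |φ y|) := by
      filter_upwards [h1] with y hy
      rw [not_lt, qn_eq, eLpNorm_exponent_top]
      have := ENNReal.toReal_mono (by
        simpa [eLpNorm_exponent_top] using eLpNorm_ne_top ∞ φ) hy
      simpa using this
    simpa [ae_iff] using h2
  exact (ho.measure_eq_zero_iff volume).1 h0 |>.subset (not_le.1 hc)

end Pool.Agent.Lib.MP_919f0c_an.Up
end

-- part Pool.Agent.Lib.MP_919f0c_an.UpAvg
section

/-! Steklov type averages, and the discrete versus continuous inequality in `L_1`. -/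

open MeasureTheory Filter Topology Pool.Agent.MixedBesov
open scoped Real ENNReal

namespace Pool.Agent.Lib.MP_919f0c_an.Up

variable {d : ℕ}

lemma one_sub_pow_eq {R : Type*} [CommRing R] [Algebra ℝ R] (x : R) (k : ℕ) :
    (1 - x) ^ k = ∑ m ∈ Finset.range (k + 1), ((-1 : ℝ) ^ m * (k.choose m : ℝ)) • x ^ m := by
  rw [sub_eq_add_neg, add_comm, add_pow]
  refine Finset.sum_congr rfl fun m _ => ?_
  rw [Algebra.smul_def, neg_pow x]
  simp only [one_pow, mul_one, map_mul, map_pow, map_neg, map_one, map_natCast]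
  ring

lemma sub_one_pow_eq {R : Type*} [CommRing R] [Algebra ℝ R] (x : R) (k : ℕ) :
    (x - 1) ^ k = ∑ m ∈ Finset.range (k + 1), ((-1 : ℝ) ^ (k - m) * (k.choose m : ℝ)) • x ^ m := by
  rw [sub_eq_add_neg, add_pow]
  refine Finset.sum_congr rfl fun m _ => ?_
  rw [Algebra.smul_def]
  simp only [map_mul, map_pow, map_neg, map_one, map_natCast]
  ring

/-- averaged difference of order `k` with steps in `[0, δ]` -/
noncomputable def D (k : ℕ) (i : Fin d) (δ : ℝ) : Alg (Torus d) :=
  ∑ m ∈ Finset.range (k + 1), ((-1 : ℝ) ^ m * (k.choose m : ℝ)) • A i (m * δ)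

/-- positive majorant of `1 - D` -/
noncomputable def Mp (k : ℕ) (i : Fin d) (δ : ℝ) : Alg (Torus d) :=
  ∑ m ∈ Finset.range k, (k.choose (m + 1) : ℝ) • A i (((m + 1 : ℕ) : ℝ) * δ)

lemma dom_M (k : ℕ) (i : Fin d) (δ : ℝ) : Dom (1 - D k i δ) (Mp k i δ) := by
  have : 1 - D k i δ = -∑ m ∈ Finset.range k,
      ((-1 : ℝ) ^ (m + 1) * (k.choose (m + 1) : ℝ)) • A i (((m + 1 : ℕ) : ℝ) * δ) := by
    rw [D, Finset.sum_range_succ']
    simp [A_zero]
  rw [this]
  refine Dom.neg (Dom.sum _ fun m _ => (dom_A i _).smul ?_)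
  simp [abs_mul]

lemma dom_Mp (k : ℕ) (i : Fin d) (δ : ℝ) : Dom (Mp k i δ) (Mp k i δ) :=
  Dom.sum _ fun m _ => (dom_A i _).smul (by simp)

lemma D_eq_integral (k : ℕ) (i : Fin d) (δ : ℝ) (f : C(Torus d, ℝ)) :
    (D k i δ).1 f = ∫ t in (0:ℝ)..1, ((1 - E i (t * δ)) ^ k).1 f := by
  have hc : ∀ m : ℕ, Continuous fun t : ℝ => sh (pt i (t * (m * δ))) f := fun m =>
    (continuous_sh f).comp ((continuous_pt i).comp (by fun_prop))
  have h1 : ∀ t : ℝ, ((1 - E i (t * δ)) ^ k).1 f = ∑ m ∈ Finset.range (k + 1),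
      ((-1 : ℝ) ^ m * (k.choose m : ℝ)) • sh (pt i (t * (m * δ))) f := by
    intro t
    rw [one_sub_pow_eq, sum_app]
    refine Finset.sum_congr rfl fun m _ => ?_
    rw [smul_app, E_pow, show (m : ℝ) * (t * δ) = t * (m * δ) by ring]
    rfl
  simp only [h1]
  rw [intervalIntegral.integral_finsetSum
    (f := fun (m : ℕ) (t : ℝ) => ((-1 : ℝ) ^ m * (k.choose m : ℝ)) • sh (pt i (t * (m * δ))) f)
    fun m _ => ((hc m).fun_const_smul _).intervalIntegrable _ _, D, sum_app]
  refine Finset.sum_congr rfl fun m _ => ?_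
  rw [intervalIntegral.integral_smul, smul_app]
  rfl

lemma continuous_diff (k : ℕ) (i : Fin d) (δ : ℝ) (f : C(Torus d, ℝ)) :
    Continuous fun t : ℝ => ((1 - E i (t * δ)) ^ k).1 f := by
  have hc : ∀ m : ℕ, Continuous fun t : ℝ => sh (pt i (t * (m * δ))) f := fun m =>
    (continuous_sh f).comp ((continuous_pt i).comp (by fun_prop))
  have h1 : ∀ t : ℝ, ((1 - E i (t * δ)) ^ k).1 f = ∑ m ∈ Finset.range (k + 1),
      ((-1 : ℝ) ^ m * (k.choose m : ℝ)) • sh (pt i (t * (m * δ))) f := by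
    intro t
    rw [one_sub_pow_eq, sum_app]
    refine Finset.sum_congr rfl fun m _ => ?_
    rw [smul_app, E_pow, show (m : ℝ) * (t * δ) = t * (m * δ) by ring]
    rfl
  simp only [h1]
  exact continuous_finsetSum _ fun m _ => (hc m).fun_const_smul _

section
variable (p : ℝ≥0∞) [Fact (1 ≤ p)]

/-- `y` is an average of differences of order `k` with steps at most `h` -/
def Avg (k : ℕ) (i : Fin d) (h : ℝ) (y : Alg (Torus d)) : Prop :=
  ∀ (x : Alg (Torus d)) (f : C(Torus d, ℝ)) (b : ℝ),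
    (∀ u : ℝ, |u| ≤ h → qn p ((x * (E i u - 1) ^ k).1 f) ≤ b) → qn p ((x * y).1 f) ≤ b

lemma avg_diff (k : ℕ) (i : Fin d) {h u : ℝ} (hu : |u| ≤ h) : Avg p k i h ((E i u - 1) ^ k) :=
  fun _ _ _ hb => hb u hu

lemma avg_D (k : ℕ) (i : Fin d) {h δ : ℝ} (h0 : 0 ≤ δ) (hδ : δ ≤ h) : Avg p k i h (D k i δ) := by
  intro x f b hb
  rw [mul_app, D_eq_integral, qn]
  have hi := (continuous_diff k i δ f).intervalIntegrable (μ := volume) 0 1
  have := ((ContinuousMap.toLp p volume ℝ).comp x.1).intervalIntegral_comp_comm hi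
  simp only [ContinuousLinearMap.comp_apply] at this
  rw [← this]
  have h2 := intervalIntegral.norm_integral_le_of_norm_le_const (a := 0) (b := 1)
    (f := fun t => ContinuousMap.toLp p volume ℝ (x.1 (((1 - E i (t * δ)) ^ k).1 f))) (C := b)
    (fun t ht => by
      rw [Set.uIoc_of_le zero_le_one] at ht
      have h3 := hb (t * δ) (by
        rw [abs_of_nonneg (mul_nonneg ht.1.le h0)]
        nlinarith [ht.1, ht.2])
      have h4 : (1 - E i (t * δ)) ^ k = ((-1 : ℝ) ^ k) • (E i (t * δ) - 1) ^ k := by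
        rw [Algebra.smul_def]
        simp only [map_pow, map_neg, map_one]
        rw [← mul_pow]; congr 1; ring
      rw [h4, smul_app, map_smul, map_smul, norm_smul]
      simpa [qn, mul_app] using h3)
  simpa using h2

/-- `b` bounds the closed mixed modulus of smoothness at the dyadic level `l` -/
def Mod (k : ℕ) (f : C(Torus d, ℝ)) (l : Fin d → ℕ) (b : ℝ) : Prop :=
  ∀ u : Fin d → ℝ, (∀ i, l i ≠ 0 → |u i| ≤ hh (l i)) →
    qn p ((∏ i, if l i = 0 then 1 else (E i (u i) - 1) ^ k).1 f) ≤ b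

lemma mod_prod {k : ℕ} {f : C(Torus d, ℝ)} {l : Fin d → ℕ} {b : ℝ} (hb : Mod p k f l b)
    (y : Fin d → Alg (Torus d))
    (hy : ∀ i, if l i = 0 then y i = 1 else Avg p k i (hh (l i)) (y i)) :
    qn p ((∏ i, y i).1 f) ≤ b := by
  have key : ∀ s : Finset (Fin d), ∀ u : Fin d → ℝ, (∀ i, l i ≠ 0 → |u i| ≤ hh (l i)) →
      qn p ((∏ i, if i ∈ s then y i else
        if l i = 0 then 1 else (E i (u i) - 1) ^ k).1 f) ≤ b := by
    intro s
    induction s using Finset.induction_on with
    | empty => simpa [Mod] using hb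
    | insert a s ha ih =>
      intro u hu
      have hsplit : ∀ (z : Fin d → Alg (Torus d)), ∏ i, z i =
          (∏ i ∈ Finset.univ.erase a, z i) * z a := fun z =>
        (Finset.prod_erase_mul _ _ (Finset.mem_univ a)).symm
      by_cases hl : l a = 0
      · have hya : y a = 1 := by simpa [hl] using hy a
        convert ih u hu using 4
        refine Finset.prod_congr rfl fun i _ => ?_
        by_cases hia : i = a
        · subst hia; simp [hya, hl]
        · simp [hia]
      · have hya : Avg p k a (hh (l a)) (y a) := by simpa [hl] using hy a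
        rw [hsplit]
        simp only [Finset.mem_insert, true_or, if_true]
        refine hya _ f b fun v hv => ?_
        have := ih (Function.update u a v) (fun i hi => by
          by_cases hia : i = a
          · subst hia; simpa using hv
          · rw [Function.update_of_ne hia]; exact hu i hi)
        rw [hsplit] at this
        simp only [ha, hl, if_false, Function.update_self] at this
        convert this using 5
        refine Finset.prod_congr rfl fun i hi => ?_
        have hia : i ≠ a := (Finset.mem_erase.1 hi).1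
        simp [hia, Function.update_of_ne hia]
  simpa using key Finset.univ (fun _ => 0) fun i _ => by simpa using (hh_pos _).le

end

lemma tendsto_hh : Tendsto hh atTop (𝓝 0) := by
  unfold hh
  exact tendsto_const_nhds.div_atTop (tendsto_pow_atTop_atTop_of_one_lt one_lt_two)

lemma tendsto_A (i : Fin d) {a : ℕ → ℝ} (ha : Tendsto a atTop (𝓝 0)) (φ : C(Torus d, ℝ)) :
    Tendsto (fun L => (A i (a L)).1 φ) atTop (𝓝 φ) := by
  have hc : Continuous fun a : ℝ => ∫ t in (0:ℝ)..1, sh (pt i (t * a)) φ := by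
    refine intervalIntegral.continuous_parametric_intervalIntegral_of_continuous' ?_ 0 1
    exact (continuous_sh φ).comp ((continuous_pt i).comp (by fun_prop))
  have := (hc.tendsto 0).comp ha
  have h0 : ∫ t in (0:ℝ)..1, sh (pt i (t * 0)) φ = φ := by
    have := congrArg (fun x : Alg (Torus d) => x.1 φ) (A_zero i)
    exact this
  rw [h0] at this
  exact this

lemma tendsto_M {k : ℕ} (hk : 0 < k) (i : Fin d) {a : ℕ → ℝ} (ha : Tendsto a atTop (𝓝 0))
    (φ : C(Torus d, ℝ)) : Tendsto (fun L => (1 - D k i (a L)).1 φ) atTop (𝓝 φ) := by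
  have h1 : Tendsto (fun L => (D k i (a L)).1 φ) atTop
      (𝓝 (∑ m ∈ Finset.range (k + 1), ((-1 : ℝ) ^ m * (k.choose m : ℝ)) • φ)) := by
    simp only [D, sum_app, smul_app]
    refine tendsto_finsetSum _ fun m _ => Tendsto.const_smul ?_ _
    exact tendsto_A i (by simpa using ha.const_mul (m : ℝ)) φ
  have h2 : ∑ m ∈ Finset.range (k + 1), ((-1 : ℝ) ^ m * (k.choose m : ℝ)) = 0 := by
    have := one_sub_pow_eq (1 : ℝ) k
    simpa [hk.ne'] using this.symm
  rw [← Finset.sum_smul, h2, zero_smul] at h1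
  simpa [sub_app] using h1.const_sub φ

/-- majorant of the interpolation stencils -/
noncomputable def St (k : ℕ) (i : Fin d) (j : ℕ) : Alg (Torus d) :=
  ∑ s ∈ Finset.range (2 * k + 1), (E i (hh j) + 1) ^ s

lemma dom_St (k : ℕ) (i : Fin d) (j : ℕ) : Dom (St k i j) (St k i j) :=
  Dom.sum _ fun s _ => ((dom_E i _).add Dom.one).pow s

/-- total weight of the majorant -/
noncomputable def cS (k : ℕ) : ℝ := ∑ s ∈ Finset.range (2 * k + 1), 2 ^ s

lemma cS_nonneg (k : ℕ) : 0 ≤ cS k := Finset.sum_nonneg fun _ _ => by positivity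

lemma St_mul_H (k : ℕ) (i : Fin d) (j : ℕ) : St k i j * H i = cS k • H i := by
  rw [St, Finset.sum_mul, cS, Finset.sum_smul]
  refine Finset.sum_congr rfl fun s hs => ?_
  clear hs
  induction s with
  | zero => simp
  | succ s ih =>
    rw [pow_succ, mul_assoc, add_mul, E_mul_H, one_mul, mul_add, ih, ← add_smul]
    congr 1; ring

lemma dom_GSM (k : ℕ) (i : Fin d) {j l m : ℕ} (hjl : j ≤ l) (hlm : l ≤ m) :
    Dom (Gr i (j - 1) * St k i j * Mp k i (hh (l + 1)))
      ((cS k * (k * 2 ^ k * k * 2) * 2 ^ m) • H i) := by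
  have h1 : Dom (Gr i (j - 1) * Mp k i (hh (l + 1))) ((k * 2 ^ k * k * 2 * 2 ^ m : ℝ) • H i) := by
    rw [Mp, Finset.mul_sum]
    have : ((k * 2 ^ k * k * 2 * 2 ^ m : ℝ) • H i) =
        ∑ _a ∈ Finset.range k, (2 ^ k : ℝ) • ((k * 2 * 2 ^ m : ℝ) • H i) := by
      rw [Finset.sum_const, Finset.card_range, ← Nat.cast_smul_eq_nsmul ℝ, smul_smul, smul_smul]
      congr 1; ring
    rw [this]
    refine Dom.sum _ fun a ha => ?_
    have hak : a + 1 ≤ k := Finset.mem_range.1 ha
    rw [mul_smul_comm]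
    have hp := hh_pos (l + 1)
    refine Dom.smul ?_ ?_
    · refine (dom_Gr_A i (j - 1) k (a := ((a + 1 : ℕ) : ℝ) * hh (l + 1)) (by positivity) ?_).trans
        ((dom_H i).smul ?_)
      · exact mul_le_mul (by exact_mod_cast hak) (hh_anti (by omega)) hp.le (by positivity)
      · rw [abs_of_nonneg (by positivity), div_le_iff₀ (by positivity)]
        have h2 : (2 : ℝ) ^ (l + 1) ≤ 2 * 2 ^ m := by
          rw [pow_succ']
          exact mul_le_mul_of_nonneg_left (pow_le_pow_right₀ one_le_two hlm) zero_le_two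
        have h3 : 2 * π = 2 ^ (l + 1) * hh (l + 1) := by unfold hh; field_simp
        have h4 : hh (l + 1) ≤ ((a + 1 : ℕ) : ℝ) * hh (l + 1) :=
          le_mul_of_one_le_left hp.le (by exact_mod_cast Nat.le_add_left 1 a)
        rw [h3]
        calc (k : ℝ) * (2 ^ (l + 1) * hh (l + 1)) ≤ k * ((2 * 2 ^ m) * (((a + 1 : ℕ) : ℝ) *
              hh (l + 1))) := by gcongr
          _ = _ := by ring
    · rw [abs_of_nonneg (by positivity)]
      exact_mod_cast Nat.choose_le_two_pow k (a + 1)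
  have := (dom_St k i j).mul h1
  rw [mul_smul_comm, St_mul_H, smul_smul] at this
  convert this using 1
  · ring
  · congr 1; ring

end Pool.Agent.Lib.MP_919f0c_an.Up
end

-- part Pool.Agent.Lib.MP_919f0c_an.UpDisc
section

/-! Discrete sums of mixed differences are controlled by `L_1` moduli of smoothness. -/

open MeasureTheory Filter Topology Pool.Agent.MixedBesov
open scoped Real ENNReal

namespace Pool.Agent.Lib.MP_919f0c_an.Up

variable {d : ℕ}

/-- difference operator of level `j` -/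
noncomputable def B (k : ℕ) (i : Fin d) (j : ℕ) : Alg (Torus d) :=
  if j = 0 then 1 else (E i (hh j) - 1) ^ k

/-- smoothing operator of level `l` -/
noncomputable def Ml (k : ℕ) (i : Fin d) (l : ℕ) : Alg (Torus d) := 1 - D k i (hh (l + 1))

/-- level of the smoothing factor -/
def lev (j : ℕ) (a : ℕ × Bool) : ℕ := if a.2 then j + a.1 else j + (a.1 - 1)

/-- smoothing factor -/
noncomputable def mm (k : ℕ) (i : Fin d) (j : ℕ) (a : ℕ × Bool) : Alg (Torus d) :=
  (if a.1 = 0 then (1 / 2 : ℝ) else if a.2 then 1 else -1) • Ml k i (lev j a)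

/-- bounded factor -/
noncomputable def bb (k : ℕ) (i : Fin d) (j : ℕ) (a : ℕ × Bool) : Alg (Torus d) :=
  if a.1 = 0 then 1 else B k i j

/-- difference factor -/
noncomputable def yy (k : ℕ) (i : Fin d) (j : ℕ) (a : ℕ × Bool) : Alg (Torus d) :=
  if a.1 = 0 then B k i j else if a.2 then D k i (hh (j + a.1)) else D k i (hh (j + a.1 + 1))

lemma tele (k : ℕ) (i : Fin d) (j L : ℕ) :
    B k i j * Ml k i (j + L) = ∑ a ∈ Finset.range (L + 1) ×ˢ (Finset.univ : Finset Bool),
      mm k i j a * (bb k i j a * yy k i j a) := by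
  rw [Finset.sum_product]
  induction L with
  | zero =>
    simp only [zero_add, Finset.range_one, Finset.sum_singleton, Fintype.univ_bool,
      Finset.mem_singleton, Bool.true_eq_false, not_false_eq_true, Finset.sum_insert, mm, bb, yy,
      lev, if_true, add_zero, Bool.false_eq_true, if_false, one_mul, Nat.zero_sub]
    rw [← add_mul, ← add_smul]; norm_num [mul_comm]
  | succ L ih =>
    rw [Finset.sum_range_succ, ← ih]
    simp only [Fintype.univ_bool,
      Finset.mem_singleton, Bool.true_eq_false, not_false_eq_true, Finset.sum_insert, mm, bb, yy,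
      lev, if_true, Bool.false_eq_true, if_false, Finset.sum_singleton, Nat.succ_ne_zero,
      Nat.add_sub_cancel, one_smul, neg_smul, Ml, ← add_assoc]
    ring

lemma dom_mm (k : ℕ) (i : Fin d) (j : ℕ) (a : ℕ × Bool) :
    Dom (mm k i j a) (Mp k i (hh (lev j a + 1))) := by
  have := (dom_M k i (hh (lev j a + 1))).smul
    (a := if a.1 = 0 then (1 / 2 : ℝ) else if a.2 then 1 else -1) (b := 1) (by
      split_ifs <;> norm_num [abs_of_nonneg])
  rwa [one_smul] at this

lemma bd_B (p : ℝ≥0∞) [Fact (1 ≤ p)] (k : ℕ) (i : Fin d) (j : ℕ) : Bd p (B k i j) (2 ^ k) := by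
  unfold B
  split_ifs
  · exact (Bd.one p).mono p (one_le_pow₀ one_le_two)
  · exact (Bd.E_sub_one p i _).pow p zero_le_two k

lemma bd_bb (p : ℝ≥0∞) [Fact (1 ≤ p)] (k : ℕ) (i : Fin d) (j : ℕ) (a : ℕ × Bool) :
    Bd p (bb k i j a) (2 ^ k) := by
  unfold bb
  split_ifs
  · exact (Bd.one p).mono p (one_le_pow₀ one_le_two)
  · exact bd_B p k i j

lemma avg_B (p : ℝ≥0∞) [Fact (1 ≤ p)] (k : ℕ) (i : Fin d) (j : ℕ) :
    if j = 0 then B k i j = 1 else Avg p k i (hh j) (B k i j) := by
  split_ifs with h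
  · simp [B, h]
  · rw [B, if_neg h]
    exact avg_diff p k i (by rw [abs_of_pos (hh_pos j)])

lemma avg_yy (p : ℝ≥0∞) [Fact (1 ≤ p)] (k : ℕ) (i : Fin d) (j : ℕ) (a : ℕ × Bool) :
    if j + a.1 = 0 then yy k i j a = 1 else Avg p k i (hh (j + a.1)) (yy k i j a) := by
  by_cases h : a.1 = 0
  · simpa [yy, h] using avg_B p k i j
  · rw [if_neg (by omega), yy, if_neg h]
    split_ifs
    · exact avg_D p k i (hh_pos _).le le_rfl
    · exact avg_D p k i (hh_pos _).le (hh_anti (by omega))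

/-- the positive operator giving the discrete norm -/
noncomputable def Gs (k : ℕ) (j : Fin d → ℕ) : Alg (Torus d) :=
  ∏ i, Gr i (j i - 1) * St k i (j i)

lemma dom_Gs (k : ℕ) (j : Fin d → ℕ) : Dom (Gs k j) (Gs k j) :=
  Dom.prod _ fun i _ => (dom_Gr i _).mul (dom_St k i _)

/-- constant of the discrete inequality -/
noncomputable def c1 (k d : ℕ) : ℝ :=
  (cS k * (k * 2 ^ k * k * 2)) ^ d * ((2 * π) ^ d)⁻¹ * (2 ^ k) ^ d

lemma c1_nonneg (k d : ℕ) : 0 ≤ c1 k d := by
  have := cS_nonneg k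
  unfold c1; positivity

lemma term_bound {k : ℕ} {f : C(Torus d, ℝ)} {β : (Fin d → ℕ) → ℝ}
    (hβ : ∀ l, Mod 1 k f l (β l)) (j : Fin d → ℕ) (a : Fin d → ℕ × Bool) :
    (Gs k j).1 ((∏ i, Mp k i (hh (lev (j i) (a i) + 1))).1
      |(∏ i, bb k i (j i) (a i) * yy k i (j i) (a i)).1 f|) 0 ≤
      c1 k d * 2 ^ (∑ i, (j i + (a i).1)) * β (fun i => j i + (a i).1) := by
  set g := (∏ i, bb k i (j i) (a i) * yy k i (j i) (a i)).1 f with hg
  have h1 : Dom (∏ i, Gr i (j i - 1) * St k i (j i) * Mp k i (hh (lev (j i) (a i) + 1)))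
      (∏ i, (cS k * (k * 2 ^ k * k * 2) * 2 ^ (j i + (a i).1)) • H i) :=
    Dom.prod _ fun i _ => dom_GSM k i (by unfold lev; split_ifs <;> omega)
      (by unfold lev; split_ifs <;> omega)
  have h2 := (le_abs_self _).trans (h1 |g| |g| (fun x => by simp) 0)
  rw [Finset.prod_mul_distrib, mul_app, Finset.prod_smul, smul_app, ContinuousMap.smul_apply,
    prod_H_apply, smul_eq_mul] at h2
  refine h2.trans ?_
  have h3 : ∫ y, |g| y ≤ (2 ^ k) ^ d * β (fun i => j i + (a i).1) := by
    have h4 := Bd.prod 1 Finset.univ (a := 2 ^ k) (by positivity)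
      (fun i => bd_bb 1 k i (j i) (a i)) ((∏ i, yy k i (j i) (a i)).1 f)
    have h5 := mod_prod 1 (hβ fun i => j i + (a i).1) (fun i => yy k i (j i) (a i))
      fun i => avg_yy 1 k i (j i) (a i)
    rw [← mul_app, ← Finset.prod_mul_distrib, ← hg, qn_one] at h4
    simp only [Finset.card_univ, Fintype.card_fin] at h4
    simp only [ContinuousMap.abs_apply]
    exact h4.trans (mul_le_mul_of_nonneg_left h5 (by positivity))
  rw [Finset.prod_mul_distrib, Finset.prod_const, Finset.prod_pow_eq_pow_sum, c1]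
  simp only [Finset.card_univ, Fintype.card_fin]
  have := cS_nonneg k
  calc _ ≤ (cS k * (k * 2 ^ k * k * 2)) ^ d * 2 ^ (∑ i, (j i + (a i).1)) *
        (((2 * π) ^ d)⁻¹ * ((2 ^ k) ^ d * β (fun i => j i + (a i).1))) := by gcongr
    _ = _ := by ring

lemma disc_bound {k : ℕ} {f : C(Torus d, ℝ)} {β : (Fin d → ℕ) → ℝ}
    (hβ : ∀ l, Mod 1 k f l (β l)) (j : Fin d → ℕ) (L : ℕ) :
    (Gs k j).1 |(∏ i, B k i (j i)).1 f| 0 ≤
      ‖(∏ i, B k i (j i)).1 f - (∏ i, B k i (j i) * Ml k i (j i + L)).1 f‖ * (Gs k j).1 1 0 +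
      ∑ u ∈ Fintype.piFinset (fun _ : Fin d => Finset.range (L + 1)),
        2 ^ d * c1 k d * 2 ^ (∑ i, (j i + u i)) * β (j + u) := by
  set g := (∏ i, B k i (j i)).1 f with hg
  set gL := (∏ i, B k i (j i) * Ml k i (j i + L)).1 f with hgL
  set T := Fintype.piFinset
    (fun _ : Fin d => Finset.range (L + 1) ×ˢ (Finset.univ : Finset Bool)) with hT
  set ψ : (Fin d → ℕ × Bool) → C(Torus d, ℝ) := fun a =>
    (∏ i, Mp k i (hh (lev (j i) (a i) + 1))).1
      |(∏ i, bb k i (j i) (a i) * yy k i (j i) (a i)).1 f| with hψ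
  have h1 : ∀ x, |gL x| ≤ ∑ a ∈ T, ψ a x := by
    intro x
    rw [hgL]
    simp only [tele]
    rw [Finset.prod_univ_sum, sum_app_apply]
    refine (Finset.abs_sum_le_sum_abs _ _).trans (Finset.sum_le_sum fun a _ => ?_)
    rw [Finset.prod_mul_distrib, mul_app]
    exact Dom.prod _ (fun i _ => dom_mm k i (j i) (a i)) _ _ (fun y => by simp) x
  have h2 : ∀ x, |(|g| : C(Torus d, ℝ)) x| ≤ (‖g - gL‖ • (1 : C(Torus d, ℝ)) + ∑ a ∈ T, ψ a) x := by
    intro x
    have h3 := (g - gL).norm_coe_le_norm x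
    simp only [ContinuousMap.sub_apply, Real.norm_eq_abs] at h3
    simp only [ContinuousMap.abs_apply, abs_abs, ContinuousMap.add_apply,
      ContinuousMap.smul_apply, ContinuousMap.one_apply, smul_eq_mul, mul_one,
      ContinuousMap.sum_apply]
    have := abs_add_le (g x - gL x) (gL x)
    rw [sub_add_cancel] at this
    linarith [h1 x]
  have h4 := (le_abs_self _).trans (dom_Gs k j _ _ h2 0)
  rw [map_add, map_smul, map_sum] at h4
  simp only [ContinuousMap.add_apply, ContinuousMap.smul_apply, smul_eq_mul,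
    ContinuousMap.sum_apply] at h4
  refine h4.trans (add_le_add le_rfl ?_)
  refine (Finset.sum_le_sum fun a _ => term_bound hβ j a).trans (le_of_eq ?_)
  have h5 : ∀ F : (Fin d → ℕ) → ℝ, ∑ a ∈ T, F (fun i => (a i).1) =
      ∑ u ∈ Fintype.piFinset (fun _ : Fin d => Finset.range (L + 1)), 2 ^ d * F u := by
    intro F
    have h6 : ∑ a ∈ T, F (fun i => (a i).1) =
        ∑ q ∈ Fintype.piFinset (fun _ : Fin d => Finset.range (L + 1)) ×ˢ
          (Finset.univ : Finset (Fin d → Bool)), F q.1 := by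
      refine Finset.sum_bij' (fun a _ => (fun i => (a i).1, fun i => (a i).2))
        (fun q _ => fun i => (q.1 i, q.2 i)) ?_ ?_ ?_ ?_ ?_
      · intro a ha
        simp only [hT, Fintype.mem_piFinset, Finset.mem_product] at ha ⊢
        exact ⟨fun i => (ha i).1, Finset.mem_univ _⟩
      · intro q hq
        simp only [hT, Fintype.mem_piFinset, Finset.mem_product] at hq ⊢
        exact fun i => ⟨hq.1 i, Finset.mem_univ _⟩
      · intro a _; rfl
      · intro q _; rfl
      · intro a _; rfl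
    rw [h6, Finset.sum_product]
    simp
  have := h5 fun u => c1 k d * 2 ^ (∑ i, (j i + u i)) * β (j + u)
  refine this.trans (Finset.sum_congr rfl fun u _ => by ring)

lemma disc_sum_bound {k : ℕ} (hk : 0 < k) {f : C(Torus d, ℝ)} {β : (Fin d → ℕ) → ℝ}
    (hβ : ∀ l, Mod 1 k f l (β l)) (S : Finset (Fin d → ℕ)) (w : (Fin d → ℕ) → ℝ)
    (hw : ∀ j, 0 ≤ w j) {b : ℝ}
    (hb : ∀ U : Finset (Fin d → ℕ), ∑ j ∈ S, ∑ u ∈ U,
      w j * (2 ^ d * c1 k d * 2 ^ (∑ i, (j i + u i)) * β (j + u)) ≤ b) :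
    ∑ j ∈ S, w j * (Gs k j).1 |(∏ i, B k i (j i)).1 f| 0 ≤ b := by
  have h1 : Tendsto (fun L => ∑ j ∈ S, w j *
      (‖(∏ i, B k i (j i)).1 f - (∏ i, B k i (j i) * Ml k i (j i + L)).1 f‖ * (Gs k j).1 1 0) + b)
      atTop (𝓝 (∑ j ∈ S, w j * (0 * (Gs k j).1 1 0) + b)) := by
    refine Tendsto.add_const _ (tendsto_finsetSum _ fun j _ =>
      Tendsto.const_mul _ (Tendsto.mul_const _ ?_))
    have := strong_prod Finset.univ (x := fun i L => B k i (j i) * Ml k i (j i + L))
      (x0 := fun i => B k i (j i)) (fun i φ => by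
        simp only [mul_app]
        refine ((B k i (j i)).1.continuous.tendsto φ).comp ?_
        exact tendsto_M hk i (tendsto_hh.comp (tendsto_atTop_mono (fun L => by
          show L ≤ j i + L + 1
          omega) tendsto_id)) φ) f
    rw [tendsto_iff_norm_sub_tendsto_zero] at this
    simpa only [norm_sub_rev] using this
  simp only [zero_mul, mul_zero, Finset.sum_const_zero, zero_add] at h1
  refine ge_of_tendsto' h1 fun L => ?_
  refine (Finset.sum_le_sum fun j _ => mul_le_mul_of_nonneg_left (disc_bound hβ j L) (hw j)).trans ?_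
  simp only [mul_add, Finset.sum_add_distrib, Finset.mul_sum]
  exact add_le_add le_rfl (by simpa only [Finset.sum_add_distrib] using hb _)

end Pool.Agent.Lib.MP_919f0c_an.Up
end

-- part Pool.Agent.Lib.MP_919f0c_an.UpInterp
section

/-! Local Lagrange interpolation stencils on dyadic grids. -/

open MeasureTheory Filter Topology Pool.Agent.MixedBesov Polynomial
open scoped Real ENNReal

namespace Pool.Agent.Lib.MP_919f0c_an.Up

variable {d : ℕ}

/-- Lagrange weights for the nodes `0, …, k-1` -/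
noncomputable def Lg (k ν : ℕ) (t : ℝ) : ℝ :=
  (Lagrange.basis (Finset.range k) (fun a : ℕ => (a : ℝ)) ν).eval t

lemma continuous_Lg (k ν : ℕ) : Continuous (Lg k ν) := Polynomial.continuous _

lemma Lg_repro {k : ℕ} (P : ℝ[X]) (hP : P.natDegree < k) (a b t : ℝ) :
    ∑ ν ∈ Finset.range k, Lg k ν t * P.eval (a + b * ν) = P.eval (a + b * t) := by
  set Q := P.comp (C a + C b * X) with hQ
  have h1 : Q.degree < (Finset.range k).card := by
    rw [Finset.card_range]
    refine lt_of_le_of_lt degree_le_natDegree ?_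
    have h2 : (C a + C b * X : ℝ[X]).natDegree ≤ 1 := by compute_degree
    have : Q.natDegree ≤ P.natDegree :=
      natDegree_comp_le.trans (by simpa using Nat.mul_le_mul_left P.natDegree h2)
    exact_mod_cast this.trans_lt hP
  have h3 := Lagrange.eq_interpolate (v := fun a : ℕ => (a : ℝ)) (s := Finset.range k)
    (Nat.cast_injective.injOn) h1
  have h4 := congrArg (eval t) h3
  rw [Lagrange.interpolate_apply, eval_finsetSum] at h4
  simp only [hQ, eval_comp, eval_add, eval_C, eval_mul, eval_X] at h4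
  rw [h4]
  exact Finset.sum_congr rfl fun ν _ => by rw [Lg, mul_comm]

lemma Lg_sum {k : ℕ} (hk : 0 < k) (t : ℝ) : ∑ ν ∈ Finset.range k, Lg k ν t = 1 := by
  simpa using Lg_repro (k := k) 1 (by simpa using hk) 0 0 t

lemma Lg_choose {k m : ℕ} (hm : m < k) : ∃ P : ℝ → ℝ, ∀ (a b : ℕ) (t : ℝ),
    ∑ ν ∈ Finset.range k, Lg k ν t * ((a + b * ν).choose m : ℝ) = P (a + b * t) := by
  refine ⟨fun t => (C (m.factorial : ℝ)⁻¹ * descPochhammer ℝ m).eval t, fun a b t => ?_⟩
  beta_reduce
  rw [← Lg_repro (k := k) _ ((natDegree_C_mul_le _ _).trans_lt (by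
    rwa [descPochhammer_natDegree])) a b t]
  refine Finset.sum_congr rfl fun ν _ => ?_
  congr 1
  have := descPochhammer_eval_eq_descFactorial ℝ (a + b * ν) m
  push_cast at this
  rw [eval_mul, eval_C, this, Nat.descFactorial_eq_factorial_mul_choose]
  push_cast
  field_simp

lemma Lg_bound (k : ℕ) : ∃ C : ℝ, 0 ≤ C ∧ ∀ ν < k, ∀ t ∈ Set.Icc (0:ℝ) 1, |Lg k ν t| ≤ C := by
  have h : ∀ ν, ∃ C : ℝ, ∀ t ∈ Set.Icc (0:ℝ) 1, |Lg k ν t| ≤ C := fun ν =>
    isCompact_Icc.exists_bound_of_continuousOn (continuous_Lg k ν).continuousOn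
  choose C hC using h
  have h0 : ∀ ν, 0 ≤ C ν := fun ν => (abs_nonneg _).trans (hC ν 0 (by simp))
  refine ⟨∑ ν ∈ Finset.range k, C ν, Finset.sum_nonneg fun ν _ => h0 ν, fun ν hν t ht => ?_⟩
  exact (hC ν t ht).trans (Finset.single_le_sum (fun ν _ => h0 ν) (Finset.mem_range.2 hν))

/-- a bound for the Lagrange weights on `[0,1]` -/
noncomputable def cL (k : ℕ) : ℝ := (Lg_bound k).choose

lemma cL_nonneg (k : ℕ) : 0 ≤ cL k := (Lg_bound k).choose_spec.1

lemma abs_Lg_le {k ν : ℕ} (hν : ν < k) (y : ℝ) : |Lg k ν (Int.fract y)| ≤ cL k :=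
  (Lg_bound k).choose_spec.2 ν hν _ ⟨Int.fract_nonneg y, (Int.fract_lt_one y).le⟩

/-- interpolation stencil of level `j` at the point `y` -/
noncomputable def Q (k : ℕ) (i : Fin d) (j : ℕ) (y : ℝ) : Alg (Torus d) :=
  ∑ ν ∈ Finset.range k, Lg k ν (Int.fract (y / hh j)) • E i (((⌊y / hh j⌋ : ℝ) + ν) * hh j)

/-- difference of consecutive stencils -/
noncomputable def R (k : ℕ) (i : Fin d) (j : ℕ) (y : ℝ) : Alg (Torus d) :=
  if j = 0 then Q k i 0 y else Q k i j y - Q k i (j - 1) y

lemma sum_R (k : ℕ) (i : Fin d) (L : ℕ) (y : ℝ) :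
    ∑ j ∈ Finset.range (L + 1), R k i j y = Q k i L y := by
  induction L with
  | zero => simp [R]
  | succ L ih => rw [Finset.sum_range_succ, ih]; simp [R]

lemma pow_expand {S : Type*} [CommRing S] [Algebra ℝ S] (x : S) {n N : ℕ} (h : n ≤ N) :
    x ^ n = ∑ m ∈ Finset.range (N + 1), (n.choose m : ℝ) • (x - 1) ^ m := by
  have h1 : x ^ n = ∑ m ∈ Finset.range (n + 1), (n.choose m : ℝ) • (x - 1) ^ m := by
    conv_lhs => rw [← sub_add_cancel x 1, add_pow]
    refine Finset.sum_congr rfl fun m _ => ?_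
    rw [Algebra.smul_def]; simp [mul_comm]
  rw [h1]
  refine Finset.sum_subset (Finset.range_mono (by omega)) fun m _ hm => ?_
  rw [Nat.choose_eq_zero_of_lt (by simpa using hm)]; simp

lemma dom_pow_St (k : ℕ) (i : Fin d) (j : ℕ) {s : ℕ} (hs : s ≤ 2 * k) :
    Dom ((E i (hh j) + 1) ^ s) (St k i j) := by
  have := Dom.sum_subset (s := {s}) (t := Finset.range (2 * k + 1))
    (y := fun s => (E i (hh j) + 1) ^ s) (by simp; omega)
    (fun s _ => ((dom_E i _).add Dom.one).pow s)
  rwa [Finset.sum_singleton] at this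

/-- constant of the stencil bound -/
noncomputable def c2 (k : ℕ) : ℝ := (2 * k + 1) * (2 * (k * (cL k * 2 ^ (2 * k))))

lemma c2_nonneg (k : ℕ) : 0 ≤ c2 k := by
  have := cL_nonneg k
  unfold c2; positivity

lemma R_struct (k : ℕ) (i : Fin d) (j : ℕ) (y : ℝ) : ∃ z : Alg (Torus d),
    R k i j y = E i (⌊y / hh (j - 1)⌋ * hh (j - 1)) * z * B k i j ∧ Dom z (c2 k • St k i j) := by
  have hc := cL_nonneg k
  rcases j with _ | j
  · refine ⟨∑ ν ∈ Finset.range k, Lg k ν (Int.fract (y / hh 0)) • E i (hh 0) ^ ν, ?_, ?_⟩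
    · simp only [R, B, if_true, mul_one, Q, Finset.mul_sum, mul_smul_comm, E_pow, E_mul,
        add_mul, Nat.zero_sub]
    · have h1 : Dom (∑ ν ∈ Finset.range k, Lg k ν (Int.fract (y / hh 0)) • E i (hh 0) ^ ν)
          (∑ _ν ∈ Finset.range k, cL k • St k i 0) := by
        refine Dom.sum _ fun ν hν => Dom.smul ?_ (abs_Lg_le (Finset.mem_range.1 hν) _)
        exact (((dom_E i _).add_right Dom.one).pow ν).trans
          (dom_pow_St k i 0 (by have := Finset.mem_range.1 hν; omega))
      rw [← Finset.sum_smul] at h1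
      refine h1.trans ((dom_St k i 0).smul ?_)
      rw [Finset.sum_const, Finset.card_range, nsmul_eq_mul, abs_of_nonneg (by positivity), c2]
      have h2 : (1 : ℝ) ≤ 2 ^ (2 * k) := one_le_pow₀ one_le_two
      have h3 : (k : ℝ) * cL k ≤ k * (cL k * 2 ^ (2 * k)) := by
        have := le_mul_of_one_le_right hc h2
        gcongr
      have h4 : 0 ≤ (k : ℝ) * (cL k * 2 ^ (2 * k)) := by positivity
      have h5 : (0 : ℝ) ≤ k := by positivity
      nlinarith
  · set t := Int.fract (y / hh j) with ht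
    set μ := ⌊y / hh j⌋ with hμ
    have hy : y / hh (j + 1) = 2 * t + (2 * μ : ℤ) := by
      have h1 : y / hh (j + 1) = 2 * (y / hh j) := by
        rw [hh_succ j]; have := hh_pos (j + 1); field_simp
      rw [h1, ht, hμ, Int.fract]; push_cast; ring
    have ht0 : 0 ≤ t := Int.fract_nonneg _
    have ht1 : t < 1 := Int.fract_lt_one _
    obtain ⟨ε, hε, hε1⟩ : ∃ ε : ℕ, ⌊2 * t⌋ = ε ∧ ε ≤ 1 := by
      have h1 : 0 ≤ ⌊2 * t⌋ := Int.floor_nonneg.2 (by linarith)
      have h2 : ⌊2 * t⌋ < 2 := Int.floor_lt.2 (by push_cast; linarith)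
      exact ⟨⌊2 * t⌋.toNat, by omega, by omega⟩
    have hfl : ⌊y / hh (j + 1)⌋ = ε + 2 * μ := by rw [hy, Int.floor_add_intCast, hε]
    set t' := Int.fract (y / hh (j + 1)) with ht'
    have hfr : t' = 2 * t - ε := by
      rw [ht', hy, Int.fract_add_intCast, Int.fract, hε]; simp
    set X := E i (hh (j + 1)) with hX
    set a : ℕ → ℝ := fun m => ∑ ν ∈ Finset.range k, Lg k ν t' * ((ε + 1 * ν).choose m : ℝ) -
      ∑ ν ∈ Finset.range k, Lg k ν t * ((0 + 2 * ν).choose m : ℝ) with ha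
    have ha0 : ∀ m < k, a m = 0 := by
      intro m hm
      obtain ⟨P, hP⟩ := Lg_choose hm
      simp only [ha, hP, hfr]
      rw [sub_eq_zero]; congr 1; push_cast; ring
    have hab : ∀ m, |a m| ≤ 2 * (k * (cL k * 2 ^ (2 * k))) := by
      intro m
      have h1 : ∀ (s : ℝ) (n : ℕ → ℕ), (∀ ν < k, n ν ≤ 2 * k) →
          |∑ ν ∈ Finset.range k, Lg k ν (Int.fract s) * ((n ν).choose m : ℝ)| ≤
            k * (cL k * 2 ^ (2 * k)) := by
        intro s n hn
        refine (Finset.abs_sum_le_sum_abs _ _).trans ?_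
        refine (Finset.sum_le_card_nsmul _ _ (cL k * 2 ^ (2 * k)) fun ν hν => ?_).trans (by simp)
        have hν := Finset.mem_range.1 hν
        rw [abs_mul, Nat.abs_cast]
        refine mul_le_mul (abs_Lg_le hν _) ?_ (by positivity) hc
        exact_mod_cast (Nat.choose_le_two_pow _ _).trans
          (Nat.pow_le_pow_right zero_lt_two (hn ν hν))
      have h2 := h1 (y / hh (j + 1)) (fun ν => ε + 1 * ν) fun ν hν => by omega
      have h3 := h1 (y / hh j) (fun ν => 0 + 2 * ν) fun ν hν => by omega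
      refine (abs_sub _ _).trans ?_
      linarith
    refine ⟨∑ m ∈ Finset.range (2 * k + 1), a m • (X - 1) ^ (m - k), ?_, ?_⟩
    · have h1 : (∑ m ∈ Finset.range (2 * k + 1), a m • (X - 1) ^ (m - k)) * (X - 1) ^ k =
          ∑ m ∈ Finset.range (2 * k + 1), a m • (X - 1) ^ m := by
        rw [Finset.sum_mul]
        refine Finset.sum_congr rfl fun m _ => ?_
        by_cases hm : m < k
        · simp [ha0 m hm]
        · rw [smul_mul_assoc, ← pow_add, Nat.sub_add_cancel (not_lt.1 hm)]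
      have h2 : ∀ (c : ℕ → ℝ) (n : ℕ → ℕ), (∀ ν < k, n ν ≤ 2 * k) →
          ∑ ν ∈ Finset.range k, c ν • X ^ n ν = ∑ m ∈ Finset.range (2 * k + 1),
            (∑ ν ∈ Finset.range k, c ν * ((n ν).choose m : ℝ)) • (X - 1) ^ m := by
        intro c n hn
        simp only [Finset.sum_smul]
        rw [Finset.sum_comm]
        refine Finset.sum_congr rfl fun ν hν => ?_
        rw [pow_expand X (hn ν (Finset.mem_range.1 hν)), Finset.smul_sum]
        simp only [smul_smul]
      simp only [R, B, Nat.succ_ne_zero, if_false, Nat.add_sub_cancel]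
      rw [mul_assoc, ← hX, h1]
      simp only [ha, sub_smul, Finset.sum_sub_distrib]
      rw [← h2 (fun ν => Lg k ν t') (fun ν => ε + 1 * ν) fun ν hν => by omega,
        ← h2 (fun ν => Lg k ν t) (fun ν => 0 + 2 * ν) fun ν hν => by omega, mul_sub, Q, Q]
      simp only [Finset.mul_sum, mul_smul_comm, hX, E_pow, E_mul, ← ht, ← ht', ← hμ, hfl]
      congr 1 <;> refine Finset.sum_congr rfl fun ν _ => ?_ <;> congr 2 <;>
        rw [hh_succ j] <;> push_cast <;> ring
    · have h1 : Dom (∑ m ∈ Finset.range (2 * k + 1), a m • (X - 1) ^ (m - k))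
          (∑ _m ∈ Finset.range (2 * k + 1), (2 * (k * (cL k * 2 ^ (2 * k)))) • St k i (j + 1)) := by
        refine Dom.sum _ fun m hm => Dom.smul ?_ (hab m)
        exact (((dom_E i _).sub Dom.one).pow _).trans
          (dom_pow_St k i (j + 1) (by have := Finset.mem_range.1 hm; omega))
      rw [← Finset.sum_smul, Finset.sum_const, Finset.card_range, nsmul_eq_mul] at h1
      convert h1 using 2
      unfold c2; push_cast; ring

lemma tendsto_Q {k : ℕ} (hk : 0 < k) (i : Fin d) (y : ℝ) (φ : C(Torus d, ℝ)) :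
    Tendsto (fun L => (Q k i L y).1 φ) atTop (𝓝 ((E i y).1 φ)) := by
  rw [tendsto_iff_norm_sub_tendsto_zero]
  have h1 : ∀ ν : ℕ, Tendsto (fun L => ‖(E i (((⌊y / hh L⌋ : ℝ) + ν) * hh L)).1 φ - (E i y).1 φ‖)
      atTop (𝓝 0) := by
    intro ν
    rw [← tendsto_iff_norm_sub_tendsto_zero]
    have hc : Continuous fun s : ℝ => (E i s).1 φ := (continuous_sh φ).comp (continuous_pt i)
    refine (hc.tendsto y).comp ?_
    have h2 : ∀ L, ((⌊y / hh L⌋ : ℝ) + ν) * hh L = y + (ν - Int.fract (y / hh L)) * hh L := by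
      intro L
      have := hh_pos L
      rw [Int.fract]; field_simp; ring
    simp only [h2]
    have h3 : Tendsto (fun L => (ν - Int.fract (y / hh L)) * hh L) atTop (𝓝 0) := by
      refine squeeze_zero_norm (a := fun L => (ν + 1) * hh L) (fun L => ?_)
        (by simpa using tendsto_hh.const_mul ((ν : ℝ) + 1))
      rw [norm_mul, Real.norm_eq_abs, Real.norm_eq_abs, abs_of_pos (hh_pos L)]
      refine mul_le_mul_of_nonneg_right ?_ (hh_pos L).le
      have h4 := Int.fract_nonneg (y / hh L)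
      have h5 := Int.fract_lt_one (y / hh L)
      have h6 : (0 : ℝ) ≤ ν := by positivity
      rw [abs_le]; constructor <;> linarith
    simpa using h3.const_add y
  refine squeeze_zero (fun _ => norm_nonneg _) (g := fun L => ∑ ν ∈ Finset.range k,
    cL k * ‖(E i (((⌊y / hh L⌋ : ℝ) + ν) * hh L)).1 φ - (E i y).1 φ‖) (fun L => ?_) ?_
  · have h2 : (Q k i L y).1 φ - (E i y).1 φ = ∑ ν ∈ Finset.range k,
        Lg k ν (Int.fract (y / hh L)) •
          ((E i (((⌊y / hh L⌋ : ℝ) + ν) * hh L)).1 φ - (E i y).1 φ) := by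
      simp only [smul_sub, Finset.sum_sub_distrib]
      rw [← Finset.sum_smul, Lg_sum hk, one_smul, Q, sum_app]
      rfl
    rw [h2]
    refine (norm_sum_le _ _).trans (Finset.sum_le_sum fun ν hν => ?_)
    rw [norm_smul]
    exact mul_le_mul_of_nonneg_right (abs_Lg_le (Finset.mem_range.1 hν) _) (norm_nonneg _)
  · simpa using tendsto_finsetSum (Finset.range k) fun ν _ => (h1 ν).const_mul (cL k)

end Pool.Agent.Lib.MP_919f0c_an.Up
end
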